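import Pool.Agent.Helper533.Deny.Defs
import Pool.Agent.Helper533.Polar.Final
open MeasureTheory Filter Topology Set
open scoped ENNReal NNReal RealInnerProductSpace

namespace Pool.Agent.Helper533.Polar

section


section SkelA
variable {n : ℕ} {p α β Cd θ Cs lam Cp : ℝ} {μ : Measure (Sp n)} {A : Sp n → Sp n → Sp n}
  {D : Set (Sp n)} {ρ ω u F : Sp n → ℝ} {W U : Sp n → Sp n}


theorem CObs.hsup [IsFiniteMeasureOnCompacts μ] (hp : 1 < p) (h : CObs A p μ D ρ ω W) :
    HSup A p μ D ω W := by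
  refine ⟨h.obs.h0, ?_⟩
  intro T TT hT hT0
  have h1 := h.obs.vi (fun x => ω x + T x) (fun x => W x + TT x)
    (H0.add hp.le h.obs.h0 hT) (by
      filter_upwards [h.obs.ge, hT0] with x hx1 hx2
      linarith)
  simpa only [add_sub_cancel_left] using h1

theorem exists_cobs [IsFiniteMeasureOnCompacts μ] (hp : 1 < p) (hα : 0 < α) (hβ : 0 < β)
    (hA : Op p α β μ A) (hadm : Adm p μ Cd θ Cs lam Cp) (hD : IsOpen D)
    (hDb : Bornology.IsBounded D) (hρ : Cc D ρ) (hρ0 : ∀ x, 0 ≤ ρ x) :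
    ∃ (ω : Sp n → ℝ) (W : Sp n → Sp n), CObs A p μ D ρ ω W := by
  classical
  obtain ⟨ω₀, W, h1, h2, h3⟩ := obstacle_exists hp hα hβ hA hadm hDb hρ
  have hobs : Obs A p μ D ρ ω₀ W := ⟨h1, h2, h3⟩
  obtain ⟨S, hS⟩ := hρ.comp.exists_bound_of_continuous hρ.cont
  have hS' : ∀ x, ρ x ≤ max S 0 := fun x =>
    ((le_abs_self _).trans (hS x)).trans (le_max_left _ _)
  have hle := Obs.le_const hp hα hβ hA hadm hDb hobs (le_max_right S 0) hS'
  have hosc := osc_small hp hα hβ hA hadm hD hobs hρ.cont hρ0 hle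
  obtain ⟨ω', hc, he⟩ := cont_rep hadm.pos hD ω₀ hosc
  set ω : Sp n → ℝ := fun x => if x ∈ D then ω' x else ω₀ x with hω
  have hωD : ∀ x ∈ D, ω x = ω' x := fun x hx => if_pos hx
  have hae : ω₀ =ᵐ[μ] ω := by
    filter_upwards [he] with x hx
    by_cases hxD : x ∈ D
    · rw [hωD x hxD, hx hxD]
    · rw [hω]; simp only [if_neg hxD]
  have hge : ∀ᵐ x ∂μ, ρ x ≤ ω x := by
    filter_upwards [h2, hae] with x hx1 hx2
    rw [← hx2]; exact hx1
  have hcont : ContinuousOn ω D := hc.congr hωD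
  refine ⟨ω, W, ⟨⟨h1.congr hae (Filter.EventuallyEq.refl _ _), hge, h3⟩, hcont, ?_⟩⟩
  have h4 := nonneg_of_ae hadm.pos hD (g := fun x => ω x - ρ x)
    (hcont.sub hρ.cont.continuousOn) (by
      filter_upwards [hge] with x hx _
      linarith)
  intro x hx
  have := h4 x hx

  linarith

theorem CObs.le_const [IsFiniteMeasureOnCompacts μ] (hp : 1 < p) (hα : 0 < α) (hβ : 0 < β)
    (hA : Op p α β μ A) (hadm : Adm p μ Cd θ Cs lam Cp) (hD : IsOpen D)
    (hDb : Bornology.IsBounded D) (h : CObs A p μ D ρ ω W) {M : ℝ} (hM : 0 ≤ M)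
    (hρ : ∀ x, ρ x ≤ M) : ∀ x ∈ D, ω x ≤ M := by
  have h1 := Obs.le_const hp hα hβ hA hadm hDb h.obs hM hρ
  have h4 := nonneg_of_ae hadm.pos hD (g := fun x => M - ω x)
    (continuousOn_const.sub h.cont) (by
      filter_upwards [h1] with x hx _
      linarith)
  intro x hx
  have := h4 x hx

  linarith

end SkelA


end

section


section SkelA
variable {n : ℕ} {p α β Cd θ Cs lam Cp : ℝ} {μ : Measure (Sp n)} {A : Sp n → Sp n → Sp n}
  {D : Set (Sp n)} {ρ ω u F : Sp n → ℝ} {W U : Sp n → Sp n}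


/-- comparison of an obstacle solution with a supersolution -/
theorem CObs.le_hsup [IsFiniteMeasureOnCompacts μ] (hp : 1 < p) (hα : 0 < α) (hβ : 0 < β)
    (hA : Op p α β μ A) (hS : SMono μ A) (hadm : Adm p μ Cd θ Cs lam Cp) (hD : IsOpen D)
    (hDb : Bornology.IsBounded D) (hρs : Cc D ρ) (h : CObs A p μ D ρ ω W) (hu : HSup A p μ D u U)
    (huc : ContinuousOn u D) {c : ℝ} (hc : 0 ≤ c) (hρ : ∀ x ∈ D, ρ x ≤ u x + c) :
    ∀ x ∈ D, ω x ≤ u x + c := by
  have hH : H0 p μ D (fun x => max ((ω x - u x) - c) 0)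
      (fun x => (if c < ω x - u x then (1:ℝ) else 0) • (W x - U x)) :=
    (H0.sub hp.le h.obs.h0 hu.h0).pos hp hc
  obtain ⟨T, hT⟩ : ∃ T : Sp n → ℝ, T = fun x => max ((ω x - u x) - c) 0 := ⟨_, rfl⟩
  obtain ⟨TT, hTT⟩ : ∃ TT : Sp n → Sp n,
      TT = fun x => (if c < ω x - u x then (1:ℝ) else 0) • (W x - U x) := ⟨_, rfl⟩
  rw [← hT, ← hTT] at hH
  have hTx : ∀ x, T x = max ((ω x - u x) - c) 0 := fun x => by rw [hT]
  have hTTx : ∀ x, TT x = (if c < ω x - u x then (1:ℝ) else 0) • (W x - U x) := fun x => by rw [hTT]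
  have hT0 : ∀ x, 0 ≤ T x := fun x => by rw [hTx]; exact le_max_right _ _
  have h1 : 0 ≤ ∫ x, ⟪A x (U x), TT x⟫ ∂μ := hu.test T TT hH (ae_of_all _ hT0)
  have hv : H0 p μ D (fun x => ω x - T x) (fun x => W x - TT x) := H0.sub hp.le h.obs.h0 hH
  have hz1 := h.obs.h0.zero_outside hp
  have hz2 := hu.h0.zero_outside hp
  have hge : ∀ᵐ x ∂μ, ρ x ≤ ω x - T x := by
    filter_upwards [hz1, hz2] with x hx1 hx2
    by_cases hxD : x ∈ D
    · have a1 := h.ge x hxD
      have a2 := hρ x hxD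
      rw [hTx]
      rcases le_total (ω x - u x - c) 0 with hle | hle
      · rw [max_eq_right hle]; linarith
      · rw [max_eq_left hle]; linarith
    · have b1 := (hx1 hxD).1
      have b2 := (hx2 hxD).1
      have b3 : ρ x = 0 := zero_of_notMem (fun hmem => hxD (hρs.supp hmem))
      rw [hTx, b1, b2, b3, max_eq_right (by linarith)]; norm_num
  have h2 : 0 ≤ ∫ x, ⟪A x (W x), (W x - TT x) - W x⟫ ∂μ := h.obs.vi _ _ hv hge
  have iU : Integrable (fun x => ⟪A x (U x), TT x⟫) μ := int_inner hp hA hu.h0.mU hH.mU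
  have iW : Integrable (fun x => ⟪A x (W x), TT x⟫) μ := int_inner hp hA h.obs.h0.mU hH.mU
  have h2' : ∫ x, ⟪A x (W x), TT x⟫ ∂μ ≤ 0 := by
    have e : ∀ x, ⟪A x (W x), (W x - TT x) - W x⟫ = - ⟪A x (W x), TT x⟫ := by
      intro x; rw [sub_sub_cancel_left, inner_neg_right]
    simp only [e, integral_neg] at h2
    linarith
  have h3 : ∫ x, (⟪A x (W x), TT x⟫ - ⟪A x (U x), TT x⟫) ∂μ ≤ 0 := by
    rw [integral_sub iW iU]; linarith
  have h4 : ∀ᵐ x ∂μ, 0 ≤ ⟪A x (W x), TT x⟫ - ⟪A x (U x), TT x⟫ := by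
    filter_upwards [hA.mono] with x hx
    rw [← inner_sub_left, hTTx]
    split_ifs
    · rw [one_smul]; exact hx _ _
    · simp
  have h5 : (fun x => ⟪A x (W x), TT x⟫ - ⟪A x (U x), TT x⟫) =ᵐ[μ] 0 := by
    rw [← integral_eq_zero_iff_of_nonneg_ae h4 (iW.sub iU)]
    exact le_antisymm h3 (integral_nonneg_of_ae h4)
  have h6 : TT =ᵐ[μ] fun _ => (0 : Sp n) := by
    filter_upwards [h5, hS] with x hx hsx
    have hx' : ⟪A x (W x) - A x (U x), TT x⟫ = 0 := by
      rw [inner_sub_left]; exact hx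
    rw [hTTx] at hx' ⊢
    split_ifs at hx' ⊢ with hif
    · rw [one_smul] at hx' ⊢
      by_contra hne
      have := hsx (W x) (U x) (fun e => hne (by rw [e, sub_self]))
      linarith
    · simp
  obtain ⟨C, hC, hF⟩ := friedrichs hp hadm hDb
  have h7 := hF T TT hH
  rw [eLpNorm_congr_ae h6, eLpNorm_zero', mul_zero] at h7
  have hp0 : ENNReal.ofReal p ≠ 0 := by
    rw [Ne, ENNReal.ofReal_eq_zero, not_le]; linarith
  have h8 : T =ᵐ[μ] 0 := (eLpNorm_eq_zero_iff hH.mu.1 hp0).1 (le_antisymm h7 bot_le)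
  have h9 : ∀ x ∈ D, 0 ≤ u x + c - ω x := by
    refine nonneg_of_ae hadm.pos hD (g := fun x => u x + c - ω x)
      ((huc.add continuousOn_const).sub h.cont) ?_
    filter_upwards [h8] with x hx _
    have e1 := le_max_left (ω x - u x - c) 0
    have e2 : T x = 0 := hx
    rw [hTx] at e2
    rw [e2] at e1
    linarith
  intro x hx
  have := h9 x hx
  linarith

end SkelA


end

section


section SkelA
variable {n : ℕ} {p α β Cd θ Cs lam Cp : ℝ} {μ : Measure (Sp n)} {A : Sp n → Sp n → Sp n}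
  {D : Set (Sp n)} {ρ ω u F : Sp n → ℝ} {W U : Sp n → Sp n}


/-- comparison outside a compact set -/
theorem CObs.le_hsup_out [IsFiniteMeasureOnCompacts μ] (hp : 1 < p) (hα : 0 < α) (hβ : 0 < β)
    (hA : Op p α β μ A) (hS : SMono μ A) (hadm : Adm p μ Cd θ Cs lam Cp) (hD : IsOpen D)
    (hDb : Bornology.IsBounded D) (hρs : Cc D ρ) (h : CObs A p μ D ρ ω W) (hu : HSup A p μ D u U)
    (huc : ContinuousOn u D) {c : ℝ} (hc : 0 ≤ c) {K : Set (Sp n)} (hK : IsCompact K) (hKD : K ⊆ D)
    (hfr : ∀ x ∈ frontier K, ω x < u x + c) (hρ : ∀ x ∈ D, x ∉ K → ρ x ≤ u x + c) :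
    ∀ x ∈ D, x ∉ K → ω x ≤ u x + c := by
  have hp1 : 1 ≤ p := hp.le
  have hp0 : ENNReal.ofReal p ≠ 0 := by
    rw [Ne, ENNReal.ofReal_eq_zero, not_le]; linarith
  have hKcl : IsClosed K := hK.isClosed
  have hgc : ContinuousOn (fun x => ω x - u x - c) D := (h.cont.sub huc).sub continuousOn_const
  set N : Set (Sp n) := D ∩ (fun x => ω x - u x - c) ⁻¹' (Iio 0) with hN
  have hNo : IsOpen N := hgc.isOpen_inter_preimage hD isOpen_Iio
  have hfrN : frontier K ⊆ N := by
    intro x hx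
    have hxK : x ∈ K := hKcl.frontier_subset hx
    refine ⟨hKD hxK, ?_⟩
    have := hfr x hx
    show ω x - u x - c < 0
    linarith
  have hKN : K \ N ⊆ interior K := by
    rintro x ⟨hxK, hxN⟩
    by_contra hn
    apply hxN
    apply hfrN
    rw [frontier, hKcl.closure_eq]
    exact ⟨hxK, hn⟩
  obtain ⟨η, hη, hη01, O, hO, hKO, hOK, hη1⟩ := exists_cutoff (hK.diff hNo) isOpen_interior hKN
  have hηK : tsupport η ⊆ K := hη.supp.trans interior_subset
  set P : Sp n → ℝ := fun x => max (ω x - u x - c) 0 with hP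
  set PP : Sp n → Sp n := fun x => (if c < ω x - u x then (1 : ℝ) else 0) • (W x - U x) with hPP
  have hPH : H0 p μ D P PP := (h.obs.h0.sub hp1 hu.h0).pos hp hc
  have hηP := (hPH.mul_Cc hp hη).mono (inter_subset_left : D ∩ interior K ⊆ D)
  have hT0 := hPH.sub hp1 hηP
  have hPg : ∀ x, P x • gradient η x = 0 := by
    intro x
    by_cases hxK : x ∈ K
    · by_cases hxN : x ∈ N
      · have : P x = 0 := by
          have h1 : ω x - u x - c < 0 := hxN.2
          simp only [hP]
          exact max_eq_right h1.le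
        rw [this, zero_smul]
      · have : gradient η x = 0 := grad_zero_of_const_on hO hη1 (hKO ⟨hxK, hxN⟩)
        rw [this, smul_zero]
    · have : gradient η x = 0 := grad_zero_of_notMem fun h' => hxK (hηK h')
      rw [this, smul_zero]
  set T : Sp n → ℝ := fun x => (1 - η x) * P x with hT
  set TT : Sp n → Sp n := fun x => (1 - η x) • PP x with hTT
  have hTH : H0 p μ D T TT := by
    apply hT0.congr
    · refine Eventually.of_forall fun x => ?_
      simp only [hT]
      ring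
    · refine Eventually.of_forall fun x => ?_
      simp only [hTT]
      rw [hPg x, add_zero, sub_smul, one_smul]
  have hP0 : ∀ x, 0 ≤ P x := fun x => le_max_right _ _
  have hTnn : ∀ x, 0 ≤ T x := fun x => mul_nonneg (sub_nonneg.2 (hη01 x).2) (hP0 x)
  have hTK : ∀ x ∈ K, T x = 0 := by
    intro x hxK
    simp only [hT]
    by_cases hxN : x ∈ N
    · have : P x = 0 := by
        have h1 : ω x - u x - c < 0 := hxN.2
        simp only [hP]
        exact max_eq_right h1.le
      rw [this, mul_zero]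
    · rw [hη1 x (hKO ⟨hxK, hxN⟩), sub_self, zero_mul]
  have hTout : ∀ x, x ∉ K → T x = P x := by
    intro x hxK
    have : η x = 0 := zero_of_notMem fun h' => hxK (hηK h')
    simp only [hT]
    rw [this, sub_zero, one_mul]
  -- the competitor
  have hv := h.obs.h0.sub hp1 hTH
  have hvρ : ∀ᵐ x ∂μ, ρ x ≤ ω x - T x := by
    filter_upwards [h.obs.ge, h.obs.h0.zero_outside hp, hu.h0.zero_outside hp] with x hx1 hx2 hx3
    by_cases hxK : x ∈ K
    · rw [hTK x hxK, sub_zero]; exact hx1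
    · rw [hTout x hxK]
      by_cases hxD : x ∈ D
      · have h1 := hρ x hxD hxK
        simp only [hP]
        rcases le_total (ω x - u x - c) 0 with h2 | h2
        · rw [max_eq_right h2, sub_zero]; exact hx1
        · rw [max_eq_left h2]; linarith
      · have h1 := (hx2 hxD).1
        have h2 := (hx3 hxD).1
        have h3 : P x = 0 := by
          simp only [hP]
          rw [h1, h2]
          apply max_eq_right
          linarith
        rw [h3, sub_zero]; exact hx1
  have hvi := h.obs.vi _ _ hv hvρ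
  have htest := hu.test T TT hTH (Eventually.of_forall hTnn)
  have hiW := int_inner hp hA h.obs.h0.mU hTH.mU
  have hiU := int_inner hp hA hu.h0.mU hTH.mU
  have e1 : ∫ x, ⟪A x (W x), (W x - TT x) - W x⟫ ∂μ = -∫ x, ⟪A x (W x), TT x⟫ ∂μ := by
    rw [← integral_neg]
    apply integral_congr_ae
    refine Eventually.of_forall fun x => ?_
    show ⟪A x (W x), (W x - TT x) - W x⟫ = -⟪A x (W x), TT x⟫
    rw [← inner_neg_right]
    congr 1
    abel
  rw [e1] at hvi
  set f : Sp n → ℝ := fun x => ⟪A x (W x), TT x⟫ - ⟪A x (U x), TT x⟫ with hf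
  have hfi : Integrable f μ := hiW.sub hiU
  have hfint : ∫ x, f x ∂μ ≤ 0 := by
    rw [hf, integral_sub hiW hiU]
    linarith
  have hfeq : ∀ x, f x = ((1 - η x) * (if c < ω x - u x then (1 : ℝ) else 0)) *
      ⟪A x (W x) - A x (U x), W x - U x⟫ := by
    intro x
    simp only [hf, hTT, hPP]
    rw [← inner_sub_left, inner_smul_right, inner_smul_right, mul_assoc]
  have hcoef : ∀ x, 0 ≤ (1 - η x) * (if c < ω x - u x then (1 : ℝ) else 0) := by
    intro x
    apply mul_nonneg (sub_nonneg.2 (hη01 x).2)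
    split_ifs <;> norm_num
  have hfnn : 0 ≤ᵐ[μ] f := by
    filter_upwards [hA.mono] with x hx
    rw [hfeq x]
    exact mul_nonneg (hcoef x) (hx _ _)
  have hfint0 : ∫ x, f x ∂μ = 0 := le_antisymm hfint (integral_nonneg_of_ae hfnn)
  have hf0 : f =ᵐ[μ] 0 := (integral_eq_zero_iff_of_nonneg_ae hfnn hfi).1 hfint0
  have hTT0 : TT =ᵐ[μ] 0 := by
    filter_upwards [hf0, hS] with x hx1 hx2
    have hx1' : f x = 0 := hx1
    rw [hfeq x] at hx1'
    show (1 - η x) • ((if c < ω x - u x then (1 : ℝ) else 0) • (W x - U x)) = 0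
    rw [smul_smul]
    by_cases hWU : W x = U x
    · rw [hWU, sub_self, smul_zero]
    · have h1 := hx2 (W x) (U x) hWU
      have h2 := (mul_eq_zero.1 hx1').resolve_right h1.ne'
      rw [h2, zero_smul]
  obtain ⟨C, hC, hfr'⟩ := friedrichs hp hadm hDb
  have hTn : eLpNorm T (ENNReal.ofReal p) μ = 0 := by
    have h1 := hfr' T TT hTH
    rw [eLpNorm_congr_ae hTT0] at h1
    have h2 : eLpNorm (0 : Sp n → Sp n) (ENNReal.ofReal p) μ = 0 := eLpNorm_zero
    rw [h2, mul_zero] at h1
    exact le_antisymm h1 bot_le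
  have hTae : T =ᵐ[μ] 0 := (eLpNorm_eq_zero_iff hTH.mu.1 hp0).1 hTn
  have hopen : IsOpen (D ∩ Kᶜ) := hD.inter hKcl.isOpen_compl
  have hfin := nonneg_of_ae hadm.pos hopen (g := fun x => u x + c - ω x)
    (((huc.add continuousOn_const).sub h.cont).mono inter_subset_left) (by
      filter_upwards [hTae] with x hx hxO
      have h1 : T x = 0 := hx
      rw [hTout x hxO.2] at h1
      have h2 : ω x - u x - c ≤ P x := le_max_left _ _
      linarith)
  intro x hxD hxK
  have := hfin x ⟨hxD, hxK⟩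
  linarith

end SkelA


end

section


section SkelA
variable {n : ℕ} {p α β Cd θ Cs lam Cp : ℝ} {μ : Measure (Sp n)} {A : Sp n → Sp n → Sp n}
  {D : Set (Sp n)} {ρ ω u F : Sp n → ℝ} {W U : Sp n → Sp n}


/-- continuous weak supersolutions have the comparison property -/
theorem cmp_of_sup [IsFiniteMeasureOnCompacts μ] (hp : 1 < p) (hα : 0 < α) (hβ : 0 < β)
    (hA : Op p α β μ A) (hS : SMono μ A) (hadm : Adm p μ Cd θ Cs lam Cp) (hD : IsOpen D)
    (hu : Sup A p μ D u U) (huc : ContinuousOn u D) : CmpSuper A p μ D u := by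
  intro G hG hGc hGD h H hhc hh heq hfr x₀ hx₀
  suffices key : ∀ e : ℝ, 0 < e → ∀ x ∈ G, 0 ≤ u x + e - h x by
    refine le_of_forall_pos_le_add fun e he => ?_
    have := key e he x₀ hx₀
    linarith
  intro e he
  have huc' : ContinuousOn u (closure G) := huc.mono hGD
  obtain ⟨K, hK⟩ : ∃ K : Set (Sp n), K = closure G ∩ (fun x => h x - u x) ⁻¹' (Set.Ici e) := ⟨_, rfl⟩
  have hcl : IsClosed K := by
    rw [hK]
    exact (hhc.sub huc').preimage_isClosed_of_isClosed isClosed_closure isClosed_Ici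
  have hKc : IsCompact K := by
    refine hGc.of_isClosed_subset hcl ?_
    rw [hK]; exact Set.inter_subset_left
  have hKmem : ∀ x, x ∈ K ↔ x ∈ closure G ∧ e ≤ h x - u x := by
    intro x; rw [hK]; exact Iff.rfl
  have hKG : K ⊆ G := by
    intro x hx
    by_contra hxG
    have hx' := (hKmem x).mp hx
    have hxf : x ∈ frontier G := by
      rw [hG.frontier_eq]; exact ⟨hx'.1, hxG⟩
    have := hfr x hxf
    have := hx'.2
    linarith
  have hGD' : G ⊆ D := subset_closure.trans hGD
  have huG : LH p μ G u U := hu.1.mono hGD' hp hG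
  have hpd := LH.pos_diff hp hG huG hh he
  obtain ⟨T, hTdef⟩ : ∃ T : Sp n → ℝ, T = K.indicator (fun x => max (h x - u x - e) 0) := ⟨_, rfl⟩
  obtain ⟨TT, hTTdef⟩ : ∃ TT : Sp n → Sp n, TT = K.indicator
    (fun x => (if e < h x - u x then (1:ℝ) else 0) • (H x - U x)) := ⟨_, rfl⟩
  have hT0 : ∀ x, x ∉ K → T x = 0 := by
    intro x hx; rw [hTdef]; exact Set.indicator_of_notMem hx _
  have hTT0 : ∀ x, x ∉ K → TT x = 0 := by
    intro x hx; rw [hTTdef]; exact Set.indicator_of_notMem hx _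
  have hT1 : ∀ x, x ∈ K → T x = max (h x - u x - e) 0 := by
    intro x hx; rw [hTdef]; exact Set.indicator_of_mem hx _
  have hTT1 : ∀ x, x ∈ K → TT x = (if e < h x - u x then (1:ℝ) else 0) • (H x - U x) := by
    intro x hx; rw [hTTdef]; exact Set.indicator_of_mem hx _
  have hoff : ∀ x ∈ G, x ∉ K → h x - u x < e := by
    intro x hx hxK
    by_contra hc
    exact hxK ((hKmem x).mpr ⟨subset_closure hx, not_lt.mp hc⟩)
  have hT : LH p μ G T TT := by
    refine hpd.congr (Eventually.of_forall fun x hx => ?_) (Eventually.of_forall fun x hx => ?_)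
    · by_cases hxK : x ∈ K
      · rw [hT1 x hxK]
      · rw [hT0 x hxK]
        exact max_eq_right (by linarith [hoff x hx hxK])
    · by_cases hxK : x ∈ K
      · rw [hTT1 x hxK]
      · rw [hTT0 x hxK]
        rw [if_neg (by linarith [hoff x hx hxK]), zero_smul]
  have hTnn : ∀ x, 0 ≤ T x := by
    intro x
    by_cases hxK : x ∈ K
    · rw [hT1 x hxK]; exact le_max_right _ _
    · rw [hT0 x hxK]
  have hTzero : ∀ x, T x = 0 → TT x = 0 := by
    intro x hx
    by_cases hxK : x ∈ K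
    · rw [hT1 x hxK] at hx
      have h1 : h x - u x - e ≤ 0 := by
        have := le_max_left (h x - u x - e) 0
        rw [hx] at this
        exact this
      rw [hTT1 x hxK, if_neg (by linarith), zero_smul]
    · exact hTT0 x hxK
  have hsup : Sup A p μ G u U := Sup.mono_set hp hu hG hGD'
  have hsub : Sub A p μ G h H := ⟨hh, fun φ hφ _ => (heq φ hφ).le⟩
  have h1 := Sup.test hp hA hsup hT hG hKc hKG (Eventually.of_forall hTnn)
    (Eventually.of_forall hT0) (Eventually.of_forall hTzero)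
  have h2 := Sub.test hp hA hsub hT hG hKc hKG (Eventually.of_forall hTnn)
    (Eventually.of_forall hT0) (Eventually.of_forall hTzero)
  have hH0 : H0 p μ G T TT := hT.toH0 hG hKc hKG (Eventually.of_forall hT0)
    (Eventually.of_forall hTT0)
  have i1 := integrable_flux hp hA huG hG hKc hKG hH0.mU (Eventually.of_forall hTT0)
  have i2 := integrable_flux hp hA hh hG hKc hKG hH0.mU (Eventually.of_forall hTT0)
  have hnn : ∀ᵐ x ∂μ, 0 ≤ ⟪A x (H x), TT x⟫ - ⟪A x (U x), TT x⟫ := by
    filter_upwards [hA.mono] with x hx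
    rw [← inner_sub_left]
    by_cases hxK : x ∈ K
    · rw [hTT1 x hxK]
      by_cases hc : e < h x - u x
      · rw [if_pos hc, one_smul]; exact hx _ _
      · rw [if_neg hc, zero_smul, inner_zero_right]
    · rw [hTT0 x hxK, inner_zero_right]
  have hint : ∫ x, (⟪A x (H x), TT x⟫ - ⟪A x (U x), TT x⟫) ∂μ = 0 := by
    apply le_antisymm
    · rw [integral_sub i2 i1]; linarith
    · exact integral_nonneg_of_ae hnn
  have hae := (integral_eq_zero_iff_of_nonneg_ae hnn (i2.sub i1)).mp hint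
  have hTTae : TT =ᵐ[μ] 0 := by
    filter_upwards [hae, hS] with x hx hSx
    by_contra hne
    have hxK : x ∈ K := by
      by_contra hxK; exact hne (hTT0 x hxK)
    have hc : e < h x - u x := by
      by_contra hc
      apply hne
      rw [hTT1 x hxK, if_neg hc, zero_smul]
      rfl
    have hTTx : TT x = H x - U x := by
      rw [hTT1 x hxK, if_pos hc, one_smul]
    have hne' : H x ≠ U x := by
      intro heq'
      apply hne
      rw [hTTx, heq', sub_self]
      rfl
    have h3 := hSx (H x) (U x) hne'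
    have h4 : ⟪A x (H x), TT x⟫ - ⟪A x (U x), TT x⟫ = 0 := hx
    rw [← inner_sub_left, hTTx] at h4
    linarith
  obtain ⟨C, hC, hfr'⟩ := friedrichs hp hadm (hGc.isBounded.subset (subset_closure (s := G)))
  have h5 := hfr' T TT hH0
  have h6 : eLpNorm TT (ENNReal.ofReal p) μ = 0 := by
    rw [eLpNorm_congr_ae hTTae]
    exact eLpNorm_zero
  rw [h6, mul_zero] at h5
  have h7 : eLpNorm T (ENNReal.ofReal p) μ = 0 := le_antisymm h5 (zero_le)
  have hp0 : ENNReal.ofReal p ≠ 0 := by
    rw [Ne, ENNReal.ofReal_eq_zero]; linarith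
  have h8 := (eLpNorm_eq_zero_iff hH0.mu.1 hp0).mp h7
  refine nonneg_of_ae hadm.pos hG ?_ ?_
  · exact ((huc.mono hGD').add continuousOn_const).sub (hhc.mono subset_closure)
  · filter_upwards [h8] with x hx hxG
    by_cases hxK : x ∈ K
    · have h9 : T x = 0 := hx
      rw [hT1 x hxK] at h9
      have := le_max_left (h x - u x - e) 0
      rw [h9] at this
      linarith
    · have := hoff x hxG hxK
      linarith


end SkelA


end

section


section SkelA
variable {n : ℕ} {p α β Cd θ Cs lam Cp : ℝ} {μ : Measure (Sp n)} {A : Sp n → Sp n → Sp n}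
  {D : Set (Sp n)} {ρ ω u F : Sp n → ℝ} {W U : Sp n → Sp n}


/-- comparison of an obstacle solution with a function having the comparison property -/
theorem CObs.le_cmp [IsFiniteMeasureOnCompacts μ] (hp : 1 < p) (hα : 0 < α) (hβ : 0 < β)
    (hA : Op p α β μ A) (hadm : Adm p μ Cd θ Cs lam Cp) (hD : IsOpen D) (hρs : Cc D ρ)
    (h : CObs A p μ D ρ ω W) (hF : CmpSuper A p μ D F) (hρ : ∀ x ∈ D, ρ x ≤ F x)
    {K : Set (Sp n)} (hK : IsCompact K) (hKD : K ⊆ D) (hout : ∀ x ∈ D, x ∉ K → ω x ≤ F x) :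
    ∀ x ∈ D, ω x ≤ F x := by
  obtain ⟨O, hO, hKO, hOD, hOc⟩ := exists_open_between_and_isCompact_closure hK hD hKD
  have hOD' : O ⊆ D := subset_closure.trans hOD
  have hcont : ContinuousOn (fun x => ω x - ρ x) D := h.cont.sub hρs.cont.continuousOn
  have hG : IsOpen (O ∩ (fun x => ω x - ρ x) ⁻¹' Ioi 0) :=
    (hcont.mono hOD').isOpen_inter_preimage hO isOpen_Ioi
  set G : Set (Sp n) := O ∩ (fun x => ω x - ρ x) ⁻¹' Ioi 0 with hGdef
  have hGO : G ⊆ O := inter_subset_left
  have hclG : closure G ⊆ closure O := closure_mono hGO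
  have hGc : IsCompact (closure G) := hOc.of_isClosed_subset isClosed_closure hclG
  have hGD : closure G ⊆ D := hclG.trans hOD
  have hharm : ∀ φ, Cc G φ → ∫ x, ⟪A x (W x), gradient φ x⟫ ∂μ = 0 := by
    apply Obs.harm hp h.obs hG (hGO.trans hOD')
    intro K1 hK1 hK1G
    rcases K1.eq_empty_or_nonempty with hemp | hne
    · exact ⟨1, one_pos, Eventually.of_forall fun x hx => by simp [hemp] at hx⟩
    · obtain ⟨x₀, hx₀, hmin⟩ := hK1.exists_isMinOn hne
        (hcont.mono (hK1G.trans (hGO.trans hOD')))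
      refine ⟨ω x₀ - ρ x₀, (hK1G hx₀).2, Eventually.of_forall fun x hx => ?_⟩
      have := hmin hx
      simp only [mem_ofPred_eq] at this
      linarith
  have key := hF G hG hGc hGD ω W (h.cont.mono hGD) (H0.toLH hp h.obs.h0) hharm (by
    intro x hx
    have hxcl : x ∈ closure G := frontier_subset_closure hx
    have hxD : x ∈ D := hGD hxcl
    have hxG : x ∉ G := by
      rw [hG.frontier_eq] at hx
      exact hx.2
    by_cases hxO : x ∈ O
    · have : ¬ (0 < ω x - ρ x) := fun hpos => hxG ⟨hxO, hpos⟩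
      have h2 := hρ x hxD
      linarith
    · exact hout x hxD (fun hxK => hxO (hKO hxK)))
  intro x hxD
  by_cases hxO : x ∈ O
  · by_cases hxG : x ∈ G
    · exact key x hxG
    · have : ¬ (0 < ω x - ρ x) := fun hpos => hxG ⟨hxO, hpos⟩
      have h2 := hρ x hxD
      linarith
  · exact hout x hxD (fun hxK => hxO (hKO hxK))

theorem CmpSuper.add_const (h : CmpSuper A p μ D F) (c : ℝ) [IsFiniteMeasureOnCompacts μ]
    (hp : 1 < p) : CmpSuper A p μ D (fun x => F x + c) := by
  intro G hG hGc hGD h' H' hcont hLH heq hfr x hx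
  have h1 : LH p μ G (fun x => h' x - c) H' := by
    have h2 := LH.sub hp hLH (LH.const (G := G) (μ := μ) (p := p) c)
    refine h2.congr ?_ ?_
    · exact Eventually.of_forall fun x _ => rfl
    · exact Eventually.of_forall fun x _ => sub_zero _
  have h3 := h G hG hGc hGD (fun x => h' x - c) H' (hcont.sub continuousOn_const) h1 heq
    (fun y hy => by
      have := hfr y hy
      linarith) x hx
  linarith

end SkelA


end

end Pool.Agent.Helper533.Polar
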