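import Pool.Agent.Helper533.Deny.B1
open MeasureTheory Filter Topology Set
open scoped ENNReal NNReal RealInnerProductSpace

namespace Pool.Agent.Helper533.Polar

section


section SkelB
variable {n : ℕ} {p α β Cd θ Cs lam Cp : ℝ} {μ : Measure (Sp n)} {A : Sp n → Sp n → Sp n}
  {D : Set (Sp n)} {ψ ψ₁ ψ₂ w w₁ w₂ F g : Sp n → ℝ} {W U : Sp n → Sp n} {M : ℝ}


theorem obs_mono_aux [IsFiniteMeasureOnCompacts μ] (hp : 1 < p) (hα : 0 < α) (hβ : 0 < β)
    (hA : Op p α β μ A) (hS : SMono μ A) (hadm : Adm p μ Cd θ Cs lam Cp) (hD : IsOpen D)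
    (hDb : Bornology.IsBounded D) {ρ ω : ℕ → Sp n → ℝ} {W : ℕ → Sp n → Sp n}
    (hρ : ObsSeq D ψ ρ) (hω : ∀ i, CObs A p μ D (ρ i) (ω i) (W i)) :
    ∀ x ∈ D, Monotone (fun i => ω i x) := by
  intro x hx
  apply monotone_nat_of_le_succ
  intro i
  have h1 := CObs.le_hsup hp hα hβ hA hS hadm hD hDb (hρ.cc i) (hω i)
    ((hω (i+1)).hsup hp) (hω (i+1)).cont (le_refl 0) (fun y hy => by
    have h2 := hρ.mono i y
    have h3 := (hω (i+1)).ge y hy
    linarith) x hx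
  linarith

theorem rho_le_aux {ρ : ℕ → Sp n → ℝ} (hρ : ObsSeq D ψ ρ) (hM0 : 0 ≤ M) (hM : ∀ x ∈ D, ψ x ≤ M)
    (i : ℕ) (x : Sp n) : ρ i x ≤ M := by
  by_cases hx : x ∈ D
  · exact (hρ.le i x hx).trans (hM x hx)
  · have h0 : ρ i x = 0 := zero_of_notMem (fun h => hx ((hρ.cc i).supp h))
    rw [h0]; exact hM0

theorem exists_red [IsFiniteMeasureOnCompacts μ] (hp : 1 < p) (hα : 0 < α) (hβ : 0 < β)
    (hA : Op p α β μ A) (hS : SMono μ A) (hadm : Adm p μ Cd θ Cs lam Cp) (hD : IsOpen D)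
    (hDb : Bornology.IsBounded D) (hψ : LowerSemicontinuousOn ψ D) (h0 : ∀ x ∈ D, 0 ≤ ψ x)
    (hM : ∀ x ∈ D, ψ x ≤ M) : ∃ w, Red A p μ D ψ w := by
  obtain ⟨ρ, hρ⟩ := exists_obsSeq hD hDb hψ h0 hM
  have hex : ∀ i, ∃ (ω : Sp n → ℝ) (W : Sp n → Sp n), CObs A p μ D (ρ i) ω W := fun i =>
    exists_cobs hp hα hβ hA hadm hD hDb (hρ.cc i) (hρ.nonneg i)
  choose ω W hω using hex
  refine ⟨fun x => ⨆ i, ω i x, ρ, ω, W, hρ, hω, ?_⟩
  intro x hx
  apply tendsto_atTop_ciSup (obs_mono_aux hp hα hβ hA hS hadm hD hDb hρ hω x hx)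
  refine ⟨max M 0, ?_⟩
  rintro _ ⟨i, rfl⟩
  exact (hω i).le_const hp hα hβ hA hadm hD hDb (le_max_right _ _)
    (fun y => rho_le_aux hρ (le_max_right _ _) (fun z hz => (hM z hz).trans (le_max_left _ _)) i y) x hx

/-- the approximating obstacle solutions increase and lie below `w` -/
theorem obs_seq_mono [IsFiniteMeasureOnCompacts μ] (hp : 1 < p) (hα : 0 < α) (hβ : 0 < β)
    (hA : Op p α β μ A) (hS : SMono μ A) (hadm : Adm p μ Cd θ Cs lam Cp) (hD : IsOpen D)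
    (hDb : Bornology.IsBounded D) {ρ ω : ℕ → Sp n → ℝ} {W : ℕ → Sp n → Sp n}
    (hρ : ObsSeq D ψ ρ) (hω : ∀ i, CObs A p μ D (ρ i) (ω i) (W i))
    (hlim : ∀ x ∈ D, Tendsto (fun i => ω i x) atTop (𝓝 (w x))) :
    ∀ x ∈ D, Monotone (fun i => ω i x) ∧ ∀ i, ω i x ≤ w x := by
  intro x hx
  have hm := obs_mono_aux hp hα hβ hA hS hadm hD hDb hρ hω x hx
  exact ⟨hm, fun i => hm.ge_of_tendsto (hlim x hx) i⟩

theorem Red.ge [IsFiniteMeasureOnCompacts μ] (h : Red A p μ D ψ w) : ∀ x ∈ D, ψ x ≤ w x := by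
  obtain ⟨ρ, ω, W, hρ, hω, hlim⟩ := h
  intro x hx
  exact le_of_tendsto_of_tendsto' (hρ.lim x hx) (hlim x hx) (fun i => (hω i).ge x hx)

theorem Red.le_const [IsFiniteMeasureOnCompacts μ] (hp : 1 < p) (hα : 0 < α) (hβ : 0 < β)
    (hA : Op p α β μ A) (hadm : Adm p μ Cd θ Cs lam Cp) (hD : IsOpen D)
    (hDb : Bornology.IsBounded D) (h : Red A p μ D ψ w) (hM0 : 0 ≤ M)
    (hM : ∀ x ∈ D, ψ x ≤ M) : ∀ x ∈ D, w x ≤ M := by
  obtain ⟨ρ, ω, W, hρ, hω, hlim⟩ := h
  intro x hx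
  exact le_of_tendsto' (hlim x hx) (fun i => (hω i).le_const hp hα hβ hA hadm hD hDb hM0
    (fun y => rho_le_aux hρ hM0 hM i y) x hx)

theorem Red.lsc [IsFiniteMeasureOnCompacts μ] (hp : 1 < p) (hα : 0 < α) (hβ : 0 < β)
    (hA : Op p α β μ A) (hS : SMono μ A) (hadm : Adm p μ Cd θ Cs lam Cp) (hD : IsOpen D)
    (hDb : Bornology.IsBounded D) (h : Red A p μ D ψ w) : LowerSemicontinuousOn w D := by
  obtain ⟨ρ, ω, W, hρ, hω, hlim⟩ := h
  intro x hx c hc
  have h1 : ∀ᶠ i in atTop, c < ω i x := (hlim x hx).eventually (eventually_gt_nhds hc)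
  obtain ⟨i, hi⟩ := h1.exists
  have h2 : ∀ᶠ y in 𝓝[D] x, c < ω i y := ((hω i).cont x hx).eventually (eventually_gt_nhds hi)
  filter_upwards [h2, self_mem_nhdsWithin] with y hy hyD
  exact lt_of_lt_of_le hy ((obs_seq_mono hp hα hβ hA hS hadm hD hDb hρ hω hlim y hyD).2 i)

end SkelB


end

section


section SkelB
variable {n : ℕ} {p α β Cd θ Cs lam Cp : ℝ} {μ : Measure (Sp n)} {A : Sp n → Sp n → Sp n}
  {D : Set (Sp n)} {ψ ψ₁ ψ₂ w w₁ w₂ F g : Sp n → ℝ} {W U : Sp n → Sp n} {M : ℝ}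


theorem Red.le_add [IsFiniteMeasureOnCompacts μ] (hp : 1 < p) (hα : 0 < α) (hβ : 0 < β)
    (hA : Op p α β μ A) (hS : SMono μ A) (hadm : Adm p μ Cd θ Cs lam Cp) (hD : IsOpen D)
    (hDb : Bornology.IsBounded D) (h₁ : Red A p μ D ψ₁ w₁) (h₂ : Red A p μ D ψ₂ w₂) {c : ℝ}
    (hc : 0 ≤ c) (hψ : ∀ x ∈ D, ψ₁ x ≤ ψ₂ x + c) : ∀ x ∈ D, w₁ x ≤ w₂ x + c := by
  obtain ⟨ρ, ω, W, hρ, hω, hlim⟩ := h₁
  obtain ⟨ρ', ω', W', hρ', hω', hlim'⟩ := h₂
  have claim : ∀ (i : ℕ) (e : ℝ), 0 < e → ∃ j, ∀ x ∈ D, ρ i x ≤ ρ' j x + (c + e) := by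
    intro i e he
    have hK : IsCompact (tsupport (ρ i)) := (hρ.cc i).comp
    have hKD : tsupport (ρ i) ⊆ D := (hρ.cc i).supp
    obtain ⟨j, hj⟩ := hK.elim_directed_cover (fun j => {y | ρ i y < ρ' j y + (c + e)})
      (fun j => isOpen_lt (hρ.cc i).cont ((hρ'.cc j).cont.add continuous_const))
      (by
        intro x hx
        have hxD := hKD hx
        have h1 : ρ i x < ψ₂ x + (c + e) := by
          have := hρ.le i x hxD
          have := hψ x hxD
          linarith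
        have h2 : Tendsto (fun j => ρ' j x + (c + e)) atTop (𝓝 (ψ₂ x + (c + e))) :=
          (hρ'.lim x hxD).add tendsto_const_nhds
        obtain ⟨j, hj⟩ := (h2.eventually (lt_mem_nhds h1)).exists
        exact Set.mem_iUnion.2 ⟨j, hj⟩)
      (by
        refine Monotone.directed_le ?_
        refine monotone_nat_of_le_succ (fun j => ?_)
        intro y hy
        have h1 : ρ i y < ρ' j y + (c + e) := hy
        have h2 := hρ'.mono j y
        change ρ i y < ρ' (j + 1) y + (c + e)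
        linarith)
    refine ⟨j, fun x _ => ?_⟩
    by_cases hx : x ∈ tsupport (ρ i)
    · have h1 : ρ i x < ρ' j x + (c + e) := hj hx
      exact h1.le
    · have h1 : ρ i x = 0 := image_eq_zero_of_notMem_tsupport hx
      have h2 := hρ'.nonneg j x
      rw [h1]
      linarith
  intro x hx
  have h2 := (obs_seq_mono hp hα hβ hA hS hadm hD hDb hρ' hω' hlim' x hx).2
  refine le_of_forall_pos_le_add (fun e he => ?_)
  refine le_of_tendsto' (hlim x hx) (fun i => ?_)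
  obtain ⟨j, hj⟩ := claim i e he
  have h3 := CObs.le_hsup hp hα hβ hA hS hadm hD hDb (hρ.cc i) (hω i)
    (CObs.hsup hp (hω' j)) (hω' j).cont (c := c + e) (by linarith)
    (fun y hy => (hj y hy).trans (by
      have := (hω' j).ge y hy
      linarith)) x hx
  have h4 := h2 j
  linarith

end SkelB


end

section


section SkelB
variable {n : ℕ} {p α β Cd θ Cs lam Cp : ℝ} {μ : Measure (Sp n)} {A : Sp n → Sp n → Sp n}
  {D : Set (Sp n)} {ψ ψ₁ ψ₂ w w₁ w₂ F g : Sp n → ℝ} {W U : Sp n → Sp n} {M : ℝ}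


theorem of_tendsto_aux {f : ℕ → Sp n → ℝ} {w : Sp n → ℝ}
    [IsFiniteMeasureOnCompacts μ] (hp : 1 < p)
    (hf : ∀ i, CmpSuper A p μ D (f i)) (hl : ∀ i, LowerSemicontinuousOn (f i) D)
    (hm : ∀ x ∈ D, ∀ i, f i x ≤ f (i + 1) x)
    (hlim : ∀ x ∈ D, Tendsto (fun i => f i x) atTop (𝓝 (w x))) :
    CmpSuper A p μ D w ∧ LowerSemicontinuousOn w D := by
  have hmono : ∀ x ∈ D, Monotone (fun i => f i x) := fun x hx => monotone_nat_of_le_succ (hm x hx)
  have hle : ∀ x ∈ D, ∀ i, f i x ≤ w x := fun x hx i => (hmono x hx).ge_of_tendsto (hlim x hx) i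
  constructor
  · intro G hG hGc hGD h H hhc hLH hweak hfr x hx
    have hfrD : frontier G ⊆ D := frontier_subset_closure.trans hGD
    have hfrc : IsCompact (frontier G) := hGc.of_isClosed_subset isClosed_frontier frontier_subset_closure
    apply le_of_forall_pos_le_add
    intro e he
    have hP : ∃ i, ∀ y ∈ frontier G, h y - e < f i y := by
      refine hfrc.induction_on (p := fun S => ∃ i, ∀ y ∈ S, (y ∈ frontier G → h y - e < f i y)) ?_ ?_ ?_ ?_ |>.imp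
        fun i hi y hy => hi y hy hy
      · exact ⟨0, fun y hy => absurd hy (Set.notMem_empty y)⟩
      · rintro s t hst ⟨i, hi⟩
        exact ⟨i, fun y hy => hi y (hst hy)⟩
      · rintro s t ⟨i, hi⟩ ⟨j, hj⟩
        refine ⟨max i j, ?_⟩
        rintro y (hy | hy) hyf
        · exact (hi y hy hyf).trans_le (hmono y (hfrD hyf) (le_max_left i j))
        · exact (hj y hy hyf).trans_le (hmono y (hfrD hyf) (le_max_right i j))
      · intro y hy
        have h1 : h y - e / 2 < w y := by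
          have := hfr y hy
          linarith
        obtain ⟨i, hi⟩ := ((hlim y (hfrD hy)).eventually (lt_mem_nhds h1)).exists
        have h2 : ∀ᶠ z in 𝓝[D] y, h y - e / 2 < f i z := hl i y (hfrD hy) _ hi
        have h3 : ∀ᶠ z in 𝓝[frontier G] y, h y - e / 2 < f i z :=
          h2.filter_mono (nhdsWithin_mono y hfrD)
        have h4 : ∀ᶠ z in 𝓝[frontier G] y, h z < h y + e / 2 := by
          have h5 : ContinuousWithinAt h (closure G) y := hhc y (frontier_subset_closure hy)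
          have h6 : ∀ᶠ z in 𝓝[closure G] y, h z < h y + e / 2 :=
            h5.eventually (gt_mem_nhds (by linarith))
          exact h6.filter_mono (nhdsWithin_mono y frontier_subset_closure)
        refine ⟨{z | h z - e < f i z}, ?_, i, fun z hz _ => hz⟩
        filter_upwards [h3, h4] with z hz1 hz2
        linarith
    obtain ⟨i, hi⟩ := hP
    have hLH' : LH p μ G (fun x => h x - e) H := by
      have h1 := LH.sub hp hLH (LH.const (p := p) (μ := μ) (G := G) e)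
      refine h1.congr (Eventually.of_forall fun x _ => rfl) (Eventually.of_forall fun x _ => ?_)
      simp
    have h2 := hf i G hG hGc hGD (fun x => h x - e) H (hhc.sub continuousOn_const) hLH' hweak
      (fun y hy => (hi y hy).le) x hx
    have h3 := hle x (hGD (subset_closure hx)) i
    linarith
  · intro x hx t ht
    obtain ⟨i, hi⟩ := ((hlim x hx).eventually (lt_mem_nhds ht)).exists
    have h2 : ∀ᶠ z in 𝓝[D] x, t < f i z := hl i x hx t hi
    filter_upwards [h2, self_mem_nhdsWithin] with z hz hzD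
    exact hz.trans_le (hle z hzD i)

theorem Red.cmp [IsFiniteMeasureOnCompacts μ] (hp : 1 < p) (hα : 0 < α) (hβ : 0 < β)
    (hA : Op p α β μ A) (hS : SMono μ A) (hadm : Adm p μ Cd θ Cs lam Cp) (hD : IsOpen D)
    (hDb : Bornology.IsBounded D) (h : Red A p μ D ψ w) : CmpSuper A p μ D w := by
  obtain ⟨ρ, ω, W, hρ, hω, hlim⟩ := h
  have hmon := obs_seq_mono hp hα hβ hA hS hadm hD hDb hρ hω hlim
  refine (of_tendsto_aux hp (f := ω) ?_ ?_ ?_ hlim).1
  · intro i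
    exact cmp_of_sup hp hα hβ hA hS hadm hD ((hω i).obs.sup hp) (hω i).cont
  · intro i
    exact (hω i).cont.lowerSemicontinuousOn
  · intro x hx i
    exact (hmon x hx).1 (Nat.le_succ i)

/-- an increasing limit of functions with the comparison property has it -/
theorem CmpSuper.of_tendsto {f : ℕ → Sp n → ℝ} {w : Sp n → ℝ}
    [IsFiniteMeasureOnCompacts μ] (hp : 1 < p)
    (hf : ∀ i, CmpSuper A p μ D (f i)) (hl : ∀ i, LowerSemicontinuousOn (f i) D)
    (hm : ∀ x ∈ D, ∀ i, f i x ≤ f (i + 1) x)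
    (hlim : ∀ x ∈ D, Tendsto (fun i => f i x) atTop (𝓝 (w x))) :
    CmpSuper A p μ D w ∧ LowerSemicontinuousOn w D :=
  of_tendsto_aux hp hf hl hm hlim

theorem Red.le_of_barrier [IsFiniteMeasureOnCompacts μ] (hp : 1 < p) (hα : 0 < α) (hβ : 0 < β)
    (hA : Op p α β μ A) (hS : SMono μ A) (hadm : Adm p μ Cd θ Cs lam Cp) (hD : IsOpen D)
    (hDb : Bornology.IsBounded D) (h : Red A p μ D ψ w) (hF : CmpSuper A p μ D F)
    (hg : HSup A p μ D g U) (hgc : ContinuousOn g D) {K : Set (Sp n)} (hK : IsCompact K)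
    (hKD : K ⊆ D) (hFg : ∀ x ∈ D, F x ≤ g x) (hFg' : ∀ x ∈ D, x ∉ K → F x = g x) {c : ℝ}
    (hc : 0 ≤ c) (hψ : ∀ x ∈ D, ψ x ≤ F x + c) : ∀ x ∈ D, w x ≤ F x + c := by
  obtain ⟨ρ, ω, W, hρ, hω, hlim⟩ := h
  intro x hx
  refine le_of_tendsto' (hlim x hx) fun i => ?_
  have hρF : ∀ x ∈ D, ρ i x ≤ F x + c := fun x hx => (hρ.le i x hx).trans (hψ x hx)
  have h1 : ∀ x ∈ D, ω i x ≤ g x + c :=
    CObs.le_hsup hp hα hβ hA hS hadm hD hDb (hρ.cc i) (hω i) hg hgc hc
      (fun x hx => (hρF x hx).trans (by linarith [hFg x hx]))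
  exact CObs.le_cmp hp hα hβ hA hadm hD (hρ.cc i) (hω i) (hF.add_const c hp) hρF hK hKD
    (fun x hx hxK => by rw [hFg' x hx hxK]; exact h1 x hx) x hx

end SkelB


end

end Pool.Agent.Helper533.Polar
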