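import Pool.Agent.Helper533.Deny.A
open MeasureTheory Filter Topology Set
open scoped ENNReal NNReal RealInnerProductSpace
namespace Pool.Agent.Helper533.Polar

noncomputable def bet (j : ℕ) (s : ℝ) : ℝ := ((2 : ℝ) ^ j)⁻¹ * BB ((2 : ℝ) ^ j * s - 1)

theorem BB_mono : Monotone BB :=
  monotone_of_deriv_nonneg (BB_contDiff.differentiable (by simp)) (fun x => by
    rw [BB_deriv]; exact Real.smoothTransition.nonneg x)

theorem bet_contDiff (j : ℕ) : ContDiff ℝ (⊤ : ℕ∞) (bet j) := by
  unfold bet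
  exact contDiff_const.mul (BB_contDiff.comp ((contDiff_const.mul contDiff_id).sub contDiff_const))

theorem bet_zero {j : ℕ} {s : ℝ} (h : s ≤ ((2 : ℝ) ^ j)⁻¹) : bet j s = 0 := by
  unfold bet
  rw [BB_nonpos, mul_zero]
  have h2 : (0 : ℝ) < 2 ^ j := by positivity
  have := mul_le_mul_of_nonneg_left h h2.le
  rw [mul_inv_cancel₀ h2.ne'] at this
  linarith

theorem bet_nonneg (j : ℕ) (s : ℝ) : 0 ≤ bet j s := by
  unfold bet
  exact mul_nonneg (by positivity) (BB_nonneg _)

theorem bet_le {j : ℕ} {s : ℝ} (hs : 0 ≤ s) : bet j s ≤ s := by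
  have h2 : (0 : ℝ) < 2 ^ j := by positivity
  rcases le_or_gt s ((2 : ℝ) ^ j)⁻¹ with h | h
  · rw [bet_zero h]; exact hs
  · unfold bet
    have h3 : (0 : ℝ) ≤ 2 ^ j * s - 1 := by
      have := mul_le_mul_of_nonneg_left h.le h2.le
      rw [mul_inv_cancel₀ h2.ne'] at this
      linarith
    rw [inv_mul_le_iff₀ h2]
    have := BB_le h3
    linarith

theorem bet_ge (j : ℕ) (s : ℝ) : s - 2 * ((2 : ℝ) ^ j)⁻¹ ≤ bet j s := by
  have h2 : (0 : ℝ) < 2 ^ j := by positivity
  unfold bet
  have h3 := BB_ge ((2 : ℝ) ^ j * s - 1)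
  have h4 := mul_le_mul_of_nonneg_left h3 (inv_pos.2 h2).le
  refine le_trans (le_of_eq ?_) h4
  field_simp
  ring

theorem bet_mono (j : ℕ) : Monotone (bet j) := by
  intro s t hst
  unfold bet
  have h2 : (0 : ℝ) < 2 ^ j := by positivity
  exact mul_le_mul_of_nonneg_left (BB_mono (by nlinarith)) (inv_pos.2 h2).le

theorem bet_hasDerivAt (j : ℕ) (s : ℝ) :
    HasDerivAt (bet j) (Real.smoothTransition ((2 : ℝ) ^ j * s - 1)) s := by
  have h2 : (0 : ℝ) < 2 ^ j := by positivity
  have h1 := (BB_hasDerivAt ((2 : ℝ) ^ j * s - 1)).comp s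
    (((hasDerivAt_id s).const_mul ((2 : ℝ) ^ j)).sub_const 1)
  have h3 := h1.const_mul ((2 : ℝ) ^ j)⁻¹
  have h4 : ((2 : ℝ) ^ j)⁻¹ * (Real.smoothTransition ((2 : ℝ) ^ j * s - 1) * ((2 : ℝ) ^ j * 1)) =
      Real.smoothTransition ((2 : ℝ) ^ j * s - 1) := by
    field_simp
  rw [h4] at h3
  exact h3

theorem bet_succ (j : ℕ) (s : ℝ) : bet j s ≤ bet (j + 1) s := by
  rcases le_or_gt s 0 with h | h
  · rw [bet_zero (h.trans (by positivity))]; exact bet_nonneg _ _
  · have hd : ∀ x, HasDerivAt (fun s => bet (j + 1) s - bet j s)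
        (Real.smoothTransition ((2 : ℝ) ^ (j + 1) * x - 1) - Real.smoothTransition ((2 : ℝ) ^ j * x - 1)) x :=
      fun x => (bet_hasDerivAt (j + 1) x).sub (bet_hasDerivAt j x)
    have hm : MonotoneOn (fun s => bet (j + 1) s - bet j s) (Ici 0) := by
      apply monotoneOn_of_deriv_nonneg (convex_Ici 0)
      · exact fun x _ => (hd x).continuousAt.continuousWithinAt
      · exact fun x _ => (hd x).differentiableAt.differentiableWithinAt
      · intro x hx
        rw [interior_Ici] at hx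
        rw [(hd x).deriv, sub_nonneg]
        apply Real.smoothTransition.monotone
        have : (0 : ℝ) < x := hx
        have h2 : (0 : ℝ) < 2 ^ j := by positivity
        rw [pow_succ]
        nlinarith
    have := hm (mem_Ici.2 le_rfl) (mem_Ici.2 h.le) h.le
    simp only at this
    rw [bet_zero (show (0 : ℝ) ≤ _ by positivity), bet_zero (show (0 : ℝ) ≤ _ by positivity)] at this
    linarith

theorem exists_obsSeq {n : ℕ} {D : Set (Sp n)} {ψ : Sp n → ℝ} {M : ℝ} (hD : IsOpen D)
    (hDb : Bornology.IsBounded D)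
    (hψ : LowerSemicontinuousOn ψ D) (h0 : ∀ x ∈ D, 0 ≤ ψ x) (hM : ∀ x ∈ D, ψ x ≤ M) :
    ∃ ρ : ℕ → Sp n → ℝ, ObsSeq D ψ ρ := by
  classical
  have hK : IsCompact (closure D) := hDb.isCompact_closure
  have hlsc : LowerSemicontinuousOn (D.indicator ψ) (closure D) := by
    apply LowerSemicontinuous.lowerSemicontinuousOn
    intro x t ht
    by_cases hx : x ∈ D
    · rw [indicator_of_mem hx] at ht
      have h1 := hψ x hx t ht
      rw [hD.nhdsWithin_eq hx] at h1
      filter_upwards [h1, hD.mem_nhds hx] with y hy hyD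
      rw [indicator_of_mem hyD]; exact hy
    · rw [indicator_of_notMem hx] at ht
      refine Eventually.of_forall fun y => ?_
      show t < D.indicator ψ y
      by_cases hy : y ∈ D
      · rw [indicator_of_mem hy]; exact ht.trans_le (h0 y hy)
      · rw [indicator_of_notMem hy]; exact ht
  have hbd : ∀ x ∈ closure D, |D.indicator ψ x| ≤ max M 0 := by
    intro x _
    by_cases hy : x ∈ D
    · rw [indicator_of_mem hy, abs_of_nonneg (h0 x hy)]; exact (hM x hy).trans (le_max_left _ _)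
    · rw [indicator_of_notMem hy, abs_zero]; exact le_max_right _ _
  obtain ⟨f, hfs, hfm, hfle, -, hflim⟩ := lsc_approx hK _ hlsc (le_max_right M 0) hbd
  have hcpt : ∀ j : ℕ, IsCompact {x | x ∈ closure D ∧ ((2 : ℝ) ^ j)⁻¹ ≤ f j x} := by
    intro j
    exact hK.inter_right (isClosed_le continuous_const (hfs j).continuous)
  have hsub : ∀ j : ℕ, {x | x ∈ closure D ∧ ((2 : ℝ) ^ j)⁻¹ ≤ f j x} ⊆ D := by
    intro j x hx
    by_contra hcon
    have h1 := hfle j x hx.1
    rw [indicator_of_notMem hcon] at h1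
    have h2 : (0 : ℝ) < ((2 : ℝ) ^ j)⁻¹ := by positivity
    linarith [hx.2]
  choose χ hχ hχ01 W hWo hWK hWD hW1 using fun j => exists_cutoff (hcpt j) hD (hsub j)
  have hval : ∀ j, ∀ x ∈ D, χ j x * bet j (f j x) = bet j (f j x) := by
    intro j x hx
    by_cases h : ((2 : ℝ) ^ j)⁻¹ ≤ f j x
    · rw [hW1 j x (hWK j ⟨subset_closure hx, h⟩), one_mul]
    · rw [bet_zero (not_le.1 h).le, mul_zero]
  have hout : ∀ j, ∀ x, x ∉ D → χ j x * bet j (f j x) = 0 := by
    intro j x hx
    rw [zero_of_notMem (φ := χ j) (fun h => hx ((hχ j).supp h)), zero_mul]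
  have hub : ∀ j, ∀ x ∈ D, bet j (f j x) ≤ ψ x := by
    intro j x hx
    have h1 := hfle j x (subset_closure hx)
    rw [indicator_of_mem hx] at h1
    rcases le_or_gt 0 (f j x) with h | h
    · exact (bet_le h).trans h1
    · rw [bet_zero (h.le.trans (by positivity))]; exact h0 x hx
  refine ⟨fun j x => χ j x * bet j (f j x), ⟨?_, ?_, ?_, ?_, ?_⟩⟩
  · intro j
    exact (hχ j).mul_smooth ((bet_contDiff j).comp (hfs j))
  · intro j x
    exact mul_nonneg (hχ01 j x).1 (bet_nonneg _ _)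
  · intro j x
    by_cases hx : x ∈ D
    · show χ j x * bet j (f j x) ≤ χ (j + 1) x * bet (j + 1) (f (j + 1) x)
      rw [hval j x hx, hval (j + 1) x hx]
      exact (bet_mono j (hfm j x)).trans (bet_succ j _)
    · show χ j x * bet j (f j x) ≤ χ (j + 1) x * bet (j + 1) (f (j + 1) x)
      rw [hout j x hx, hout (j + 1) x hx]
  · intro j x hx
    show χ j x * bet j (f j x) ≤ ψ x
    rw [hval j x hx]
    exact hub j x hx
  · intro x hx
    have h1 := hflim x (subset_closure hx)
    rw [indicator_of_mem hx] at h1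
    have h2 : Tendsto (fun j : ℕ => f j x - 2 * ((2 : ℝ) ^ j)⁻¹) atTop (𝓝 (ψ x)) := by
      have h3 : Tendsto (fun j : ℕ => ((2 : ℝ) ^ j)⁻¹) atTop (𝓝 0) := by
        have := tendsto_pow_atTop_nhds_zero_of_lt_one (r := (1 / 2 : ℝ)) (by norm_num) (by norm_num)
        refine this.congr fun j => ?_
        rw [one_div, inv_pow]
      have h4 := h1.sub (h3.const_mul 2)
      simpa using h4
    refine tendsto_of_tendsto_of_tendsto_of_le_of_le h2 tendsto_const_nhds ?_ ?_
    · intro j
      show _ ≤ χ j x * bet j (f j x)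
      rw [hval j x hx]
      exact bet_ge _ _
    · intro j
      show χ j x * bet j (f j x) ≤ _
      rw [hval j x hx]
      exact hub j x hx

end Pool.Agent.Helper533.Polar
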