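import Pool.Agent.Helper533.Deny.B
open MeasureTheory Filter Topology Set
open scoped ENNReal NNReal RealInnerProductSpace

namespace Pool.Agent.Helper533.Polar

section


section SkelC
variable {n : ℕ} {p α β Cd θ Cs lam Cp : ℝ} {μ : Measure (Sp n)} {A : Sp n → Sp n → Sp n}
  {D : Set (Sp n)} {ψ w : Sp n → ℝ} {M : ℝ}


/-- uniform modulus of continuity of obstacle solutions -/
theorem osc_uniform [IsFiniteMeasureOnCompacts μ] (hp : 1 < p) (hα : 0 < α) (hβ : 0 < β)
    (hA : Op p α β μ A) (hadm : Adm p μ Cd θ Cs lam Cp) {S e r0 : ℝ} (hS : 0 ≤ S) (he : 0 < e)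
    (hr0 : 0 < r0) :
    ∃ r1 : ℝ, 0 < r1 ∧ ∀ (D : Set (Sp n)) (ρ ω : Sp n → ℝ) (W : Sp n → Sp n), IsOpen D →
      CObs A p μ D ρ ω W → (∀ x, 0 ≤ ρ x) → (∀ x ∈ D, ω x ≤ S) → ∀ x : Sp n,
      Metric.ball x r0 ⊆ D → (∀ y ∈ Metric.ball x r0, |ρ y - ρ x| ≤ e / 8) →
      ∀ y ∈ Metric.ball x r1, |ω y - ω x| ≤ e := by
  have hlam := hadm.one_le_lam
  obtain ⟨δ, hδ0, hδ1, hstep⟩ := osc_step (Cd := Cd) (θ := θ) (Cs := Cs) (Cp := Cp) hp hα hβ hlam
  obtain ⟨q, hq⟩ : ∃ q : ℝ, q = max (1 - δ) (3 / 4) := ⟨_, rfl⟩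
  have hq1 : q < 1 := by
    rw [hq]
    exact max_lt (by linarith) (by norm_num)
  have hqa : 1 - δ ≤ q := by
    rw [hq]
    exact le_max_left _ _
  have hqb : 3 / 4 ≤ q := by
    rw [hq]
    exact le_max_right _ _
  have hq0 : 0 < q := by linarith
  obtain ⟨K, hK⟩ := exists_pow_lt_of_lt_one (y := q) (x := e / (S + 1)) (by positivity) hq1
  have hKe : q ^ K * S ≤ e := by
    rw [lt_div_iff₀ (by linarith)] at hK
    have : q ^ K * S ≤ q ^ K * (S + 1) :=
      mul_le_mul_of_nonneg_left (by linarith) (pow_nonneg hq0.le _)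
    linarith
  have h4 : 1 ≤ 4 * lam := by linarith
  have hrpos : ∀ k : ℕ, 0 < r0 / (4 * lam) ^ k := fun k => by positivity
  have hrle : ∀ k : ℕ, r0 / (4 * lam) ^ k ≤ r0 := fun k =>
    div_le_self hr0.le (one_le_pow₀ h4)
  have hrs : ∀ k : ℕ, r0 / (4 * lam) ^ (k + 1) = r0 / (4 * lam) ^ k / (4 * lam) := fun k => by
    rw [pow_succ, div_div]
  have hrs2 : ∀ k : ℕ, r0 / (4 * lam) ^ (k + 1) ≤ r0 / (4 * lam) ^ k := fun k => by
    rw [hrs]
    exact div_le_self (hrpos k).le h4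
  refine ⟨r0 / (4 * lam) ^ K, hrpos K, ?_⟩
  intro D ρ ω W hD h hρ0 hωS x hxD hosc
  have hge : ∀ᵐ y ∂μ, ρ y ≤ ω y := h.obs.ge
  have claim : ∀ k : ℕ, ∃ a b : ℝ, 0 ≤ a ∧ a ≤ b ∧ b - a ≤ max (q ^ k * S) e ∧
      ∀ᵐ y ∂μ, y ∈ Metric.ball x (r0 / (4 * lam) ^ k) → a ≤ ω y ∧ ω y ≤ b := by
    intro k
    induction k with
    | zero =>
      refine ⟨0, S, le_rfl, hS, ?_, ?_⟩
      · rw [pow_zero, one_mul, sub_zero]
        exact le_max_left _ _
      · filter_upwards [hge] with y hy hyb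
        rw [pow_zero, div_one] at hyb
        exact ⟨(hρ0 y).trans hy, hωS y (hxD hyb)⟩
    | succ k ih =>
      obtain ⟨a, b, ha, hab, hlen, hae⟩ := ih
      rcases le_or_gt (b - a) e with hle | hgt
      · refine ⟨a, b, ha, hab, hle.trans (le_max_right _ _), ?_⟩
        filter_upwards [hae] with y hy hyb
        exact hy (Metric.ball_subset_ball (hrs2 k) hyb)
      · have hlen2 : b - a ≤ q ^ k * S := by
          rcases le_max_iff.1 hlen with h1 | h1
          · exact h1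
          · linarith
        have hlt : a < b := by linarith
        have hfin : ∀ l : ℝ, l ≤ q * (b - a) → l ≤ max (q ^ (k + 1) * S) e := by
          intro l hl
          refine le_max_of_le_left (hl.trans ?_)
          calc q * (b - a) ≤ q * (q ^ k * S) := mul_le_mul_of_nonneg_left hlen2 hq0.le
            _ = q ^ (k + 1) * S := by ring
        by_cases hρ : ∀ y ∈ Metric.ball x (r0 / (4 * lam) ^ k), ρ y ≤ (a + b) / 2
        · obtain ⟨a', b', h1, h2, h3, h5, h6⟩ := hstep μ A hA hadm D ρ ω W h.obs x _ (hrpos k)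
            ((Metric.ball_subset_ball (hrle k)).trans hxD) a b ha hlt hae hρ
          refine ⟨a', b', ha.trans h1, h2, hfin _ ?_, ?_⟩
          · exact h5.trans (mul_le_mul_of_nonneg_right hqa (by linarith))
          · rw [hrs]
            exact h6
        · push Not at hρ
          obtain ⟨y0, hy0, hy0'⟩ := hρ
          refine ⟨(a + b) / 2 - e / 4, b, by linarith, by linarith, hfin _ ?_, ?_⟩
          · have : 3 / 4 * (b - a) ≤ q * (b - a) :=
              mul_le_mul_of_nonneg_right hqb (by linarith)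
            linarith
          · filter_upwards [hae, hge] with y hy hy2 hyb
            have hyb' := Metric.ball_subset_ball (hrs2 k) hyb
            refine ⟨?_, (hy hyb').2⟩
            have h1 := hosc y (Metric.ball_subset_ball (hrle k) hyb')
            have h2 := hosc y0 (Metric.ball_subset_ball (hrle k) hy0)
            rw [abs_le] at h1 h2
            linarith [h1.1, h2.2]
  obtain ⟨a, b, ha, hab, hlen, hae⟩ := claim K
  have hlen2 : b - a ≤ e := hlen.trans (max_le hKe le_rfl)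
  have hsub : Metric.ball x (r0 / (4 * lam) ^ K) ⊆ D :=
    (Metric.ball_subset_ball (hrle K)).trans hxD
  have hc : ContinuousOn ω (Metric.ball x (r0 / (4 * lam) ^ K)) := h.cont.mono hsub
  have hlow : ∀ y ∈ Metric.ball x (r0 / (4 * lam) ^ K), 0 ≤ ω y - a := by
    refine nonneg_of_ae hadm.pos Metric.isOpen_ball (hc.sub continuousOn_const) ?_
    filter_upwards [hae] with y hy hyb
    linarith [(hy hyb).1]
  have hup : ∀ y ∈ Metric.ball x (r0 / (4 * lam) ^ K), 0 ≤ b - ω y := by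
    refine nonneg_of_ae hadm.pos Metric.isOpen_ball (continuousOn_const.sub hc) ?_
    filter_upwards [hae] with y hy hyb
    linarith [(hy hyb).2]
  intro y hy
  have hx := Metric.mem_ball_self (x := x) (hrpos K)
  have g1 := hlow y hy
  have g2 := hup y hy
  have g3 := hlow x hx
  have g4 := hup x hx
  rw [abs_le]
  constructor <;> linarith

end SkelC


end

section


section SkelC
variable {n : ℕ} {p α β Cd θ Cs lam Cp : ℝ} {μ : Measure (Sp n)} {A : Sp n → Sp n → Sp n}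
  {D : Set (Sp n)} {ψ w : Sp n → ℝ} {M : ℝ}


theorem Red.continuousOn [IsFiniteMeasureOnCompacts μ] (hp : 1 < p) (hα : 0 < α) (hβ : 0 < β)
    (hA : Op p α β μ A) (hS : SMono μ A) (hadm : Adm p μ Cd θ Cs lam Cp) (hD : IsOpen D)
    (hDb : Bornology.IsBounded D) (h : Red A p μ D ψ w) (hM0 : 0 ≤ M) (hM : ∀ x ∈ D, ψ x ≤ M)
    {Z : Set (Sp n)} (hZ : IsOpen Z) (hZD : Z ⊆ D) (hψ : ContinuousOn ψ Z) :
    ContinuousOn w Z := by
  obtain ⟨ρ, ω, W, hρ, hω, hlim⟩ := h
  have hρM : ∀ i x, ρ i x ≤ M := by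
    intro i x
    by_cases hx : x ∈ D
    · exact (hρ.le i x hx).trans (hM x hx)
    · rw [zero_of_notMem (fun h' => hx ((hρ.cc i).supp h'))]
      exact hM0
  have hωM : ∀ i, ∀ x ∈ D, ω i x ≤ M := fun i =>
    CObs.le_const hp hα hβ hA hadm hD hDb (hω i) hM0 (hρM i)
  rw [Metric.continuousOn_iff]
  intro x0 hx0 e he
  -- radius for `ψ`
  obtain ⟨ra, hra, hra'⟩ := (Metric.continuousOn_iff.mp hψ) x0 hx0 (e / 64) (by positivity)
  obtain ⟨rb, hrb, hrb'⟩ := Metric.isOpen_iff.mp hZ x0 hx0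
  obtain ⟨r0, hr0, hr0a, hr0b⟩ : ∃ r0 : ℝ, 0 < r0 ∧ r0 < ra ∧ r0 < rb :=
    ⟨min ra rb / 2, by positivity, by
      have := min_le_left ra rb
      have h2 : 0 < min ra rb := lt_min hra hrb
      linarith, by
      have := min_le_right ra rb
      have h2 : 0 < min ra rb := lt_min hra hrb
      linarith⟩
  have hKZ : Metric.closedBall x0 r0 ⊆ Z := (Metric.closedBall_subset_ball hr0b).trans hrb'
  have hK : IsCompact (Metric.closedBall x0 r0) := isCompact_closedBall x0 r0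
  have hψK : ∀ y ∈ Metric.closedBall x0 r0, |ψ y - ψ x0| ≤ e / 64 := by
    intro y hy
    have h1 := hra' y (hKZ hy) (lt_of_le_of_lt (Metric.mem_closedBall.mp hy) hr0a)
    rw [Real.dist_eq] at h1
    exact h1.le
  have hdini : TendstoUniformlyOn ρ ψ atTop (Metric.closedBall x0 r0) :=
    Monotone.tendstoUniformlyOn_of_forall_tendsto hK (fun i => (hρ.cc i).cont.continuousOn)
      (fun x _ => monotone_nat_of_le_succ (fun i => hρ.mono i x)) (hψ.mono hKZ)
      (fun x hx => hρ.lim x (hZD (hKZ hx)))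
  rw [Metric.tendstoUniformlyOn_iff] at hdini
  have hev := hdini (e / 64) (by positivity)
  obtain ⟨r1, hr1, hr1'⟩ := osc_uniform hp hα hβ hA hadm (S := M) (e := e / 2) (r0 := r0) hM0
    (by positivity) hr0
  refine ⟨min r1 r0, lt_min hr1 hr0, fun y hyZ hy => ?_⟩
  have hy1 : y ∈ Metric.ball x0 r1 := Metric.mem_ball.mpr (lt_of_lt_of_le hy (min_le_left _ _))
  have hbd : ∀ᶠ i in atTop, |ω i y - ω i x0| ≤ e / 2 := by
    filter_upwards [hev] with i hi
    refine hr1' D (ρ i) (ω i) (W i) hD (hω i) (hρ.nonneg i) (hωM i) x0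
      ((Metric.ball_subset_closedBall.trans hKZ).trans hZD) ?_ y hy1
    intro z hz
    have hz' := Metric.ball_subset_closedBall hz
    have h1 := hi z hz'
    have h2 := hi x0 (Metric.mem_closedBall_self hr0.le)
    have h3 := hψK z hz'
    rw [Real.dist_eq] at h1 h2
    have h1' := abs_lt.mp h1
    have h2' := abs_lt.mp h2
    have h3' := abs_le.mp h3
    rw [abs_le]
    constructor <;> linarith [h1'.1, h1'.2, h2'.1, h2'.2, h3'.1, h3'.2]
  have hten : Tendsto (fun i => |ω i y - ω i x0|) atTop (𝓝 |w y - w x0|) :=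
    ((hlim y (hZD hyZ)).sub (hlim x0 (hZD hx0))).abs
  have hle : |w y - w x0| ≤ e / 2 := le_of_tendsto hten hbd
  rw [Real.dist_eq]
  linarith

end SkelC


end

end Pool.Agent.Helper533.Polar
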