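import Pool.Agent.Helper533.Polar.Main
open MeasureTheory Filter Topology Set
open scoped ENNReal NNReal RealInnerProductSpace

namespace Pool.Agent.Helper533.Polar

variable {n : ℕ}

/-- strict monotonicity -/
def SMono (μ : Measure (Sp n)) (A : Sp n → Sp n → Sp n) : Prop :=
  ∀ᵐ x ∂μ, ∀ ξ ζ, ξ ≠ ζ → 0 < ⟪A x ξ - A x ζ, ξ - ζ⟫

/-- supersolution in `H0 D`, tested with all nonnegative `H0 D` functions -/
structure HSup (A : Sp n → Sp n → Sp n) (p : ℝ) (μ : Measure (Sp n)) (D : Set (Sp n))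
    (u : Sp n → ℝ) (U : Sp n → Sp n) : Prop where
  h0 : H0 p μ D u U
  test : ∀ T TT, H0 p μ D T TT → (∀ᵐ x ∂μ, 0 ≤ T x) → 0 ≤ ∫ x, ⟪A x (U x), TT x⟫ ∂μ

/-- obstacle solution with its continuous representative -/
structure CObs (A : Sp n → Sp n → Sp n) (p : ℝ) (μ : Measure (Sp n)) (D : Set (Sp n))
    (ρ ω : Sp n → ℝ) (W : Sp n → Sp n) : Prop where
  obs : Obs A p μ D ρ ω W
  cont : ContinuousOn ω D
  ge : ∀ x ∈ D, ρ x ≤ ω x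

/-- increasing sequence of smooth obstacles with pointwise limit `ψ` on `D` -/
structure ObsSeq (D : Set (Sp n)) (ψ : Sp n → ℝ) (ρ : ℕ → Sp n → ℝ) : Prop where
  cc : ∀ i, Cc D (ρ i)
  nonneg : ∀ i x, 0 ≤ ρ i x
  mono : ∀ i x, ρ i x ≤ ρ (i + 1) x
  le : ∀ i, ∀ x ∈ D, ρ i x ≤ ψ x
  lim : ∀ x ∈ D, Tendsto (fun i => ρ i x) atTop (𝓝 (ψ x))

/-- `w` is the reduced function (smallest superharmonic majorant) of `ψ` in `D` -/
def Red (A : Sp n → Sp n → Sp n) (p : ℝ) (μ : Measure (Sp n)) (D : Set (Sp n))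
    (ψ w : Sp n → ℝ) : Prop :=
  ∃ (ρ ω : ℕ → Sp n → ℝ) (W : ℕ → Sp n → Sp n), ObsSeq D ψ ρ ∧
    (∀ i, CObs A p μ D (ρ i) (ω i) (W i)) ∧
    ∀ x ∈ D, Tendsto (fun i => ω i x) atTop (𝓝 (w x))

/-- `E ∩ K` has capacity zero, with cutoff functions equal to `1` on open sets near `K` -/
def CapNull (p : ℝ) (μ : Measure (Sp n)) (E K : Set (Sp n)) : Prop :=
  ∀ N : Set (Sp n), IsOpen N → K ⊆ N → ∀ κ : ℝ, 0 < κ →
    ∃ (V : Set (Sp n)) (φ : Sp n → ℝ) (Φ : Sp n → Sp n), IsOpen V ∧ E ∩ K ⊆ V ∧ V ⊆ N ∧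
      H0 p μ univ φ Φ ∧ (∀ᵐ x ∂μ, 0 ≤ φ x ∧ φ x ≤ 1) ∧ (∀ᵐ x ∂μ, x ∈ V → φ x = 1) ∧
      eLpNorm φ (ENNReal.ofReal p) μ ≤ ENNReal.ofReal κ ∧
      eLpNorm Φ (ENNReal.ofReal p) μ ≤ ENNReal.ofReal κ

/-- comparison property for extended real valued functions -/
def CmpSuperE (A : Sp n → Sp n → Sp n) (p : ℝ) (μ : Measure (Sp n)) (Ω : Set (Sp n))
    (u : Sp n → EReal) : Prop :=
  ∀ G : Set (Sp n), IsOpen G → IsCompact (closure G) → closure G ⊆ Ω →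
    ∀ (h : Sp n → ℝ) (H : Sp n → Sp n), ContinuousOn h (closure G) → LH p μ G h H →
    (∀ φ, Cc G φ → ∫ x, ⟪A x (H x), gradient φ x⟫ ∂μ = 0) →
    (∀ x ∈ frontier G, (h x : EReal) ≤ u x) → ∀ x ∈ G, (h x : EReal) ≤ u x

/-- state of the level construction on the ball of radius `R` -/
structure Lev (A : Sp n → Sp n → Sp n) (p : ℝ) (μ : Measure (Sp n)) (E : Set (Sp n)) (R : ℝ)
    (F : Sp n → ℝ) (O : Set (Sp n)) (M : ℝ) : Prop where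
  lsc : LowerSemicontinuousOn F (Metric.ball 0 R)
  cmp : CmpSuper A p μ (Metric.ball 0 R) F
  bd : ∀ x ∈ Metric.ball (0 : Sp n) R, 0 ≤ F x ∧ F x ≤ M
  maj : ∃ (g : Sp n → ℝ) (U : Sp n → Sp n) (K : Set (Sp n)), HSup A p μ (Metric.ball 0 R) g U ∧
    ContinuousOn g (Metric.ball 0 R) ∧ IsCompact K ∧ K ⊆ Metric.ball 0 R ∧
    (∀ x ∈ Metric.ball (0 : Sp n) R, F x ≤ g x) ∧
    ∀ x ∈ Metric.ball (0 : Sp n) R, x ∉ K → F x = g x
  opn : IsOpen O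
  sub : O ⊆ Metric.ball 0 R
  memE : E ∩ Metric.ball 0 R ⊆ O
  cont : ContinuousOn F O

/-- properties of the measure, without the Sobolev inequality -/
structure PreAdm (p : ℝ) (μ : Measure (Sp n)) (Cd lam Cp : ℝ) : Prop where
  one_le_Cd : 1 ≤ Cd
  one_le_lam : 1 ≤ lam
  Cp_pos : 0 < Cp
  pos : ∀ (x : Sp n) (r : ℝ), 0 < r → 0 < μ (Metric.ball x r)
  fin : ∀ (x : Sp n) (r : ℝ), μ (Metric.ball x r) < ∞
  dbl : ∀ (x : Sp n) (r : ℝ), 0 < r → μ.real (Metric.ball x (2 * r)) ≤ Cd * μ.real (Metric.ball x r)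
  poi : ∀ (x : Sp n) (r : ℝ), 0 < r → ∀ (f : Sp n → ℝ) (F : Sp n → Sp n), H0 p μ univ f F →
    ∫ y in Metric.ball x r, |f y - (⨍ z in Metric.ball x r, f z ∂μ)| ∂μ ≤
      Cp * r * μ.real (Metric.ball x r) * ((μ.real (Metric.ball x (lam * r)))⁻¹ *
        ∫ y in Metric.ball x (lam * r), ‖F y‖ ^ p ∂μ) ^ (1 / p)

end Pool.Agent.Helper533.Polar
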