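import Pool.Agent.Helper533.Deny.Stmt
import Pool.Agent.Helper533.Deny.Defs
import Pool.Agent.Helper533.Polar.Final
open MeasureTheory Filter Topology Set
open scoped ENNReal NNReal RealInnerProductSpace

namespace Pool.Agent.Helper533.Polar

/-- weights used internally: positive, doubling, Poincaré for test functions -/
structure Wt {n : ℕ} (p : ℝ) (w : Sp n → ℝ) : Prop where
  locallyIntegrable : LocallyIntegrable w volume
  pos : ∀ᵐ x ∂(volume : Measure (Sp n)), 0 < w x
  doubling : ∃ C : ℝ, ∀ (x : Sp n) (r : ℝ), 0 < r →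
    Stmt.wm w (Metric.ball x (2 * r)) ≤ ENNReal.ofReal C * Stmt.wm w (Metric.ball x r)
  poincare : ∃ lam C : ℝ, 1 ≤ lam ∧ ∀ (x : Sp n) (r : ℝ), 0 < r → ∀ φ : Sp n → ℝ,
    Stmt.IsTest univ φ →
    ⨍ y in Metric.ball x r, |φ y - ⨍ z in Metric.ball x r, φ z ∂(Stmt.wm w)| ∂(Stmt.wm w) ≤
      C * r * (⨍ y in Metric.ball x (lam * r), ‖gradient φ y‖ ^ p ∂(Stmt.wm w)) ^ (1 / p)

variable {n : ℕ} {p α β : ℝ} {w : Sp n → ℝ} {𝒜 : Sp n → Sp n → Sp n}

theorem wm_aem' (hw : Wt p w) :
    AEMeasurable (fun x => ENNReal.ofReal (w x)) (volume : Measure (Sp n)) :=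
  hw.locallyIntegrable.aestronglyMeasurable.aemeasurable.ennreal_ofReal

/-- change of measure -/
theorem integral_wm' (hw : Wt p w) (f : Sp n → ℝ) :
    ∫ x, (w x)⁻¹ * f x ∂(Stmt.wm w) = ∫ x, f x := by
  unfold Stmt.wm
  rw [integral_withDensity_eq_integral_toReal_smul₀ (wm_aem' hw)
    (Filter.Eventually.of_forall fun _ => ENNReal.ofReal_lt_top)]
  refine integral_congr_ae ?_
  filter_upwards [hw.pos] with x hx
  rw [ENNReal.toReal_ofReal hx.le, smul_eq_mul, ← mul_assoc, mul_inv_cancel₀ hx.ne', one_mul]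

/-- a.e. statements transfer -/
theorem ae_wm' (hw : Wt p w) {P : Sp n → Prop} (h : ∀ᵐ x ∂(volume : Measure (Sp n)), P x) :
    ∀ᵐ x ∂(Stmt.wm w), P x :=
  (withDensity_absolutelyContinuous _ _).ae_le h

/-- Carathéodory functions are superpositionally measurable; the normalised operator satisfies `Op` -/
theorem op_of_isOperator' (hp : 1 < p) (hw : Wt p w)
    (h : Stmt.IsOperator p α β w 𝒜) :
    Op p α β (Stmt.wm w) (fun x ξ => (w x)⁻¹ • 𝒜 x ξ) where
  meas := by
    intro U hU
    have h1 : Stmt.wm w ≪ (volume : Measure (Sp n)) := withDensity_absolutelyContinuous _ _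
    have h2 : (volume : Measure (Sp n)) ≪ Stmt.wm w := by
      refine withDensity_absolutelyContinuous' (wm_aem' hw) ?_
      filter_upwards [hw.pos] with x hx
      rw [ENNReal.ofReal_ne_zero_iff]
      exact hx
    have hU' : AEStronglyMeasurable U (volume : Measure (Sp n)) := hU.mono_ac h2
    have h3 := carath (fun ξ => (h.measurable ξ).aestronglyMeasurable) h.continuous hU'
    have h4 : AEStronglyMeasurable (fun x => (w x)⁻¹) (volume : Measure (Sp n)) :=
      hw.locallyIntegrable.aestronglyMeasurable.aemeasurable.inv.aestronglyMeasurable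
    exact (h4.smul h3).mono_ac h1
  cont := by
    filter_upwards [ae_wm' hw h.continuous] with x hx
    exact Continuous.const_smul hx (w x)⁻¹
  coer := by
    filter_upwards [ae_wm' hw h.coercive, ae_wm' hw hw.pos] with x hx hx'
    intro ξ
    rw [real_inner_smul_left]
    have := mul_le_mul_of_nonneg_left (hx ξ) (inv_pos.2 hx').le
    have e : (w x)⁻¹ * (α * w x * ‖ξ‖ ^ p) = α * ‖ξ‖ ^ p := by
      field_simp
    rw [e] at this
    exact this
  bdd := by
    filter_upwards [ae_wm' hw h.bounded, ae_wm' hw hw.pos] with x hx hx'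
    intro ξ
    rw [norm_smul, Real.norm_eq_abs, abs_of_pos (inv_pos.2 hx')]
    have := mul_le_mul_of_nonneg_left (hx ξ) (inv_pos.2 hx').le
    have e : (w x)⁻¹ * (β * w x * ‖ξ‖ ^ (p - 1)) = β * ‖ξ‖ ^ (p - 1) := by
      field_simp
    rw [e] at this
    exact this
  mono := by
    filter_upwards [ae_wm' hw h.monotone, ae_wm' hw hw.pos] with x hx hx'
    intro ξ ζ
    rw [← smul_sub, real_inner_smul_left]
    refine mul_nonneg (inv_pos.2 hx').le ?_
    rcases eq_or_ne ξ ζ with h0 | h0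
    · rw [h0, sub_self, sub_self, inner_zero_left]
    · exact (hx ξ ζ h0).le
  hom := by
    filter_upwards [ae_wm' hw h.homogeneous] with x hx
    intro t ξ ht
    rw [hx t ξ ht, smul_comm]

theorem wm_basic' (hp : 1 < p) (hw : Wt p w) :
    ∃ Cd : ℝ, 1 ≤ Cd ∧ (∀ (x : Sp n) (r : ℝ), 0 < r → 0 < (Stmt.wm w) (Metric.ball x r)) ∧
      (∀ (x : Sp n) (r : ℝ), (Stmt.wm w) (Metric.ball x r) < ∞) ∧
      (∀ (x : Sp n) (r : ℝ), 0 < r →
        (Stmt.wm w).real (Metric.ball x (2 * r)) ≤ Cd * (Stmt.wm w).real (Metric.ball x r)) ∧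
      IsFiniteMeasureOnCompacts (Stmt.wm w) := by
  obtain ⟨C, hC⟩ := hw.doubling
  have hfin : ∀ (x : Sp n) (r : ℝ), (Stmt.wm w) (Metric.ball x r) < ∞ := by
    intro x r
    have hI : IntegrableOn w (Metric.ball x r) volume :=
      (hw.locallyIntegrable.integrableOn_isCompact (isCompact_closedBall x r)).mono_set
        Metric.ball_subset_closedBall
    rw [Stmt.wm, withDensity_apply _ Metric.isOpen_ball.measurableSet]
    exact lt_of_le_of_lt (lintegral_ofReal_le_lintegral_enorm _) hI.2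
  refine ⟨max C 1, le_max_right _ _, ?_, hfin, ?_, ?_⟩
  · intro x r hr
    have hac : (volume : Measure (Sp n)) ≪ Stmt.wm w := by
      refine withDensity_absolutelyContinuous' ?_ ?_
      · exact hw.locallyIntegrable.aestronglyMeasurable.aemeasurable.ennreal_ofReal
      · filter_upwards [hw.pos] with y hy
        exact (ENNReal.ofReal_pos.2 hy).ne'
    rw [pos_iff_ne_zero]
    intro h0
    exact (Metric.measure_ball_pos volume x hr).ne' (hac h0)
  · intro x r hr
    have h1 := hC x r hr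
    have h2 := ENNReal.toReal_mono (ENNReal.mul_ne_top ENNReal.ofReal_ne_top (hfin x r).ne) h1
    rw [ENNReal.toReal_mul, ENNReal.toReal_ofReal'] at h2
    refine h2.trans (mul_le_mul_of_nonneg_right ?_ ENNReal.toReal_nonneg)
    exact max_le (le_max_left _ _) (zero_le_one.trans (le_max_right _ _))
  · refine ⟨fun K hK => ?_⟩
    obtain ⟨R, hR⟩ := hK.isBounded.subset_ball (0 : Sp n)
    exact lt_of_le_of_lt (measure_mono hR) (hfin 0 R)

theorem wm_poincare' (hp : 1 < p) (hw : Wt p w) :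
    ∃ lam Cp : ℝ, 1 ≤ lam ∧ 0 < Cp ∧ ∀ (x : Sp n) (r : ℝ), 0 < r → ∀ (f : Sp n → ℝ)
      (F : Sp n → Sp n), H0 p (Stmt.wm w) univ f F →
      ∫ y in Metric.ball x r, |f y - (⨍ z in Metric.ball x r, f z ∂(Stmt.wm w))| ∂(Stmt.wm w) ≤
        Cp * r * (Stmt.wm w).real (Metric.ball x r) * (((Stmt.wm w).real (Metric.ball x (lam * r)))⁻¹ *
          ∫ y in Metric.ball x (lam * r), ‖F y‖ ^ p ∂(Stmt.wm w)) ^ (1 / p) := by
  obtain ⟨Cd, hCd, hpos, hfin, hdbl, hfm⟩ := wm_basic' hp hw
  haveI := hfm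
  obtain ⟨lam, C, hlam, hP⟩ := hw.poincare
  refine ⟨lam, |C| + 1, hlam, by positivity, ?_⟩
  intro x r hr f F hf
  obtain ⟨φ, hφ, h1, h2, -, -⟩ := hf.seq hp.le
  set μ := Stmt.wm w with hμ
  have hp0 : 0 < p := by linarith
  have hP1 : (1 : ℝ≥0∞) ≤ ENNReal.ofReal p := by simpa using ENNReal.ofReal_le_ofReal hp.le
  have hP0 : ENNReal.ofReal p ≠ 0 := (ENNReal.ofReal_pos.2 hp0).ne'
  have hPt : ENNReal.ofReal p ≠ ∞ := ENNReal.ofReal_ne_top
  have hmB : 0 < μ.real (Metric.ball x r) :=
    ENNReal.toReal_pos (hpos x r hr).ne' (hfin x r).ne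
  haveI : IsFiniteMeasure (μ.restrict (Metric.ball x r)) := ⟨by simpa using hfin x r⟩
  -- inequality for the approximants
  have key : ∀ j, ∫ y in Metric.ball x r, |φ j y - (⨍ z in Metric.ball x r, φ j z ∂μ)| ∂μ ≤
      (|C| + 1) * r * μ.real (Metric.ball x r) * ((μ.real (Metric.ball x (lam * r)))⁻¹ *
        ∫ y in Metric.ball x (lam * r), ‖gradient (φ j) y‖ ^ p ∂μ) ^ (1 / p) := by
    intro j
    have hb : ∃ M : ℝ, ∀ y ∈ Metric.ball x (lam * r), |φ j y| ≤ M := by
      obtain ⟨M, hM⟩ := (hφ j).cont.bounded_above_of_compact_support (hφ j).comp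
      exact ⟨M, fun y _ => hM y⟩
    have hint : IntegrableOn (fun y => ‖gradient (φ j) y‖ ^ p) (Metric.ball x (lam * r)) μ := by
      have := ((hφ j).memLp_grad (μ := μ) (ENNReal.ofReal p)).integrable_norm_rpow hP0 hPt
      rw [ENNReal.toReal_ofReal hp0.le] at this
      exact this.integrableOn
    have h3 := hP x r hr (φ j) (isTest_iff.2 ((hφ j).mono (subset_univ _)))
    rw [setAverage_eq, setAverage_eq (f := fun y => ‖gradient (φ j) y‖ ^ p), smul_eq_mul, smul_eq_mul] at h3
    have h4 : 0 ≤ ((μ.real (Metric.ball x (lam * r)))⁻¹ *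
        ∫ y in Metric.ball x (lam * r), ‖gradient (φ j) y‖ ^ p ∂μ) ^ (1 / p) := by
      apply Real.rpow_nonneg
      apply mul_nonneg (by positivity)
      apply integral_nonneg
      intro y
      positivity
    have h5 : C * r * ((μ.real (Metric.ball x (lam * r)))⁻¹ *
        ∫ y in Metric.ball x (lam * r), ‖gradient (φ j) y‖ ^ p ∂μ) ^ (1 / p) ≤
        (|C| + 1) * r * ((μ.real (Metric.ball x (lam * r)))⁻¹ *
        ∫ y in Metric.ball x (lam * r), ‖gradient (φ j) y‖ ^ p ∂μ) ^ (1 / p) := by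
      have : C ≤ |C| + 1 := (le_abs_self C).trans (by linarith)
      gcongr
    have h6 := h3.trans h5
    rw [inv_mul_le_iff₀ hmB] at h6
    calc _ ≤ _ := h6
      _ = _ := by ring
  -- limit of the left-hand side
  have hL1 : Tendsto (fun j => ∫ y in Metric.ball x r, |f y - φ j y| ∂μ) atTop (𝓝 0) := by
    have h3 : Tendsto (fun j => eLpNorm (fun y => f y - φ j y) 1 (μ.restrict (Metric.ball x r))) atTop (𝓝 0) := by
      have h4 : ∀ j, eLpNorm (fun y => f y - φ j y) 1 (μ.restrict (Metric.ball x r)) ≤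
          eLpNorm (fun y => f y - φ j y) (ENNReal.ofReal p) μ *
            (μ.restrict (Metric.ball x r)) univ ^ (1 / (1 : ℝ≥0∞).toReal - 1 / (ENNReal.ofReal p).toReal) := by
        intro j
        refine (eLpNorm_le_eLpNorm_mul_rpow_measure_univ hP1 ?_).trans ?_
        · exact ((hf.mu.sub ((hφ j).memLp _)).1).restrict
        · gcongr
          exact Measure.restrict_le_self
      have h5 : Tendsto (fun j => eLpNorm (fun y => f y - φ j y) (ENNReal.ofReal p) μ *
            (μ.restrict (Metric.ball x r)) univ ^ (1 / (1 : ℝ≥0∞).toReal - 1 / (ENNReal.ofReal p).toReal)) atTop (𝓝 0) := by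
        have h6 : (μ.restrict (Metric.ball x r)) univ ^ (1 / (1 : ℝ≥0∞).toReal - 1 / (ENNReal.ofReal p).toReal) ≠ ∞ := by
          apply ENNReal.rpow_ne_top_of_nonneg
          · rw [ENNReal.toReal_ofReal hp0.le, ENNReal.toReal_one, div_one, sub_nonneg]
            rw [div_le_one hp0]
            exact hp.le
          · exact measure_ne_top _ _
        have h7 := ENNReal.Tendsto.mul_const h1 (Or.inr h6)
        simpa using h7
      exact tendsto_of_tendsto_of_tendsto_of_le_of_le tendsto_const_nhds h5 (fun _ => zero_le) h4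
    have h8 := (ENNReal.tendsto_toReal ENNReal.zero_ne_top).comp h3
    simp only [ENNReal.toReal_zero] at h8
    refine h8.congr fun j => ?_
    simp only [Function.comp]
    rw [eLpNorm_one_eq_lintegral_enorm]
    rw [integral_eq_lintegral_of_nonneg_ae (Eventually.of_forall fun y => abs_nonneg _)]
    · congr 1
      apply lintegral_congr
      intro y
      rw [← Real.norm_eq_abs, ofReal_norm]
    · exact ((hf.mu.sub ((hφ j).memLp _)).1).restrict.norm
  have hfi : IntegrableOn f (Metric.ball x r) μ :=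
    (hf.mu.restrict _).integrable hP1
  have hφi : ∀ j, IntegrableOn (φ j) (Metric.ball x r) μ := fun j =>
    (((hφ j).memLp (ENNReal.ofReal p)).restrict _).integrable hP1
  have havg : Tendsto (fun j => ⨍ z in Metric.ball x r, φ j z ∂μ) atTop (𝓝 (⨍ z in Metric.ball x r, f z ∂μ)) := by
    rw [tendsto_iff_norm_sub_tendsto_zero]
    have h3 : ∀ j, ‖(⨍ z in Metric.ball x r, φ j z ∂μ) - ⨍ z in Metric.ball x r, f z ∂μ‖ ≤
        (μ.real (Metric.ball x r))⁻¹ * ∫ y in Metric.ball x r, |f y - φ j y| ∂μ := by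
      intro j
      rw [setAverage_eq, setAverage_eq, ← smul_sub, ← integral_sub (hφi j) hfi, norm_smul,
        Real.norm_of_nonneg (by positivity)]
      gcongr
      refine (norm_integral_le_integral_norm _).trans (le_of_eq ?_)
      congr 1
      ext y
      rw [Real.norm_eq_abs, abs_sub_comm]
    have h4 : Tendsto (fun j => (μ.real (Metric.ball x r))⁻¹ * ∫ y in Metric.ball x r, |f y - φ j y| ∂μ) atTop (𝓝 0) := by
      simpa using hL1.const_mul (μ.real (Metric.ball x r))⁻¹
    exact squeeze_zero (fun _ => norm_nonneg _) h3 h4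
  set m := μ.real (Metric.ball x r) with hm
  have hLHS : ∀ j, ∫ y in Metric.ball x r, |f y - (⨍ z in Metric.ball x r, f z ∂μ)| ∂μ ≤
      (∫ y in Metric.ball x r, |f y - φ j y| ∂μ) +
      (∫ y in Metric.ball x r, |φ j y - (⨍ z in Metric.ball x r, φ j z ∂μ)| ∂μ) +
      m * |(⨍ z in Metric.ball x r, φ j z ∂μ) - ⨍ z in Metric.ball x r, f z ∂μ| := by
    intro j
    have i1 : IntegrableOn (fun y => |f y - φ j y|) (Metric.ball x r) μ := (hfi.sub (hφi j)).abs
    have i2 : IntegrableOn (fun y => |φ j y - (⨍ z in Metric.ball x r, φ j z ∂μ)|) (Metric.ball x r) μ :=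
      ((hφi j).sub (integrable_const _)).abs
    have i3 : IntegrableOn (fun _ : Sp n => |(⨍ z in Metric.ball x r, φ j z ∂μ) - ⨍ z in Metric.ball x r, f z ∂μ|)
      (Metric.ball x r) μ := integrable_const _
    have i4 : IntegrableOn (fun y => |f y - (⨍ z in Metric.ball x r, f z ∂μ)|) (Metric.ball x r) μ :=
      (hfi.sub (integrable_const _)).abs
    have i12 : Integrable (fun y => |f y - φ j y| + |φ j y - (⨍ z in Metric.ball x r, φ j z ∂μ)|) (μ.restrict (Metric.ball x r)) := i1.add i2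
    have h3 := integral_mono i4 (i12.add i3) (fun y => by
      simp only [Pi.add_apply]
      have h5 : f y - (⨍ z in Metric.ball x r, f z ∂μ) = (f y - φ j y) +
        (φ j y - (⨍ z in Metric.ball x r, φ j z ∂μ)) +
        ((⨍ z in Metric.ball x r, φ j z ∂μ) - ⨍ z in Metric.ball x r, f z ∂μ) := by ring
      rw [h5]
      exact (abs_add_le _ _).trans (add_le_add (abs_add_le _ _) le_rfl))
    refine h3.trans (le_of_eq ?_)
    rw [integral_add' i12 i3, integral_add i1 i2]
    simp [Measure.real, hm]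
  -- limit of the right-hand side
  have hRHS : Tendsto (fun j => ∫ y in Metric.ball x (lam * r), ‖gradient (φ j) y‖ ^ p ∂μ) atTop
      (𝓝 (∫ y in Metric.ball x (lam * r), ‖F y‖ ^ p ∂μ)) := by
    have h3 : Tendsto (fun j => eLpNorm (fun y => F y - gradient (φ j) y) (ENNReal.ofReal p)
        (μ.restrict (Metric.ball x (lam * r)))) atTop (𝓝 0) :=
      tendsto_of_tendsto_of_tendsto_of_le_of_le tendsto_const_nhds h2 (fun _ => zero_le)
        (fun j => eLpNorm_mono_measure _ Measure.restrict_le_self)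
    have h4 := tendsto_norm_of_eLpNorm hP1
      (fun j => ((hφ j).memLp_grad (μ := μ) (ENNReal.ofReal p)).restrict (Metric.ball x (lam * r)))
      (hf.mU.restrict (Metric.ball x (lam * r))) h3
    have h5 := h4.rpow_const (p := p) (Or.inr hp0.le)
    have h6 : ∀ (G : Sp n → Sp n), MemLp G (ENNReal.ofReal p) (μ.restrict (Metric.ball x (lam * r))) →
        (eLpNorm G (ENNReal.ofReal p) (μ.restrict (Metric.ball x (lam * r)))).toReal ^ p
        = ∫ y in Metric.ball x (lam * r), ‖G y‖ ^ p ∂μ := by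
      intro G hG
      rw [MemLp.eLpNorm_eq_integral_rpow_norm hP0 hPt hG, ENNReal.toReal_ofReal hp0.le,
        ENNReal.toReal_ofReal (by positivity), ← Real.rpow_mul (integral_nonneg fun y => by positivity),
        inv_mul_cancel₀ hp0.ne', Real.rpow_one]
    rw [h6 F (hf.mU.restrict _)] at h5
    refine h5.congr fun j => ?_
    exact h6 _ (((hφ j).memLp_grad (ENNReal.ofReal p)).restrict _)
  have hR := ((hRHS.const_mul (μ.real (Metric.ball x (lam * r)))⁻¹).rpow_const
    (p := 1 / p) (Or.inr (by positivity))).const_mul ((|C| + 1) * r * m)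
  have hT : Tendsto (fun j => (∫ y in Metric.ball x r, |f y - φ j y| ∂μ) +
      ((|C| + 1) * r * m * ((μ.real (Metric.ball x (lam * r)))⁻¹ *
        ∫ y in Metric.ball x (lam * r), ‖gradient (φ j) y‖ ^ p ∂μ) ^ (1 / p)) +
      m * |(⨍ z in Metric.ball x r, φ j z ∂μ) - ⨍ z in Metric.ball x r, f z ∂μ|) atTop
      (𝓝 (0 + ((|C| + 1) * r * m * ((μ.real (Metric.ball x (lam * r)))⁻¹ *
        ∫ y in Metric.ball x (lam * r), ‖F y‖ ^ p ∂μ) ^ (1 / p)) + m * 0)) := by
    refine (hL1.add hR).add (Tendsto.const_mul m ?_)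
    rw [tendsto_iff_norm_sub_tendsto_zero] at havg
    exact havg
  have hfinal := ge_of_tendsto' hT (fun j => (hLHS j).trans
    (add_le_add (add_le_add le_rfl (key j)) le_rfl))
  simpa using hfinal

theorem isHarmonic_of_LH' (hp : 1 < p) (hw : Wt p w)
    [IsFiniteMeasureOnCompacts (Stmt.wm w)]
    {G : Set (Sp n)} (hG : IsOpen G) {h : Sp n → ℝ} {H : Sp n → Sp n}
    (hc : ContinuousOn h (closure G)) (hLH : LH p (Stmt.wm w) G h H)
    (hint : ∀ φ, Cc G φ → ∫ x, ⟪(w x)⁻¹ • 𝒜 x (H x), gradient φ x⟫ ∂(Stmt.wm w) = 0) :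
    Stmt.IsHarmonic 𝒜 p w G h := by
  refine ⟨hc.mono subset_closure, H, LH.toH1Loc hp hG hLH, fun φ hφ => ?_⟩
  have h1 := hint φ (isTest_iff.1 hφ)
  have h2 := integral_wm' hw (fun x => ⟪𝒜 x (H x), gradient φ x⟫)
  rw [← h2, ← h1]
  congr 1
  ext x
  rw [real_inner_smul_left]


end Pool.Agent.Helper533.Polar
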