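import Pool.Agent.Helper533.Deny.B
open MeasureTheory Filter Topology Set
open scoped ENNReal NNReal RealInnerProductSpace

namespace Pool.Agent.Helper533.Polar

section


section SkelD
variable {n : ℕ} {p α β Cd θ Cs lam Cp : ℝ}


/-- bounded elements of `H0` -/
structure BH (p : ℝ) (μ : Measure (Sp n)) (D : Set (Sp n)) (f : Sp n → ℝ) (F : Sp n → Sp n) :
    Prop where
  h : H0 p μ D f F
  b : ∃ C, ∀ᵐ x ∂μ, |f x| ≤ C

section Aux
variable {μ : Measure (Sp n)} {D : Set (Sp n)} {f g u φ : Sp n → ℝ} {F G U Φ : Sp n → Sp n}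

theorem BH.congr (h : BH p μ D f F) (hf : ∀ x, f x = g x) (hF : ∀ x, F x = G x) : BH p μ D g G := by
  have e1 : f = g := funext hf
  have e2 : F = G := funext hF
  rw [← e1, ← e2]
  exact h

theorem BH.const_mul [IsFiniteMeasureOnCompacts μ] (c : ℝ) (h : BH p μ D f F) :
    BH p μ D (fun x => c * f x) (fun x => c • F x) := by
  obtain ⟨C, hC⟩ := h.b
  refine ⟨H0.const_mul c h.h, |c| * C, ?_⟩
  filter_upwards [hC] with x hx
  rw [abs_mul]
  gcongr

theorem BH.sub [IsFiniteMeasureOnCompacts μ] (hp : 1 < p) (h : BH p μ D f F) (h' : BH p μ D g G) :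
    BH p μ D (fun x => f x - g x) (fun x => F x - G x) := by
  obtain ⟨C, hC⟩ := h.b
  obtain ⟨C', hC'⟩ := h'.b
  refine ⟨H0.sub hp.le h.h h'.h, C + C', ?_⟩
  filter_upwards [hC, hC'] with x hx hx'
  exact (abs_sub _ _).trans (add_le_add hx hx')

theorem BH.mul' [IsFiniteMeasureOnCompacts μ] (hp : 1 < p) {D' : Set (Sp n)} (h : BH p μ D f F)
    (h' : BH p μ D' g G) :
    BH p μ (D ∩ D') (fun x => f x * g x) (fun x => f x • G x + g x • F x) := by
  obtain ⟨C, hC⟩ := h.b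
  obtain ⟨C', hC'⟩ := h'.b
  refine ⟨H0.mul_bdd (C := max C C') hp h.h h'.h ?_ ?_, C * C', ?_⟩
  · filter_upwards [hC] with x hx
    exact hx.trans (le_max_left _ _)
  · filter_upwards [hC'] with x hx
    exact hx.trans (le_max_right _ _)
  · filter_upwards [hC, hC'] with x hx hx'
    rw [abs_mul]
    exact mul_le_mul hx hx' (abs_nonneg _) ((abs_nonneg _).trans hx)

theorem BH.mul [IsFiniteMeasureOnCompacts μ] (hp : 1 < p) (h : BH p μ D f F)
    (h' : BH p μ D g G) :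
    BH p μ D (fun x => f x * g x) (fun x => f x • G x + g x • F x) := by
  have := BH.mul' hp h h'
  rwa [inter_self] at this

theorem BH.pow [IsFiniteMeasureOnCompacts μ] (hp : 1 < p) (h : BH p μ D f F) (k : ℕ) :
    BH p μ D (fun x => f x ^ (k + 1)) (fun x => (((k : ℝ) + 1) * f x ^ k) • F x) := by
  induction k with
  | zero =>
    refine h.congr (fun x => by simp) (fun x => by simp)
  | succ k ih =>
    refine (BH.mul hp ih h).congr (fun x => by ring) (fun x => ?_)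
    push_cast
    module

/-- multiplication by `c - u` with `u` a bounded element of some `H0` -/
theorem BH.mulc [IsFiniteMeasureOnCompacts μ] (hp : 1 < p) {D' : Set (Sp n)} (hD : D' ∩ D = D)
    (h : BH p μ D f F) (hu : BH p μ D' u U) (c : ℝ) :
    BH p μ D (fun x => (c - u x) * f x) (fun x => (c - u x) • F x - f x • U x) := by
  have h1 := BH.mul' hp hu h
  rw [hD] at h1
  refine (BH.sub hp (BH.const_mul c h) h1).congr (fun x => by ring) (fun x => ?_)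
  module

theorem BH.mulcpow [IsFiniteMeasureOnCompacts μ] (hp : 1 < p) {D' : Set (Sp n)} (hD : D' ∩ D = D)
    (h : BH p μ D f F) (hu : BH p μ D' u U) (c : ℝ) (k : ℕ) :
    BH p μ D (fun x => f x * (c - u x) ^ (k + 1))
      (fun x => (c - u x) ^ (k + 1) • F x - (((k : ℝ) + 1) * (c - u x) ^ k * f x) • U x) := by
  induction k with
  | zero =>
    refine (BH.mulc hp hD h hu c).congr (fun x => by ring) (fun x => ?_)
    simp
  | succ k ih =>
    refine (BH.mulc hp hD ih hu c).congr (fun x => by ring) (fun x => ?_)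
    push_cast
    module

end Aux

/-- core estimate for a supersolution `u` and a function `v` which is a subsolution on
test functions controlled by `(v - u - e)₊ (1 - φ)` -/
theorem core_obs_energy {M0 : ℝ} (hp : 1 < p) (hα : 0 < α) (hβ : 0 < β) (hM0 : 0 ≤ M0) :
    ∃ N : ℕ, ∃ C : ℝ, 0 ≤ C ∧ ∀ (A : Sp n → Sp n → Sp n) (μ : Measure (Sp n))
      [IsFiniteMeasureOnCompacts μ], Op p α β μ A → ∀ (D : Set (Sp n))
      (u v φ : Sp n → ℝ) (U V Φ : Sp n → Sp n) (e : ℝ), 0 ≤ e →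
      HSup A p μ D u U → H0 p μ D v V → (∀ᵐ x ∂μ, |u x| ≤ M0 ∧ |v x| ≤ M0) →
      H0 p μ univ φ Φ → (∀ᵐ x ∂μ, 0 ≤ φ x ∧ φ x ≤ 1) →
      (∀ T TT, H0 p μ D T TT → (∀ᵐ x ∂μ, 0 ≤ T x) →
        (∃ C' : ℝ, ∀ᵐ x ∂μ, T x ≤ C' * (max (v x - u x - e) 0 * (1 - φ x))) →
        ∫ x, ⟪A x (V x), TT x⟫ ∂μ ≤ 0) →
      ∃ TT : Sp n → Sp n, H0 p μ D (fun x => (max (v x - u x - e) 0 * (1 - φ x)) ^ (N + 1)) TT ∧
        eLpNorm TT (ENNReal.ofReal p) μ ≤ ENNReal.ofReal C * eLpNorm Φ (ENNReal.ofReal p) μ := by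
  have hp0 : 0 < p := by linarith
  obtain ⟨N, hNdef⟩ : ∃ N : ℕ, N = max 2 ⌈p⌉₊ := ⟨_, rfl⟩
  have hN2 : 2 ≤ N := by rw [hNdef]; exact le_max_left _ _
  have hNp : p ≤ N := by
    refine (Nat.le_ceil p).trans ?_
    rw [hNdef]
    exact_mod_cast le_max_right _ _
  obtain ⟨C', C2, L, hC', hC2, hL, halg⟩ := core_alg2 (E := Sp n) (p := p) (α := α) (β := β)
    (M0 := 2 * M0 + 1) (Z0 := 2 * M0 + 1) hp hα hβ (by linarith) (by linarith) N hNp hN2
  refine ⟨N, C2 ^ (1 / p), Real.rpow_nonneg hC2 _, ?_⟩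
  intro A μ _ hA D u v φ U V Φ e he hu hv hb hφ hφ01 hlast
  obtain ⟨K, rfl⟩ : ∃ K, N = K + 2 := ⟨N - 2, by omega⟩
  obtain ⟨z, hz⟩ : ∃ z : Sp n → ℝ, z = fun x => max (v x - u x - e) 0 := ⟨_, rfl⟩
  obtain ⟨s, hs⟩ : ∃ s : Sp n → ℝ, s = fun x => 1 - φ x := ⟨_, rfl⟩
  obtain ⟨m, hm⟩ : ∃ m : Sp n → ℝ, m = fun x => M0 + 1 - u x := ⟨_, rfl⟩
  obtain ⟨Z, hZ⟩ : ∃ Z : Sp n → Sp n,
    Z = fun x => (if e < v x - u x then (1 : ℝ) else 0) • (V x - U x) := ⟨_, rfl⟩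
  have hzb : ∀ᵐ x ∂μ, 0 ≤ z x ∧ z x ≤ 2 * M0 + 1 := by
    filter_upwards [hb] with x hx
    obtain ⟨h1, h2⟩ := hx
    rw [abs_le] at h1 h2
    rw [hz]
    refine ⟨le_max_right _ _, max_le ?_ ?_⟩ <;> linarith
  have hsb : ∀ᵐ x ∂μ, 0 ≤ s x ∧ s x ≤ 1 := by
    filter_upwards [hφ01] with x hx
    rw [hs]
    constructor <;> linarith [hx.1, hx.2]
  have hmb : ∀ᵐ x ∂μ, 1 ≤ m x ∧ m x ≤ 2 * M0 + 1 := by
    filter_upwards [hb] with x hx
    have h1 := abs_le.1 hx.1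
    rw [hm]
    constructor <;> linarith [h1.1, h1.2]
  have hzZ : BH p μ D z Z := by
    rw [hz, hZ]
    refine ⟨H0.pos hp (H0.sub hp.le hv hu.h0) he, 2 * M0 + 1, ?_⟩
    rw [hz] at hzb
    filter_upwards [hzb] with x hx
    rw [abs_of_nonneg hx.1]
    exact hx.2
  have huU : BH p μ D u U := ⟨hu.h0, M0, hb.mono fun x hx => hx.1⟩
  have hφΦ : BH p μ univ φ Φ := ⟨hφ, 1, hφ01.mono fun x hx => by
    rw [abs_of_nonneg hx.1]; exact hx.2⟩
  have hDu : univ ∩ D = D := univ_inter D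
  have hDD : D ∩ D = D := inter_self D
  -- the test functions
  have hT3 : BH p μ D (fun x => z x ^ (K + 1) * s x ^ (K + 2))
      (fun x => (((K + 2 : ℕ) - 1 : ℝ) * z x ^ K * s x ^ (K + 2)) • Z x
            - (((K + 2 : ℕ) : ℝ) * z x ^ (K + 1) * s x ^ (K + 1)) • Φ x) := by
    have h1 := BH.mulcpow hp hDu (BH.pow hp hzZ K) hφΦ 1 (K + 1)
    rw [hs]
    refine h1.congr (fun x => rfl) (fun x => ?_)
    push_cast
    module
  have hT1 : BH p μ D (fun x => m x * (z x ^ (K + 2) * s x ^ (K + 2)))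
      (fun x => (-(z x ^ (K + 2) * s x ^ (K + 2))) • U x + (m x * (((K + 2 : ℕ) : ℝ) * z x ^ (K + 1) * s x ^ (K + 2))) • Z x
            - (m x * (((K + 2 : ℕ) : ℝ) * z x ^ (K + 2) * s x ^ (K + 1))) • Φ x) := by
    have h1 := BH.mulc hp hDD (BH.mulcpow hp hDu (BH.pow hp hzZ (K + 1)) hφΦ 1 (K + 1)) huU (M0 + 1)
    rw [hs, hm]
    refine h1.congr (fun x => rfl) (fun x => ?_)
    push_cast
    module
  have hT2 : BH p μ D (fun x => m x ^ 2 / 2 * (z x ^ (K + 1) * s x ^ (K + 2)))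
      (fun x => (-(m x * (z x ^ (K + 1) * s x ^ (K + 2)))) • U x
            + (m x ^ 2 / 2 * (((K + 2 : ℕ) - 1 : ℝ) * z x ^ K * s x ^ (K + 2))) • Z x
            - (m x ^ 2 / 2 * (((K + 2 : ℕ) : ℝ) * z x ^ (K + 1) * s x ^ (K + 1))) • Φ x) := by
    have h1 := BH.const_mul (1 / 2) (BH.mulc hp hDD (BH.mulc hp hDD hT3 huU (M0 + 1)) huU (M0 + 1))
    rw [hm]
    refine h1.congr (fun x => by ring) (fun x => ?_)
    module
  have hTT : BH p μ D (fun x => (z x * s x) ^ (K + 2 + 1))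
      (fun x => ((((K + 2 : ℕ) : ℝ) + 1) * (z x * s x) ^ (K + 2)) • (s x • Z x - z x • Φ x)) := by
    have h1 := BH.mulcpow hp hDu (BH.pow hp hzZ (K + 2)) hφΦ 1 (K + 2)
    rw [hs]
    refine h1.congr (fun x => by rw [mul_pow]) (fun x => ?_)
    rw [mul_pow]
    push_cast
    module
  obtain ⟨F1, hF1⟩ : ∃ F1 : Sp n → Sp n, F1 = (fun x => (-(z x ^ (K + 2) * s x ^ (K + 2))) • U x + (m x * (((K + 2 : ℕ) : ℝ) * z x ^ (K + 1) * s x ^ (K + 2))) • Z x
            - (m x * (((K + 2 : ℕ) : ℝ) * z x ^ (K + 2) * s x ^ (K + 1))) • Φ x) := ⟨_, rfl⟩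
  obtain ⟨F2, hF2⟩ : ∃ F2 : Sp n → Sp n, F2 = (fun x => (-(m x * (z x ^ (K + 1) * s x ^ (K + 2)))) • U x
            + (m x ^ 2 / 2 * (((K + 2 : ℕ) - 1 : ℝ) * z x ^ K * s x ^ (K + 2))) • Z x
            - (m x ^ 2 / 2 * (((K + 2 : ℕ) : ℝ) * z x ^ (K + 1) * s x ^ (K + 1))) • Φ x) := ⟨_, rfl⟩
  obtain ⟨F3, hF3⟩ : ∃ F3 : Sp n → Sp n, F3 = (fun x => (((K + 2 : ℕ) - 1 : ℝ) * z x ^ K * s x ^ (K + 2)) • Z x
            - (((K + 2 : ℕ) : ℝ) * z x ^ (K + 1) * s x ^ (K + 1)) • Φ x) := ⟨_, rfl⟩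
  obtain ⟨TT, hTTd⟩ : ∃ TT : Sp n → Sp n, TT = (fun x => ((((K + 2 : ℕ) : ℝ) + 1) * (z x * s x) ^ (K + 2)) • (s x • Z x - z x • Φ x)) := ⟨_, rfl⟩
  rw [← hF1] at hT1
  rw [← hF2] at hT2
  rw [← hF3] at hT3
  rw [← hTTd] at hTT
  have hT1n : ∀ᵐ x ∂μ, 0 ≤ m x * (z x ^ (K + 2) * s x ^ (K + 2)) := by
    filter_upwards [hzb, hsb, hmb] with x h1 h2 h3
    have := h1.1; have := h2.1; have := h3.1
    positivity
  have hT3n : ∀ᵐ x ∂μ, 0 ≤ z x ^ (K + 1) * s x ^ (K + 2) := by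
    filter_upwards [hzb, hsb, hmb] with x h1 h2 h3
    have := h1.1; have := h2.1; have := h3.1
    positivity
  have hT2n : ∀ᵐ x ∂μ, 0 ≤ m x ^ 2 / 2 * (z x ^ (K + 1) * s x ^ (K + 2)) := by
    filter_upwards [hzb, hsb, hmb] with x h1 h2 h3
    have := h1.1; have := h2.1; have := h3.1
    positivity
  have hT3le : ∀ᵐ x ∂μ, z x ^ (K + 1) * s x ^ (K + 2) ≤
      (2 * M0 + 1) ^ K * (max (v x - u x - e) 0 * (1 - φ x)) := by
    filter_upwards [hzb, hsb, hmb] with x h1 h2 h3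
    have e1 : max (v x - u x - e) 0 = z x := by rw [hz]
    have e2 : 1 - φ x = s x := by rw [hs]
    rw [e1, e2]
    have e3 : z x ^ (K + 1) * s x ^ (K + 2) = (z x ^ K * s x ^ (K + 1)) * (z x * s x) := by ring
    rw [e3]
    refine mul_le_mul_of_nonneg_right ?_ (mul_nonneg h1.1 h2.1)
    calc z x ^ K * s x ^ (K + 1) ≤ (2 * M0 + 1) ^ K * 1 :=
          mul_le_mul (pow_le_pow_left₀ h1.1 h1.2 _) (pow_le_one₀ h2.1 h2.2) (pow_nonneg h2.1 _)
            (by positivity)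
      _ = (2 * M0 + 1) ^ K := mul_one _
  have hT2le : ∀ᵐ x ∂μ, m x ^ 2 / 2 * (z x ^ (K + 1) * s x ^ (K + 2)) ≤
      ((2 * M0 + 1) ^ 2 / 2 * (2 * M0 + 1) ^ K) * (max (v x - u x - e) 0 * (1 - φ x)) := by
    filter_upwards [hT3le, hT3n, hmb] with x h1 h2 h3
    rw [mul_assoc]
    refine mul_le_mul ?_ h1 h2 (by positivity)
    have : m x ^ 2 ≤ (2 * M0 + 1) ^ 2 := pow_le_pow_left₀ (by linarith [h3.1]) h3.2 _
    linarith
  have pU1 := hu.test _ _ hT1.h hT1n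
  have pU2 := hu.test _ _ hT2.h hT2n
  have pU3 := hu.test _ _ hT3.h hT3n
  have pV2 := hlast _ _ hT2.h hT2n ⟨_, hT2le⟩
  have pV3 := hlast _ _ hT3.h hT3n ⟨_, hT3le⟩
  have iU1 := int_inner hp hA hu.h0.mU hT1.h.mU
  have iU2 := int_inner hp hA hu.h0.mU hT2.h.mU
  have iU3 := int_inner hp hA hu.h0.mU hT3.h.mU
  have iV2 := int_inner hp hA hv.mU hT2.h.mU
  have iV3 := int_inner hp hA hv.mU hT3.h.mU
  obtain ⟨W1, hW1⟩ : ∃ W1 : Sp n → ℝ, W1 = fun x => ⟪A x (U x), F1 x⟫ := ⟨_, rfl⟩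
  obtain ⟨W2, hW2⟩ : ∃ W2 : Sp n → ℝ, W2 = fun x => ⟪A x (V x) - A x (U x), F2 x⟫ := ⟨_, rfl⟩
  obtain ⟨W3, hW3⟩ : ∃ W3 : Sp n → ℝ, W3 = fun x => ⟪A x (V x) - A x (U x), F3 x⟫ := ⟨_, rfl⟩
  have iW1 : Integrable W1 μ := by rw [hW1]; exact iU1
  have pW1 : 0 ≤ ∫ x, W1 x ∂μ := by rw [hW1]; exact pU1
  have eW2 : W2 = fun x => ⟪A x (V x), F2 x⟫ - ⟪A x (U x), F2 x⟫ := by
    rw [hW2]; funext x; rw [inner_sub_left]
  have eW3 : W3 = fun x => ⟪A x (V x), F3 x⟫ - ⟪A x (U x), F3 x⟫ := by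
    rw [hW3]; funext x; rw [inner_sub_left]
  have iW2 : Integrable W2 μ := by rw [eW2]; exact iV2.sub iU2
  have iW3 : Integrable W3 μ := by rw [eW3]; exact iV3.sub iU3
  have pW2 : ∫ x, W2 x ∂μ ≤ 0 := by
    rw [eW2, integral_sub iV2 iU2]
    linarith
  have pW3 : ∫ x, W3 x ∂μ ≤ 0 := by
    rw [eW3, integral_sub iV3 iU3]
    linarith
  have hH0 : H0 p μ D (fun x => (z x * s x) ^ (K + 2 + 1)) TT := hTT.h
  refine ⟨TT, ?_, ?_⟩
  · rw [hz, hs] at hH0
    exact hH0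
  -- energy estimate
  have hpE0 : ENNReal.ofReal p ≠ 0 := (ENNReal.ofReal_pos.2 hp0).ne'
  have hpEt : ENNReal.ofReal p ≠ ∞ := ENNReal.ofReal_ne_top
  have hop : ∀ᵐ x ∂μ, OpPt p α β (A x) := by
    filter_upwards [hA.coer, hA.bdd, hA.mono, hA.hom] with x h1 h2 h3 h4
    exact ⟨h1, h2, h3, h4⟩
  have hTi := hH0.mU.integrable_norm_rpow hpE0 hpEt
  have hΦi := hφ.mU.integrable_norm_rpow hpE0 hpEt
  rw [ENNReal.toReal_ofReal hp0.le] at hTi hΦi
  have hpt : ∀ᵐ x ∂μ, ‖TT x‖ ^ p ≤ C' * (-((p - 1) * W1 x) + ((K + 2 : ℕ) : ℝ) * W2 x + L * W3 x)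
      + C2 * ‖Φ x‖ ^ p := by
    filter_upwards [hop, hzb, hsb, hmb] with x h1 h2 h3 h4
    obtain ⟨hz0, hz1⟩ := h2
    rw [hTTd, hW1, hW2, hW3, hF1, hF2, hF3]
    simp only []
    rcases hz0.eq_or_lt with h0 | h0
    · have hZ0 : Z x = 0 := by
        have h5 : v x - u x - e ≤ 0 := by
          have h6 : max (v x - u x - e) 0 = 0 := by
            rw [hz] at h0
            exact h0.symm
          exact le_of_le_of_eq (le_max_left _ _) h6
        rw [hZ]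
        change (if e < v x - u x then (1 : ℝ) else 0) • (V x - U x) = 0
        rw [if_neg (by linarith), zero_smul]
      have e1 : (0 : ℝ) ^ (K + 2) = 0 := zero_pow (by omega)
      have e2 : (0 : ℝ) ^ (K + 1) = 0 := zero_pow (by omega)
      have hΦ0 : 0 ≤ C2 * ‖Φ x‖ ^ p := mul_nonneg hC2 (Real.rpow_nonneg (norm_nonneg _) _)
      rw [← h0, hZ0]
      simp only [zero_mul, e1, e2, mul_zero, neg_zero, zero_smul, smul_zero, add_zero, sub_zero,
        inner_zero_right, norm_zero, sub_self, zero_add]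
      rw [Real.zero_rpow hp0.ne']
      exact hΦ0
    · have hZ1 : Z x = V x - U x := by
        have h5 : e < v x - u x := by
          by_contra hcon
          have h6 : z x = 0 := by
            rw [hz]
            exact max_eq_right (by linarith)
          linarith
        rw [hZ]
        change (if e < v x - u x then (1 : ℝ) else 0) • (V x - U x) = _
        rw [if_pos h5, one_smul]
      rw [hZ1]
      exact halg (A x) h1 (U x) (V x) (Φ x) (m x) (z x) (s x) h4.1 h4.2 h0 hz1 h3.1 h3.2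
  have hint : Integrable (fun x => C' * (-((p - 1) * W1 x) + ((K + 2 : ℕ) : ℝ) * W2 x + L * W3 x)
      + C2 * ‖Φ x‖ ^ p) μ :=
    (((((iW1.const_mul (p - 1)).neg).add (iW2.const_mul ((K + 2 : ℕ) : ℝ))).add
      (iW3.const_mul L)).const_mul C').add (hΦi.const_mul C2)
  have hle := integral_mono_ae hTi hint hpt
  have hval : ∫ x, (C' * (-((p - 1) * W1 x) + ((K + 2 : ℕ) : ℝ) * W2 x + L * W3 x) + C2 * ‖Φ x‖ ^ p) ∂μ
      = C' * (-((p - 1) * ∫ x, W1 x ∂μ) + ((K + 2 : ℕ) : ℝ) * (∫ x, W2 x ∂μ) + L * ∫ x, W3 x ∂μ)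
        + C2 * ∫ x, ‖Φ x‖ ^ p ∂μ := by
    have j1 : Integrable (fun x => -((p - 1) * W1 x)) μ := (iW1.const_mul (p - 1)).neg
    have j2 : Integrable (fun x => ((K + 2 : ℕ) : ℝ) * W2 x) μ := iW2.const_mul ((K + 2 : ℕ) : ℝ)
    have j3 : Integrable (fun x => L * W3 x) μ := iW3.const_mul L
    have j12 : Integrable (fun x => -((p - 1) * W1 x) + ((K + 2 : ℕ) : ℝ) * W2 x) μ := j1.add j2
    have j123 : Integrable (fun x => -((p - 1) * W1 x) + ((K + 2 : ℕ) : ℝ) * W2 x + L * W3 x) μ := j12.add j3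
    rw [integral_add (j123.const_mul C') (hΦi.const_mul C2), integral_const_mul,
      integral_const_mul, integral_add j12 j3, integral_add j1 j2, integral_neg,
      integral_const_mul, integral_const_mul, integral_const_mul]
  have hfin : ∫ x, ‖TT x‖ ^ p ∂μ ≤ C2 * ∫ x, ‖Φ x‖ ^ p ∂μ := by
    refine hle.trans ?_
    rw [hval]
    have k1 : 0 ≤ (p - 1) * ∫ x, W1 x ∂μ := mul_nonneg (by linarith) pW1
    have k2 : ((K + 2 : ℕ) : ℝ) * ∫ x, W2 x ∂μ ≤ 0 := mul_nonpos_of_nonneg_of_nonpos (Nat.cast_nonneg _) pW2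
    have k3 : L * ∫ x, W3 x ∂μ ≤ 0 := mul_nonpos_of_nonneg_of_nonpos hL pW3
    have k4 : C' * (-((p - 1) * ∫ x, W1 x ∂μ) + ((K + 2 : ℕ) : ℝ) * (∫ x, W2 x ∂μ) + L * ∫ x, W3 x ∂μ) ≤ 0 :=
      mul_nonpos_of_nonneg_of_nonpos hC' (by linarith)
    linarith
  rw [MemLp.eLpNorm_eq_integral_rpow_norm hpE0 hpEt hH0.mU,
    MemLp.eLpNorm_eq_integral_rpow_norm hpE0 hpEt hφ.mU, ENNReal.toReal_ofReal hp0.le,
    ← ENNReal.ofReal_mul (Real.rpow_nonneg hC2 _)]
  apply ENNReal.ofReal_le_ofReal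
  have hT0 : 0 ≤ ∫ x, ‖TT x‖ ^ p ∂μ := integral_nonneg fun x => Real.rpow_nonneg (norm_nonneg _) _
  have hF0 : 0 ≤ ∫ x, ‖Φ x‖ ^ p ∂μ := integral_nonneg fun x => Real.rpow_nonneg (norm_nonneg _) _
  calc (∫ x, ‖TT x‖ ^ p ∂μ) ^ p⁻¹ ≤ (C2 * ∫ x, ‖Φ x‖ ^ p ∂μ) ^ p⁻¹ :=
        Real.rpow_le_rpow hT0 hfin (by positivity)
    _ = C2 ^ (1 / p) * (∫ x, ‖Φ x‖ ^ p ∂μ) ^ p⁻¹ := by
        rw [Real.mul_rpow hC2 hF0, one_div]

end SkelD


end

section


section SkelD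
variable {n : ℕ} {p α β Cd θ Cs lam Cp : ℝ}


/-- two obstacle solutions whose obstacles are ordered off `V` -/
theorem obs_energy {μ : Measure (Sp n)} [IsFiniteMeasureOnCompacts μ] {A : Sp n → Sp n → Sp n}
    {D : Set (Sp n)} {M : ℝ} (hp : 1 < p) (hα : 0 < α) (hβ : 0 < β)
    (hA : Op p α β μ A) (hadm : Adm p μ Cd θ Cs lam Cp) (hD : IsOpen D)
    (hDb : Bornology.IsBounded D) (hM : 0 ≤ M) :
    ∃ N : ℕ, ∃ C : ℝ, 0 ≤ C ∧ ∀ (ρ ω ρ' ω' φ : Sp n → ℝ) (W W' Φ : Sp n → Sp n) (V : Set (Sp n))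
      (e : ℝ), 0 ≤ e → Cc D ρ → CObs A p μ D ρ ω W → Cc D ρ' → CObs A p μ D ρ' ω' W' →
      (∀ x, 0 ≤ ρ x ∧ ρ x ≤ M) → (∀ x, 0 ≤ ρ' x ∧ ρ' x ≤ M) →
      (∀ x ∈ D, x ∉ V → ρ x ≤ ρ' x + e) →
      H0 p μ univ φ Φ → (∀ᵐ x ∂μ, 0 ≤ φ x ∧ φ x ≤ 1) → (∀ᵐ x ∂μ, x ∈ V → φ x = 1) →
      eLpNorm (fun x => (max (ω x - ω' x - e) 0 * (1 - φ x)) ^ (N + 1)) (ENNReal.ofReal p) μ ≤
        ENNReal.ofReal C * eLpNorm Φ (ENNReal.ofReal p) μ := by
  obtain ⟨N, C, hC, hcore⟩ := core_obs_energy (n := n) (M0 := M) hp hα hβ hM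
  obtain ⟨CF, hCF, hfr⟩ := friedrichs hp hadm hDb
  refine ⟨N, CF * C, mul_nonneg hCF hC, ?_⟩
  intro ρ ω ρ' ω' φ W W' Φ V e he hρc hω hρ'c hω' hρb hρ'b hord hφ hφ01 hφV
  have hbd : ∀ (ρ ω : Sp n → ℝ) (W : Sp n → Sp n), CObs A p μ D ρ ω W →
      (∀ x, 0 ≤ ρ x ∧ ρ x ≤ M) → ∀ᵐ x ∂μ, |ω x| ≤ M := by
    intro ρ ω W hω hρb
    have h1 := hω.le_const hp hα hβ hA hadm hD hDb hM (fun x => (hρb x).2)
    filter_upwards [hω.obs.ge, hω.obs.h0.zero_outside hp] with x hx1 hx2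
    rw [abs_le]
    have h2 := (hρb x).1
    refine ⟨by linarith, ?_⟩
    by_cases hxD : x ∈ D
    · exact h1 x hxD
    · rw [(hx2 hxD).1]; exact hM
  have htest : ∀ T TT, H0 p μ D T TT → (∀ᵐ x ∂μ, 0 ≤ T x) →
      (∃ C' : ℝ, ∀ᵐ x ∂μ, T x ≤ C' * (max (ω x - ω' x - e) 0 * (1 - φ x))) →
      ∫ x, ⟪A x (W x), TT x⟫ ∂μ ≤ 0 := by
    rintro T TT hT hT0 ⟨C', hC'⟩
    set c : ℝ := max C' 1 with hc
    have hc0 : 0 < c := lt_of_lt_of_le one_pos (le_max_right _ _)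
    have hv := H0.sub hp.le hω.obs.h0 (H0.const_mul (1 / c) hT)
    have hge : ∀ᵐ x ∂μ, ρ x ≤ ω x - (1 / c) * T x := by
      filter_upwards [hω.obs.ge, hω'.obs.ge, hT0, hC', hφ01, hφV, hω.obs.h0.zero_outside hp,
        hω'.obs.h0.zero_outside hp] with x h1 h2 h3 h4 h5 h6 h7 h8
      have hz0 : 0 ≤ max (ω x - ω' x - e) 0 := le_max_right _ _
      have hzz : 0 ≤ max (ω x - ω' x - e) 0 * (1 - φ x) := mul_nonneg hz0 (by linarith [h5.2])
      have h9 : T x ≤ c * (max (ω x - ω' x - e) 0 * (1 - φ x)) :=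
        h4.trans (mul_le_mul_of_nonneg_right (le_max_left _ _) hzz)
      have h10 : (1 / c) * T x ≤ max (ω x - ω' x - e) 0 * (1 - φ x) := by
        rw [one_div, inv_mul_le_iff₀ hc0]
        exact h9
      by_cases hxV : x ∈ V
      · rw [h6 hxV, sub_self, mul_zero] at h10
        linarith
      · by_cases hxD : x ∈ D
        · have h11 : max (ω x - ω' x - e) 0 * (1 - φ x) ≤ max (ω x - ω' x - e) 0 :=
            mul_le_of_le_one_right hz0 (by linarith [h5.1])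
          rcases le_total (ω x - ω' x - e) 0 with h12 | h12
          · rw [max_eq_right h12] at h10 h11
            linarith
          · rw [max_eq_left h12] at h10 h11
            have := hord x hxD hxV
            linarith
        · have h13 : ρ x = 0 := zero_of_notMem (fun h => hxD (hρc.supp h))
          rw [(h7 hxD).1, (h8 hxD).1] at h10
          have h14 : max ((0 : ℝ) - 0 - e) 0 = 0 := by
            apply max_eq_right
            linarith
          rw [h14, zero_mul] at h10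
          rw [h13, (h7 hxD).1]
          linarith
    have hvi := hω.obs.vi _ _ hv hge
    have h15 : ∫ x, ⟪A x (W x), (W x - (1 / c) • TT x) - W x⟫ ∂μ =
        (-(1 / c)) * ∫ x, ⟪A x (W x), TT x⟫ ∂μ := by
      rw [← integral_const_mul]
      refine integral_congr_ae (Filter.Eventually.of_forall fun x => ?_)
      show ⟪A x (W x), (W x - (1 / c) • TT x) - W x⟫ = (-(1 / c)) * ⟪A x (W x), TT x⟫
      rw [sub_sub_cancel_left, inner_neg_right, real_inner_smul_right]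
      ring
    have hvi' : 0 ≤ ∫ x, ⟪A x (W x), (W x - (1 / c) • TT x) - W x⟫ ∂μ := hvi
    rw [h15] at hvi'
    have h16 : 0 < 1 / c := by positivity
    by_contra hcon
    rw [not_le] at hcon
    nlinarith
  obtain ⟨TT, hTT, hle⟩ := hcore A μ hA D ω' ω φ W' W Φ e he (hω'.hsup hp) hω.obs.h0
    (by
      filter_upwards [hbd ρ ω W hω hρb, hbd ρ' ω' W' hω' hρ'b] with x h1 h2
      exact ⟨h2, h1⟩) hφ hφ01 htest
  refine (hfr _ _ hTT).trans ?_
  rw [ENNReal.ofReal_mul hCF, mul_assoc]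
  exact mul_le_mul_right hle _

end SkelD


end

section


section SkelD
variable {n : ℕ} {p α β Cd θ Cs lam Cp : ℝ}



theorem markov_aux {μ : Measure (Sp n)} {r : ℝ} (hr : 0 < r) {f : Sp n → ℝ}
    (hf : AEStronglyMeasurable f μ) {a b : ℝ} (ha : 0 < a) (hb : 0 ≤ b)
    (h : eLpNorm f (ENNReal.ofReal r) μ ≤ ENNReal.ofReal b) :
    μ {x | a ≤ |f x|} ≤ ENNReal.ofReal ((b / a) ^ r) := by
  have hq0 : ENNReal.ofReal r ≠ 0 := by simpa using hr
  have h1 := mul_meas_ge_le_pow_eLpNorm' μ hq0 ENNReal.ofReal_ne_top hf (ENNReal.ofReal a)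
  rw [ENNReal.toReal_ofReal hr.le] at h1
  have h2 : {x | ENNReal.ofReal a ≤ ‖f x‖ₑ} = {x | a ≤ |f x|} := by
    ext x
    simp only [Set.mem_setOf_eq, Real.enorm_eq_ofReal_abs]
    exact ENNReal.ofReal_le_ofReal_iff (abs_nonneg _)
  rw [h2, ENNReal.ofReal_rpow_of_pos ha] at h1
  have h3 : eLpNorm f (ENNReal.ofReal r) μ ^ r ≤ ENNReal.ofReal (b ^ r) := by
    rw [← ENNReal.ofReal_rpow_of_nonneg hb hr.le]
    exact ENNReal.rpow_le_rpow h hr.le
  have h4 := h1.trans h3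
  have har : 0 < a ^ r := Real.rpow_pos_of_pos ha r
  rw [Real.div_rpow hb ha.le, ENNReal.ofReal_div_of_pos har,
    ENNReal.le_div_iff_mul_le (Or.inl (by simpa using har)) (Or.inl ENNReal.ofReal_ne_top), mul_comm]
  exact h4

/-- smallness in measure -/
theorem obs_small {μ : Measure (Sp n)} [IsFiniteMeasureOnCompacts μ] {A : Sp n → Sp n → Sp n}
    {D : Set (Sp n)} {M : ℝ} (hp : 1 < p) (hα : 0 < α) (hβ : 0 < β)
    (hA : Op p α β μ A) (hadm : Adm p μ Cd θ Cs lam Cp) (hD : IsOpen D)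
    (hDb : Bornology.IsBounded D) (hM : 0 ≤ M) {d η : ℝ} (hd : 0 < d) (hη : 0 < η) :
    ∃ κ : ℝ, 0 < κ ∧ ∀ (ρ ω ρ' ω' φ : Sp n → ℝ) (W W' Φ : Sp n → Sp n) (V : Set (Sp n))
      (e : ℝ), 0 ≤ e → Cc D ρ → CObs A p μ D ρ ω W → Cc D ρ' → CObs A p μ D ρ' ω' W' →
      (∀ x, 0 ≤ ρ x ∧ ρ x ≤ M) → (∀ x, 0 ≤ ρ' x ∧ ρ' x ≤ M) →
      (∀ x ∈ D, x ∉ V → ρ x ≤ ρ' x + e) →
      H0 p μ univ φ Φ → (∀ᵐ x ∂μ, 0 ≤ φ x ∧ φ x ≤ 1) → (∀ᵐ x ∂μ, x ∈ V → φ x = 1) →
      eLpNorm φ (ENNReal.ofReal p) μ ≤ ENNReal.ofReal κ →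
      eLpNorm Φ (ENNReal.ofReal p) μ ≤ ENNReal.ofReal κ →
      μ {x | x ∈ D ∧ d < ω x - ω' x - e} ≤ ENNReal.ofReal η := by
  obtain ⟨N, C, hC, hE⟩ := obs_energy (μ := μ) (A := A) (D := D) (M := M) hp hα hβ hA hadm hD hDb hM
  have hp0 : 0 < p := by linarith
  set t : ℝ := (η / 2) ^ (1 / p) with ht
  have htpos : 0 < t := Real.rpow_pos_of_pos (by linarith) _
  have htp : t ^ p = η / 2 := by
    rw [ht, ← Real.rpow_mul (by linarith), one_div_mul_cancel hp0.ne', Real.rpow_one]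
  set b : ℝ := (d / 2) ^ (N + 1) with hb
  have hbpos : 0 < b := pow_pos (by linarith) _
  have hC1 : 0 < C + 1 := by linarith
  refine ⟨min (t / 2) (t * b / (C + 1)), lt_min (by linarith) (by positivity), ?_⟩
  intro ρ ω ρ' ω' φ W W' Φ V e he hρ hω hρ' hω' hM1 hM2 hV hφ hφ01 hφV hk1 hk2
  set κ : ℝ := min (t / 2) (t * b / (C + 1)) with hκ
  have hκpos : 0 < κ := lt_min (by linarith) (by positivity)
  have hκ1 : κ ≤ t / 2 := min_le_left _ _
  have hκ2 : κ ≤ t * b / (C + 1) := min_le_right _ _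
  have hEn := hE ρ ω ρ' ω' φ W W' Φ V e he hρ hω hρ' hω' hM1 hM2 hV hφ hφ01 hφV
  set f : Sp n → ℝ := fun x => (max (ω x - ω' x - e) 0 * (1 - φ x)) ^ (N + 1) with hf
  have hfm : AEStronglyMeasurable f μ := by
    have h1 : AEStronglyMeasurable (fun x => max (ω x - ω' x - e) 0) μ :=
      ((hω.obs.h0.mu.1.sub hω'.obs.h0.mu.1).sub aestronglyMeasurable_const).sup
        aestronglyMeasurable_const
    have h2 : AEStronglyMeasurable (fun x => 1 - φ x) μ :=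
      aestronglyMeasurable_const.sub hφ.mu.1
    exact (h1.mul h2).pow (N + 1)
  have hfb : eLpNorm f (ENNReal.ofReal p) μ ≤ ENNReal.ofReal (C * κ) := by
    rw [ENNReal.ofReal_mul hC]
    exact hEn.trans (mul_le_mul_right hk2 _)
  have m1 := markov_aux hp0 hφ.mu.1 (a := 1 / 2) (by norm_num) hκpos.le hk1
  have m2 := markov_aux hp0 hfm hbpos (mul_nonneg hC hκpos.le) hfb
  have c1 : (κ / (1 / 2)) ^ p ≤ η / 2 := by
    rw [← htp]
    apply Real.rpow_le_rpow (by positivity) _ hp0.le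
    rw [div_le_iff₀ (by norm_num)]
    linarith
  have c2 : (C * κ / b) ^ p ≤ η / 2 := by
    rw [← htp]
    apply Real.rpow_le_rpow (by positivity) _ hp0.le
    rw [div_le_iff₀ hbpos]
    rw [le_div_iff₀ hC1] at hκ2
    nlinarith
  have hsub : ∀ᵐ x ∂μ, x ∈ {x | x ∈ D ∧ d < ω x - ω' x - e} →
      x ∈ ({x | 1 / 2 ≤ |φ x|} ∪ {x | b ≤ |f x|} : Set (Sp n)) := by
    filter_upwards [hφ01] with x hx hxd
    obtain ⟨hxD, hxd⟩ := hxd
    by_cases hh : 1 / 2 ≤ φ x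
    · left
      exact hh.trans (le_abs_self _)
    · right
      push Not at hh
      have h1 : d ≤ max (ω x - ω' x - e) 0 := (le_of_lt hxd).trans (le_max_left _ _)
      have h2 : d / 2 ≤ max (ω x - ω' x - e) 0 * (1 - φ x) := by nlinarith
      have h3 : b ≤ f x := by
        rw [hb, hf]
        exact pow_le_pow_left₀ (by linarith) h2 _
      exact h3.trans (le_abs_self _)
  calc μ {x | x ∈ D ∧ d < ω x - ω' x - e}
      ≤ μ ({x | 1 / 2 ≤ |φ x|} ∪ {x | b ≤ |f x|}) := measure_mono_ae hsub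
    _ ≤ μ {x | 1 / 2 ≤ |φ x|} + μ {x | b ≤ |f x|} := measure_union_le _ _
    _ ≤ ENNReal.ofReal (η / 2) + ENNReal.ofReal (η / 2) :=
        add_le_add (m1.trans (ENNReal.ofReal_le_ofReal c1)) (m2.trans (ENNReal.ofReal_le_ofReal c2))
    _ = ENNReal.ofReal η := by
        rw [← ENNReal.ofReal_add (by linarith) (by linarith)]
        congr 1
        ring


end SkelD


end

section


section SkelD
variable {n : ℕ} {p α β Cd θ Cs lam Cp : ℝ}


/-- iterated De Giorgi bound from above -/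
theorem obs_up_bound (hp : 1 < p) (hα : 0 < α) (hβ : 0 < β) :
    ∃ γ0 : ℝ, 0 < γ0 ∧ ∀ (μ : Measure (Sp n)) [IsFiniteMeasureOnCompacts μ]
      (A : Sp n → Sp n → Sp n), Op p α β μ A → Adm p μ Cd θ Cs lam Cp → ∀ (D : Set (Sp n)),
      IsOpen D → ∀ (ρ ω : Sp n → ℝ) (W : Sp n → Sp n), CObs A p μ D ρ ω W →
      ∀ M : ℝ, 0 < M → (∀ y ∈ D, ω y ≤ M) → ∀ (x : Sp n) (r : ℝ), 0 < r → Metric.ball x r ⊆ D →
      ∀ k : ℝ, 0 ≤ k → (∀ y ∈ Metric.ball x r, ρ y ≤ k) → ∀ j : ℕ,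
      μ.real {y | y ∈ Metric.ball x r ∧ k < ω y} ≤ γ0 * μ.real (Metric.ball x (r / 2 ^ j)) →
      ∀ y ∈ Metric.ball x (r / 2 ^ (j + 1)), ω y ≤ k + M / 2 ^ (j + 1) := by
  obtain ⟨γ0, hγ, hdg⟩ := DG1 (n := n) (p := p) (α := α) (β := β) (Cd := Cd) (θ := θ) (Cs := Cs)
    (lam := lam) (Cp := Cp) hp hα hβ
  refine ⟨γ0, hγ, ?_⟩
  intro μ _ A hA hadm D hD ρ ω W h M hM hωM x r hr hball k hk hρ j hsmall
  have hsub := Obs.sub_above hp hα hβ hA h.obs hk (G := Metric.ball x r) Metric.isOpen_ball hρ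
  have hle : ∀ i : ℕ, r / 2 ^ i ≤ r := by
    intro i
    apply div_le_self hr.le
    exact one_le_pow₀ (by norm_num)
  have hrad : ∀ i : ℕ, 0 < r / 2 ^ i := fun i => by positivity
  have hstep : ∀ i : ℕ, i ≤ j + 1 → ∀ᵐ y ∂μ, y ∈ Metric.ball x (r / 2 ^ i) →
      max (ω y - k) 0 ≤ M / 2 ^ i := by
    intro i
    induction i with
    | zero =>
      intro _
      apply Filter.Eventually.of_forall
      intro y hy
      rw [pow_zero, div_one] at hy ⊢
      have := hωM y (hball hy)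
      exact max_le (by linarith) hM.le
    | succ i ih =>
      intro hi
      have ih' := ih (by omega)
      have hs1 := Sub.const_sub hp hA hsub (M / 2 ^ i)
      have hs2 := Sup.mono_set hp hs1 (G' := Metric.ball x (r / 2 ^ i)) Metric.isOpen_ball
        (Metric.ball_subset_ball (hle i))
      have hMi : 0 < M / 2 ^ i := by positivity
      have key := hdg μ A hA hadm (Metric.ball x (r / 2 ^ i)) Metric.isOpen_ball _ _ hs2
        (by
          filter_upwards [ih'] with y hy hyb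
          linarith [hy hyb]) x (r / 2 ^ i) (hrad i) (subset_refl _) (M / 2 ^ i) hMi (by
          have h1 : μ.real {y | y ∈ Metric.ball x (r / 2 ^ i) ∧
              M / 2 ^ i - max (ω y - k) 0 < M / 2 ^ i} ≤
              μ.real {y | y ∈ Metric.ball x r ∧ k < ω y} := by
            apply measureReal_mono
            · rintro y ⟨hy1, hy2⟩
              refine ⟨Metric.ball_subset_ball (hle i) hy1, ?_⟩
              have h2 : 0 < max (ω y - k) 0 := by linarith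
              rcases lt_max_iff.1 h2 with h3 | h3
              · linarith
              · exact absurd h3 (lt_irrefl _)
            · refine ne_of_lt (lt_of_le_of_lt (measure_mono (t := Metric.ball x r) ?_)
                (hadm.fin x r))
              intro y hy
              exact hy.1
          have h4 : μ.real (Metric.ball x (r / 2 ^ j)) ≤ μ.real (Metric.ball x (r / 2 ^ i)) := by
            apply measureReal_mono
            · apply Metric.ball_subset_ball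
              apply div_le_div_of_nonneg_left hr.le (by positivity)
              exact pow_le_pow_right₀ (by norm_num) (by omega)
            · exact (hadm.fin _ _).ne
          calc _ ≤ _ := h1
            _ ≤ _ := hsmall
            _ ≤ _ := mul_le_mul_of_nonneg_left h4 hγ.le)
      have e1 : r / 2 ^ (i + 1) = r / 2 ^ i / 2 := by
        rw [pow_succ]; field_simp
      have e2 : M / 2 ^ (i + 1) = M / 2 ^ i / 2 := by
        rw [pow_succ]; field_simp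
      rw [e1, e2]
      filter_upwards [key] with y hy hyb
      have := hy hyb
      linarith
  have hfin := hstep (j + 1) le_rfl
  intro y hy
  have hsubD : Metric.ball x (r / 2 ^ (j + 1)) ⊆ D :=
    (Metric.ball_subset_ball (hle (j + 1))).trans hball
  have hcont : ContinuousOn (fun y => k + M / 2 ^ (j + 1) - ω y)
      (Metric.ball x (r / 2 ^ (j + 1))) :=
    continuousOn_const.sub (h.cont.mono hsubD)
  have := nonneg_of_ae hadm.pos Metric.isOpen_ball hcont (by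
    filter_upwards [hfin] with z hz hzb
    have h1 := hz hzb
    have h2 := le_max_left (ω z - k) 0
    linarith) y hy
  linarith

end SkelD


end

section


section SkelD
variable {n : ℕ} {p α β Cd θ Cs lam Cp : ℝ}


theorem D5_dini {X : Type*} [TopologicalSpace X] {K Z : Set X} (hK : IsCompact K) (hZ : IsOpen Z)
    (hKZ : K ⊆ Z) {f : X → ℝ} {g : ℕ → X → ℝ} (hf : ContinuousOn f Z)
    (hg : ∀ l, ContinuousOn (g l) Z) (hm : ∀ x ∈ K, Monotone (fun l => g l x)) {ε : ℝ}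
    (h : ∀ x ∈ K, ∃ l, f x < g l x + ε) : ∃ l0, ∀ l, l0 ≤ l → ∀ x ∈ K, f x < g l x + ε := by
  have ho : ∀ l, IsOpen (Z ∩ (fun x => g l x + ε - f x) ⁻¹' Ioi 0) := by
    intro l
    refine ContinuousOn.isOpen_inter_preimage ?_ hZ isOpen_Ioi
    exact ((hg l).add continuousOn_const).sub hf
  obtain ⟨t, ht⟩ := hK.elim_finite_subcover _ ho (by
    intro x hx
    obtain ⟨l, hl⟩ := h x hx
    rw [mem_iUnion]
    exact ⟨l, hKZ hx, by simpa using by linarith⟩)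
  refine ⟨t.sup id, ?_⟩
  intro l hl x hx
  have h1 := ht hx
  rw [mem_iUnion₂] at h1
  obtain ⟨i, hi, -, h2⟩ := h1
  have h3 : i ≤ l := (Finset.le_sup (f := id) hi).trans hl
  have h4 : g i x ≤ g l x := hm x hx h3
  have h5 : 0 < g i x + ε - f x := h2
  linarith

theorem D5_min {X : Type*} (f : X → ℝ) (t : Finset X) (h : ∀ y ∈ t, 0 < f y) :
    ∃ η : ℝ, 0 < η ∧ ∀ y ∈ t, η ≤ f y := by
  classical
  induction t using Finset.induction_on with
  | empty => exact ⟨1, one_pos, fun y hy => absurd hy (Finset.notMem_empty y)⟩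
  | insert a t ha ih =>
    obtain ⟨η, h1, h2⟩ := ih (fun y hy => h y (Finset.mem_insert_of_mem hy))
    refine ⟨min η (f a), lt_min h1 (h a (Finset.mem_insert_self a t)), ?_⟩
    intro y hy
    rcases Finset.mem_insert.1 hy with rfl | hy
    · exact min_le_right _ _
    · exact (min_le_left _ _).trans (h2 y hy)

theorem D5_unif {K Z : Set (Sp n)} (hK : IsCompact K) (hZ : IsOpen Z) (hKZ : K ⊆ Z)
    {f : Sp n → ℝ} (hf : ContinuousOn f Z) {e : ℝ} (he : 0 < e) :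
    ∃ r : ℝ, 0 < r ∧ ∀ x ∈ K, Metric.ball x r ⊆ Z ∧ ∀ y ∈ Metric.ball x r, |f y - f x| ≤ e := by
  obtain ⟨δ, hδ, h⟩ := lebesgue_number_lemma_of_metric (ι := Sp n)
    (c := fun z => Z ∩ f ⁻¹' Metric.ball (f z) (e / 2)) hK
    (fun z => hf.isOpen_inter_preimage hZ Metric.isOpen_ball) (by
      intro x hx
      rw [mem_iUnion]
      exact ⟨x, hKZ hx, Metric.mem_ball_self (by positivity)⟩)
  refine ⟨δ, hδ, ?_⟩
  intro x hx
  obtain ⟨z, hz⟩ := h x hx
  refine ⟨fun y hy => (hz hy).1, ?_⟩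
  intro y hy
  have h1 := (hz hy).2
  have h2 := (hz (Metric.mem_ball_self hδ)).2
  rw [mem_preimage, Metric.mem_ball, Real.dist_eq] at h1 h2
  have h3 : f y - f x = (f y - f z) - (f x - f z) := by ring
  rw [h3]
  have h4 := abs_sub (f y - f z) (f x - f z)
  linarith

theorem D5_eta {μ : Measure (Sp n)} (hadm : Adm p μ Cd θ Cs lam Cp) {K : Set (Sp n)}
    (hK : IsCompact K) {r γ : ℝ} (hr : 0 < r) (hγ : 0 < γ) (j : ℕ) :
    ∃ η : ℝ, 0 < η ∧ ∀ x ∈ K, η ≤ γ * μ.real (Metric.ball x (r / 2 ^ j)) := by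
  have hr1 : 0 < r / 2 ^ (j + 1) := by positivity
  obtain ⟨t, htf, ht⟩ := Metric.totallyBounded_iff.1 hK.totallyBounded (r / 2 ^ (j + 1)) hr1
  obtain ⟨η, h1, h2⟩ := D5_min (fun y => γ * μ.real (Metric.ball y (r / 2 ^ (j + 1)))) htf.toFinset (by
    intro y _
    refine mul_pos hγ ?_
    rw [measureReal_def]
    exact ENNReal.toReal_pos (hadm.pos y _ hr1).ne' (hadm.fin y _).ne)
  refine ⟨η, h1, ?_⟩
  intro x hx
  have h3 := ht hx
  rw [mem_iUnion₂] at h3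
  obtain ⟨y, hy, hxy⟩ := h3
  refine (h2 y (htf.mem_toFinset.2 hy)).trans ?_
  refine mul_le_mul_of_nonneg_left ?_ hγ.le
  refine measureReal_mono ?_ (hadm.fin x _).ne
  apply Metric.ball_subset_ball'
  rw [Metric.mem_ball, dist_comm] at hxy
  have : r / 2 ^ j = r / 2 ^ (j + 1) + r / 2 ^ (j + 1) := by
    rw [pow_succ]; field_simp; ring
  rw [this]
  linarith

/-- stability of the reduced function under obstacles on open sets of small capacity -/
theorem red_stab {μ : Measure (Sp n)} [IsFiniteMeasureOnCompacts μ] {A : Sp n → Sp n → Sp n}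
    {D : Set (Sp n)} {ψ' w' : Sp n → ℝ} {M : ℝ} (hp : 1 < p) (hα : 0 < α) (hβ : 0 < β)
    (hA : Op p α β μ A) (hS : SMono μ A) (hadm : Adm p μ Cd θ Cs lam Cp) (hD : IsOpen D)
    (hDb : Bornology.IsBounded D) (hψ0 : ∀ x ∈ D, 0 ≤ ψ' x ∧ ψ' x ≤ M)
    (hψl : LowerSemicontinuousOn ψ' D) (hred : Red A p μ D ψ' w') {C' N' Z : Set (Sp n)}
    (hC : IsCompact C') (hCD : C' ⊆ D) (hN : IsCompact N') (hNC : N' ⊆ C') (hZ : IsOpen Z)
    (hZD : Z ⊆ D) (hfr : frontier C' ⊆ Z) (hdisj : Disjoint Z N') (hwc : ContinuousOn w' Z)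
    {e : ℝ} (he : 0 < e) :
    ∃ κ : ℝ, 0 < κ ∧ ∀ (V : Set (Sp n)), IsOpen V → V ⊆ N' → ∀ (φ : Sp n → ℝ) (Φ : Sp n → Sp n),
      H0 p μ univ φ Φ → (∀ᵐ x ∂μ, 0 ≤ φ x ∧ φ x ≤ 1) → (∀ᵐ x ∂μ, x ∈ V → φ x = 1) →
      eLpNorm φ (ENNReal.ofReal p) μ ≤ ENNReal.ofReal κ →
      eLpNorm Φ (ENNReal.ofReal p) μ ≤ ENNReal.ofReal κ →
      ∀ ψ w : Sp n → ℝ, LowerSemicontinuousOn ψ D → (∀ x ∈ D, 0 ≤ ψ x ∧ ψ x ≤ M) →
      (∀ x ∈ D, x ∉ V → ψ x = ψ' x) → Red A p μ D ψ w →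
      ∀ x ∈ D, x ∉ C' → w x ≤ w' x + e := by
  rcases D.eq_empty_or_nonempty with hDe | ⟨x0, hx0⟩
  · exact ⟨1, one_pos, fun V _ _ φ Φ _ _ _ _ _ ψ w _ _ _ _ x hx => by rw [hDe] at hx; exact hx.elim⟩
  have hM : 0 ≤ M := (hψ0 x0 hx0).1.trans (hψ0 x0 hx0).2
  obtain ⟨ρ', ω', W', hO', hW', hL'⟩ := id hred
  have hmono' := obs_seq_mono hp hα hβ hA hS hadm hD hDb hO' hW' hL'
  obtain ⟨γ0, hγ0, hup⟩ := obs_up_bound (n := n) (Cd := Cd) (θ := θ) (Cs := Cs) (lam := lam)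
    (Cp := Cp) hp hα hβ
  obtain ⟨M1, hM1⟩ : ∃ M1, M1 = M + 1 := ⟨_, rfl⟩
  have hM10 : 0 < M1 := by linarith
  obtain ⟨j, hj⟩ : ∃ j : ℕ, M1 / 2 ^ (j + 1) ≤ e / 4 := by
    obtain ⟨j, hj⟩ := exists_pow_lt_of_lt_one (show 0 < e / 4 / M1 by positivity)
      (show (1 / 2 : ℝ) < 1 by norm_num)
    refine ⟨j, ?_⟩
    rw [lt_div_iff₀ hM10] at hj
    have h1 : M1 / 2 ^ (j + 1) = (1 / 2) ^ j * M1 / 2 := by
      rw [one_div, inv_pow, pow_succ]; field_simp
    rw [h1]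
    have h2 : 0 < (1 / 2 : ℝ) ^ j * M1 := by positivity
    linarith
  have hFr : IsCompact (frontier C') :=
    hC.of_isClosed_subset isClosed_frontier hC.isClosed.frontier_subset
  obtain ⟨r, hr, hr2⟩ := D5_unif hFr hZ hfr hwc (show 0 < e / 8 by positivity)
  obtain ⟨η, hη, hη2⟩ := D5_eta hadm hFr hr hγ0 j
  obtain ⟨κ, hκ, hsm⟩ := obs_small hp hα hβ hA hadm hD hDb hM (show 0 < e / 16 by positivity) hη
  refine ⟨κ, hκ, ?_⟩
  intro V hV hVN φ Φ hφ hφ1 hφ2 hφ3 hφ4 ψ w hψl' hψM hψeq hredψ x hx hxC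
  obtain ⟨ρ, ω, W, hO, hW, hL⟩ := hredψ
  have key : ∀ i, ω i x ≤ w' x + e := by
    intro i
    have hT : IsCompact (tsupport (ρ i) \ V) := (hO.cc i).comp.isCompact.diff hV
    have hTD : ∀ y ∈ tsupport (ρ i) \ V, y ∈ D := fun y hy => (hO.cc i).supp hy.1
    obtain ⟨l0, hl0⟩ := D5_dini (f := ρ i) (g := ρ') (ε := e / 16) hT isOpen_univ (subset_univ _)
      (hO.cc i).cont.continuousOn (fun l => (hO'.cc l).cont.continuousOn)
      (fun y _ => monotone_nat_of_le_succ (fun l => hO'.mono l y)) (by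
        intro y hy
        have hyD := hTD y hy
        have h1 : ρ i y ≤ ψ' y := (hO.le i y hyD).trans (hψeq y hyD hy.2).le
        have h2 : ρ i y - e / 16 < ψ' y := by linarith
        obtain ⟨l, hl⟩ := ((hO'.lim y hyD).eventually (lt_mem_nhds h2)).exists
        exact ⟨l, by linarith⟩)
    obtain ⟨l1, hl1⟩ := D5_dini (f := w') (g := ω') (ε := e / 4) hFr hZ hfr hwc
      (fun l => (hW' l).cont.mono hZD) (fun y hy => (hmono' y (hZD (hfr hy))).1) (by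
        intro y hy
        have hyD := hZD (hfr hy)
        have h2 : w' y - e / 4 < w' y := by linarith
        obtain ⟨l, hl⟩ := ((hL' y hyD).eventually (lt_mem_nhds h2)).exists
        exact ⟨l, by linarith⟩)
    obtain ⟨l, hl⟩ : ∃ l, l = max l0 l1 := ⟨_, rfl⟩
    have hρle : ∀ y ∈ D, y ∉ V → ρ i y ≤ ρ' l y + e / 16 := by
      intro y _ hyV
      by_cases hyt : y ∈ tsupport (ρ i)
      · exact (hl0 l (by rw [hl]; exact le_max_left _ _) y ⟨hyt, hyV⟩).le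
      · rw [zero_of_notMem hyt]
        have := hO'.nonneg l y
        linarith
    have hb : ∀ y, 0 ≤ ρ i y ∧ ρ i y ≤ M := by
      intro y
      refine ⟨hO.nonneg i y, ?_⟩
      by_cases hyD : y ∈ D
      · exact (hO.le i y hyD).trans (hψM y hyD).2
      · rw [zero_of_notMem (fun h => hyD ((hO.cc i).supp h))]
        exact hM
    have hb' : ∀ y, 0 ≤ ρ' l y ∧ ρ' l y ≤ M := by
      intro y
      refine ⟨hO'.nonneg l y, ?_⟩
      by_cases hyD : y ∈ D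
      · exact (hO'.le l y hyD).trans (hψ0 y hyD).2
      · rw [zero_of_notMem (fun h => hyD ((hO'.cc l).supp h))]
        exact hM
    have hmeas := hsm (ρ i) (ω i) (ρ' l) (ω' l) φ (W i) (W' l) Φ V (e / 16) (by positivity)
      (hO.cc i) (hW i) (hO'.cc l) (hW' l) hb hb' hρle hφ hφ1 hφ2 hφ3 hφ4
    have hωM : ∀ y ∈ D, ω i y ≤ M1 := by
      intro y hy
      have := CObs.le_const hp hα hβ hA hadm hD hDb (hW i) hM (fun z => (hb z).2) y hy
      linarith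
    have hfrω : ∀ z ∈ frontier C', ω i z < ω' l z + e := by
      intro z hz
      have hzZ := hfr hz
      have hzD := hZD hzZ
      obtain ⟨hbZ, hbw⟩ := hr2 z hz
      have hwz : 0 ≤ w' z := (hψ0 z hzD).1.trans (Red.ge hred z hzD)
      have h1 : ∀ y ∈ Metric.ball z r, ρ i y ≤ w' z + e / 4 := by
        intro y hy
        have hyZ := hbZ hy
        have hyD := hZD hyZ
        have hyV : y ∉ V := fun h => Set.disjoint_left.1 hdisj hyZ (hVN h)
        have h2 := (hO.le i y hyD).trans (hψeq y hyD hyV).le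
        have h3 := Red.ge hred y hyD
        have h4 := (abs_le.1 (hbw y hy)).2
        linarith
      have h2 : μ.real {y | y ∈ Metric.ball z r ∧ w' z + e / 4 < ω i y} ≤
          γ0 * μ.real (Metric.ball z (r / 2 ^ j)) := by
        refine le_trans ?_ (hη2 z hz)
        rw [measureReal_def]
        refine ENNReal.toReal_le_of_le_ofReal hη.le ?_
        refine (measure_mono ?_).trans hmeas
        intro y hy
        have hyZ := hbZ hy.1
        have hyD := hZD hyZ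
        refine ⟨hyD, ?_⟩
        have h3 := (hmono' y hyD).2 l
        have h4 := (abs_le.1 (hbw y hy.1)).2
        have h5 : w' z + e / 4 < ω i y := hy.2
        linarith
      have h3 := hup μ A hA hadm D hD (ρ i) (ω i) (W i) (hW i) M1 hM10 hωM z r hr
        (hbZ.trans hZD) (w' z + e / 4) (by linarith) h1 j h2 z
        (Metric.mem_ball_self (by positivity))
      have h4 := hl1 l (by rw [hl]; exact le_max_right _ _) z hz
      linarith
    have hfin := CObs.le_hsup_out hp hα hβ hA hS hadm hD hDb (hO.cc i) (hW i)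
      (CObs.hsup hp (hW' l)) (hW' l).cont he.le hC hCD hfrω (by
        intro y hy hyC
        have h1 := hρle y hy (fun h => hyC (hNC (hVN h)))
        have h2 := (hW' l).ge y hy
        linarith) x hx hxC
    have := (hmono' x hx).2 l
    linarith
  exact le_of_tendsto' (hL x hx) key

end SkelD


end

end Pool.Agent.Helper533.Polar
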