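import Pool.Agent.Helper533.Deny.C
import Pool.Agent.Helper533.Deny.D
open MeasureTheory Filter Topology Set
open scoped ENNReal NNReal RealInnerProductSpace

namespace Pool.Agent.Helper533.Polar

section


section SkelE
variable {n : ℕ} {p α β Cd θ Cs lam Cp : ℝ}


/-- compact exhaustion of an open set, starting with the empty set -/
theorem exhaust_open {Q : Set (Sp n)} (hQ : IsOpen Q) :
    ∃ C : ℕ → Set (Sp n), (∀ j, IsCompact (C j)) ∧ (∀ j, C j ⊆ interior (C (j + 1))) ∧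
      C 0 = ∅ ∧ ⋃ j, C j = Q := by
  have : LocallyCompactSpace Q := hQ.locallyCompactSpace
  set K : CompactExhaustion Q := (CompactExhaustion.choice Q).shiftr with hK
  have hemb : IsOpenEmbedding (Subtype.val : Q → Sp n) := hQ.isOpenEmbedding_subtypeVal
  refine ⟨fun j => Subtype.val '' K j, fun j => (K.isCompact j).image continuous_subtype_val,
    fun j => ?_, ?_, ?_⟩
  · have h1 : Subtype.val '' K j ⊆ Subtype.val '' interior (K (j + 1)) :=
      image_mono (K.subset_interior_succ j)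
    refine h1.trans ?_
    exact interior_maximal (image_mono interior_subset) (hemb.isOpenMap _ isOpen_interior)
  · show Subtype.val '' (∅ : Set Q) = ∅
    exact image_empty _
  · rw [← image_iUnion, K.iUnion_eq, image_univ, Subtype.range_coe]

/-- raising by one on a neighbourhood of a polar set, with a small effect off `Q` -/
theorem one_level {μ : Measure (Sp n)} [IsFiniteMeasureOnCompacts μ] {A : Sp n → Sp n → Sp n}
    {D : Set (Sp n)} {F g : Sp n → ℝ} {U : Sp n → Sp n} {M : ℝ} (hp : 1 < p) (hα : 0 < α)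
    (hβ : 0 < β) (hA : Op p α β μ A) (hS : SMono μ A) (hadm : Adm p μ Cd θ Cs lam Cp)
    (hD : IsOpen D) (hDb : Bornology.IsBounded D) (hFl : LowerSemicontinuousOn F D)
    (hFc : CmpSuper A p μ D F) (hF : ∀ x ∈ D, 0 ≤ F x ∧ F x ≤ M) (hg : HSup A p μ D g U)
    (hgc : ContinuousOn g D) {K : Set (Sp n)} (hK : IsCompact K) (hKD : K ⊆ D)
    (hFg : ∀ x ∈ D, F x ≤ g x) (hFg' : ∀ x ∈ D, x ∉ K → F x = g x)
    {Q E : Set (Sp n)} (hQ : IsOpen Q) (hQD : Q ⊆ D) (hFQ : ContinuousOn F Q) (hEQ : E ∩ D ⊆ Q)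
    (hpol : ∀ L : Set (Sp n), IsCompact L → L ⊆ Q → CapNull p μ E L) {e : ℝ} (he : 0 < e) :
    ∃ (V : Set (Sp n)) (w : Sp n → ℝ), IsOpen V ∧ V ⊆ Q ∧ E ∩ D ⊆ V ∧
      LowerSemicontinuousOn w D ∧ CmpSuper A p μ D w ∧ (∀ x ∈ D, F x ≤ w x ∧ w x ≤ F x + 1) ∧
      (∀ x ∈ V, w x = F x + 1) ∧ ∀ x ∈ D, x ∉ Q → w x ≤ F x + e := by
  classical
  obtain ⟨C, hCc, hCi, hC0, hCU⟩ := exhaust_open hQ
  have hCQ : ∀ j, C j ⊆ Q := fun j => hCU ▸ subset_iUnion C j
  have hCs : ∀ j, C j ⊆ C (j + 1) := fun j => (hCi j).trans interior_subset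
  set ps : Set (Sp n) → Sp n → ℝ := fun Y x => F x + Y.indicator (fun _ => (1:ℝ)) x with hps
  set M1 : ℝ := max M 0 + 1 with hM1
  have hM1nn : 0 ≤ M1 := by
    have := le_max_right M 0
    rw [hM1]; linarith
  have hind0 : ∀ (Y : Set (Sp n)) x, 0 ≤ Y.indicator (fun _ => (1:ℝ)) x := fun Y x =>
    indicator_nonneg (fun _ _ => zero_le_one) x
  have hind1 : ∀ (Y : Set (Sp n)) x, Y.indicator (fun _ => (1:ℝ)) x ≤ 1 := fun Y x => by
    by_cases h : x ∈ Y
    · rw [indicator_of_mem h]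
    · rw [indicator_of_notMem h]; exact zero_le_one
  have hps0 : ∀ Y, ∀ x ∈ D, 0 ≤ ps Y x := fun Y x hx => add_nonneg (hF x hx).1 (hind0 Y x)
  have hpsM : ∀ Y, ∀ x ∈ D, ps Y x ≤ M1 := fun Y x hx => by
    have h1 := (hF x hx).2
    have h2 := le_max_left M 0
    have h3 := hind1 Y x
    show F x + Y.indicator (fun _ => (1:ℝ)) x ≤ max M 0 + 1
    linarith
  have hpsl : ∀ Y, IsOpen Y → LowerSemicontinuousOn (ps Y) D := fun Y hY =>
    hFl.add (hY.lowerSemicontinuousOn_indicator zero_le_one)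
  -- the invariant
  set P : ℕ → Set (Sp n) × (Sp n → ℝ) → Prop := fun j s =>
    IsOpen s.1 ∧ s.1 ⊆ C (j + 1) ∧ E ∩ C j ⊆ s.1 ∧ Red A p μ D (ps s.1) s.2 ∧
      ∀ x ∈ D, x ∉ Q → s.2 x ≤ F x + e * (1 - (1 / 2) ^ j) with hP
  have hle1 : ∀ Y w, Red A p μ D (ps Y) w → ∀ x ∈ D, w x ≤ F x + 1 := by
    intro Y w hw
    refine Red.le_of_barrier hp hα hβ hA hS hadm hD hDb hw hFc hg hgc hK hKD hFg hFg' zero_le_one ?_
    intro x _
    show F x + Y.indicator (fun _ => (1:ℝ)) x ≤ F x + 1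
    linarith [hind1 Y x]
  have step : ∀ j (s : Set (Sp n) × (Sp n → ℝ)), P j s →
      ∃ s' : Set (Sp n) × (Sp n → ℝ), P (j + 1) s' ∧ ∀ x ∈ D, s.2 x ≤ s'.2 x := by
    rintro j ⟨Y, w⟩ ⟨hYo, hYC, hEY, hred, hQb⟩
    simp only at hYo hYC hEY hred hQb
    have he' : 0 < e * (1 / 2) ^ (j + 1) := by positivity
    set Z : Set (Sp n) := Q \ C (j + 2) with hZ
    have hZo : IsOpen Z := hQ.sdiff (hCc (j + 2)).isClosed
    have hZD : Z ⊆ D := sdiff_subset.trans hQD
    have hpsZ : ContinuousOn (ps Y) Z := by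
      have h1 : ContinuousOn F Z := hFQ.mono sdiff_subset
      refine h1.congr ?_
      intro x hx
      have h2 : x ∉ Y := fun hxY => hx.2 (hCs (j + 1) (hYC hxY))
      show F x + Y.indicator (fun _ => (1:ℝ)) x = F x
      rw [indicator_of_notMem h2, add_zero]
    have hwZ : ContinuousOn w Z := Red.continuousOn hp hα hβ hA hS hadm hD hDb hred hM1nn
      (hpsM Y) hZo hZD hpsZ
    have hfr : frontier (C (j + 3)) ⊆ Z := by
      intro x hx
      have h1 : x ∈ C (j + 3) := (hCc (j + 3)).isClosed.frontier_subset hx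
      refine ⟨hCQ _ h1, fun h2 => ?_⟩
      exact hx.2 (hCi (j + 2) h2)
    have hdisj : Disjoint Z (C (j + 2)) := disjoint_sdiff_left
    obtain ⟨κ, hκ, hstab⟩ := red_stab hp hα hβ hA hS hadm hD hDb
      (fun x hx => ⟨hps0 Y x hx, hpsM Y x hx⟩) (hpsl Y hYo) hred (hCc (j + 3))
      ((hCQ _).trans hQD) (hCc (j + 2)) (hCs (j + 2)) hZo hZD hfr hdisj hwZ he'
    obtain ⟨V, φ, Φ, hVo, hEV, hVN, hH, hφ01, hφ1, hφn, hΦn⟩ :=
      hpol (C (j + 1)) (hCc _) (hCQ _) (interior (C (j + 2))) isOpen_interior (hCi (j + 1)) κ hκ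
    have hVC : V ⊆ C (j + 2) := hVN.trans interior_subset
    have hYo' : IsOpen (Y ∪ V) := hYo.union hVo
    obtain ⟨w', hw'⟩ := exists_red hp hα hβ hA hS hadm hD hDb (hpsl _ hYo') (hps0 (Y ∪ V))
      (hpsM (Y ∪ V))
    refine ⟨(Y ∪ V, w'), ⟨hYo', ?_, ?_, hw', ?_⟩, ?_⟩
    · exact union_subset (hYC.trans (hCs (j + 1))) hVC
    · exact hEV.trans subset_union_right
    · intro x hxD hxQ
      have h1 := hstab V hVo hVC φ Φ hH hφ01 hφ1 hφn hΦn (ps (Y ∪ V)) w' (hpsl _ hYo')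
        (fun x hx => ⟨hps0 _ x hx, hpsM _ x hx⟩) (by
          intro y _ hyV
          show F y + (Y ∪ V).indicator (fun _ => (1:ℝ)) y = F y + Y.indicator (fun _ => (1:ℝ)) y
          by_cases hyY : y ∈ Y
          · rw [indicator_of_mem hyY, indicator_of_mem (show y ∈ Y ∪ V from mem_union_left V hyY)]
          · rw [indicator_of_notMem hyY, indicator_of_notMem]
            rintro (h | h)
            · exact hyY h
            · exact hyV h) hw' x hxD (fun h => hxQ (hCQ _ h))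
      have h2 := hQb x hxD hxQ
      show w' x ≤ F x + e * (1 - (1 / 2) ^ (j + 1))
      have h3 : e * (1 - (1 / 2 : ℝ) ^ (j + 1)) = e * (1 - (1 / 2) ^ j) + e * (1 / 2) ^ (j + 1) := by
        rw [pow_succ]; ring
      rw [h3]
      linarith
    · intro x hx
      have h1 := Red.le_add hp hα hβ hA hS hadm hD hDb hred hw' le_rfl (c := 0) (fun y _ => by
        show F y + Y.indicator (fun _ => (1:ℝ)) y ≤ F y + (Y ∪ V).indicator (fun _ => (1:ℝ)) y + 0
        have : Y.indicator (fun _ => (1:ℝ)) y ≤ (Y ∪ V).indicator (fun _ => (1:ℝ)) y :=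
          indicator_le_indicator_of_subset subset_union_left (fun _ => zero_le_one) y
        linarith) x hx
      show w x ≤ w' x
      linarith
  choose! f hf using step
  obtain ⟨w₀, hw₀⟩ := exists_red hp hα hβ hA hS hadm hD hDb (hpsl ∅ isOpen_empty) (hps0 ∅) (hpsM ∅)
  set sq : ℕ → Set (Sp n) × (Sp n → ℝ) := fun j => Nat.rec (∅, w₀) (fun j s => f j s) j with hsq
  have hsq1 : ∀ j, sq (j + 1) = f j (sq j) := fun j => rfl
  have hPsq : ∀ j, P j (sq j) := by
    intro j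
    induction j with
    | zero =>
      refine ⟨isOpen_empty, empty_subset _, ?_, hw₀, ?_⟩
      · rw [hC0]; exact fun x hx => hx.2
      · intro x hx _
        have h1 := Red.le_of_barrier hp hα hβ hA hS hadm hD hDb hw₀ hFc hg hgc hK hKD hFg hFg'
          (c := 0) le_rfl (fun y _ => by
            show F y + (∅ : Set (Sp n)).indicator (fun _ => (1:ℝ)) y ≤ F y + 0
            rw [indicator_empty]) x hx
        show w₀ x ≤ _
        have h2 : e * (1 - (1 / 2 : ℝ) ^ 0) = 0 := by norm_num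
        rw [h2]
        exact h1
    | succ j ih => rw [hsq1]; exact (hf j (sq j) ih).1
  have hmono : ∀ x ∈ D, ∀ j, (sq j).2 x ≤ (sq (j + 1)).2 x := fun x hx j => by
    rw [hsq1]; exact (hf j (sq j) (hPsq j)).2 x hx
  have hub : ∀ x ∈ D, ∀ j, (sq j).2 x ≤ F x + 1 := fun x hx j =>
    hle1 (sq j).1 (sq j).2 (hPsq j).2.2.2.1 x hx
  have hlb : ∀ x ∈ D, ∀ j, ps (sq j).1 x ≤ (sq j).2 x := fun x hx j =>
    Red.ge (hPsq j).2.2.2.1 x hx
  set w : Sp n → ℝ := fun x => ⨆ j, (sq j).2 x with hw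
  have hbdd : ∀ x ∈ D, BddAbove (range fun j => (sq j).2 x) := fun x hx =>
    ⟨F x + 1, by rintro _ ⟨j, rfl⟩; exact hub x hx j⟩
  have hlim : ∀ x ∈ D, Tendsto (fun j => (sq j).2 x) atTop (𝓝 (w x)) := fun x hx =>
    tendsto_atTop_ciSup (monotone_nat_of_le_succ (hmono x hx)) (hbdd x hx)
  have hge : ∀ x ∈ D, ∀ j, (sq j).2 x ≤ w x := fun x hx j => le_ciSup (hbdd x hx) j
  obtain ⟨hcmp, hlsc⟩ := CmpSuper.of_tendsto (A := A) (p := p) (μ := μ) (D := D)
    (f := fun j => (sq j).2) (w := w) hp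
    (fun j => Red.cmp hp hα hβ hA hS hadm hD hDb (hPsq j).2.2.2.1)
    (fun j => Red.lsc hp hα hβ hA hS hadm hD hDb (hPsq j).2.2.2.1) hmono hlim
  have hle : ∀ x ∈ D, w x ≤ F x + 1 := fun x hx => ciSup_le fun j => hub x hx j
  refine ⟨⋃ j, (sq j).1, w, isOpen_iUnion fun j => (hPsq j).1, ?_, ?_, hlsc, hcmp, ?_, ?_, ?_⟩
  · exact iUnion_subset fun j => (hPsq j).2.1.trans (hCQ _)
  · intro x hx
    have h1 : x ∈ Q := hEQ hx
    rw [← hCU, mem_iUnion] at h1
    obtain ⟨j, hj⟩ := h1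
    exact mem_iUnion.mpr ⟨j, (hPsq j).2.2.1 ⟨hx.1, hj⟩⟩
  · intro x hx
    refine ⟨?_, hle x hx⟩
    have h1 := hlb x hx 0
    have h2 := hge x hx 0
    have h3 : F x ≤ ps (sq 0).1 x := by
      show F x ≤ F x + (sq 0).1.indicator (fun _ => (1:ℝ)) x
      linarith [hind0 (sq 0).1 x]
    linarith
  · intro x hx
    obtain ⟨j, hj⟩ := mem_iUnion.mp hx
    have hxD : x ∈ D := hQD (hCQ _ ((hPsq j).2.1 hj))
    refine le_antisymm (hle x hxD) ?_
    have h1 := hlb x hxD j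
    have h2 := hge x hxD j
    have h3 : ps (sq j).1 x = F x + 1 := by
      show F x + (sq j).1.indicator (fun _ => (1:ℝ)) x = F x + 1
      rw [indicator_of_mem hj]
    linarith
  · intro x hx hxQ
    refine ciSup_le fun j => ?_
    have h1 := (hPsq j).2.2.2.2 x hx hxQ
    have h2 : e * (1 - (1 / 2 : ℝ) ^ j) ≤ e := by
      have h3 : (0:ℝ) ≤ (1 / 2) ^ j := by positivity
      nlinarith
    linarith

end SkelE


end

end Pool.Agent.Helper533.Polar
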