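import Pool.Agent.Helper533.Deny.A
open MeasureTheory Filter Topology Set
open scoped ENNReal NNReal RealInnerProductSpace

namespace Pool.Agent.Helper533.Polar

section


section SkelF
variable {n : ℕ} {p α β Cd θ Cs lam Cp : ℝ} {μ : Measure (Sp n)} {A : Sp n → Sp n → Sp n}


theorem F1_thick (hadm : Adm p μ Cd θ Cs lam Cp) {R : ℝ} (hR : 0 < R) {y : Sp n} (hy : ‖y‖ = R) :
    (Cd ^ 2)⁻¹ * μ.real (Metric.ball y (3 / 2)) ≤
      μ.real {z | z ∈ Metric.ball y (3 / 2) ∧ z ∉ Metric.ball (0 : Sp n) R} := by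
  have hCd := hadm.one_le_Cd
  obtain ⟨y', hy'⟩ : ∃ y' : Sp n, y' = (1 + 3 / 4 / R) • y := ⟨_, rfl⟩
  have hyn : ‖y'‖ = R + 3 / 4 := by
    rw [hy', norm_smul, hy, Real.norm_of_nonneg (by positivity)]
    field_simp
  have hyd : dist y' y = 3 / 4 := by
    rw [dist_eq_norm, hy', add_smul, one_smul, add_sub_cancel_left, norm_smul, hy,
      Real.norm_of_nonneg (by positivity)]
    field_simp
  have h1 : Metric.ball y' (3 / 4) ⊆ {z | z ∈ Metric.ball y (3 / 2) ∧ z ∉ Metric.ball (0 : Sp n) R} := by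
    intro z hz
    rw [Metric.mem_ball] at hz
    refine ⟨?_, ?_⟩
    · rw [Metric.mem_ball]
      have := dist_triangle z y' y
      linarith
    · rw [Metric.mem_ball, dist_zero_right]
      have h2 := norm_sub_norm_le y' z
      rw [← dist_eq_norm, dist_comm, hyn] at h2
      linarith
  have h2 : Metric.ball y (3 / 2) ⊆ Metric.ball y' 3 := by
    intro z hz
    rw [Metric.mem_ball] at hz ⊢
    have := dist_triangle z y y'
    rw [dist_comm y y'] at this
    linarith
  have h3 : μ.real (Metric.ball y' (3 / 4)) ≤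
      μ.real {z | z ∈ Metric.ball y (3 / 2) ∧ z ∉ Metric.ball (0 : Sp n) R} := by
    exact measureReal_mono h1 ((measure_mono (fun z hz => hz.1)).trans_lt (hadm.fin y (3 / 2))).ne
  have h4 : μ.real (Metric.ball y (3 / 2)) ≤ μ.real (Metric.ball y' 3) :=
    measureReal_mono h2 (hadm.fin y' 3).ne
  have h5 := hadm.dbl y' (3 / 2) (by norm_num)
  have h6 := hadm.dbl y' (3 / 4) (by norm_num)
  rw [show (2 : ℝ) * (3 / 2) = 3 by norm_num] at h5
  rw [show (2 : ℝ) * (3 / 4) = 3 / 2 by norm_num] at h6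
  have h7 : μ.real (Metric.ball y (3 / 2)) ≤ Cd ^ 2 * μ.real (Metric.ball y' (3 / 4)) := by
    calc _ ≤ Cd * μ.real (Metric.ball y' (3 / 2)) := h4.trans h5
      _ ≤ Cd * (Cd * μ.real (Metric.ball y' (3 / 4))) := mul_le_mul_of_nonneg_left h6 (by linarith)
      _ = _ := by ring
  refine le_trans ?_ h3
  rw [inv_mul_le_iff₀ (by positivity)]
  exact h7

theorem exists_barrier [IsFiniteMeasureOnCompacts μ] (hn : 1 ≤ n) (hp : 1 < p) (hα : 0 < α)
    (hβ : 0 < β) (hA : Op p α β μ A) (hS : SMono μ A) (hadm : Adm p μ Cd θ Cs lam Cp) :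
    ∃ δ : ℝ, 0 < δ ∧ δ < 1 ∧ ∀ R : ℝ, 3 * lam + 2 ≤ R →
      ∃ (g : Sp n → ℝ) (U : Sp n → Sp n), HSup A p μ (Metric.ball 0 R) g U ∧
        ContinuousOn g (Metric.ball 0 R) ∧ CmpSuper A p μ (Metric.ball 0 R) g ∧
        (∀ x ∈ Metric.ball (0 : Sp n) R, 0 ≤ g x ∧ g x ≤ 1) ∧
        (∀ x ∈ Metric.ball (0 : Sp n) (R - 3 * lam - 1), g x = 1) ∧
        ∀ x ∈ Metric.ball (0 : Sp n) R, x ∉ Metric.ball (0 : Sp n) (R - 1 / 2) → g x ≤ 1 - δ := by
  have hCd := hadm.one_le_Cd
  have hlam := hadm.one_le_lam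
  obtain ⟨δ, hδ0, hδ1, hδ⟩ := boundary_step (n := n) (Cd := Cd) (θ := θ) (Cs := Cs) (lam := lam)
    (Cp := Cp) hp hα hβ (γ := (Cd ^ 2)⁻¹) (by positivity)
  refine ⟨δ, hδ0, hδ1, fun R hR => ?_⟩
  obtain ⟨ρ, hρ, hρ01, W0, hW0, hKW, -, hρ1⟩ := exists_cutoff
    (K := Metric.closedBall (0 : Sp n) (R - 3 * lam - 1)) (G := Metric.ball (0 : Sp n) (R - 3 * lam))
    (isCompact_closedBall _ _) Metric.isOpen_ball (Metric.closedBall_subset_ball (by linarith))
  have hρD : Cc (Metric.ball (0 : Sp n) R) ρ :=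
    hρ.mono (Metric.ball_subset_ball (by linarith))
  have hρ0 : ∀ x, 0 ≤ ρ x := fun x => (hρ01 x).1
  have hρle : ∀ x, ρ x ≤ 1 := fun x => (hρ01 x).2
  obtain ⟨ω, W, h⟩ := exists_cobs hp hα hβ hA hadm (Metric.isOpen_ball (x := (0 : Sp n)) (ε := R))
    Metric.isBounded_ball hρD hρ0
  have hle := CObs.le_const hp hα hβ hA hadm (Metric.isOpen_ball (x := (0 : Sp n)) (ε := R))
    Metric.isBounded_ball h zero_le_one hρle
  have hge := h.ge
  refine ⟨ω, W, CObs.hsup hp h, h.cont, cmp_of_sup hp hα hβ hA hS hadm Metric.isOpen_ball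
    (Obs.sup hp h.obs) h.cont, ?_, ?_, ?_⟩
  · intro x hx
    exact ⟨(hρ0 x).trans (hge x hx), hle x hx⟩
  · intro x hx
    have hxD : x ∈ Metric.ball (0 : Sp n) R := Metric.ball_subset_ball (by linarith) hx
    have h1 := hge x hxD
    rw [hρ1 x (hKW (Metric.ball_subset_closedBall hx))] at h1
    exact le_antisymm (hle x hxD) h1
  · intro x hxD hx
    rw [Metric.mem_ball, dist_zero_right] at hxD hx
    push Not at hx
    have hxn : 0 < ‖x‖ := by linarith
    have hR0 : 0 < R := by linarith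
    obtain ⟨y, hy⟩ : ∃ y : Sp n, y = (R / ‖x‖) • x := ⟨_, rfl⟩
    have hyn : ‖y‖ = R := by
      rw [hy, norm_smul, Real.norm_of_nonneg (by positivity)]
      field_simp
    have hxy : dist x y ≤ 1 / 2 := by
      have e : x - y = (1 - R / ‖x‖) • x := by
        rw [hy, sub_smul, one_smul]
      rw [dist_eq_norm, e, norm_smul, Real.norm_eq_abs]
      have h1 : 1 - R / ‖x‖ = -((R - ‖x‖) / ‖x‖) := by
        field_simp
        ring
      rw [h1, abs_neg, abs_of_nonneg (div_nonneg (by linarith) hxn.le), div_mul_cancel₀ _ hxn.ne']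
      linarith
    have hae : ∀ᵐ x ∂μ, ω x ≤ 1 := Obs.le_const hp hα hβ hA hadm Metric.isBounded_ball h.obs
      zero_le_one hρle
    have hb := hδ μ A hA hadm (Metric.ball (0 : Sp n) R) ρ ω W h.obs hρ0 1 one_pos hae y (3 / 2)
      (by norm_num) (by
        intro z hz
        rw [Metric.mem_ball, show 2 * lam * (3 / 2) = 3 * lam by ring] at hz
        apply zero_of_notMem
        intro hzs
        have h1 := hρ.supp hzs
        rw [Metric.mem_ball, dist_zero_right] at h1
        have h2 := norm_sub_norm_le y z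
        rw [← dist_eq_norm, dist_comm, hyn] at h2
        linarith) (F1_thick hadm hR0 hyn)
    rw [show (3 : ℝ) / 2 / 2 = 3 / 4 by norm_num, mul_one] at hb
    have hfin := nonneg_of_ae hadm.pos (O := Metric.ball y (3 / 4) ∩ Metric.ball (0 : Sp n) R)
      (Metric.isOpen_ball.inter Metric.isOpen_ball) (g := fun z => (1 - δ) - ω z)
      (continuousOn_const.sub (h.cont.mono inter_subset_right)) (by
        filter_upwards [hb] with z hz
        intro hzO
        have := hz hzO.1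
        linarith) x ⟨by rw [Metric.mem_ball]; linarith, by rw [Metric.mem_ball, dist_zero_right]; exact hxD⟩
    linarith

end SkelF


end

section


section SkelF
variable {n : ℕ} {p α β Cd θ Cs lam Cp : ℝ} {μ : Measure (Sp n)} {A : Sp n → Sp n → Sp n}


/-- pasting lemma -/
theorem pasting [IsFiniteMeasureOnCompacts μ] (hp : 1 < p) {D D' K : Set (Sp n)} (hD : IsOpen D)
    (hD' : IsOpen D') (hDD : D ⊆ D') (hK : IsCompact K) (hKD : K ⊆ D) {w v F : Sp n → ℝ}
    (hw : CmpSuper A p μ D w) (hwl : LowerSemicontinuousOn w D) (hv : CmpSuper A p μ D' v)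
    (hvc : ContinuousOn v D') (hvw : ∀ x ∈ D, x ∉ K → v x ≤ w x)
    (hF : ∀ x ∈ D, F x = min (w x) (v x)) (hF' : ∀ x ∈ D', x ∉ D → F x = v x) :
    CmpSuper A p μ D' F ∧ LowerSemicontinuousOn F D' := by
  have hFv : ∀ x ∈ D', F x ≤ v x := by
    intro x hx
    by_cases hxD : x ∈ D
    · rw [hF x hxD]; exact min_le_right _ _
    · exact (hF' x hx hxD).le
  have hFvK : ∀ x ∈ D', x ∉ K → F x = v x := by
    intro x hx hxK
    by_cases hxD : x ∈ D
    · rw [hF x hxD]; exact min_eq_right (hvw x hxD hxK)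
    · exact hF' x hx hxD
  constructor
  · intro G hG hcG hGD h H hh hLH hEq hfr
    have hfrv : ∀ x ∈ frontier G, h x ≤ v x := fun x hx =>
      (hfr x hx).trans (hFv x (hGD (frontier_subset_closure hx)))
    have hGv : ∀ x ∈ G, h x ≤ v x := hv G hG hcG hGD h H hh hLH hEq hfrv
    obtain ⟨O, hO, hKO, hOD, hOc⟩ := exists_open_between_and_isCompact_closure hK hD hKD
    have hGO : IsOpen (G ∩ O) := hG.inter hO
    have hclO : closure (G ∩ O) ⊆ closure O := closure_mono Set.inter_subset_right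
    have hclG : closure (G ∩ O) ⊆ closure G := closure_mono Set.inter_subset_left
    have hGw : ∀ x ∈ G ∩ O, h x ≤ w x := by
      apply hw (G ∩ O) hGO (hOc.of_isClosed_subset isClosed_closure hclO) (hclO.trans hOD) h H
        (hh.mono hclG) (hLH.mono Set.inter_subset_left hp hGO)
        (fun φ hφ => hEq φ (hφ.mono Set.inter_subset_left))
      intro x hx
      have hx1 : x ∈ closure (G ∩ O) := frontier_subset_closure hx
      have hx2 : x ∉ G ∩ O := by
        rw [hGO.frontier_eq] at hx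
        exact hx.2
      have hxG : x ∈ closure G := hclG hx1
      have hxD : x ∈ D := hOD (hclO hx1)
      have hfrG : x ∉ G → h x ≤ F x := by
        intro hxG'
        apply hfr
        rw [hG.frontier_eq]
        exact ⟨hxG, hxG'⟩
      by_cases hxO : x ∈ O
      · have : x ∉ G := fun hh => hx2 ⟨hh, hxO⟩
        refine (hfrG this).trans ?_
        rw [hF x hxD]
        exact min_le_left _ _
      · have hxK : x ∉ K := fun hh => hxO (hKO hh)
        have hvwx := hvw x hxD hxK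
        by_cases hxG' : x ∈ G
        · exact (hGv x hxG').trans hvwx
        · exact ((hfrG hxG').trans (hFv x (hDD hxD))).trans hvwx
    intro x hx
    by_cases hxO : x ∈ O
    · have hxD : x ∈ D := hOD (subset_closure hxO)
      rw [hF x hxD]
      exact le_min (hGw x ⟨hx, hxO⟩) (hGv x hx)
    · have hxK : x ∉ K := fun hh => hxO (hKO hh)
      rw [hFvK x (hGD (subset_closure hx)) hxK]
      exact hGv x hx
  · intro x hx y hy
    have hvx : y < v x → ∀ᶠ z in 𝓝[D'] x, y < v z := fun hyv =>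
      (hvc x hx).eventually (lt_mem_nhds hyv)
    by_cases hxD : x ∈ D
    · rw [hF x hxD] at hy
      have h1 : ∀ᶠ z in 𝓝[D] x, y < w z := hwl x hxD y (hy.trans_le (min_le_left _ _))
      have h2 := hvx (hy.trans_le (min_le_right _ _))
      rw [hD.nhdsWithin_eq hxD] at h1
      have h3 : ∀ᶠ z in 𝓝[D'] x, y < w z := h1.filter_mono nhdsWithin_le_nhds
      have h4 : ∀ᶠ z in 𝓝[D'] x, z ∈ D := (hD.mem_nhds hxD |> fun h => (nhdsWithin_le_nhds h))
      filter_upwards [h2, h3, h4] with z hz1 hz2 hz3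
      rw [hF z hz3]
      exact lt_min hz2 hz1
    · have hxK : x ∉ K := fun hh => hxD (hKD hh)
      rw [hFvK x hx hxK] at hy
      have h4 : ∀ᶠ z in 𝓝[D'] x, z ∉ K := nhdsWithin_le_nhds (hK.isClosed.isOpen_compl.mem_nhds hxK)
      filter_upwards [hvx hy, h4, self_mem_nhdsWithin] with z hz1 hz2 hz3
      rw [hFvK z hz3 hz2]
      exact hz1

end SkelF


end

section


section SkelF
variable {n : ℕ} {p α β Cd θ Cs lam Cp : ℝ} {μ : Measure (Sp n)} {A : Sp n → Sp n → Sp n}


theorem HSup.const_mul [IsFiniteMeasureOnCompacts μ] (hp : 1 < p) (hA : Op p α β μ A)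
    {D : Set (Sp n)} {g : Sp n → ℝ} {U : Sp n → Sp n} (h : HSup A p μ D g U) {t : ℝ} (ht : 0 < t) :
    HSup A p μ D (fun x => t * g x) (fun x => t • U x) := by
  refine ⟨h.h0.const_mul t, ?_⟩
  intro T TT hT hT0
  have h1 := h.test T TT hT hT0
  have hae : ∀ᵐ x ∂μ, ⟪A x (t • U x), TT x⟫ = (t * |t| ^ (p - 2)) * ⟪A x (U x), TT x⟫ := by
    filter_upwards [hA.hom] with x hx
    rw [hx t (U x) ht.ne', real_inner_smul_left]
  rw [integral_congr_ae hae, integral_const_mul]
  exact mul_nonneg (mul_nonneg ht.le (Real.rpow_nonneg (abs_nonneg t) _)) h1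

theorem CmpSuper.const_mul [IsFiniteMeasureOnCompacts μ] (hp : 1 < p) (hA : Op p α β μ A)
    {D : Set (Sp n)} {g : Sp n → ℝ} (h : CmpSuper A p μ D g) {t : ℝ} (ht : 0 < t) :
    CmpSuper A p μ D (fun x => t * g x) := by
  intro G hG hGc hGD h' H' hcont hLH heq hle x hx
  have ht' : (0:ℝ) < t⁻¹ := inv_pos.mpr ht
  have key := h G hG hGc hGD (fun x => t⁻¹ * h' x) (fun x => t⁻¹ • H' x)
    (continuousOn_const.mul hcont) (hLH.const_mul t⁻¹) (by
      intro φ hφ
      have hae : ∀ᵐ x ∂μ, ⟪A x (t⁻¹ • H' x), gradient φ x⟫ =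
          (t⁻¹ * |t⁻¹| ^ (p - 2)) * ⟪A x (H' x), gradient φ x⟫ := by
        filter_upwards [hA.hom] with x hx
        rw [hx t⁻¹ (H' x) ht'.ne', real_inner_smul_left]
      rw [integral_congr_ae hae, integral_const_mul, heq φ hφ, mul_zero]) (by
      intro y hy
      have h1 := hle y hy
      have h2 : t⁻¹ * h' y ≤ t⁻¹ * (t * g y) := mul_le_mul_of_nonneg_left h1 ht'.le
      rwa [← mul_assoc, inv_mul_cancel₀ ht.ne', one_mul] at h2) x hx
  have h3 : t * (t⁻¹ * h' x) ≤ t * g x := mul_le_mul_of_nonneg_left key ht.le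
  rwa [← mul_assoc, mul_inv_cancel₀ ht.ne', one_mul] at h3

end SkelF


end

end Pool.Agent.Helper533.Polar
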