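import Pool.Agent.Helper533.Deny.E
import Pool.Agent.Helper533.Deny.F
open MeasureTheory Filter Topology Set
open scoped ENNReal NNReal RealInnerProductSpace

namespace Pool.Agent.Helper533.Polar

section


section SkelH
variable {n : ℕ} {p α β Cd θ Cs lam Cp : ℝ} {μ : Measure (Sp n)} {A : Sp n → Sp n → Sp n}


/-- one step of the level construction -/
theorem level_step [IsFiniteMeasureOnCompacts μ] (hn : 1 ≤ n) (hp : 1 < p) (hα : 0 < α)
    (hβ : 0 < β) (hA : Op p α β μ A) (hS : SMono μ A) (hadm : Adm p μ Cd θ Cs lam Cp)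
    {E Ω U O : Set (Sp n)} (hΩ : IsOpen Ω) (hEΩ : E ⊆ Ω) (hU : IsOpen U) (hEU : E ⊆ U)
    (hpol : ∀ L : Set (Sp n), IsCompact L → L ⊆ Ω → CapNull p μ E L)
    {F : Sp n → ℝ} {R M e : ℝ} (hR : 3 * lam + 2 ≤ R) (he : 0 < e) (hL : Lev A p μ E R F O M) :
    ∃ (F' : Sp n → ℝ) (O' : Set (Sp n)) (M' c : ℝ), Lev A p μ E (R + 1 / 4) F' O' M' ∧
      ∀ x ∈ Metric.ball (0 : Sp n) (R - 3 * lam - 3 / 4), F x + c ≤ F' x ∧ F' x ≤ F x + 1 + c ∧
        (x ∈ E → F' x = F x + 1 + c) ∧ (x ∉ U → F' x ≤ F x + e + c) := by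
  classical
  have hlam := hadm.one_le_lam
  have hR0 : 0 < R := by linarith
  obtain ⟨g, Ug, K, hg, hgc, hK, hKD, hFg, hFg'⟩ := hL.maj
  have hQD : O ∩ U ∩ Ω ⊆ Metric.ball (0 : Sp n) R := fun x hx => hL.sub hx.1.1
  have hQo : IsOpen (O ∩ U ∩ Ω) := (hL.opn.inter hU).inter hΩ
  have hFQ : ContinuousOn F (O ∩ U ∩ Ω) := hL.cont.mono (fun x hx => hx.1.1)
  obtain ⟨V, w, hVo, hVQ, hEV, hwl, hwc, hwF, hwV, hwQ⟩ :=
    one_level (E := E) (Q := O ∩ U ∩ Ω) hp hα hβ hA hS hadm Metric.isOpen_ball Metric.isBounded_ball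
      hL.lsc hL.cmp hL.bd hg hgc hK hKD hFg hFg' hQo hQD hFQ
      (fun x hx => ⟨⟨hL.memE hx, hEU hx.1⟩, hEΩ hx.1⟩)
      (fun L hL1 hL2 => hpol L hL1 (fun x hx => (hL2 hx).2)) he
  obtain ⟨δ, hδ0, hδ1, hbar⟩ := exists_barrier (n := n) hn hp hα hβ hA hS hadm
  obtain ⟨g', U', hg', hg'c, hg'cmp, hg'01, hg'1, hg'δ⟩ := hbar (R + 1 / 4) (by linarith)
  have hM : 0 ≤ M := by
    have := hL.bd 0 (Metric.mem_ball_self hR0)
    linarith [this.1, this.2]
  obtain ⟨Lam, hLam⟩ : ∃ Lam : ℝ, Lam = 2 * (M + 1) / δ := ⟨_, rfl⟩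
  have hLam0 : 0 < Lam := by rw [hLam]; positivity
  have hLamδ : Lam * δ = 2 * (M + 1) := by rw [hLam]; field_simp
  obtain ⟨c, hc⟩ : ∃ c : ℝ, c = Lam * (1 - δ / 2) := ⟨_, rfl⟩
  have hc0 : 0 ≤ c := by
    rw [hc]
    apply mul_nonneg hLam0.le
    linarith
  have hcL : c + (M + 1) = Lam := by
    rw [hc]
    linear_combination (-1/2) * hLamδ
  have hcδ : Lam * (1 - δ) ≤ c := by
    rw [hc]
    apply mul_le_mul_of_nonneg_left _ hLam0.le
    linarith
  let F' : Sp n → ℝ := fun x => if x ∈ Metric.ball (0 : Sp n) R then min (w x + c) (Lam * g' x)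
    else Lam * g' x
  have hF'in : ∀ x ∈ Metric.ball (0 : Sp n) R, F' x = min (w x + c) (Lam * g' x) :=
    fun x hx => if_pos hx
  have hF'out : ∀ x, x ∉ Metric.ball (0 : Sp n) R → F' x = Lam * g' x := fun x hx => if_neg hx
  have hDD : Metric.ball (0 : Sp n) R ⊆ Metric.ball (0 : Sp n) (R + 1 / 4) :=
    Metric.ball_subset_ball (by linarith)
  have hK0c : IsCompact (Metric.closedBall (0 : Sp n) (R - 1 / 4)) := isCompact_closedBall _ _
  have hK0D : Metric.closedBall (0 : Sp n) (R - 1 / 4) ⊆ Metric.ball (0 : Sp n) R :=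
    Metric.closedBall_subset_ball (by linarith)
  have hgoff : ∀ x ∈ Metric.ball (0 : Sp n) (R + 1 / 4), x ∉ Metric.closedBall (0 : Sp n) (R - 1 / 4) →
      g' x ≤ 1 - δ := by
    intro x hx hx'
    apply hg'δ x hx
    intro h
    apply hx'
    have h1 : Metric.ball (0 : Sp n) (R + 1 / 4 - 1 / 2) ⊆ Metric.closedBall (0 : Sp n) (R - 1 / 4) := by
      rw [show R + 1 / 4 - 1 / 2 = R - 1 / 4 by ring]
      exact Metric.ball_subset_closedBall
    exact h1 h
  have hvw : ∀ x ∈ Metric.ball (0 : Sp n) R, x ∉ Metric.closedBall (0 : Sp n) (R - 1 / 4) →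
      Lam * g' x ≤ w x + c := by
    intro x hx hx'
    have h1 := hgoff x (hDD hx) hx'
    have h2 := (hwF x hx).1
    have h3 := (hL.bd x hx).1
    have h4 : Lam * g' x ≤ Lam * (1 - δ) := mul_le_mul_of_nonneg_left h1 hLam0.le
    linarith
  have hvc : ContinuousOn (fun x => Lam * g' x) (Metric.ball (0 : Sp n) (R + 1 / 4)) :=
    continuousOn_const.mul hg'c
  have hwl' : LowerSemicontinuousOn (fun x => w x + c) (Metric.ball (0 : Sp n) R) :=
    hwl.add (continuousOn_const.lowerSemicontinuousOn)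
  obtain ⟨hcmp, hlsc⟩ := pasting (D := Metric.ball (0 : Sp n) R) (D' := Metric.ball (0 : Sp n) (R + 1 / 4))
    (K := Metric.closedBall (0 : Sp n) (R - 1 / 4)) (w := fun x => w x + c) (v := fun x => Lam * g' x)
    (F := F') hp Metric.isOpen_ball Metric.isOpen_ball hDD hK0c hK0D
    (CmpSuper.add_const hwc c hp) hwl' (CmpSuper.const_mul hp hA hg'cmp hLam0) hvc hvw hF'in
    (fun x _ hx => hF'out x hx)
  have hF'le : ∀ x, F' x ≤ Lam * g' x := by
    intro x
    by_cases hx : x ∈ Metric.ball (0 : Sp n) R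
    · rw [hF'in x hx]; exact min_le_right _ _
    · rw [hF'out x hx]
  have hF'off : ∀ x ∈ Metric.ball (0 : Sp n) (R + 1 / 4),
      x ∉ Metric.closedBall (0 : Sp n) (R - 1 / 4) → F' x = Lam * g' x := by
    intro x hx hx'
    by_cases hxD : x ∈ Metric.ball (0 : Sp n) R
    · rw [hF'in x hxD]; exact min_eq_right (hvw x hxD hx')
    · exact hF'out x hxD
  have hVD : V ⊆ Metric.ball (0 : Sp n) R := fun x hx => hQD (hVQ hx)
  refine ⟨F', V ∪ (Metric.ball (0 : Sp n) (R + 1 / 4) ∩ (Metric.closedBall (0 : Sp n) (R - 1 / 4))ᶜ),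
    Lam, c, ?_, ?_⟩
  · refine ⟨hlsc, hcmp, ?_, ?_, ?_, ?_, ?_, ?_⟩
    · intro x hx
      have h1 := hg'01 x hx
      constructor
      · by_cases hxD : x ∈ Metric.ball (0 : Sp n) R
        · rw [hF'in x hxD]
          have h2 := (hwF x hxD).1
          have h3 := (hL.bd x hxD).1
          exact le_min (by linarith) (mul_nonneg hLam0.le h1.1)
        · rw [hF'out x hxD]
          exact mul_nonneg hLam0.le h1.1
      · refine (hF'le x).trans ?_
        have := mul_le_mul_of_nonneg_left h1.2 hLam0.le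
        linarith
    · exact ⟨fun x => Lam * g' x, fun x => Lam • U' x, Metric.closedBall (0 : Sp n) (R - 1 / 4),
        HSup.const_mul hp hA hg' hLam0, hvc, hK0c, hK0D.trans hDD, fun x _ => hF'le x, hF'off⟩
    · exact hVo.union (Metric.isOpen_ball.inter Metric.isClosed_closedBall.isOpen_compl)
    · rintro x (hx | hx)
      · exact hDD (hVD hx)
      · exact hx.1
    · rintro x ⟨hxE, hxD'⟩
      by_cases hxD : x ∈ Metric.ball (0 : Sp n) R
      · exact Or.inl (hEV ⟨hxE, hxD⟩)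
      · right
        refine ⟨hxD', fun h => hxD (hK0D h)⟩
    · rintro x (hx | hx)
      · apply ContinuousAt.continuousWithinAt
        have h1 : F' =ᶠ[𝓝 x] fun y => min (F y + 1 + c) (Lam * g' y) := by
          filter_upwards [hVo.mem_nhds hx] with y hy
          rw [hF'in y (hVD hy), hwV y hy]
        rw [continuousAt_congr h1]
        have h2 : ContinuousAt F x := hFQ.continuousAt (hQo.mem_nhds (hVQ hx))
        have h3 : ContinuousAt (fun y => Lam * g' y) x :=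
          hvc.continuousAt (Metric.isOpen_ball.mem_nhds (hDD (hVD hx)))
        exact ((h2.add continuousAt_const).add continuousAt_const).min h3
      · apply ContinuousAt.continuousWithinAt
        have hopen : IsOpen (Metric.ball (0 : Sp n) (R + 1 / 4) ∩ (Metric.closedBall (0 : Sp n) (R - 1 / 4))ᶜ) :=
          Metric.isOpen_ball.inter Metric.isClosed_closedBall.isOpen_compl
        have h1 : F' =ᶠ[𝓝 x] fun y => Lam * g' y := by
          filter_upwards [hopen.mem_nhds hx] with y hy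
          exact hF'off y hy.1 hy.2
        rw [continuousAt_congr h1]
        exact hvc.continuousAt (Metric.isOpen_ball.mem_nhds hx.1)
  · intro x hx
    have hxD : x ∈ Metric.ball (0 : Sp n) R := Metric.ball_subset_ball (by linarith) hx
    have hg1 : g' x = 1 := by
      apply hg'1
      rw [show R + 1 / 4 - 3 * lam - 1 = R - 3 * lam - 3 / 4 by ring]
      exact hx
    have hb := hL.bd x hxD
    have hw1 := hwF x hxD
    have hF'x : F' x = w x + c := by
      rw [hF'in x hxD, hg1, mul_one]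
      apply min_eq_left
      linarith
    rw [hF'x]
    refine ⟨by linarith, by linarith, ?_, ?_⟩
    · intro hxE
      rw [hwV x (hEV ⟨hxE, hxD⟩)]
    · intro hxU
      have := hwQ x hxD (fun h => hxU h.1.2)
      linarith

end SkelH


end

section


section SkelH
variable {n : ℕ} {p α β Cd θ Cs lam Cp : ℝ} {μ : Measure (Sp n)} {A : Sp n → Sp n → Sp n}



theorem dn_int0 (hp : 1 < p) (hA : Op p α β μ A) (V : Sp n → Sp n) :
    ∫ x, ⟪A x 0, V x⟫ ∂μ = 0 := by
  have : (fun x => ⟪A x 0, V x⟫) =ᵐ[μ] fun _ => (0:ℝ) := by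
    filter_upwards [hA.bdd] with x hx
    have h := hx 0
    rw [norm_zero, Real.zero_rpow (by linarith), mul_zero] at h
    rw [norm_le_zero_iff.1 h, inner_zero_left]
  rw [integral_congr_ae this]
  simp

theorem dn_lev0 [IsFiniteMeasureOnCompacts μ] (hp : 1 < p) (hα : 0 < α)
    (hβ : 0 < β) (hA : Op p α β μ A) (hS : SMono μ A) (hadm : Adm p μ Cd θ Cs lam Cp)
    (E : Set (Sp n)) (R : ℝ) :
    Lev A p μ E R (fun _ => 0) (Metric.ball 0 R) 0 where
  lsc := lowerSemicontinuousOn_const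
  cmp := by
    have h1 : Sup A p μ (Metric.ball 0 R) (fun _ => (0:ℝ)) (fun _ => 0) :=
      ⟨LH.const 0, fun φ _ _ => le_of_eq (dn_int0 hp hA _).symm⟩
    exact cmp_of_sup hp hα hβ hA hS hadm Metric.isOpen_ball h1 continuousOn_const
  bd := fun x _ => ⟨le_rfl, le_rfl⟩
  maj := ⟨fun _ => 0, fun _ => 0, ∅, ⟨H0.zero, fun T TT _ _ => le_of_eq (dn_int0 hp hA _).symm⟩,
    continuousOn_const, isCompact_empty, empty_subset _, fun x _ => le_rfl, fun x _ _ => rfl⟩
  opn := Metric.isOpen_ball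
  sub := subset_rfl
  memE := inter_subset_right
  cont := continuousOn_const

theorem dn_seq [IsFiniteMeasureOnCompacts μ] (hn : 1 ≤ n) (hp : 1 < p) (hα : 0 < α)
    (hβ : 0 < β) (hA : Op p α β μ A) (hS : SMono μ A) (hadm : Adm p μ Cd θ Cs lam Cp)
    {E Ω : Set (Sp n)} (hΩ : IsOpen Ω) (hEΩ : E ⊆ Ω)
    (hpol : ∀ L : Set (Sp n), IsCompact L → L ⊆ Ω → CapNull p μ E L)
    (U : ℕ → Set (Sp n)) (hU : ∀ k, IsOpen (U k)) (hEU : ∀ k, E ⊆ U k) :
    ∃ (F : ℕ → Sp n → ℝ) (O : ℕ → Set (Sp n)) (M c : ℕ → ℝ), ∀ k : ℕ,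
      Lev A p μ E (3 * lam + 2 + (k : ℝ) / 4) (F k) (O k) (M k) ∧
      ∀ x ∈ Metric.ball (0 : Sp n) (5 / 4 + (k : ℝ) / 4), F k x + c k ≤ F (k + 1) x ∧
        F (k + 1) x ≤ F k x + 1 + c k ∧ (x ∈ E → F (k + 1) x = F k x + 1 + c k) ∧
        (x ∉ U k → F (k + 1) x ≤ F k x + (1 / 2 : ℝ) ^ k + c k) := by
  have step : ∀ (k : ℕ) (s : (Sp n → ℝ) × Set (Sp n) × ℝ),
      Lev A p μ E (3 * lam + 2 + (k : ℝ) / 4) s.1 s.2.1 s.2.2 →
      ∃ (s' : (Sp n → ℝ) × Set (Sp n) × ℝ) (c : ℝ),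
      Lev A p μ E (3 * lam + 2 + ((k + 1 : ℕ) : ℝ) / 4) s'.1 s'.2.1 s'.2.2 ∧
      ∀ x ∈ Metric.ball (0 : Sp n) (5 / 4 + (k : ℝ) / 4), s.1 x + c ≤ s'.1 x ∧
        s'.1 x ≤ s.1 x + 1 + c ∧ (x ∈ E → s'.1 x = s.1 x + 1 + c) ∧
        (x ∉ U k → s'.1 x ≤ s.1 x + (1 / 2 : ℝ) ^ k + c) := by
    intro k s hs
    have hk0 : (0:ℝ) ≤ k := Nat.cast_nonneg k
    obtain ⟨F', O', M', c, h1, h2⟩ := level_step hn hp hα hβ hA hS hadm hΩ hEΩ (hU k) (hEU k) hpol
      (R := 3 * lam + 2 + (k : ℝ) / 4) (e := (1 / 2 : ℝ) ^ k) (by linarith) (by positivity) hs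
    refine ⟨(F', O', M'), c, ?_, ?_⟩
    · have e : 3 * lam + 2 + ((k + 1 : ℕ) : ℝ) / 4 = 3 * lam + 2 + (k : ℝ) / 4 + 1 / 4 := by
        push_cast; ring
      rw [e]
      exact h1
    · intro x hx
      apply h2 x
      have e : 3 * lam + 2 + (k : ℝ) / 4 - 3 * lam - 3 / 4 = 5 / 4 + (k : ℝ) / 4 := by ring
      rw [e]
      exact hx
  choose! nxt cc hnxt using step
  obtain ⟨sq, hsq0, hsqS⟩ : ∃ sq : ℕ → (Sp n → ℝ) × Set (Sp n) × ℝ,
      sq 0 = (fun _ => 0, Metric.ball 0 (3 * lam + 2 + ((0 : ℕ) : ℝ) / 4), 0) ∧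
      ∀ k, sq (k + 1) = nxt k (sq k) :=
    ⟨fun k => Nat.rec (fun _ => 0, Metric.ball 0 (3 * lam + 2 + ((0 : ℕ) : ℝ) / 4), 0)
      (fun k s => nxt k s) k, rfl, fun _ => rfl⟩
  have hsq : ∀ k : ℕ, Lev A p μ E (3 * lam + 2 + (k : ℝ) / 4) (sq k).1 (sq k).2.1 (sq k).2.2 := by
    intro k
    induction k with
    | zero =>
      rw [hsq0]
      exact dn_lev0 hp hα hβ hA hS hadm E _
    | succ k ih =>
      rw [hsqS]
      exact (hnxt k _ ih).1
  refine ⟨fun k => (sq k).1, fun k => (sq k).2.1, fun k => (sq k).2.2, fun k => cc k (sq k), ?_⟩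
  intro k
  refine ⟨hsq k, ?_⟩
  have := (hnxt k _ (hsq k)).2
  rw [← hsqS] at this
  exact this

/-- subtracting constants -/
theorem dn_cmp_sub [IsFiniteMeasureOnCompacts μ] (hp : 1 < p) {D : Set (Sp n)} {F : Sp n → ℝ}
    (h : CmpSuper A p μ D F) (S : ℝ) : CmpSuper A p μ D (fun x => F x - S) := by
  intro G hG hGc hGD g H hg hLH heq hfr x hx
  have h1 : LH p μ G (fun x => g x + S) H := by
    refine (LH.add hp hLH (LH.const S)).congr (Eventually.of_forall fun _ _ => rfl)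
      (Eventually.of_forall fun _ _ => ?_)
    simp
  have := h G hG hGc hGD (fun x => g x + S) H (hg.add continuousOn_const) h1 heq
    (fun y hy => by linarith [hfr y hy]) x hx
  linarith

theorem dn_main [IsFiniteMeasureOnCompacts μ] (hp : 1 < p) {E : Set (Sp n)}
    (U : ℕ → Set (Sp n)) (hUanti : ∀ i j, i ≤ j → U j ⊆ U i) (hUE : ∀ x, (∀ k, x ∈ U k) → x ∈ E)
    (v : ℕ → Sp n → ℝ)
    (hlsc : ∀ k : ℕ, LowerSemicontinuousOn (v k) (Metric.ball 0 (5 / 4 + (k : ℝ) / 4)))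
    (hcmp : ∀ k : ℕ, CmpSuper A p μ (Metric.ball 0 (5 / 4 + (k : ℝ) / 4)) (v k))
    (hstep : ∀ k : ℕ, ∀ x ∈ Metric.ball (0 : Sp n) (5 / 4 + (k : ℝ) / 4), v k x ≤ v (k + 1) x ∧
      (x ∈ E → v (k + 1) x = v k x + 1) ∧ (x ∉ U k → v (k + 1) x ≤ v k x + (1 / 2 : ℝ) ^ k)) :
    ∃ u : Sp n → EReal, LowerSemicontinuous u ∧ (∀ x, u x ≠ ⊥) ∧ CmpSuperE A p μ univ u ∧
      ∀ x, u x = ⊤ ↔ x ∈ E := by
  have hball : ∀ (r : ℝ) (k : ℕ) (x : Sp n), ⌈4 * r⌉₊ ≤ k → ‖x‖ ≤ r →
      x ∈ Metric.ball (0 : Sp n) (5 / 4 + (k : ℝ) / 4) := by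
    intro r k x hk hx
    rw [mem_ball_zero_iff]
    have h1 : 4 * r ≤ k := (Nat.le_ceil _).trans (by exact_mod_cast hk)
    linarith
  obtain ⟨kk, hkk⟩ : ∃ kk : Sp n → ℕ, ∀ x, kk x = ⌈4 * ‖x‖⌉₊ := ⟨_, fun _ => rfl⟩
  have hkkr : ∀ (r : ℝ) (x : Sp n), ‖x‖ ≤ r → kk x ≤ ⌈4 * r⌉₊ := by
    intro r x hx
    rw [hkk]
    exact Nat.ceil_mono (by linarith)
  have hkkb : ∀ (k : ℕ) (x : Sp n), kk x ≤ k →
      x ∈ Metric.ball (0 : Sp n) (5 / 4 + (k : ℝ) / 4) := by
    intro k x hk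
    rw [hkk] at hk
    exact hball ‖x‖ k x hk le_rfl
  have hmono1 : ∀ (x : Sp n) (K d : ℕ), kk x ≤ K → v K x ≤ v (K + d) x := by
    intro x K d hK
    induction d with
    | zero => exact le_rfl
    | succ d ih =>
      exact ih.trans (hstep (K + d) x (hkkb _ x (by omega))).1
  have hmono : ∀ (x : Sp n) (K K' : ℕ), kk x ≤ K → K ≤ K' → v K x ≤ v K' x := by
    intro x K K' h1 h2
    obtain ⟨d, rfl⟩ := Nat.exists_eq_add_of_le h2
    exact hmono1 x K d h1
  obtain ⟨u, hu⟩ : ∃ u : Sp n → EReal, ∀ x, u x = ⨆ j : ℕ, (v (kk x + j) x : EReal) :=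
    ⟨_, fun _ => rfl⟩
  have hle : ∀ (x : Sp n) (k : ℕ), kk x ≤ k → (v k x : EReal) ≤ u x := by
    intro x k hk
    rw [hu]
    obtain ⟨d, rfl⟩ := Nat.exists_eq_add_of_le hk
    exact le_iSup (fun j : ℕ => (v (kk x + j) x : EReal)) d
  have hlt : ∀ (x : Sp n) (K : ℕ) (y : EReal), y < u x →
      ∃ j, K ≤ j ∧ kk x ≤ j ∧ y < (v j x : EReal) := by
    intro x K y hy
    rw [hu, lt_iSup_iff] at hy
    obtain ⟨j, hj⟩ := hy
    refine ⟨kk x + j + K, by omega, by omega, lt_of_lt_of_le hj ?_⟩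
    rw [EReal.coe_le_coe_iff]
    exact hmono x _ _ (by omega) (by omega)
  refine ⟨u, ?_, ?_, ?_, ?_⟩
  · -- lower semicontinuity
    rw [lowerSemicontinuous_iff]
    intro x
    rw [lowerSemicontinuousAt_iff]
    intro y hy
    obtain ⟨K, hK⟩ : ∃ K, K = ⌈4 * (‖x‖ + 1)⌉₊ := ⟨_, rfl⟩
    obtain ⟨j, hKj, hkj, hj⟩ := hlt x K y hy
    obtain ⟨a, ha1, ha2⟩ := EReal.lt_iff_exists_real_btwn.1 hj
    rw [EReal.coe_lt_coe_iff] at ha2
    have hxb := hkkb j x hkj
    have h1 := (lowerSemicontinuousWithinAt_iff.1 (lowerSemicontinuousOn_iff.1 (hlsc j) x hxb)) a ha2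
    rw [Metric.isOpen_ball.nhdsWithin_eq hxb] at h1
    filter_upwards [h1, Metric.ball_mem_nhds x one_pos] with x' hx' hx'1
    have h2 : ‖x'‖ ≤ ‖x‖ + 1 := by
      have h3 : ‖x' - x‖ < 1 := by rwa [← dist_eq_norm]
      have h4 : ‖x'‖ ≤ ‖x‖ + ‖x' - x‖ := by
        have := norm_add_le x (x' - x)
        rwa [add_sub_cancel] at this
      linarith
    have h3 : kk x' ≤ j := (hkkr _ _ h2).trans (by rw [← hK]; exact hKj)
    calc y < (a : EReal) := ha1
      _ < (v j x' : EReal) := by rw [EReal.coe_lt_coe_iff]; exact hx'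
      _ ≤ u x' := hle x' j h3
  · intro x hx
    have := hle x (kk x) le_rfl
    rw [hx, le_bot_iff] at this
    exact EReal.coe_ne_bot _ this
  · -- comparison
    intro G hG hGc _ g H hg hLH heq hfr x hx
    obtain ⟨r, hr⟩ := hGc.isBounded.subset_closedBall (0 : Sp n)
    have hrn : ∀ y ∈ closure G, ‖y‖ ≤ r := by
      intro y hy
      have := hr hy
      rwa [mem_closedBall_zero_iff] at this
    have hfrc : IsCompact (frontier G) := hGc.of_isClosed_subset isClosed_frontier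
      frontier_subset_closure
    by_contra hcon
    push Not at hcon
    obtain ⟨a, ha1, ha2⟩ := EReal.lt_iff_exists_real_btwn.1 hcon
    rw [EReal.coe_lt_coe_iff] at ha2
    obtain ⟨e, he⟩ : ∃ e, e = g x - a := ⟨_, rfl⟩
    have he0 : 0 < e := by rw [he]; linarith
    obtain ⟨K, hK⟩ : ∃ K, K = ⌈4 * r⌉₊ := ⟨_, rfl⟩
    have key : ∃ j, K ≤ j ∧ ∀ y ∈ frontier G, y ∈ frontier G → g y - e < v j y := by
      refine hfrc.induction_on
        (p := fun s => ∃ j, K ≤ j ∧ ∀ y ∈ s, y ∈ frontier G → g y - e < v j y) ?_ ?_ ?_ ?_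
      · exact ⟨K, le_rfl, fun y hy => absurd hy (notMem_empty y)⟩
      · rintro s t hst ⟨j, hj1, hj2⟩
        exact ⟨j, hj1, fun y hy => hj2 y (hst hy)⟩
      · rintro s t ⟨j, hj1, hj2⟩ ⟨j', hj1', hj2'⟩
        refine ⟨max j j', le_trans hj1 (le_max_left _ _), ?_⟩
        rintro y hy hyf
        have hyr : kk y ≤ K := by
          rw [hK]
          exact hkkr r y (hrn y (frontier_subset_closure hyf))
        rcases hy with hy | hy
        · exact lt_of_lt_of_le (hj2 y hy hyf) (hmono y _ _ (hyr.trans hj1) (le_max_left _ _))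
        · exact lt_of_lt_of_le (hj2' y hy hyf) (hmono y _ _ (hyr.trans hj1') (le_max_right _ _))
      · intro y hy
        have hyc := frontier_subset_closure hy
        have h1 : ((g y - e / 2 : ℝ) : EReal) < u y := by
          refine lt_of_lt_of_le ?_ (hfr y hy)
          rw [EReal.coe_lt_coe_iff]
          linarith
        obtain ⟨j, hKj, hkj, hj⟩ := hlt y K _ h1
        rw [EReal.coe_lt_coe_iff] at hj
        have hyb := hkkb j y hkj
        have h2 := (lowerSemicontinuousWithinAt_iff.1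
          (lowerSemicontinuousOn_iff.1 (hlsc j) y hyb)) _ hj
        rw [Metric.isOpen_ball.nhdsWithin_eq hyb] at h2
        have h3 : ∀ᶠ z in 𝓝[closure G] y, g z < g y + e / 2 :=
          (hg y hyc).eventually (gt_mem_nhds (by linarith))
        have h4 : ∀ᶠ z in 𝓝[frontier G] y, g z < g y + e / 2 :=
          h3.filter_mono (nhdsWithin_mono y frontier_subset_closure)
        have h5 : ∀ᶠ z in 𝓝[frontier G] y, g y - e / 2 < v j z :=
          h2.filter_mono nhdsWithin_le_nhds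
        refine ⟨{z | g z - e < v j z}, ?_, j, hKj, fun z hz _ => hz⟩
        filter_upwards [h4, h5] with z hz1 hz2
        change g z - e < v j z
        linarith
    obtain ⟨j, hKj, hj⟩ := key
    have hGb : closure G ⊆ Metric.ball 0 (5 / 4 + (j : ℝ) / 4) := by
      intro y hy
      apply hball r j y _ (hrn y hy)
      rw [← hK]; exact hKj
    have h1 : LH p μ G (fun x => g x + -e) H := by
      refine (LH.add hp hLH (LH.const (-e))).congr (Eventually.of_forall fun _ _ => rfl)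
        (Eventually.of_forall fun _ _ => ?_)
      simp
    have h2 := hcmp j G hG hGc hGb (fun x => g x + -e) H (hg.add continuousOn_const) h1 heq
      (fun y hy => by
        have := hj y hy hy
        linarith) x hx
    have hxr : kk x ≤ j := by
      refine le_trans (hkkr r x (hrn x (subset_closure hx))) ?_
      rw [← hK]; exact hKj
    have h3 := hle x j hxr
    have h4 : (a : EReal) ≤ (v j x : EReal) := by
      rw [EReal.coe_le_coe_iff]
      linarith
    exact absurd ha1 (not_lt.2 (h4.trans h3))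
  · -- the set
    intro x
    constructor
    · intro htop
      by_contra hxE
      have h1 : ∃ m0, x ∉ U m0 := by
        by_contra hcon
        push Not at hcon
        exact hxE (hUE x hcon)
      obtain ⟨m0, hm0⟩ := h1
      obtain ⟨K, hK⟩ : ∃ K, K = max (kk x) m0 := ⟨_, rfl⟩
      have hK1 : kk x ≤ K := by rw [hK]; exact le_max_left _ _
      have hK2 : m0 ≤ K := by rw [hK]; exact le_max_right _ _
      have hb : ∀ j : ℕ, v (K + j) x ≤ v K x + (2 - 2 * (1 / 2 : ℝ) ^ j) := by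
        intro j
        induction j with
        | zero => simp
        | succ j ih =>
          have h2 := (hstep (K + j) x (hkkb _ x (by omega))).2.2
            (fun hh => hm0 (hUanti m0 (K + j) (by omega) hh))
          have h3 : (1 / 2 : ℝ) ^ (K + j) ≤ (1 / 2 : ℝ) ^ j :=
            pow_le_pow_of_le_one (by norm_num) (by norm_num) (by omega)
          have h4 : (1 / 2 : ℝ) ^ (j + 1) = (1 / 2 : ℝ) ^ j / 2 := by
            rw [pow_succ]; ring
          rw [h4, ← add_assoc]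
          linarith
      have h2 : ((v K x + 2 : ℝ) : EReal) < u x := by
        rw [htop]
        exact EReal.coe_lt_top _
      obtain ⟨j, hKj, hkj, hj⟩ := hlt x K _ h2
      rw [EReal.coe_lt_coe_iff] at hj
      obtain ⟨d, rfl⟩ := Nat.exists_eq_add_of_le hKj
      have h3 := hb d
      have h4 : (0:ℝ) < (1 / 2 : ℝ) ^ d := by positivity
      linarith
    · intro hxE
      rw [EReal.eq_top_iff_forall_lt]
      intro y
      have hb : ∀ j : ℕ, v (kk x + j) x = v (kk x) x + j := by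
        intro j
        induction j with
        | zero => simp
        | succ j ih =>
          have h2 := (hstep (kk x + j) x (hkkb _ x (by omega))).2.1 hxE
          rw [← add_assoc, h2, ih]
          push_cast
          ring
      obtain ⟨j, hj⟩ := exists_nat_gt (y - v (kk x) x)
      refine lt_of_lt_of_le ?_ (hle x (kk x + j) (by omega))
      rw [EReal.coe_lt_coe_iff, hb]
      linarith

theorem deny_internal [IsFiniteMeasureOnCompacts μ] (hn : 1 ≤ n) (hp : 1 < p) (hα : 0 < α)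
    (hβ : 0 < β) (hA : Op p α β μ A) (hS : SMono μ A) (hadm : Adm p μ Cd θ Cs lam Cp)
    {E Ω : Set (Sp n)} (hE : IsGδ E) (hΩ : IsOpen Ω) (hEΩ : E ⊆ Ω)
    (hpol : ∀ L : Set (Sp n), IsCompact L → L ⊆ Ω → CapNull p μ E L) :
    ∃ u : Sp n → EReal, LowerSemicontinuous u ∧ (∀ x, u x ≠ ⊥) ∧ CmpSuperE A p μ univ u ∧
      ∀ x, u x = ⊤ ↔ x ∈ E := by
  obtain ⟨f, hf, hEf⟩ := hE.eq_iInter_nat
  obtain ⟨U, hU⟩ : ∃ U : ℕ → Set (Sp n), ∀ k, U k = ⋂ i ∈ Finset.range (k + 1), f i :=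
    ⟨_, fun _ => rfl⟩
  have hUo : ∀ k, IsOpen (U k) := by
    intro k
    rw [hU]
    exact isOpen_biInter_finset fun i _ => hf i
  have hEU : ∀ k, E ⊆ U k := by
    intro k x hx
    rw [hU]
    simp only [mem_iInter]
    intro i _
    rw [hEf, mem_iInter] at hx
    exact hx i
  have hanti : ∀ i j, i ≤ j → U j ⊆ U i := by
    intro i j hij x hx
    rw [hU] at hx ⊢
    simp only [mem_iInter, Finset.mem_range] at hx ⊢
    intro l hl
    exact hx l (by omega)
  have hUE : ∀ x, (∀ k, x ∈ U k) → x ∈ E := by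
    intro x hx
    rw [hEf, mem_iInter]
    intro i
    have := hx i
    rw [hU] at this
    simp only [mem_iInter, Finset.mem_range] at this
    exact this i (by omega)
  obtain ⟨F, O, M, c, hF⟩ := dn_seq hn hp hα hβ hA hS hadm hΩ hEΩ hpol U hUo hEU
  have hlam := hadm.one_le_lam
  have hsub : ∀ k : ℕ, Metric.ball (0 : Sp n) (5 / 4 + (k : ℝ) / 4) ⊆
      Metric.ball 0 (3 * lam + 2 + (k : ℝ) / 4) := by
    intro k
    apply Metric.ball_subset_ball
    linarith
  refine dn_main hp U hanti hUE (fun k x => F k x - ∑ j ∈ Finset.range k, c j) ?_ ?_ ?_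
  · intro k x hx y hy
    have h1 := (hF k).1.lsc.mono (hsub k)
    have h2 : y + ∑ j ∈ Finset.range k, c j < F k x := by
      have h3 : y < F k x - ∑ j ∈ Finset.range k, c j := hy
      linarith
    filter_upwards [h1 x hx _ h2] with z hz
    have h3 : y + ∑ j ∈ Finset.range k, c j < F k z := hz
    change y < F k z - ∑ j ∈ Finset.range k, c j
    linarith
  · intro k
    apply dn_cmp_sub hp
    intro G hG hGc hGD
    exact (hF k).1.cmp G hG hGc (hGD.trans (hsub k))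
  · intro k x hx
    obtain ⟨h1, h2, h3, h4⟩ := (hF k).2 x hx
    rw [Finset.sum_range_succ]
    refine ⟨by linarith, fun h => ?_, fun h => ?_⟩
    · have := h3 h
      linarith
    · have := h4 h
      linarith

end SkelH


end

end Pool.Agent.Helper533.Polar
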