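import Pool.Agent.Helper533.Deny.Defs
import Pool.Agent.Helper533.Polar.Final
open MeasureTheory Filter Topology Set
open scoped ENNReal NNReal RealInnerProductSpace

namespace Pool.Agent.Helper533.Polar

section


section SkelI
variable {n : ℕ} {p Cd lam Cp : ℝ} {μ : Measure (Sp n)}


theorem avg_diff_7291 {S B : Set (Sp n)} (hSB : S ⊆ B) (hS0 : 0 < μ S) (hB : μ B < ∞)
    {f : Sp n → ℝ} (hf : IntegrableOn f B μ) (c : ℝ) :
    |(⨍ z in S, f z ∂μ) - c| ≤ (μ.real S)⁻¹ * ∫ z in B, |f z - c| ∂μ := by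
  have hS : μ S < ∞ := (measure_mono hSB).trans_lt hB
  have hSr : 0 < μ.real S := ENNReal.toReal_pos hS0.ne' hS.ne
  have hcB : IntegrableOn (fun _ : Sp n => c) B μ := integrableOn_const hB.ne
  have hfc : IntegrableOn (fun z => f z - c) B μ := hf.sub hcB
  have h1 : (⨍ z in S, f z ∂μ) - c = (μ.real S)⁻¹ * ∫ z in S, (f z - c) ∂μ := by
    rw [setAverage_eq, integral_sub (hf.mono_set hSB) (hcB.mono_set hSB), setIntegral_const,
      smul_eq_mul, smul_eq_mul]
    field_simp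
  rw [h1, abs_mul, abs_of_pos (inv_pos.2 hSr)]
  refine mul_le_mul_of_nonneg_left ?_ (inv_pos.2 hSr).le
  calc |∫ z in S, (f z - c) ∂μ| ≤ ∫ z in S, |f z - c| ∂μ := abs_integral_le_integral_abs
    _ ≤ ∫ z in B, |f z - c| ∂μ := setIntegral_mono_set hfc.abs
        (ae_of_all _ fun _ => abs_nonneg _) (HasSubset.Subset.eventuallyLE hSB)

/-- telescoping over concentric balls -/
theorem chain_est [IsFiniteMeasureOnCompacts μ] (hn : 1 ≤ n) (hp : 1 < p)
    (h : PreAdm p μ Cd lam Cp) {ε : ℝ} (hε : 0 < ε) :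
    ∃ C : ℝ, 0 < C ∧ ∀ (x : Sp n) (r : ℝ), 0 < r → ∀ φ : Sp n → ℝ, Cc (Metric.ball x r) φ →
      ∀ y ∈ Metric.ball x r, ∀ s : ℝ, 0 < s → s < |φ y| →
      ∃ i : ℕ, s * (2 : ℝ) ^ (-(ε * i)) ≤ C * r * (1 / 2) ^ i *
        ((μ.real (Metric.ball y (4 * lam * r / 2 ^ i)))⁻¹ *
          ∫ z in Metric.ball y (4 * lam * r / 2 ^ i), ‖gradient φ z‖ ^ p ∂μ) ^ (1 / p) := by
  obtain ⟨q, hq⟩ : ∃ q : ℝ, q = (2 : ℝ) ^ (-ε) := ⟨_, rfl⟩
  have hq0 : 0 < q := by
    rw [hq]
    positivity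
  have hq1 : q < 1 := by
    rw [hq]
    exact Real.rpow_lt_one_of_one_lt_of_neg (by norm_num) (by linarith)
  have hqi : ∀ i : ℕ, (2 : ℝ) ^ (-(ε * i)) = q ^ i := by
    intro i
    rw [hq, ← Real.rpow_natCast, ← Real.rpow_mul (by norm_num)]
    congr 1
    ring
  have hCd := h.one_le_Cd
  have hCp := h.Cp_pos
  have hlam := h.one_le_lam
  obtain ⟨K, hK⟩ : ∃ K : ℝ, K = 1 + (1 - q)⁻¹ := ⟨_, rfl⟩
  have hKpos : 0 < K := by
    rw [hK]
    have : 0 < (1 - q)⁻¹ := inv_pos.2 (by linarith)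
    linarith
  refine ⟨4 * Cp * Cd ^ 3 * K, by positivity, ?_⟩
  intro x r hr φ hφ y hy s hs hsφ
  by_contra hcon
  push Not at hcon
  -- notation
  obtain ⟨P, hP⟩ : ∃ P : ℕ → ℝ, ∀ i, P i = ((μ.real (Metric.ball y (4 * lam * r / 2 ^ i)))⁻¹ *
    ∫ z in Metric.ball y (4 * lam * r / 2 ^ i), ‖gradient φ z‖ ^ p ∂μ) ^ (1 / p) :=
    ⟨fun i => _, fun i => rfl⟩
  have hP0 : ∀ i, 0 ≤ P i := by
    intro i
    rw [hP]
    refine Real.rpow_nonneg (mul_nonneg (inv_nonneg.2 measureReal_nonneg)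
      (integral_nonneg fun z => ?_)) _
    exact Real.rpow_nonneg (norm_nonneg _) _
  have hcon' : ∀ i : ℕ, 4 * Cp * Cd ^ 3 * K * r * (1 / 2) ^ i * P i < s * q ^ i := by
    intro i
    have := hcon i
    rw [hqi] at this
    rw [hP]
    exact this
  obtain ⟨a, ha⟩ : ∃ a : ℕ → ℝ, ∀ i, a i = ⨍ z in Metric.ball y (4 * r / 2 ^ i), φ z ∂μ :=
    ⟨fun i => _, fun i => rfl⟩
  have hri : ∀ i : ℕ, 0 < 4 * r / 2 ^ i := fun i => by positivity
  have hint : Integrable φ μ := hφ.cont.integrable_of_hasCompactSupport hφ.comp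
  have hBr : ∀ (z : Sp n) (t : ℝ), 0 < t → 0 < μ.real (Metric.ball z t) := fun z t ht =>
    ENNReal.toReal_pos (h.pos z t ht).ne' (h.fin z t).ne
  have hpoi : ∀ i : ℕ, ∫ z in Metric.ball y (4 * r / 2 ^ i), |φ z - a i| ∂μ ≤
      Cp * (4 * r / 2 ^ i) * μ.real (Metric.ball y (4 * r / 2 ^ i)) * P i := by
    intro i
    have h1 := h.poi y (4 * r / 2 ^ i) (hri i) φ (gradient φ)
      (H0.of_Cc (hφ.mono (subset_univ _)))
    have e : lam * (4 * r / 2 ^ i) = 4 * lam * r / 2 ^ i := by ring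
    rw [e] at h1
    rw [hP, ha]
    exact h1
  have hstep : ∀ i : ℕ, |a (i + 1) - a i| ≤ 4 * Cp * Cd ^ 3 * r * (1 / 2) ^ i * P i := by
    intro i
    have hsub : Metric.ball y (4 * r / 2 ^ (i + 1)) ⊆ Metric.ball y (4 * r / 2 ^ i) := by
      apply Metric.ball_subset_ball
      rw [pow_succ, ← div_div]
      exact half_le_self (hri i).le
    have h1 := avg_diff_7291 (c := a i) hsub (h.pos y _ (hri (i + 1))) (h.fin y _)
      hint.integrableOn
    rw [← ha] at h1
    have h2 := h.dbl y (4 * r / 2 ^ (i + 1)) (hri (i + 1))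
    have e : 2 * (4 * r / 2 ^ (i + 1)) = 4 * r / 2 ^ i := by
      rw [pow_succ]
      field_simp
    rw [e] at h2
    have hm := hBr y _ (hri (i + 1))
    refine h1.trans ?_
    rw [inv_mul_le_iff₀ hm]
    refine (hpoi i).trans ?_
    have h3 : Cp * (4 * r / 2 ^ i) * μ.real (Metric.ball y (4 * r / 2 ^ i)) * P i ≤
        Cp * (4 * r / 2 ^ i) * (Cd ^ 3 * μ.real (Metric.ball y (4 * r / 2 ^ (i + 1)))) * P i := by
      refine mul_le_mul_of_nonneg_right (mul_le_mul_of_nonneg_left (h2.trans ?_) (by positivity))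
        (hP0 i)
      refine mul_le_mul_of_nonneg_right ?_ hm.le
      calc Cd = Cd ^ 1 := (pow_one _).symm
        _ ≤ Cd ^ 3 := pow_le_pow_right₀ hCd (by norm_num)
    refine h3.trans (le_of_eq ?_)
    rw [one_div, inv_pow]
    field_simp
  have h0 : |a 0| ≤ 4 * Cp * Cd ^ 3 * r * P 0 := by
    obtain ⟨e, he⟩ : ∃ e : Sp n, ‖e‖ = 1 :=
      ⟨EuclideanSpace.single (⟨0, hn⟩ : Fin n) (1 : ℝ), by simp⟩
    obtain ⟨y', hy'⟩ : ∃ y' : Sp n, y' = x + (2 * r) • e := ⟨_, rfl⟩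
    have hd1 : dist x y' = 2 * r := by
      rw [hy', dist_eq_norm, sub_add_cancel_left, norm_neg, norm_smul, he, mul_one,
        Real.norm_of_nonneg (by linarith)]
    have hd2 : dist y y' < 3 * r := by
      have h1 := dist_triangle y x y'
      rw [Metric.mem_ball] at hy
      linarith
    have hsub : Metric.ball y' r ⊆ Metric.ball y (4 * r / 2 ^ 0) := by
      intro z hz
      rw [Metric.mem_ball] at hz ⊢
      have h1 := dist_triangle z y' y
      rw [dist_comm y' y] at h1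
      rw [pow_zero, div_one]
      linarith
    have hsub2 : Metric.ball y (4 * r / 2 ^ 0) ⊆ Metric.ball y' (2 * (2 * (2 * r))) := by
      intro z hz
      rw [pow_zero, div_one] at hz
      rw [Metric.mem_ball] at hz ⊢
      have h1 := dist_triangle z y y'
      linarith
    have hm := hBr y' r hr
    have h1 := avg_diff_7291 (c := a 0) hsub (h.pos y' r hr) (h.fin y _) hint.integrableOn
    have hz : (⨍ z in Metric.ball y' r, φ z ∂μ) = 0 := by
      rw [setAverage_eq, setIntegral_eq_zero_of_forall_eq_zero, smul_zero]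
      intro z hz
      apply zero_of_notMem
      intro hz2
      have hz3 := hφ.supp hz2
      rw [Metric.mem_ball] at hz hz3
      have h2 := dist_triangle x z y'
      rw [dist_comm x z] at h2
      linarith
    rw [hz, zero_sub, abs_neg] at h1
    have hmeas : μ.real (Metric.ball y (4 * r / 2 ^ 0)) ≤ Cd ^ 3 * μ.real (Metric.ball y' r) := by
      have g1 := h.dbl y' r hr
      have g2 := h.dbl y' (2 * r) (by linarith)
      have g3 := h.dbl y' (2 * (2 * r)) (by linarith)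
      have g0 : μ.real (Metric.ball y (4 * r / 2 ^ 0)) ≤ μ.real (Metric.ball y' (2 * (2 * (2 * r)))) :=
        measureReal_mono hsub2 (h.fin _ _).ne
      have hCd0 : 0 ≤ Cd := by linarith
      calc μ.real (Metric.ball y (4 * r / 2 ^ 0)) ≤ μ.real (Metric.ball y' (2 * (2 * (2 * r)))) := g0
        _ ≤ Cd * μ.real (Metric.ball y' (2 * (2 * r))) := g3
        _ ≤ Cd * (Cd * μ.real (Metric.ball y' (2 * r))) := mul_le_mul_of_nonneg_left g2 hCd0
        _ ≤ Cd * (Cd * (Cd * μ.real (Metric.ball y' r))) :=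
            mul_le_mul_of_nonneg_left (mul_le_mul_of_nonneg_left g1 hCd0) hCd0
        _ = Cd ^ 3 * μ.real (Metric.ball y' r) := by ring
    refine h1.trans ?_
    rw [inv_mul_le_iff₀ hm]
    refine (hpoi 0).trans ?_
    have h3 : Cp * (4 * r / 2 ^ 0) * μ.real (Metric.ball y (4 * r / 2 ^ 0)) * P 0 ≤
        Cp * (4 * r / 2 ^ 0) * (Cd ^ 3 * μ.real (Metric.ball y' r)) * P 0 :=
      mul_le_mul_of_nonneg_right (mul_le_mul_of_nonneg_left hmeas (by positivity)) (hP0 0)
    refine h3.trans (le_of_eq ?_)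
    rw [pow_zero, div_one]
    ring
  -- the pieces
  have hpc : ∀ i : ℕ, 4 * Cp * Cd ^ 3 * r * (1 / 2) ^ i * P i ≤ s / K * q ^ i := by
    intro i
    have h1 := (hcon' i).le
    rw [div_mul_eq_mul_div, le_div_iff₀ hKpos]
    calc 4 * Cp * Cd ^ 3 * r * (1 / 2) ^ i * P i * K = 4 * Cp * Cd ^ 3 * K * r * (1 / 2) ^ i * P i := by
          ring
      _ ≤ s * q ^ i := h1
  have hsum : ∀ N : ℕ, |a N| ≤ s / K * (1 + ∑ i ∈ Finset.range N, q ^ i) := by
    intro N
    induction N with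
    | zero =>
      rw [Finset.sum_range_zero, add_zero, mul_one]
      have h1 := hpc 0
      rw [pow_zero, pow_zero, mul_one, mul_one] at h1
      exact h0.trans h1
    | succ N ih =>
      rw [Finset.sum_range_succ]
      have h1 : |a (N + 1)| ≤ |a (N + 1) - a N| + |a N| := by
        have := abs_add_le (a (N + 1) - a N) (a N)
        rwa [sub_add_cancel] at this
      have h2 := (hstep N).trans (hpc N)
      have e : s / K * (1 + (∑ i ∈ Finset.range N, q ^ i + q ^ N)) =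
          s / K * (1 + ∑ i ∈ Finset.range N, q ^ i) + s / K * q ^ N := by ring
      rw [e]
      linarith
  have hsum2 : ∀ N : ℕ, |a N| ≤ s := by
    intro N
    have h1 : ∑ i ∈ Finset.range N, q ^ i ≤ (1 - q)⁻¹ := by
      have h2 := (summable_geometric_of_lt_one hq0.le hq1).sum_le_tsum (Finset.range N)
        (fun i _ => pow_nonneg hq0.le i)
      rwa [tsum_geometric_of_lt_one hq0.le hq1] at h2
    calc |a N| ≤ s / K * (1 + ∑ i ∈ Finset.range N, q ^ i) := hsum N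
      _ ≤ s / K * K := by
          refine mul_le_mul_of_nonneg_left ?_ (by positivity)
          rw [hK]
          linarith
      _ = s := by field_simp
  -- convergence
  obtain ⟨δ, hδ⟩ : ∃ δ : ℝ, δ = (|φ y| - s) / 2 := ⟨_, rfl⟩
  have hδ0 : 0 < δ := by
    rw [hδ]
    linarith
  obtain ⟨η, hη, hηφ⟩ := Metric.continuousAt_iff.1 (hφ.cont.continuousAt (x := y)) δ hδ0
  obtain ⟨N, hN⟩ := exists_pow_lt_of_lt_one (y := (1 / 2 : ℝ)) (x := η / (4 * r))
    (by positivity) (by norm_num)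
  have hrN : 4 * r / 2 ^ N < η := by
    rw [lt_div_iff₀ (by positivity)] at hN
    rw [one_div, inv_pow] at hN
    calc 4 * r / 2 ^ N = (2 ^ N)⁻¹ * (4 * r) := by ring
      _ < η := hN
  have hBm := hBr y _ (hri N)
  have h1 := avg_diff_7291 (c := φ y) (subset_refl (Metric.ball y (4 * r / 2 ^ N)))
    (h.pos y _ (hri N)) (h.fin y _) hint.integrableOn
  rw [← ha] at h1
  have h2 : ∫ z in Metric.ball y (4 * r / 2 ^ N), |φ z - φ y| ∂μ ≤
      δ * μ.real (Metric.ball y (4 * r / 2 ^ N)) := by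
    have h3 := norm_setIntegral_le_of_norm_le_const (f := fun z => |φ z - φ y|) (C := δ)
      (h.fin y (4 * r / 2 ^ N)) (fun z hz => by
        rw [Metric.mem_ball] at hz
        rw [Real.norm_eq_abs, abs_abs]
        have h4 := hηφ (hz.trans hrN)
        rw [Real.dist_eq] at h4
        exact h4.le)
    exact (le_abs_self _).trans h3
  have h3 : |a N - φ y| ≤ δ := by
    refine h1.trans ?_
    rw [inv_mul_le_iff₀ hBm]
    linarith
  have h4 := hsum2 N
  have h5 : |φ y| ≤ |a N| + |a N - φ y| := by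
    have := abs_sub_abs_le_abs_sub (φ y) (a N)
    rw [abs_sub_comm (φ y) (a N)] at this
    linarith
  rw [hδ] at h3
  linarith

end SkelI


end

section


section SkelI
variable {n : ℕ} {p Cd lam Cp : ℝ} {μ : Measure (Sp n)}


theorem dbl_iter (h : PreAdm p μ Cd lam Cp) (y : Sp n) {ρ : ℝ} (hρ : 0 < ρ) (i : ℕ) :
    μ.real (Metric.ball y (2 ^ i * ρ)) ≤ Cd ^ i * μ.real (Metric.ball y ρ) := by
  induction i with
  | zero => simp
  | succ i ih =>
    have h1 := h.dbl y (2 ^ i * ρ) (by positivity)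
    have h0 : (0 : ℝ) ≤ Cd := by linarith [h.one_le_Cd]
    calc μ.real (Metric.ball y (2 ^ (i + 1) * ρ)) = μ.real (Metric.ball y (2 * (2 ^ i * ρ))) := by
          rw [pow_succ]; ring_nf
      _ ≤ Cd * μ.real (Metric.ball y (2 ^ i * ρ)) := h1
      _ ≤ Cd * (Cd ^ i * μ.real (Metric.ball y ρ)) := mul_le_mul_of_nonneg_left ih h0
      _ = Cd ^ (i + 1) * μ.real (Metric.ball y ρ) := by ring

/-- a ball on which the energy is large compared with the measure -/
theorem good_ball [IsFiniteMeasureOnCompacts μ] (hn : 1 ≤ n) (hp : 1 < p)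
    (h : PreAdm p μ Cd lam Cp) :
    ∃ τ C : ℝ, 0 < τ ∧ τ < 1 ∧ 0 < C ∧ ∀ (x : Sp n) (r : ℝ), 0 < r → ∀ φ : Sp n → ℝ,
      Cc (Metric.ball x r) φ → ∀ y ∈ Metric.ball x r, ∀ s : ℝ, 0 < s → s < |φ y| →
      ∃ ρ : ℝ, 0 < ρ ∧ ρ ≤ 4 * lam * r ∧ (μ.real (Metric.ball y ρ)) ^ (1 - τ) ≤
        C * (s⁻¹ ^ p * r ^ p * ((μ.real (Metric.ball x r))⁻¹) ^ τ) *
          ∫ z in Metric.ball y ρ, ‖gradient φ z‖ ^ p ∂μ := by
  have hp0 : 0 < p := by linarith
  obtain ⟨C0, hC0, hch⟩ := chain_est hn hp h (ε := 1 / 2) (by norm_num)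
  set Q : ℝ := max p (max 1 (Real.logb 2 Cd)) with hQ
  have hQp : p ≤ Q := le_max_left _ _
  have hQ1 : 1 ≤ Q := (le_max_left _ _).trans (le_max_right _ _)
  have hQl : Real.logb 2 Cd ≤ Q := (le_max_right _ _).trans (le_max_right _ _)
  have hQ0 : 0 < Q := by linarith
  have hCd0 : 0 < Cd := by linarith [h.one_le_Cd]
  have hCdQ : Cd ≤ (2 : ℝ) ^ Q := by
    calc Cd = (2 : ℝ) ^ (Real.logb 2 Cd) := (Real.rpow_logb (by norm_num) (by norm_num) hCd0).symm
      _ ≤ (2 : ℝ) ^ Q := Real.rpow_le_rpow_of_exponent_le (by norm_num) hQl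
  set τ : ℝ := p / (2 * Q) with hτ
  have hτ0 : 0 < τ := by positivity
  have hτ1 : τ < 1 := by
    rw [hτ, div_lt_one (by positivity)]
    linarith
  refine ⟨τ, C0 ^ p, hτ0, hτ1, Real.rpow_pos_of_pos hC0 p, ?_⟩
  intro x r hr φ hφ y hy s hs hsφ
  obtain ⟨i, hi⟩ := hch x r hr φ hφ y hy s hs hsφ
  have hlam := h.one_le_lam
  have hlam0 : 0 < lam := by linarith
  set ρ : ℝ := 4 * lam * r / 2 ^ i with hρdef
  have hρ0 : 0 < ρ := by positivity
  have h2i : (1 : ℝ) ≤ 2 ^ i := one_le_pow₀ (by norm_num)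
  refine ⟨ρ, hρ0, div_le_self (by positivity) h2i, ?_⟩
  set m : ℝ := μ.real (Metric.ball y ρ) with hm
  set M : ℝ := μ.real (Metric.ball x r) with hM
  set J : ℝ := ∫ z in Metric.ball y ρ, ‖gradient φ z‖ ^ p ∂μ with hJ
  have hm0 : 0 < m := ENNReal.toReal_pos (h.pos y ρ hρ0).ne' (h.fin y ρ).ne
  have hM0 : 0 < M := ENNReal.toReal_pos (h.pos x r hr).ne' (h.fin x r).ne
  have hJ0 : 0 ≤ J := by
    rw [hJ]
    exact integral_nonneg fun z => Real.rpow_nonneg (norm_nonneg _) _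
  have hMm : M ≤ Cd ^ i * m := by
    have h1 := dbl_iter h y hρ0 i
    have h2 : (2 : ℝ) ^ i * ρ = 4 * lam * r := by
      rw [hρdef]
      field_simp
    rw [h2] at h1
    refine le_trans ?_ h1
    rw [hM]
    refine measureReal_mono ?_ (h.fin y _).ne
    intro z hz
    rw [Metric.mem_ball] at hz hy ⊢
    have h3 : dist z y ≤ dist z x + dist y x := by
      rw [dist_comm y x]
      exact dist_triangle _ _ _
    nlinarith
  set t : ℝ := (2 : ℝ) ^ (-(i : ℝ)) with ht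
  have ht0 : 0 < t := Real.rpow_pos_of_pos (by norm_num) _
  have htQ : t ^ Q ≤ m / M := by
    have h1 : Cd ^ i ≤ ((2 : ℝ) ^ Q) ^ i := pow_le_pow_left₀ hCd0.le hCdQ i
    have h2 : M ≤ ((2 : ℝ) ^ Q) ^ i * m := hMm.trans (mul_le_mul_of_nonneg_right h1 hm0.le)
    have h3 : t ^ Q * ((2 : ℝ) ^ Q) ^ i = 1 := by
      rw [ht, ← Real.rpow_mul (by norm_num), ← Real.rpow_natCast ((2 : ℝ) ^ Q) i,
        ← Real.rpow_mul (by norm_num), ← Real.rpow_add (by norm_num)]
      have : -(i : ℝ) * Q + Q * (i : ℝ) = 0 := by ring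
      rw [this, Real.rpow_zero]
    rw [le_div_iff₀ hM0]
    calc t ^ Q * M ≤ t ^ Q * (((2 : ℝ) ^ Q) ^ i * m) :=
          mul_le_mul_of_nonneg_left h2 (Real.rpow_nonneg ht0.le _)
      _ = m := by rw [← mul_assoc, h3, one_mul]
  have htp : t ^ (p / 2) ≤ (m / M) ^ τ := by
    have h1 : t ^ (p / 2) = (t ^ Q) ^ τ := by
      rw [← Real.rpow_mul ht0.le, hτ]
      congr 1
      field_simp
    rw [h1]
    exact Real.rpow_le_rpow (Real.rpow_nonneg ht0.le _) htQ hτ0.le
  -- main estimate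
  have hmain : s ≤ C0 * r * t ^ (1 / 2 : ℝ) * (m⁻¹ * J) ^ (1 / p) := by
    have h1 : (2 : ℝ) ^ (-(1 / 2 * (i : ℝ))) = t ^ (1 / 2 : ℝ) := by
      rw [ht, ← Real.rpow_mul (by norm_num)]
      congr 1
      ring
    have h2 : (1 / 2 : ℝ) ^ i = t ^ (1 / 2 : ℝ) * t ^ (1 / 2 : ℝ) := by
      rw [← Real.rpow_add ht0]
      norm_num
      rw [ht, Real.rpow_neg (by norm_num), Real.rpow_natCast, one_div, inv_pow]
    rw [h1, h2] at hi
    have h3 : 0 < t ^ (1 / 2 : ℝ) := Real.rpow_pos_of_pos ht0 _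
    have h4 : s * t ^ (1 / 2 : ℝ) ≤
        (C0 * r * t ^ (1 / 2 : ℝ) * (m⁻¹ * J) ^ (1 / p)) * t ^ (1 / 2 : ℝ) := by
      refine hi.trans (le_of_eq ?_)
      ring
    exact le_of_mul_le_mul_right h4 h3
  have hmJ : 0 ≤ m⁻¹ * J := by positivity
  have hpow : s ^ p ≤ C0 ^ p * r ^ p * t ^ (p / 2) * (m⁻¹ * J) := by
    calc s ^ p ≤ (C0 * r * t ^ (1 / 2 : ℝ) * (m⁻¹ * J) ^ (1 / p)) ^ p :=
          Real.rpow_le_rpow hs.le hmain hp0.le
      _ = C0 ^ p * r ^ p * t ^ (p / 2) * (m⁻¹ * J) := by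
          rw [Real.mul_rpow (by positivity) (by positivity),
            Real.mul_rpow (by positivity) (by positivity),
            Real.mul_rpow (by positivity) (by positivity), ← Real.rpow_mul ht0.le,
            ← Real.rpow_mul hmJ]
          congr 1
          · congr 2
            ring
          · rw [one_div, inv_mul_cancel₀ hp0.ne', Real.rpow_one]
  have hpow2 : s ^ p ≤ C0 ^ p * r ^ p * (m / M) ^ τ * (m⁻¹ * J) :=
    hpow.trans (mul_le_mul_of_nonneg_right (mul_le_mul_of_nonneg_left htp (by positivity)) hmJ)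
  have hsp : 0 < s ^ p := Real.rpow_pos_of_pos hs p
  have e1 : m ^ (1 - τ) = m * (m ^ τ)⁻¹ := by
    rw [Real.rpow_sub hm0, Real.rpow_one, div_eq_mul_inv]
  have e2 : (m / M) ^ τ = m ^ τ * (M⁻¹) ^ τ := by
    rw [div_eq_mul_inv, Real.mul_rpow hm0.le (by positivity)]
  have e3 : s⁻¹ ^ p = (s ^ p)⁻¹ := Real.inv_rpow hs.le p
  have hmτ : 0 < m ^ τ := Real.rpow_pos_of_pos hm0 τ
  rw [e1, e3]
  rw [e2] at hpow2
  have h5 : m * (m ^ τ)⁻¹ = (s ^ p)⁻¹ * (m * (m ^ τ)⁻¹ * s ^ p) := by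
    field_simp
  rw [h5]
  calc (s ^ p)⁻¹ * (m * (m ^ τ)⁻¹ * s ^ p)
      ≤ (s ^ p)⁻¹ * (m * (m ^ τ)⁻¹ * (C0 ^ p * r ^ p * (m ^ τ * M⁻¹ ^ τ) * (m⁻¹ * J))) := by
        refine mul_le_mul_of_nonneg_left (mul_le_mul_of_nonneg_left hpow2 (by positivity))
          (by positivity)
    _ = C0 ^ p * ((s ^ p)⁻¹ * r ^ p * M⁻¹ ^ τ) * J := by
        field_simp

end SkelI


end

section


section SkelI
variable {n : ℕ} {p Cd lam Cp : ℝ} {μ : Measure (Sp n)}


/-- weak type estimate for test functions -/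
theorem weak_smooth [IsFiniteMeasureOnCompacts μ] (hn : 1 ≤ n) (hp : 1 < p)
    (h : PreAdm p μ Cd lam Cp) :
    ∃ τ C : ℝ, 0 < τ ∧ τ < 1 ∧ 0 < C ∧ ∀ (x : Sp n) (r : ℝ), 0 < r → ∀ φ : Sp n → ℝ,
      Cc (Metric.ball x r) φ → ∀ s : ℝ, 0 < s →
      (μ.real {y | s < |φ y|}) ^ (1 - τ) ≤ C * (s⁻¹ ^ p * r ^ p * ((μ.real (Metric.ball x r))⁻¹) ^ τ) *
        ∫ z, ‖gradient φ z‖ ^ p ∂μ := by
  obtain ⟨τ, C0, hτ0, hτ1, hC0, hgb⟩ := good_ball hn hp h
  have hCd : 1 ≤ Cd := h.one_le_Cd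
  have hCd0 : 0 < Cd := lt_of_lt_of_le one_pos hCd
  refine ⟨τ, Cd ^ 3 * C0, hτ0, hτ1, by positivity, fun x r hr φ hφ s hs => ?_⟩
  set L : ℝ := s⁻¹ ^ p * r ^ p * ((μ.real (Metric.ball x r))⁻¹) ^ τ with hL
  have hL0 : 0 ≤ L := by
    rw [hL]
    have : 0 ≤ (μ.real (Metric.ball x r))⁻¹ := inv_nonneg.2 measureReal_nonneg
    positivity
  set E : Set (Sp n) := {y | s < |φ y|} with hE
  have hEx : ∀ y ∈ E, y ∈ Metric.ball x r := by
    intro y hy
    apply hφ.supp
    apply subset_tsupport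
    rw [Function.mem_support]
    intro h0
    have : s < |φ y| := hy
    rw [h0, abs_zero] at this
    linarith
  have hchoice : ∀ y : Sp n, ∃ ρ : ℝ, y ∈ E → (0 < ρ ∧ ρ ≤ 4 * lam * r ∧
      (μ.real (Metric.ball y ρ)) ^ (1 - τ) ≤ C0 * L *
        ∫ z in Metric.ball y ρ, ‖gradient φ z‖ ^ p ∂μ) := by
    intro y
    by_cases hy : y ∈ E
    · obtain ⟨ρ, h1, h2, h3⟩ := hgb x r hr φ hφ y (hEx y hy) s hs hy
      exact ⟨ρ, fun _ => ⟨h1, h2, h3⟩⟩
    · exact ⟨0, fun h => absurd h hy⟩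
  choose ρ hρ using hchoice
  obtain ⟨u, huE, hdisj, hcov⟩ := Vitali.exists_disjoint_subfamily_covering_enlargement_closedBall
    E (fun y : Sp n => y) ρ (4 * lam * r) (fun y hy => (hρ y hy).2.1) 5 (by norm_num)
  have hdisj' : u.PairwiseDisjoint fun a => Metric.ball a (ρ a) := by
    intro a ha b hb hab
    exact (hdisj ha hb hab).mono Metric.ball_subset_closedBall Metric.ball_subset_closedBall
  have hucount : u.Countable := by
    refine hdisj'.countable_of_isOpen (fun _ _ => Metric.isOpen_ball) fun a ha => ?_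
    exact ⟨a, Metric.mem_ball_self (hρ a (huE ha)).1⟩
  have hint : Integrable (fun z => ‖gradient φ z‖ ^ p) μ := by
    have h1 := (hφ.memLp_grad (μ := μ) (ENNReal.ofReal p)).integrable_norm_rpow
      (by simp; linarith) ENNReal.ofReal_ne_top
    rwa [ENNReal.toReal_ofReal (by linarith)] at h1
  have hnn : ∀ z, 0 ≤ ‖gradient φ z‖ ^ p := fun z => Real.rpow_nonneg (norm_nonneg _) _
  set I : ℝ := ∫ z, ‖gradient φ z‖ ^ p ∂μ with hI
  have hI0 : 0 ≤ I := integral_nonneg hnn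
  have hIb0 : ∀ b : Sp n, 0 ≤ ∫ z in Metric.ball b (ρ b), ‖gradient φ z‖ ^ p ∂μ :=
    fun b => integral_nonneg hnn
  have hIb : ∀ b : Sp n, ∫ z in Metric.ball b (ρ b), ‖gradient φ z‖ ^ p ∂μ ≤ I :=
    fun b => setIntegral_le_integral hint (Eventually.of_forall hnn)
  have h1τ : 0 < 1 - τ := by linarith
  set T : ℝ := (C0 * L * I) ^ (τ / (1 - τ)) with hT
  have hCLI : 0 ≤ C0 * L * I := by positivity
  have hT0 : 0 ≤ T := Real.rpow_nonneg hCLI _
  -- bound of the measure of a single ball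
  have hm : ∀ b ∈ u, μ.real (Metric.ball b (ρ b)) ≤
      C0 * L * T * ∫ z in Metric.ball b (ρ b), ‖gradient φ z‖ ^ p ∂μ := by
    intro b hb
    have hb1 := hρ b (huE hb)
    set m : ℝ := μ.real (Metric.ball b (ρ b)) with hm
    have hmpos : 0 < m := by
      rw [hm, measureReal_def]
      exact ENNReal.toReal_pos (h.pos b _ hb1.1).ne' (h.fin b _).ne
    have e1 : m = m ^ (1 - τ) * m ^ τ := by
      rw [← Real.rpow_add hmpos]
      simp
    have e2 : m ^ (1 - τ) ≤ C0 * L * I :=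
      hb1.2.2.trans (mul_le_mul_of_nonneg_left (hIb b) (by positivity))
    have e3 : m ^ τ ≤ T := by
      have e4 : m ^ τ = (m ^ (1 - τ)) ^ (τ / (1 - τ)) := by
        rw [← Real.rpow_mul hmpos.le]
        congr 1
        field_simp
      rw [e4, hT]
      exact Real.rpow_le_rpow (Real.rpow_nonneg hmpos.le _) e2 (by positivity)
    calc m = m ^ (1 - τ) * m ^ τ := e1
      _ ≤ (C0 * L * ∫ z in Metric.ball b (ρ b), ‖gradient φ z‖ ^ p ∂μ) * T := by
          refine mul_le_mul hb1.2.2 e3 (Real.rpow_nonneg hmpos.le _) ?_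
          exact mul_nonneg (by positivity) (hIb0 b)
      _ = _ := by ring
  -- doubling
  have hdbl : ∀ b ∈ u, μ (Metric.ball b (8 * ρ b)) ≤
      ENNReal.ofReal (Cd ^ 3 * μ.real (Metric.ball b (ρ b))) := by
    intro b hb
    have hb1 := (hρ b (huE hb)).1
    have d1 := h.dbl b (ρ b) hb1
    have d2 := h.dbl b (2 * ρ b) (by positivity)
    have d3 := h.dbl b (2 * (2 * ρ b)) (by positivity)
    have e8 : 8 * ρ b = 2 * (2 * (2 * ρ b)) := by ring
    rw [e8]
    have : μ.real (Metric.ball b (2 * (2 * (2 * ρ b)))) ≤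
        Cd ^ 3 * μ.real (Metric.ball b (ρ b)) := by
      calc μ.real (Metric.ball b (2 * (2 * (2 * ρ b)))) ≤ Cd * μ.real (Metric.ball b (2 * (2 * ρ b))) := d3
        _ ≤ Cd * (Cd * μ.real (Metric.ball b (2 * ρ b))) := mul_le_mul_of_nonneg_left d2 hCd0.le
        _ ≤ Cd * (Cd * (Cd * μ.real (Metric.ball b (ρ b)))) := by
            refine mul_le_mul_of_nonneg_left (mul_le_mul_of_nonneg_left d1 hCd0.le) hCd0.le
        _ = _ := by ring
    rw [measureReal_def] at this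
    rw [← ENNReal.ofReal_toReal (h.fin b (2 * (2 * (2 * ρ b)))).ne]
    exact ENNReal.ofReal_le_ofReal this
  -- covering
  have hsub : E ⊆ ⋃ b ∈ u, Metric.ball b (8 * ρ b) := by
    intro y hy
    obtain ⟨b, hb, hsb⟩ := hcov y hy
    have hyb : y ∈ Metric.closedBall b (5 * ρ b) :=
      hsb (Metric.mem_closedBall_self (hρ y hy).1.le)
    simp only [mem_iUnion, exists_prop]
    refine ⟨b, hb, ?_⟩
    rw [Metric.mem_closedBall] at hyb
    rw [Metric.mem_ball]
    have := (hρ b (huE hb)).1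
    linarith
  have hIsum : ∀ t : Finset u, ∑ b ∈ t, ∫ z in Metric.ball (b : Sp n) (ρ b), ‖gradient φ z‖ ^ p ∂μ ≤ I := by
    intro t
    rw [← integral_biUnion_finset t (fun b _ => Metric.isOpen_ball.measurableSet) ?_
      (fun b _ => hint.integrableOn)]
    · exact setIntegral_le_integral hint (Eventually.of_forall hnn)
    · intro a _ b _ hab
      exact hdisj' a.2 b.2 (fun h' => hab (Subtype.ext h'))
  have hμE : μ E ≤ ENNReal.ofReal (Cd ^ 3 * (C0 * L * T * I)) := by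
    calc μ E ≤ μ (⋃ b ∈ u, Metric.ball b (8 * ρ b)) := measure_mono hsub
      _ ≤ ∑' b : u, μ (Metric.ball (b : Sp n) (8 * ρ b)) := measure_biUnion_le μ hucount _
      _ ≤ ENNReal.ofReal (Cd ^ 3 * (C0 * L * T * I)) := by
          rw [ENNReal.tsum_eq_iSup_sum]
          refine iSup_le fun t => ?_
          calc ∑ b ∈ t, μ (Metric.ball (b : Sp n) (8 * ρ b))
              ≤ ∑ b ∈ t, ENNReal.ofReal (Cd ^ 3 * (C0 * L * T *
                ∫ z in Metric.ball (b : Sp n) (ρ b), ‖gradient φ z‖ ^ p ∂μ)) := by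
                refine Finset.sum_le_sum fun b _ => (hdbl b b.2).trans ?_
                exact ENNReal.ofReal_le_ofReal
                  (mul_le_mul_of_nonneg_left (hm b b.2) (by positivity))
            _ = ENNReal.ofReal (∑ b ∈ t, Cd ^ 3 * (C0 * L * T *
                ∫ z in Metric.ball (b : Sp n) (ρ b), ‖gradient φ z‖ ^ p ∂μ)) := by
                rw [ENNReal.ofReal_sum_of_nonneg]
                intro b _
                have := hIb0 b
                positivity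
            _ ≤ ENNReal.ofReal (Cd ^ 3 * (C0 * L * T * I)) := by
                refine ENNReal.ofReal_le_ofReal ?_
                rw [← Finset.mul_sum, ← Finset.mul_sum]
                exact mul_le_mul_of_nonneg_left
                  (mul_le_mul_of_nonneg_left (hIsum t) (by positivity)) (by positivity)
  have hμE' : μ.real E ≤ Cd ^ 3 * (C0 * L * T * I) := by
    rw [measureReal_def]
    exact ENNReal.toReal_le_of_le_ofReal (by positivity) hμE
  have hfin1 : C0 * L * T * I ≤ (C0 * L * I) ^ (1 / (1 - τ)) := by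
    have e1 : (1 : ℝ) / (1 - τ) = 1 + τ / (1 - τ) := by field_simp; ring
    rcases hCLI.eq_or_lt with h0 | h0
    · have : C0 * L * T * I = (C0 * L * I) * T := by ring
      rw [this, ← h0, zero_mul]
      exact Real.rpow_nonneg le_rfl _
    · rw [e1, Real.rpow_add h0, Real.rpow_one, ← hT]
      exact le_of_eq (by ring)
  calc (μ.real E) ^ (1 - τ) ≤ (Cd ^ 3 * (C0 * L * I) ^ (1 / (1 - τ))) ^ (1 - τ) := by
        refine Real.rpow_le_rpow measureReal_nonneg (hμE'.trans ?_) h1τ.le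
        exact mul_le_mul_of_nonneg_left hfin1 (by positivity)
    _ = (Cd ^ 3) ^ (1 - τ) * (C0 * L * I) := by
        rw [Real.mul_rpow (by positivity) (Real.rpow_nonneg hCLI _), ← Real.rpow_mul hCLI]
        rw [one_div, inv_mul_cancel₀ h1τ.ne', Real.rpow_one]
    _ ≤ (Cd ^ 3) * (C0 * L * I) := by
        refine mul_le_mul_of_nonneg_right ?_ hCLI
        calc (Cd ^ 3) ^ (1 - τ) ≤ (Cd ^ 3) ^ (1 : ℝ) :=
              Real.rpow_le_rpow_of_exponent_le (one_le_pow₀ hCd) (by linarith)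
          _ = Cd ^ 3 := Real.rpow_one _
    _ = Cd ^ 3 * C0 * L * I := by ring

end SkelI


end

section


section SkelI
variable {n : ℕ} {p Cd lam Cp : ℝ} {μ : Measure (Sp n)}


/-- weak type estimate in `H0` -/
theorem weak_H0 [IsFiniteMeasureOnCompacts μ] (hn : 1 ≤ n) (hp : 1 < p)
    (h : PreAdm p μ Cd lam Cp) :
    ∃ τ C : ℝ, 0 < τ ∧ τ < 1 ∧ 0 < C ∧ ∀ (x : Sp n) (r : ℝ), 0 < r →
      ∀ (f : Sp n → ℝ) (F : Sp n → Sp n), H0 p μ (Metric.ball x r) f F → ∀ s : ℝ, 0 < s →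
      (μ.real {y | s < |f y|}) ^ (1 - τ) ≤ C * (s⁻¹ ^ p * r ^ p * ((μ.real (Metric.ball x r))⁻¹) ^ τ) *
        ∫ z, ‖F z‖ ^ p ∂μ := by
  obtain ⟨τ, C, hτ0, hτ1, hC, hw⟩ := weak_smooth hn hp h
  refine ⟨τ, C, hτ0, hτ1, hC, ?_⟩
  intro x r hr f F hF s hs
  obtain ⟨φ, hcc, hu, hU, hae, _⟩ := hF.seq hp.le
  have hp0 : 0 < p := by linarith
  have hP0 : ENNReal.ofReal p ≠ 0 := by simpa using hp0
  have hP1 : 1 ≤ ENNReal.ofReal p := by simpa using hp.le
  set K : ℝ := C * (s⁻¹ ^ p * r ^ p * ((μ.real (Metric.ball x r))⁻¹) ^ τ) with hKdef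
  have hK : 0 ≤ K := by positivity
  have key1 : ∀ G : Sp n → Sp n, MemLp G (ENNReal.ofReal p) μ →
      ∫ z, ‖G z‖ ^ p ∂μ = ((eLpNorm G (ENNReal.ofReal p) μ).toReal) ^ p := by
    intro G hG
    have h0 : 0 ≤ ∫ z, ‖G z‖ ^ p ∂μ := integral_nonneg (fun z => by positivity)
    rw [hG.eLpNorm_eq_integral_rpow_norm hP0 ENNReal.ofReal_ne_top, ENNReal.toReal_ofReal hp0.le,
      ENNReal.toReal_ofReal (by positivity), ← Real.rpow_mul h0, inv_mul_cancel₀ hp0.ne', Real.rpow_one]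
  set a : ℝ := (eLpNorm F (ENNReal.ofReal p) μ).toReal with ha
  set d : ℕ → ℝ := fun j => (eLpNorm (fun x => F x - gradient (φ j) x) (ENNReal.ofReal p) μ).toReal with hd
  have hd0 : Tendsto d atTop (𝓝 0) := by
    have := (ENNReal.tendsto_toReal ENNReal.zero_ne_top).comp hU
    rw [ENNReal.toReal_zero] at this
    exact this
  have key2 : ∀ j, ∫ z, ‖gradient (φ j) z‖ ^ p ∂μ ≤ (a + d j) ^ p := by
    intro j
    have hm : MemLp (gradient (φ j)) (ENNReal.ofReal p) μ := (hcc j).memLp_grad _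
    rw [key1 _ hm]
    have hsub : MemLp (fun x => F x - gradient (φ j) x) (ENNReal.ofReal p) μ := hF.mU.sub hm
    have h1 : eLpNorm (gradient (φ j)) (ENNReal.ofReal p) μ ≤
        eLpNorm F (ENNReal.ofReal p) μ + eLpNorm (fun x => F x - gradient (φ j) x) (ENNReal.ofReal p) μ := by
      have h2 := eLpNorm_sub_le (p := ENNReal.ofReal p) hF.mU.1 hsub.1 hP1
      have h3 : F - (fun x => F x - gradient (φ j) x) = gradient (φ j) := by
        funext y; simp
      rwa [h3] at h2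
    have h4 := ENNReal.toReal_mono (ENNReal.add_ne_top.mpr ⟨hF.mU.2.ne, hsub.2.ne⟩) h1
    rw [ENNReal.toReal_add hF.mU.2.ne hsub.2.ne] at h4
    exact Real.rpow_le_rpow ENNReal.toReal_nonneg h4 hp0.le
  have hsubset : ∀ j, {y | s < |φ j y|} ⊆ Metric.ball x r := by
    intro j y hy
    apply (hcc j).supp
    by_contra hn
    have h0 := zero_of_notMem hn
    have hy' : s < |φ j y| := hy
    rw [h0, abs_zero] at hy'
    linarith
  let B : ℕ → Set (Sp n) := fun N => {y | ∀ j, N ≤ j → s < |φ j y|}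
  have hBmono : Monotone B := by
    intro N M hNM y hy j hj
    exact hy j (hNM.trans hj)
  have hBE : ∀ N j, N ≤ j → B N ⊆ {y | s < |φ j y|} := fun N j hj y hy => hy j hj
  have hBU : (⋃ N, B N) ⊆ Metric.ball x r :=
    Set.iUnion_subset (fun N => (hBE N N le_rfl).trans (hsubset N))
  have hUfin : μ (⋃ N, B N) ≠ ∞ := ((measure_mono hBU).trans_lt (h.fin x r)).ne
  have hEU : μ {y | s < |f y|} ≤ μ (⋃ N, B N) := by
    apply measure_mono_ae
    filter_upwards [hae] with y hy hyE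
    have hyE' : s < |f y| := hyE
    have h1 : Tendsto (fun j => |φ j y|) atTop (𝓝 |f y|) := hy.abs
    have h2 : ∀ᶠ j in atTop, s < |φ j y| := h1.eventually (lt_mem_nhds hyE')
    obtain ⟨N, hN⟩ := eventually_atTop.mp h2
    exact Set.mem_iUnion.mpr ⟨N, fun j hj => hN j hj⟩
  have hτ' : 0 ≤ 1 - τ := by linarith
  have hlim1 : ∀ N, (μ.real (B N)) ^ (1 - τ) ≤ K * a ^ p := by
    intro N
    have hT : Tendsto (fun j => K * (a + d j) ^ p) atTop (𝓝 (K * a ^ p)) := by
      have h1 : Tendsto (fun j => a + d j) atTop (𝓝 a) := by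
        simpa using (tendsto_const_nhds (x := a)).add hd0
      exact (h1.rpow_const (Or.inr hp0.le)).const_mul K
    refine ge_of_tendsto hT ?_
    filter_upwards [eventually_ge_atTop N] with j hj
    have hfinj : μ {y | s < |φ j y|} ≠ ∞ := ((measure_mono (hsubset j)).trans_lt (h.fin x r)).ne
    calc (μ.real (B N)) ^ (1 - τ) ≤ (μ.real {y | s < |φ j y|}) ^ (1 - τ) := by
          apply Real.rpow_le_rpow measureReal_nonneg _ hτ'
          exact measureReal_mono (hBE N j hj) hfinj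
      _ ≤ K * ∫ z, ‖gradient (φ j) z‖ ^ p ∂μ := hw x r hr (φ j) (hcc j) s hs
      _ ≤ K * (a + d j) ^ p := mul_le_mul_of_nonneg_left (key2 j) hK
  have hlim2 : (μ.real (⋃ N, B N)) ^ (1 - τ) ≤ K * a ^ p := by
    have hT : Tendsto (fun N => (μ.real (B N)) ^ (1 - τ)) atTop (𝓝 ((μ.real (⋃ N, B N)) ^ (1 - τ))) := by
      have h1 := (ENNReal.tendsto_toReal hUfin).comp (tendsto_measure_iUnion_atTop (μ := μ) hBmono)
      exact h1.rpow_const (Or.inr hτ')
    exact le_of_tendsto' hT hlim1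
  rw [key1 F hF.mU]
  refine le_trans ?_ hlim2
  apply Real.rpow_le_rpow measureReal_nonneg _ hτ'
  exact ENNReal.toReal_mono hUfin hEU

end SkelI


end

section


section SkelI
variable {n : ℕ} {p Cd lam Cp : ℝ} {μ : Measure (Sp n)}


theorem layer_bound {α : Type*} [MeasurableSpace α] (ν : Measure α) (g : α → ℝ) (hg : ∀ y, 0 ≤ g y)
    (hgm : AEMeasurable g ν) (m K τ : ℝ) (hm : 0 ≤ m) (hK : 0 ≤ K) (hτ0 : 0 < τ) (hτ1 : τ < 1)
    (h1 : ∀ t : ℝ, 0 < t → ν {y | t < g y} ≤ ENNReal.ofReal m)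
    (h2 : ∀ t : ℝ, 0 < t →
      ν {y | t < g y} ≤ ENNReal.ofReal (K ^ (1 - τ)⁻¹ * t ^ (-(1 - τ)⁻¹))) :
    ∫ y, g y ∂ν ≤ K * m ^ τ / τ := by
  have h1τ : 0 < 1 - τ := by linarith
  obtain ⟨χ, hχdef⟩ : ∃ χ : ℝ, χ = (1 - τ)⁻¹ := ⟨_, rfl⟩
  rw [← hχdef] at h2
  have hχτ : χ * (1 - τ) = 1 := by rw [hχdef]; field_simp
  have hχ : 1 < χ := by
    rw [hχdef]
    exact (one_lt_inv₀ h1τ).mpr (by linarith)
  have hR : 0 ≤ K * m ^ τ / τ := by positivity
  rw [integral_eq_lintegral_of_nonneg_ae (Eventually.of_forall hg) hgm.aestronglyMeasurable]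
  apply ENNReal.toReal_le_of_le_ofReal hR
  rw [lintegral_eq_lintegral_meas_lt ν (Eventually.of_forall hg) hgm]
  rcases hK.lt_or_eq with hK' | hK'
  · rcases hm.lt_or_eq with hm' | hm'
    · -- main case
      have hT : 0 < K * m ^ (τ - 1) := by positivity
      obtain ⟨T, hTdef⟩ : ∃ T : ℝ, T = K * m ^ (τ - 1) := ⟨_, rfl⟩
      rw [← hTdef] at hT
      have hsplit : Ioi (0:ℝ) = Ioc 0 T ∪ Ioi T := (Ioc_union_Ioi_eq_Ioi hT.le).symm
      rw [hsplit, lintegral_union measurableSet_Ioi (by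
        rw [Set.disjoint_left]
        intro t ht ht'
        exact absurd ht.2 (not_le.mpr ht'))]
      have hA : ∫⁻ t in Ioc 0 T, ν {a | t < g a} ≤ ENNReal.ofReal (m * T) := by
        calc ∫⁻ t in Ioc 0 T, ν {a | t < g a} ≤ ∫⁻ t in Ioc 0 T, ENNReal.ofReal m :=
              setLIntegral_mono' measurableSet_Ioc (fun t ht => h1 t ht.1)
          _ = ENNReal.ofReal (m * T) := by
            rw [setLIntegral_const, Real.volume_Ioc, sub_zero, ENNReal.ofReal_mul hm]
      have hB : ∫⁻ t in Ioi T, ν {a | t < g a} ≤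
          ENNReal.ofReal (K ^ χ * (-T ^ (-χ + 1) / (-χ + 1))) := by
        have hint : IntegrableOn (fun t : ℝ => K ^ χ * t ^ (-χ)) (Ioi T) :=
          (integrableOn_Ioi_rpow_of_lt (by linarith) hT).const_mul _
        calc ∫⁻ t in Ioi T, ν {a | t < g a} ≤ ∫⁻ t in Ioi T, ENNReal.ofReal (K ^ χ * t ^ (-χ)) :=
              setLIntegral_mono' measurableSet_Ioi (fun t ht => h2 t (hT.trans ht))
          _ = ENNReal.ofReal (∫ t in Ioi T, K ^ χ * t ^ (-χ)) := by
            rw [ofReal_integral_eq_lintegral_ofReal hint]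
            refine (ae_restrict_iff' measurableSet_Ioi).mpr (Eventually.of_forall fun t ht => ?_)
            have : 0 < t := hT.trans ht
            positivity
          _ = _ := by
            rw [integral_const_mul, integral_Ioi_rpow_of_lt (by linarith) hT]
      refine (add_le_add hA hB).trans ?_
      have hmT : m * T = K * m ^ τ := by
        rw [hTdef]
        have : m ^ τ = m * m ^ (τ - 1) := by
          rw [← Real.rpow_one_add' hm (by linarith)]
          congr 1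
          ring
        rw [this]; ring
      have hKT : K ^ χ * T ^ (-χ + 1) = K * m ^ τ := by
        rw [hTdef, Real.mul_rpow hK (by positivity), ← mul_assoc, ← Real.rpow_add hK',
          ← Real.rpow_mul hm]
        have e1 : χ + (-χ + 1) = 1 := by ring
        have e2 : (τ - 1) * (-χ + 1) = τ := by linear_combination hχτ
        rw [e1, e2, Real.rpow_one]
      have hval : K ^ χ * (-T ^ (-χ + 1) / (-χ + 1)) = K * m ^ τ / (χ - 1) := by
        have e3 : -χ + 1 = -(χ - 1) := by ring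
        rw [e3, neg_div_neg_eq, ← e3, mul_div_assoc', hKT]
      rw [hmT, hval, ← ENNReal.ofReal_add (by positivity) (by
        have : 0 < χ - 1 := by linarith
        positivity)]
      apply ENNReal.ofReal_le_ofReal
      apply le_of_eq
      have hχ1 : χ - 1 ≠ 0 := by
        have : 0 < χ - 1 := by linarith
        exact this.ne'
      rw [eq_div_iff hτ0.ne', add_mul, div_mul_eq_mul_div, mul_comm (K * m ^ τ) τ]
      have e4 : τ * (K * m ^ τ) + τ * (K * m ^ τ) / (χ - 1) = K * m ^ τ := by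
        rw [← sub_eq_zero]
        have e5 : τ * (K * m ^ τ) + τ * (K * m ^ τ) / (χ - 1) - K * m ^ τ =
            (K * m ^ τ) * ((τ * (χ - 1) + τ - (χ - 1)) / (χ - 1)) := by
          field_simp
        rw [e5]
        have e6 : τ * (χ - 1) + τ - (χ - 1) = 0 := by linear_combination (-1) * hχτ
        rw [e6, zero_div, mul_zero]
      rw [mul_comm τ (K * m ^ τ)] at e4 ⊢
      exact e4
    · -- m = 0
      have h3 : ∫⁻ t in Ioi (0:ℝ), ν {a | t < g a} ≤ ∫⁻ t in Ioi (0:ℝ), 0 :=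
        setLIntegral_mono' measurableSet_Ioi (fun t ht => by
          have := h1 t ht
          rwa [← hm', ENNReal.ofReal_zero] at this)
      rw [lintegral_zero] at h3
      exact h3.trans bot_le
  · -- K = 0
    have h3 : ∫⁻ t in Ioi (0:ℝ), ν {a | t < g a} ≤ ∫⁻ t in Ioi (0:ℝ), 0 :=
      setLIntegral_mono' measurableSet_Ioi (fun t ht => by
        have := h2 t ht
        rwa [← hK', Real.zero_rpow (by linarith), zero_mul, ENNReal.ofReal_zero] at this)
    rw [lintegral_zero] at h3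
    exact h3.trans bot_le

/-- the Sobolev inequality with the measure of the support -/
theorem PreAdm.sob [IsFiniteMeasureOnCompacts μ] (hn : 1 ≤ n) (hp : 1 < p)
    (h : PreAdm p μ Cd lam Cp) :
    ∃ θ Cs : ℝ, 0 < θ ∧ 0 < Cs ∧ ∀ (x : Sp n) (r : ℝ), 0 < r →
      ∀ (f : Sp n → ℝ) (F : Sp n → Sp n), H0 p μ (Metric.ball x r) f F →
      ∫ y, |f y| ^ p ∂μ ≤ Cs * r ^ p * (μ.real {y | f y ≠ 0} / μ.real (Metric.ball x r)) ^ θ *
        ∫ y, ‖F y‖ ^ p ∂μ := by
  obtain ⟨τ, C, hτ0, hτ1, hC, hweak⟩ := weak_H0 (μ := μ) hn hp h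
  refine ⟨τ, C / τ, hτ0, by positivity, ?_⟩
  intro x r hr f F hf
  have hp0 : 0 < p := by linarith
  have h1τ : 0 < 1 - τ := by linarith
  have hbpos : 0 < μ.real (Metric.ball x r) :=
    ENNReal.toReal_pos (h.pos x r hr).ne' (h.fin x r).ne
  obtain ⟨b, hb⟩ : ∃ b : ℝ, b = μ.real (Metric.ball x r) := ⟨_, rfl⟩
  have hI0 : 0 ≤ ∫ z, ‖F z‖ ^ p ∂μ := integral_nonneg fun z => by positivity
  obtain ⟨I, hI⟩ : ∃ I : ℝ, I = ∫ z, ‖F z‖ ^ p ∂μ := ⟨_, rfl⟩
  -- `f` vanishes off the ball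
  have hoff : ∀ᵐ y ∂μ, y ∉ Metric.ball x r → f y = 0 := by
    obtain ⟨φ, hφ, -, -, hlim, -⟩ := hf.seq hp.le
    filter_upwards [hlim] with y hy hyb
    have h0 : ∀ j, φ j y = 0 := fun j => zero_of_notMem (fun h' => hyb ((hφ j).supp h'))
    simp only [h0] at hy
    exact (tendsto_nhds_unique hy tendsto_const_nhds)
  have hfin : μ {y | f y ≠ 0} < ∞ := by
    refine lt_of_le_of_lt (measure_mono_ae ?_) (h.fin x r)
    filter_upwards [hoff] with y hy hne
    by_contra hyb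
    exact hne (hy hyb)
  obtain ⟨m, hm⟩ : ∃ m : ℝ, m = μ.real {y | f y ≠ 0} := ⟨_, rfl⟩
  have hm0 : 0 ≤ m := by rw [hm]; exact measureReal_nonneg
  have hmof : μ {y | f y ≠ 0} = ENNReal.ofReal m := by
    rw [hm]; exact (ENNReal.ofReal_toReal hfin.ne).symm
  obtain ⟨K, hK⟩ : ∃ K : ℝ, K = C * (r ^ p * b⁻¹ ^ τ) * I := ⟨_, rfl⟩
  have hb0 : 0 < b := by rw [hb]; exact hbpos
  have hI0' : 0 ≤ I := by rw [hI]; exact hI0
  have hK0 : 0 ≤ K := by rw [hK]; positivity
  have hmeas : AEMeasurable (fun y => |f y| ^ p) μ := by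
    have h1 : AEMeasurable f μ := hf.mu.aestronglyMeasurable.aemeasurable
    have h2 : AEMeasurable (fun y => ‖f y‖ ^ p) μ := h1.norm.pow_const p
    simpa only [Real.norm_eq_abs] using h2
  have hsub : ∀ t : ℝ, 0 < t → {y | t < |f y| ^ p} ⊆ {y | f y ≠ 0} := by
    intro t ht y hy hy0
    have hy' : t < |f y| ^ p := hy
    rw [hy0, abs_zero, Real.zero_rpow hp0.ne'] at hy'
    exact absurd ht (not_lt.mpr hy'.le)
  have key := layer_bound μ (fun y => |f y| ^ p) (fun y => by positivity) hmeas m K τ hm0 hK0 hτ0 hτ1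
    (by
      intro t ht
      rw [← hmof]
      exact measure_mono (hsub t ht))
    (by
      intro t ht
      have hs : 0 < t ^ (1 / p) := by positivity
      have hw := hweak x r hr f F hf (t ^ (1 / p)) hs
      have hsp : (t ^ (1 / p))⁻¹ ^ p = t⁻¹ := by
        rw [Real.inv_rpow hs.le, ← Real.rpow_mul ht.le, one_div, inv_mul_cancel₀ hp0.ne', Real.rpow_one]
      rw [hsp, ← hb, ← hI] at hw
      have hw2 : (μ.real {y | t ^ (1 / p) < |f y|}) ^ (1 - τ) ≤ K * t⁻¹ := by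
        refine hw.trans (le_of_eq ?_)
        rw [hK]; ring
      have hsub2 : {y | t < |f y| ^ p} ⊆ {y | t ^ (1 / p) < |f y|} := by
        intro y hy
        have hy' : t < |f y| ^ p := hy
        have h3 := Real.rpow_lt_rpow ht.le hy' (show 0 < 1 / p by positivity)
        rw [← Real.rpow_mul (abs_nonneg _), mul_one_div_cancel hp0.ne', Real.rpow_one] at h3
        exact h3
      have hsub3 : {y | t ^ (1 / p) < |f y|} ⊆ {y | f y ≠ 0} := by
        intro y hy hy0
        have hy' : t ^ (1 / p) < |f y| := hy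
        rw [hy0, abs_zero] at hy'
        exact absurd hs (not_lt.mpr hy'.le)
      have hfin2 : μ {y | t ^ (1 / p) < |f y|} ≠ ∞ :=
        (lt_of_le_of_lt (measure_mono hsub3) hfin).ne
      refine (measure_mono hsub2).trans ?_
      rw [← ENNReal.ofReal_toReal hfin2]
      apply ENNReal.ofReal_le_ofReal
      have h4 : 0 ≤ μ.real {y | t ^ (1 / p) < |f y|} := measureReal_nonneg
      have h5 := Real.rpow_le_rpow (by positivity) hw2 (show 0 ≤ (1 - τ)⁻¹ by positivity)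
      rw [← Real.rpow_mul h4, mul_inv_cancel₀ h1τ.ne', Real.rpow_one,
        Real.mul_rpow hK0 (by positivity), Real.inv_rpow ht.le, ← Real.rpow_neg ht.le] at h5
      exact h5)
  refine key.trans (le_of_eq ?_)
  rw [← hm, ← hb, ← hI, hK, Real.div_rpow hm0 hb0.le, Real.inv_rpow hb0.le]
  field_simp

end SkelI


end

end Pool.Agent.Helper533.Polar
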