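import Pool.Agent.Helper533.Deny.Conv
open MeasureTheory Filter Topology Set
open scoped ENNReal NNReal RealInnerProductSpace

namespace Pool.Agent.Helper533.Polar

section


section J1
variable {n : ℕ} {p : ℝ} {μ : Measure (Sp n)}

theorem bdd_7313 {η : Sp n → ℝ} {G : Set (Sp n)} (hη : Cc G η) : ∃ C : ℝ, 0 ≤ C ∧
    (∀ x, ‖η x‖ ≤ C) ∧ ∀ x, ‖gradient η x‖ ≤ C := by
  obtain ⟨C1, h1⟩ := hη.comp.exists_bound_of_continuous hη.cont
  obtain ⟨C2, h2⟩ := hη.comp_grad.exists_bound_of_continuous hη.cont_grad
  refine ⟨max (max C1 C2) 0, le_max_right _ _, fun x => (h1 x).trans ?_, fun x => (h2 x).trans ?_⟩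
  · exact (le_max_left _ _).trans (le_max_left _ _)
  · exact (le_max_right _ _).trans (le_max_left _ _)

theorem eLp_restrict_7313 {F : Type*} [NormedAddCommGroup F] {D : Set (Sp n)}
    (hD : MeasurableSet D) {f : Sp n → F} (hf : ∀ x, x ∉ D → f x = 0) (q : ℝ≥0∞) :
    eLpNorm f q μ = eLpNorm f q (μ.restrict D) := by
  rw [← eLpNorm_indicator_eq_eLpNorm_restrict hD]
  congr 1
  funext x
  by_cases hx : x ∈ D
  · rw [Set.indicator_of_mem hx]
  · rw [Set.indicator_of_notMem hx, hf x hx]

theorem memLp_restrict_7313 {F : Type*} [NormedAddCommGroup F] {D : Set (Sp n)}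
    (hD : MeasurableSet D) {f : Sp n → F} (hf : ∀ x, x ∉ D → f x = 0) {q : ℝ≥0∞}
    (h : MemLp f q (μ.restrict D)) : MemLp f q μ := by
  rw [← memLp_indicator_iff_restrict hD] at h
  convert h using 1
  funext x
  by_cases hx : x ∈ D
  · rw [Set.indicator_of_mem hx]
  · rw [Set.indicator_of_notMem hx, hf x hx]

/-- a function in `H^{1,p}_loc(G; μ)` (local approximation by smooth functions) is in the local class -/
theorem LH.of_H1Loc [IsFiniteMeasureOnCompacts μ] (hp : 1 < p) {G : Set (Sp n)} (hG : IsOpen G)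
    {u : Sp n → ℝ} {U : Sp n → Sp n} (h : Stmt.IsH1Loc p μ G u U) : LH p μ G u U := by
  intro η hη
  obtain ⟨D, hDo, hηD, hDG, hDc⟩ := exists_open_between_and_isCompact_closure hη.comp hG hη.supp
  have hH := h D hDo hDc hDG
  have hDm := hDo.measurableSet
  obtain ⟨C, hC0, hC1, hC2⟩ := bdd_7313 hη
  have hu : MemLp u (ENNReal.ofReal p) (μ.restrict D) := hH.memLp_fun
  have hU : MemLp U (ENNReal.ofReal p) (μ.restrict D) := hH.memLp_grad
  have hηm : AEStronglyMeasurable η (μ.restrict D) := hη.cont.aestronglyMeasurable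
  have hgm : AEStronglyMeasurable (gradient η) (μ.restrict D) :=
    hη.cont_grad.aestronglyMeasurable
  have hp1 : 1 ≤ ENNReal.ofReal p := by
    rw [← ENNReal.ofReal_one]; exact ENNReal.ofReal_le_ofReal hp.le
  have z1 : ∀ x, x ∉ D → η x = 0 := fun x hx => zero_of_notMem (fun hc => hx (hηD hc))
  have z2 : ∀ x, x ∉ D → gradient η x = 0 := fun x hx => grad_zero_of_notMem (fun hc => hx (hηD hc))
  refine ⟨?_, ?_, ?_⟩
  · apply memLp_restrict_7313 hDm
    · intro x hx
      simp only [z1 x hx, zero_mul]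
    · refine MemLp.of_le_mul (c := C) hu (hηm.mul hu.1) (ae_of_all _ fun x => ?_)
      rw [norm_mul]
      exact mul_le_mul_of_nonneg_right (hC1 x) (norm_nonneg _)
  · apply memLp_restrict_7313 hDm
    · intro x hx
      simp only [z1 x hx, z2 x hx, zero_smul, smul_zero, add_zero]
    · refine MemLp.add ?_ ?_
      · refine MemLp.of_le_mul (c := C) hU (hηm.smul hU.1) (ae_of_all _ fun x => ?_)
        rw [norm_smul]
        exact mul_le_mul_of_nonneg_right (hC1 x) (norm_nonneg _)
      · refine MemLp.of_le_mul (c := C) hu (hu.1.smul hgm) (ae_of_all _ fun x => ?_)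
        rw [norm_smul, mul_comm]
        exact mul_le_mul_of_nonneg_right (hC2 x) (norm_nonneg _)
  · intro ε hε
    obtain ⟨δ, hδ0, hδ⟩ : ∃ δ : ℝ≥0∞, δ ≠ 0 ∧ ENNReal.ofReal C * δ + ENNReal.ofReal C * δ ≤ ε := by
      have ht : Tendsto (fun j : ℕ => ENNReal.ofReal C * ((j : ℝ≥0∞) + 1)⁻¹ +
          ENNReal.ofReal C * ((j : ℝ≥0∞) + 1)⁻¹) atTop (𝓝 0) := by
        have h0 : Tendsto (fun j : ℕ => ((j : ℝ≥0∞) + 1)⁻¹) atTop (𝓝 0) := by
          have := (tendsto_add_atTop_iff_nat (f := fun j : ℕ => ((j : ℝ≥0∞))⁻¹) 1).2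
            ENNReal.tendsto_inv_nat_nhds_zero
          simpa using this
        have h1 : Tendsto (fun j : ℕ => ENNReal.ofReal C * ((j : ℝ≥0∞) + 1)⁻¹) atTop (𝓝 0) := by
          have := ENNReal.Tendsto.const_mul (a := ENNReal.ofReal C) h0 (Or.inr ENNReal.ofReal_ne_top)
          simpa using this
        simpa using h1.add h1
      obtain ⟨j, hj, -⟩ := exists_le_of_tendsto ht ht hε
      exact ⟨_, by simp, hj⟩
    obtain ⟨φ, hφ, a1, a2⟩ := hH.approx δ hδ0
    have hφm : AEStronglyMeasurable φ (μ.restrict D) :=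
      hφ.continuousOn.aestronglyMeasurable hDm
    have hφd : ∀ x ∈ D, DifferentiableAt ℝ φ x := fun x hx =>
      ((hφ.differentiableOn (by simp)) x hx).differentiableAt (hDo.mem_nhds hx)
    have hφgc : ContinuousOn (gradient φ) D := by
      have h1 : ContinuousOn (fun x => fderiv ℝ φ x) D :=
        hφ.continuousOn_fderiv_of_isOpen hDo (by simp)
      exact (InnerProductSpace.toDual ℝ (Sp n)).symm.continuous.comp_continuousOn h1
    have hφgm : AEStronglyMeasurable (gradient φ) (μ.restrict D) :=
      hφgc.aestronglyMeasurable hDm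
    have hsupp : tsupport (fun x => η x * φ x) ⊆ tsupport η := tsupport_mul_subset_left
    have hψ : Cc G (fun x => η x * φ x) := by
      refine ⟨?_, ?_, hsupp.trans hη.supp⟩
      · rw [contDiff_iff_contDiffAt]
        intro x
        by_cases hx : x ∈ D
        · exact hη.smooth.contDiffAt.mul (hφ.contDiffAt (hDo.mem_nhds hx))
        · have h1 : η =ᶠ[𝓝 x] 0 :=
            notMem_tsupport_iff_eventuallyEq.1 (fun hc => hx (hηD hc))
          have h2 : (fun x => η x * φ x) =ᶠ[𝓝 x] fun _ => (0 : ℝ) := by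
            filter_upwards [h1] with y hy
            rw [hy]
            simp
          exact contDiffAt_const.congr_of_eventuallyEq h2
      · exact HasCompactSupport.mul_right hη.comp
    have z3 : ∀ x, x ∉ D → gradient (fun x => η x * φ x) x = 0 := fun x hx =>
      grad_zero_of_notMem (fun hc => hx (hηD (hsupp hc)))
    refine ⟨fun x => η x * φ x, hψ, ?_, ?_⟩
    · rw [eLp_restrict_7313 hDm (fun x hx => by simp [z1 x hx])]
      have : eLpNorm (fun x => η x * u x - η x * φ x) (ENNReal.ofReal p) (μ.restrict D) ≤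
          ENNReal.ofReal C * eLpNorm (fun x => u x - φ x) (ENNReal.ofReal p) (μ.restrict D) := by
        apply eLpNorm_le_mul_eLpNorm_of_ae_le_mul
        refine ae_of_all _ fun x => ?_
        rw [← mul_sub, norm_mul]
        exact mul_le_mul_of_nonneg_right (hC1 x) (norm_nonneg _)
      refine this.trans (le_trans ?_ hδ)
      exact (mul_le_mul_right a1 _).trans le_self_add
    · rw [eLp_restrict_7313 hDm (fun x hx => by rw [z1 x hx, z2 x hx, z3 x hx]; simp)]
      have e1 : eLpNorm (fun x => η x • U x + u x • gradient η x - gradient (fun x => η x * φ x) x)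
          (ENNReal.ofReal p) (μ.restrict D) =
          eLpNorm ((fun x => η x • (U x - gradient φ x)) + (fun x => (u x - φ x) • gradient η x))
          (ENNReal.ofReal p) (μ.restrict D) := by
        apply eLpNorm_congr_ae
        filter_upwards [ae_restrict_mem hDm] with x hx
        rw [grad_mul (hη.diff x) (hφd x hx), Pi.add_apply]
        simp only [smul_sub, sub_smul]
        abel
      rw [e1]
      refine (eLpNorm_add_le ?_ ?_ hp1).trans (le_trans (add_le_add ?_ ?_) hδ)
      · exact hηm.smul (hU.1.sub hφgm)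
      · exact (hu.1.sub hφm).smul hgm
      · have : eLpNorm (fun x => η x • (U x - gradient φ x)) (ENNReal.ofReal p) (μ.restrict D) ≤
            ENNReal.ofReal C * eLpNorm (fun x => U x - gradient φ x) (ENNReal.ofReal p)
              (μ.restrict D) := by
          apply eLpNorm_le_mul_eLpNorm_of_ae_le_mul
          refine ae_of_all _ fun x => ?_
          rw [norm_smul]
          exact mul_le_mul_of_nonneg_right (hC1 x) (norm_nonneg _)
        exact this.trans (mul_le_mul_right a2 _)
      · have : eLpNorm (fun x => (u x - φ x) • gradient η x) (ENNReal.ofReal p) (μ.restrict D) ≤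
            ENNReal.ofReal C * eLpNorm (fun x => u x - φ x) (ENNReal.ofReal p)
              (μ.restrict D) := by
          apply eLpNorm_le_mul_eLpNorm_of_ae_le_mul
          refine ae_of_all _ fun x => ?_
          rw [norm_smul, mul_comm]
          exact mul_le_mul_of_nonneg_right (hC2 x) (norm_nonneg _)
        exact this.trans (mul_le_mul_right a1 _)

end J1


end

end Pool.Agent.Helper533.Polar
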