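import Pool.Agent.Helper533.Deny.G
import Pool.Agent.Helper533.Deny.H
import Pool.Agent.Helper533.Deny.I
import Pool.Agent.Helper533.Deny.J
open MeasureTheory Filter Topology Set
open scoped ENNReal NNReal RealInnerProductSpace

namespace Pool.Agent.Helper533.Polar

variable {n : ℕ} {p α β : ℝ} {w : Sp n → ℝ} {𝒜 : Sp n → Sp n → Sp n}

/-- the weight is positive a.e. because of the strict monotonicity of the operator -/
theorem wt_of (hn : 1 ≤ n) (hp : 1 < p) (hw : Deny.IsAdmissible p w)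
    (hA : Stmt.IsOperator p α β w 𝒜) : Wt p w := by
  refine ⟨hw.locallyIntegrable, ?_, hw.doubling, hw.poincare⟩
  haveI : Nonempty (Fin n) := ⟨⟨0, by omega⟩⟩
  haveI : Nontrivial (Sp n) := inferInstance
  obtain ⟨e, he⟩ := exists_ne (0 : Sp n)
  filter_upwards [hA.bounded, hA.monotone] with x h1 h2
  by_contra hcon
  have h0 : w x = 0 := le_antisymm (not_lt.1 hcon) (hw.nonneg x)
  have h3 : ∀ ξ, 𝒜 x ξ = 0 := by
    intro ξ
    have := h1 ξ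
    rw [h0, mul_zero, zero_mul] at this
    exact norm_le_zero_iff.1 this
  have h4 := h2 e 0 he
  rw [h3, h3, sub_zero, inner_zero_left] at h4
  exact lt_irrefl _ h4

theorem sMono_of (hw : Wt p w) (hA : Stmt.IsOperator p α β w 𝒜) :
    SMono (Stmt.wm w) (fun x ξ => (w x)⁻¹ • 𝒜 x ξ) := by
  filter_upwards [ae_wm' hw hA.monotone, ae_wm' hw hw.pos] with x h1 h2 ξ ζ hne
  rw [← smul_sub, real_inner_smul_left]
  exact mul_pos (inv_pos.2 h2) (h1 ξ ζ hne)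

theorem adm_of (hn : 1 ≤ n) (hp : 1 < p) (hw : Wt p w) [IsFiniteMeasureOnCompacts (Stmt.wm w)] :
    ∃ Cd θ Cs lam Cp : ℝ, Adm p (Stmt.wm w) Cd θ Cs lam Cp := by
  obtain ⟨Cd, hCd, hpos, hfin, hdbl, -⟩ := wm_basic' hp hw
  obtain ⟨lam, Cp, hlam, hCp, hpoi⟩ := wm_poincare' hp hw
  have hpre : PreAdm p (Stmt.wm w) Cd lam Cp := ⟨hCd, hlam, hCp, hpos, hfin, hdbl, hpoi⟩
  obtain ⟨θ, Cs, hθ, hCs, hsob⟩ := PreAdm.sob hn hp hpre
  exact ⟨Cd, θ, Cs, lam, Cp, hCd, hθ, hCs, hlam, hCp, hpos, hfin, hdbl, hsob, hpoi⟩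

theorem cmpSuperE_of (hp : 1 < p) (hw : Wt p w) [IsFiniteMeasureOnCompacts (Stmt.wm w)]
    {Ω : Set (Sp n)} {u : Sp n → EReal} (hu : Deny.IsSuperharmonic 𝒜 p w Ω u) :
    CmpSuperE (fun x ξ => (w x)⁻¹ • 𝒜 x ξ) p (Stmt.wm w) Ω u := by
  intro G hG hGc hGΩ h H hc hLH hint hb
  exact hu.comparison G hG hGc hGΩ h hc (isHarmonic_of_LH' hp hw hG hc hLH hint) hb

/-- every `𝒜`-polar `G_δ` set is the infinity set of an `𝒜`-superharmonic function on `ℝⁿ` -/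
theorem deny_theorem (hn : 1 ≤ n) (hp : 1 < p) (hw : Deny.IsAdmissible p w)
    (hA : Stmt.IsOperator p α β w 𝒜) {E : Set (Sp n)} (hE : IsGδ E)
    (hpol : Deny.IsPolar 𝒜 p w E) :
    ∃ u : Sp n → EReal, Deny.IsSuperharmonic 𝒜 p w univ u ∧ {x | u x = ⊤} = E := by
  have hwt := wt_of hn hp hw hA
  obtain ⟨Cd0, -, -, -, -, hfin⟩ := wm_basic' hp hwt
  haveI := hfin
  obtain ⟨Cd, θ, Cs, lam, Cp, hadm⟩ := adm_of hn hp hwt
  have hα : 0 < α := hA.alpha_pos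
  have hβ : 0 < β := lt_of_lt_of_le hα hA.alpha_le_beta
  have hop := op_of_isOperator' hp hwt hA
  have hS := sMono_of hwt hA
  obtain ⟨Ω, q, hΩ, hEΩ, hq, hqE⟩ := hpol
  obtain ⟨-, hcap⟩ := polar_capNull hn hp hα hβ hop hS hadm hΩ hq.lsc hq.ne_bot
    (cmpSuperE_of hp hwt hq) hq.not_top
  have hcapE : ∀ L : Set (Sp n), IsCompact L → L ⊆ Ω → CapNull p (Stmt.wm w) E L := by
    intro L hL hLΩ N hN hLN κ hκ
    obtain ⟨V, φ, Φ, h1, h2, h3⟩ := hcap L hL hLΩ N hN hLN κ hκ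
    exact ⟨V, φ, Φ, h1, fun x hx => h2 ⟨⟨hEΩ hx.1, hqE x hx.1⟩, hx.2⟩, h3⟩
  obtain ⟨u, hu1, hu2, hu3, hu4⟩ := deny_internal hn hp hα hβ hop hS hadm hE hΩ hEΩ hcapE
  have hEne : ∃ y, y ∉ E := by
    by_contra hcon
    push Not at hcon
    have hΩu : Ω = univ := eq_univ_of_forall fun x => hEΩ (hcon x)
    obtain ⟨y, -, hy⟩ := hq.not_top 0 (by rw [hΩu]; exact mem_univ _)
    exact hy (hqE y (hcon y))
  refine ⟨u, ⟨fun x _ => hu2 x, hu1.lowerSemicontinuousOn _, ?_, ?_⟩, ?_⟩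
  · intro x _
    obtain ⟨y, hy⟩ := hEne
    refine ⟨y, ?_, fun h => hy ((hu4 y).1 h)⟩
    rw [connectedComponentIn_univ, PreconnectedSpace.connectedComponent_eq_univ]
    exact mem_univ _
  · intro D hD hDc hDΩ h hc hh hb
    obtain ⟨-, H, hH1, hH2⟩ := hh
    refine hu3 D hD hDc hDΩ h H hc (LH.of_H1Loc hp hD hH1) ?_ hb
    intro φ hφ
    have h1 := hH2 φ (isTest_iff.2 hφ)
    have h2 := integral_wm' hwt (fun x => ⟪𝒜 x (H x), gradient φ x⟫)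
    rw [← h1, ← h2]
    congr 1
    ext x
    rw [real_inner_smul_left]
  · ext x
    exact hu4 x

end Pool.Agent.Helper533.Polar
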