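import Pool.Agent.Helper533.Deny.A
open MeasureTheory Filter Topology Set
open scoped ENNReal NNReal RealInnerProductSpace

namespace Pool.Agent.Helper533.Polar

section


section SkelG
variable {n : ℕ} {p α β Cd θ Cs lam Cp : ℝ} {μ : Measure (Sp n)} {A : Sp n → Sp n → Sp n}


theorem wl_conv {F : Type} [NormedAddCommGroup F] [NormedSpace ℝ F] {q : ℝ≥0∞} (hq : 1 ≤ q)
    {g1 g2 : Sp n → F} (h1 : AEStronglyMeasurable g1 μ) (h2 : AEStronglyMeasurable g2 μ)
    {c : ℝ≥0∞} (hc1 : eLpNorm g1 q μ ≤ c) (hc2 : eLpNorm g2 q μ ≤ c) {a b : ℝ} (ha : 0 ≤ a)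
    (hb : 0 ≤ b) (hab : a + b = 1) :
    eLpNorm (fun x => a • g1 x + b • g2 x) q μ ≤ c := by
  have h3 : eLpNorm (fun x => a • g1 x + b • g2 x) q μ ≤
      eLpNorm (a • g1) q μ + eLpNorm (b • g2) q μ :=
    eLpNorm_add_le (h1.const_smul a) (h2.const_smul b) hq
  refine le_trans h3 ?_
  rw [eLpNorm_const_smul, eLpNorm_const_smul]
  calc ‖a‖ₑ * eLpNorm g1 q μ + ‖b‖ₑ * eLpNorm g2 q μ ≤ ‖a‖ₑ * c + ‖b‖ₑ * c := by gcongr
    _ = c := by
        rw [← add_mul, Real.enorm_eq_ofReal ha, Real.enorm_eq_ofReal hb,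
          ← ENNReal.ofReal_add ha hb, hab, ENNReal.ofReal_one, one_mul]

/-- weak limits in `H0` (Mazur) -/
theorem H0.weak_lim [IsFiniteMeasureOnCompacts μ] (hp : 1 < p) {D S : Set (Sp n)}
    (hS : MeasurableSet S) {g : ℕ → Sp n → ℝ} {Γ : ℕ → Sp n → Sp n} {f : Sp n → ℝ}
    (h : ∀ j, H0 p μ D (g j) (Γ j)) {C C1 : ℝ≥0∞} (hC : C ≠ ∞)
    (hb : ∀ j, eLpNorm (Γ j) (ENNReal.ofReal p) μ ≤ C)
    (hb1 : ∀ j, eLpNorm (S.indicator (Γ j)) (ENNReal.ofReal p) μ ≤ C1)
    (hf : MemLp f (ENNReal.ofReal p) μ)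
    (hlim : Tendsto (fun j => eLpNorm (fun x => f x - g j x) (ENNReal.ofReal p) μ) atTop (𝓝 0)) :
    ∃ F : Sp n → Sp n, H0 p μ D f F ∧ eLpNorm F (ENNReal.ofReal p) μ ≤ C ∧
      eLpNorm (S.indicator F) (ENNReal.ofReal p) μ ≤ C1 := by
  have hP : (1 : ℝ≥0∞) ≤ ENNReal.ofReal p := by
    rw [← ENNReal.ofReal_one]; exact ENNReal.ofReal_le_ofReal hp.le
  haveI : Fact (1 ≤ ENNReal.ofReal p) := ⟨hP⟩
  let ε : ℕ → ℝ≥0∞ := fun k => ((k + 1 : ℕ) : ℝ≥0∞)⁻¹
  have hε0 : ∀ k, ε k ≠ 0 := fun k => ENNReal.inv_ne_zero.2 (ENNReal.natCast_ne_top _)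
  have hεanti : ∀ i j, i ≤ j → ε j ≤ ε i := by
    intro i j hij
    apply ENNReal.inv_le_inv.2
    exact_mod_cast Nat.succ_le_succ hij
  let Ak : ℕ → Set (Lp (Sp n) (ENNReal.ofReal p) μ) := fun k =>
    {V | (∃ f' : Sp n → ℝ, H0 p μ D f' (V : Sp n → Sp n) ∧
        eLpNorm (fun x => f x - f' x) (ENNReal.ofReal p) μ ≤ ε k) ∧
      eLpNorm (V : Sp n → Sp n) (ENNReal.ofReal p) μ ≤ C ∧
      eLpNorm (S.indicator (V : Sp n → Sp n)) (ENNReal.ofReal p) μ ≤ C1}
  have hconv : ∀ k, Convex ℝ (Ak k) := by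
    intro k V1 hV1 V2 hV2 a b ha hb hab
    obtain ⟨⟨f1, hf1, he1⟩, hn1, hi1⟩ := hV1
    obtain ⟨⟨f2, hf2, he2⟩, hn2, hi2⟩ := hV2
    have hae : (fun x => a • (V1 : Sp n → Sp n) x + b • (V2 : Sp n → Sp n) x) =ᵐ[μ]
        ((a • V1 + b • V2 : Lp (Sp n) (ENNReal.ofReal p) μ) : Sp n → Sp n) := by
      filter_upwards [Lp.coeFn_add (a • V1) (b • V2), Lp.coeFn_smul a V1, Lp.coeFn_smul b V2]
        with x h1 h2 h3
      rw [h1, Pi.add_apply, h2, h3, Pi.smul_apply, Pi.smul_apply]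
    refine ⟨⟨fun x => a * f1 x + b * f2 x, ?_, ?_⟩, ?_, ?_⟩
    · exact H0.congr (H0.add hp.le (H0.const_mul a hf1) (H0.const_mul b hf2))
        (Filter.EventuallyEq.refl _ _) hae
    · have e1 : (fun x => f x - (a * f1 x + b * f2 x)) =
          fun x => a • (f x - f1 x) + b • (f x - f2 x) := by
        funext x
        simp only [smul_eq_mul]
        have : f x = (a + b) * f x := by rw [hab, one_mul]
        linear_combination this
      rw [e1]
      exact wl_conv (g1 := fun x => f x - f1 x) (g2 := fun x => f x - f2 x) hP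
        (hf.1.sub hf1.mu.1) (hf.1.sub hf2.mu.1) he1 he2 ha hb hab
    · rw [← eLpNorm_congr_ae hae]
      exact wl_conv hP (Lp.aestronglyMeasurable V1) (Lp.aestronglyMeasurable V2) hn1 hn2 ha hb hab
    · rw [← eLpNorm_congr_ae hae.indicator]
      have e2 : S.indicator (fun x => a • (V1 : Sp n → Sp n) x + b • (V2 : Sp n → Sp n) x) =
          fun x => a • S.indicator (V1 : Sp n → Sp n) x + b • S.indicator (V2 : Sp n → Sp n) x := by
        funext x
        by_cases hx : x ∈ S <;> simp [hx]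
      rw [e2]
      exact wl_conv hP ((Lp.aestronglyMeasurable V1).indicator hS)
        ((Lp.aestronglyMeasurable V2).indicator hS) hi1 hi2 ha hb hab
  have hmono : ∀ i j, i ≤ j → Ak j ⊆ Ak i := by
    intro i j hij V hV
    obtain ⟨⟨f1, hf1, he1⟩, hn1, hi1⟩ := hV
    exact ⟨⟨f1, hf1, le_trans he1 (hεanti i j hij)⟩, hn1, hi1⟩
  have hne : ∀ k, (Ak k).Nonempty := by
    intro k
    have h1 : ∀ᶠ j in atTop, eLpNorm (fun x => f x - g j x) (ENNReal.ofReal p) μ < ε k :=
      hlim.eventually_lt_const (pos_iff_ne_zero.2 (hε0 k))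
    obtain ⟨j, hj⟩ := h1.exists
    have hae := (h j).mU.coeFn_toLp
    refine ⟨(h j).mU.toLp (Γ j), ⟨g j, H0.congr (h j) (Filter.EventuallyEq.refl _ _) hae.symm,
      hj.le⟩, ?_, ?_⟩
    · rw [eLpNorm_congr_ae hae]; exact hb j
    · rw [eLpNorm_congr_ae hae.indicator]; exact hb1 j
  have hbdd : Bornology.IsBounded (Ak 0) := by
    rw [isBounded_iff_forall_norm_le]
    refine ⟨C.toReal, ?_⟩
    intro V hV
    rw [Lp.norm_def]
    exact ENNReal.toReal_mono hC hV.2.1
  obtain ⟨F0, hF0⟩ := interProp_Lp (μ := μ) (F := Sp n) hp ℕ ⟨0⟩ (fun k => closure (Ak k))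
    (fun k => isClosed_closure) (fun k => (hconv k).closure)
    (fun i j => ⟨max i j, subset_inter (closure_mono (hmono _ _ (le_max_left i j)))
      (closure_mono (hmono _ _ (le_max_right i j)))⟩)
    (fun k => (hne k).closure) ⟨0, hbdd.closure⟩
  have hF : ∀ (k : ℕ) (δ : ℝ≥0∞), 0 < δ → ∃ V ∈ Ak k,
      eLpNorm (fun x => (F0 : Sp n → Sp n) x - (V : Sp n → Sp n) x) (ENNReal.ofReal p) μ < δ := by
    intro k δ hδ
    have h1 := Set.mem_iInter.1 hF0 k
    obtain ⟨V, hV, hV2⟩ := EMetric.mem_closure_iff.1 h1 δ hδ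
    refine ⟨V, hV, ?_⟩
    rw [Lp.edist_def] at hV2
    exact hV2
  refine ⟨(F0 : Sp n → Sp n), ?_, ?_, ?_⟩
  · refine H0.lim hp.le hf (Lp.memLp F0) ?_
    intro δ hδ
    obtain ⟨k, hk⟩ := ENNReal.exists_inv_nat_lt hδ
    have hk' : ε k ≤ δ := by
      refine le_trans ?_ hk.le
      apply ENNReal.inv_le_inv.2
      exact_mod_cast Nat.le_succ k
    obtain ⟨V, ⟨⟨f1, hf1, he1⟩, hn1, hi1⟩, hV2⟩ := hF k δ (pos_iff_ne_zero.2 hδ)
    exact ⟨f1, V, hf1, le_trans he1 hk', hV2.le⟩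
  · apply ENNReal.le_of_forall_pos_le_add
    intro δ hδ _
    obtain ⟨V, ⟨_, hn1, hi1⟩, hV2⟩ := hF 0 δ (by exact_mod_cast hδ)
    have e1 : (F0 : Sp n → Sp n) = fun x => (V : Sp n → Sp n) x +
        ((F0 : Sp n → Sp n) x - (V : Sp n → Sp n) x) := by funext x; abel
    calc eLpNorm (F0 : Sp n → Sp n) (ENNReal.ofReal p) μ
        = eLpNorm (fun x => (V : Sp n → Sp n) x +
            ((F0 : Sp n → Sp n) x - (V : Sp n → Sp n) x)) (ENNReal.ofReal p) μ := by rw [← e1]
      _ ≤ eLpNorm (V : Sp n → Sp n) (ENNReal.ofReal p) μ +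
          eLpNorm (fun x => (F0 : Sp n → Sp n) x - (V : Sp n → Sp n) x) (ENNReal.ofReal p) μ :=
          eLpNorm_add_le (Lp.aestronglyMeasurable V)
            ((Lp.aestronglyMeasurable F0).sub (Lp.aestronglyMeasurable V)) hP
      _ ≤ C + δ := add_le_add hn1 hV2.le
  · apply ENNReal.le_of_forall_pos_le_add
    intro δ hδ _
    obtain ⟨V, ⟨_, hn1, hi1⟩, hV2⟩ := hF 0 δ (by exact_mod_cast hδ)
    have e1 : S.indicator (F0 : Sp n → Sp n) = fun x => S.indicator (V : Sp n → Sp n) x +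
        S.indicator (fun x => (F0 : Sp n → Sp n) x - (V : Sp n → Sp n) x) x := by
      funext x
      by_cases hx : x ∈ S <;> simp [hx]
    calc eLpNorm (S.indicator (F0 : Sp n → Sp n)) (ENNReal.ofReal p) μ
        = eLpNorm (fun x => S.indicator (V : Sp n → Sp n) x +
            S.indicator (fun x => (F0 : Sp n → Sp n) x - (V : Sp n → Sp n) x) x)
            (ENNReal.ofReal p) μ := by rw [← e1]
      _ ≤ eLpNorm (S.indicator (V : Sp n → Sp n)) (ENNReal.ofReal p) μ +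
          eLpNorm (S.indicator (fun x => (F0 : Sp n → Sp n) x - (V : Sp n → Sp n) x))
            (ENNReal.ofReal p) μ :=
          eLpNorm_add_le ((Lp.aestronglyMeasurable V).indicator hS)
            (((Lp.aestronglyMeasurable F0).sub (Lp.aestronglyMeasurable V)).indicator hS) hP
      _ ≤ C1 + δ := add_le_add hi1 (le_trans (eLpNorm_indicator_le _) hV2.le)

end SkelG


end

section


section SkelG
variable {n : ℕ} {p α β Cd θ Cs lam Cp : ℝ} {μ : Measure (Sp n)} {A : Sp n → Sp n → Sp n}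


/-- logarithm of a bounded function with the comparison property -/
theorem cmp_log [IsFiniteMeasureOnCompacts μ] (hp : 1 < p) (hα : 0 < α) (hβ : 0 < β)
    (hA : Op p α β μ A) (hadm : Adm p μ Cd θ Cs lam Cp) {Ω : Set (Sp n)} (hΩ : IsOpen Ω)
    (hΩb : Bornology.IsBounded Ω) (hn : Ωᶜ.Nonempty) {L : Set (Sp n)} (hL : IsCompact L)
    (hLΩ : L ⊆ Ω) :
    ∃ (η : Sp n → ℝ) (O : Set (Sp n)) (C : ℝ), Cc Ω η ∧ (∀ x, 0 ≤ η x ∧ η x ≤ 1) ∧ IsOpen O ∧
      L ⊆ O ∧ (∀ x ∈ O, η x = 1) ∧ 0 ≤ C ∧ ∀ (q : Sp n → ℝ) (m : ℝ), (∀ x ∈ Ω, 1 ≤ q x ∧ q x ≤ m) →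
      LowerSemicontinuousOn q Ω → CmpSuper A p μ Ω q →
      ∃ Q : Sp n → Sp n, H0 p μ Ω (fun x => η x * Real.log (q x)) Q ∧
        eLpNorm (O.indicator Q) (ENNReal.ofReal p) μ ≤ ENNReal.ofReal C := by
  classical
  have hp0 : 0 < p := by linarith
  obtain ⟨K0, hK0, hLK0, hK0Ω⟩ := exists_compact_between hL hΩ hLΩ
  obtain ⟨η, hη, hη01, O, hO, hLO, hOK, hη1⟩ := exists_cutoff hL isOpen_interior hLK0
  have hηc : IsCompact (tsupport η) := hη.comp
  obtain ⟨η2, hη2, hη201, W2, hW2, hηW2, hW2K, hη21⟩ :=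
    exists_cutoff hηc isOpen_interior hη.supp
  obtain ⟨Clog, hClog, hlogest⟩ := log_estimate (n := n) hp hα hβ ⌈p⌉₊ (Nat.le_ceil p)
  set I2 : ℝ := ∫ x, ‖gradient η2 x‖ ^ p ∂μ with hI2
  have hI2n : 0 ≤ I2 := by
    rw [hI2]
    exact integral_nonneg fun x => Real.rpow_nonneg (norm_nonneg _) _
  refine ⟨η, O, (Clog * I2) ^ (1 / p), hη.mono (interior_subset.trans hK0Ω), hη01, hO, hLO, hη1,
    Real.rpow_nonneg (mul_nonneg hClog hI2n) _, ?_⟩
  intro q m hqm hlsc hcmp
  set M : ℝ := max m 1 with hM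
  have hM1 : 1 ≤ M := le_max_right _ _
  have hM0 : 0 ≤ M := by linarith
  have hqM : ∀ x ∈ Ω, 1 ≤ q x ∧ q x ≤ M := fun x hx =>
    ⟨(hqm x hx).1, (hqm x hx).2.trans (le_max_left _ _)⟩
  have hqabs : ∀ x ∈ Ω, |q x| ≤ M := by
    intro x hx
    have := hqM x hx
    rw [abs_le]
    constructor <;> linarith [this.1, this.2]
  obtain ⟨G, K', hG, hK', hK0G, hGK', hK'Ω, happ⟩ :=
    approx_below hp hα hβ hA hadm hΩ hΩb hM0 hqabs hcmp hn hK0 hK0Ω
  obtain ⟨f, hfs, hfm, hfq, hfb, hft⟩ := lsc_approx hK' q (hlsc.mono hK'Ω) hM0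
    (fun x hx => hqabs x (hK'Ω hx))
  -- Dini
  have hmono : ∀ x, Monotone (fun j => f j x) := fun x => monotone_nat_of_le_succ fun j => hfm j x
  obtain ⟨j0, hj0⟩ : ∃ j0, ∀ x ∈ K', (1 / 2 : ℝ) < f j0 x := by
    have hcov : K' ⊆ ⋃ j, {x | (1 / 2 : ℝ) < f j x} := by
      intro x hx
      have h1 : (1 / 2 : ℝ) < q x := by
        have := (hqM x (hK'Ω hx)).1
        linarith
      obtain ⟨j, hj⟩ := ((hft x hx).eventually (lt_mem_nhds h1)).exists
      exact Set.mem_iUnion.2 ⟨j, hj⟩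
    have hdir : Directed (· ⊆ ·) (fun j : ℕ => {x | (1 / 2 : ℝ) < f j x}) := by
      refine directed_of_isDirected_le ?_
      intro a b hab x hx
      have h1 : (1 / 2 : ℝ) < f a x := hx
      exact lt_of_lt_of_le h1 (hmono x hab)
    obtain ⟨j, hj⟩ := hK'.elim_directed_cover (fun j : ℕ => {x | (1 / 2 : ℝ) < f j x})
      (fun j => isOpen_lt continuous_const (hfs j).continuous) hcov hdir
    exact ⟨j, fun x hx => hj hx⟩
  have hj1 : ∀ j, ∀ x ∈ K', (1 / 2 : ℝ) < f (j + j0) x := fun j x hx =>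
    lt_of_lt_of_le (hj0 x hx) (hmono x (Nat.le_add_left j0 j))
  have hex : ∀ j, ∃ (w : Sp n → ℝ) (W : Sp n → Sp n), Sup A p μ G w W ∧ ContinuousOn w G ∧
        ∀ x ∈ G, f (j + j0) x ≤ w x ∧ w x ≤ q x := by
    intro j
    refine happ (f (j + j0)) (hfs _) ?_ (hfq _)
    intro x
    have := hfb (j + j0) x
    rw [abs_le]
    constructor <;> linarith [this.1, this.2]
  choose w W hsup hwc hwb using hex
  have hGΩ : G ⊆ Ω := hGK'.trans hK'Ω
  have hlow : ∀ j, ∀ x ∈ G, 1 / 2 ≤ w j x ∧ w j x ≤ M := by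
    intro j x hx
    exact ⟨(hj1 j x (hGK' hx)).le.trans (hwb j x hx).1, (hwb j x hx).2.trans (hqM x (hGΩ hx)).2⟩
  have hηG : Cc G η := hη.mono (interior_subset.trans hK0G)
  have hη2G : Cc G η2 := hη2.mono (interior_subset.trans hK0G)
  have hLHlog : ∀ j, LH p μ G (fun x => Real.log (w j x))
      (fun x => deriv Real.log (w j x) • W j x) := by
    intro j
    refine LH.chain_on (a := 1 / 2) (d := 1 / 4) (C := 4) hp hG (hsup j).1 (by norm_num)
      (ae_of_all _ fun x hx => (hlow j x hx).1) ?_ ?_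
    · intro t ht
      have ht' : (1 / 2 - 1 / 4 : ℝ) < t := ht
      refine ContDiffAt.contDiffWithinAt ?_
      exact Real.contDiffAt_log.2 (by linarith)
    · intro t ht
      have ht' : (1 / 2 - 1 / 4 : ℝ) < t := ht
      have ht0 : (0 : ℝ) < t := by linarith
      rw [Real.deriv_log, abs_of_pos (inv_pos.2 ht0)]
      rw [inv_le_comm₀ ht0 (by norm_num)]
      linarith
  set B : ℝ := Real.log 2 + Real.log M with hB
  have hl2 : 0 ≤ Real.log 2 := Real.log_nonneg (by norm_num)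
  have hlM : 0 ≤ Real.log M := Real.log_nonneg hM1
  have hB0 : 0 ≤ B := add_nonneg hl2 hlM
  have hlogb : ∀ t : ℝ, 1 / 2 ≤ t → t ≤ M → |Real.log t| ≤ B := by
    intro t ht1 ht2
    have ht0 : 0 < t := by linarith
    have h1 : Real.log t ≤ Real.log M := Real.log_le_log ht0 ht2
    have h2 : Real.log (1 / 2) ≤ Real.log t := Real.log_le_log (by norm_num) ht1
    have h3 : Real.log (1 / 2) = - Real.log 2 := by
      rw [one_div, Real.log_inv]
    rw [abs_le]
    constructor <;> linarith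
  -- first term
  have hηpos : ∀ x, η x ≠ 0 → x ∈ tsupport η := fun x hx => subset_tsupport η hx
  have hT1 : ∀ j, eLpNorm (fun x => η x • (deriv Real.log (w j x) • W j x)) (ENNReal.ofReal p) μ ≤
      ENNReal.ofReal ((Clog * I2) ^ (1 / p)) := by
    intro j
    obtain ⟨hint, hle⟩ := hlogest μ A hA G hG (w j) (W j) (hsup j) (1 / 2) (by norm_num)
      (ae_of_all _ fun x hx => (hlow j x hx).1) η2 hη2G hη201
    have hpr : ENNReal.ofReal p ≠ 0 := by simpa using hp0
    rw [eLpNorm_eq_lintegral_rpow_enorm_toReal hpr ENNReal.ofReal_ne_top,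
      ENNReal.toReal_ofReal hp0.le,
      ← ENNReal.ofReal_rpow_of_nonneg (mul_nonneg hClog hI2n) (by positivity)]
    refine ENNReal.rpow_le_rpow ?_ (by positivity)
    refine le_trans ?_ (ENNReal.ofReal_le_ofReal hle)
    rw [ofReal_integral_eq_lintegral_ofReal hint (ae_of_all _ fun x =>
      mul_nonneg (Real.rpow_nonneg (norm_nonneg _) _) (pow_nonneg (hη201 x).1 _))]
    refine lintegral_mono fun x => ?_
    by_cases hx : η x = 0
    · simp [hx, hp0]
    · have hxt := hηpos x hx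
      have h1 : η2 x = 1 := hη21 x (hηW2 hxt)
      simp only [h1, one_pow, mul_one, Real.deriv_log]
      rw [← ENNReal.ofReal_rpow_of_nonneg (norm_nonneg _) hp0.le, ofReal_norm]
      refine ENNReal.rpow_le_rpow ?_ hp0.le
      rw [enorm_smul]
      calc ‖η x‖ₑ * ‖(w j x)⁻¹ • W j x‖ₑ ≤ 1 * ‖(w j x)⁻¹ • W j x‖ₑ := by
            gcongr
            rw [Real.enorm_eq_ofReal (hη01 x).1]
            simpa using (hη01 x).2
        _ = _ := one_mul _
  -- second term
  have hgη : ∀ x, gradient η x ≠ 0 → x ∈ tsupport η := by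
    intro x hx
    by_contra h
    exact hx (grad_zero_of_notMem h)
  have htsG : tsupport η ⊆ G := hηG.supp
  have hT2 : ∀ j x, ‖Real.log (w j x) • gradient η x‖ ≤ B * ‖gradient η x‖ := by
    intro j x
    by_cases hx : gradient η x = 0
    · simp [hx]
    · have hxG := htsG (hgη x hx)
      rw [norm_smul, Real.norm_eq_abs]
      exact mul_le_mul_of_nonneg_right (hlogb _ (hlow j x hxG).1 (hlow j x hxG).2) (norm_nonneg _)
  have hT2m : ∀ j, AEStronglyMeasurable (fun x => Real.log (w j x) • gradient η x) μ := by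
    intro j
    have h1 := ((hLHlog j) η2 hη2G).mu.1
    have h2 : AEStronglyMeasurable (gradient η) μ := hη.cont_grad.aestronglyMeasurable
    refine (h1.smul h2).congr (ae_of_all _ fun x => ?_)
    by_cases hx : gradient η x = 0
    · simp [hx]
    · have h3 : η2 x = 1 := hη21 x (hηW2 (hgη x hx))
      simp [h3]
  have hT2n : ∀ j, eLpNorm (fun x => Real.log (w j x) • gradient η x) (ENNReal.ofReal p) μ ≤
      eLpNorm (fun x => B * ‖gradient η x‖) (ENNReal.ofReal p) μ := by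
    intro j
    refine eLpNorm_mono_real fun x => hT2 j x
  have hT2f : eLpNorm (fun x => B * ‖gradient η x‖) (ENNReal.ofReal p) μ ≠ ∞ :=
    ((hη.memLp_grad (ENNReal.ofReal p)).norm.const_mul B).2.ne
  have hH : ∀ j, H0 p μ Ω (fun x => η x * Real.log (w j x))
      (fun x => η x • (deriv Real.log (w j x) • W j x) + Real.log (w j x) • gradient η x) :=
    fun j => ((hLHlog j) η hηG).mono hGΩ
  have hT1m : ∀ j, AEStronglyMeasurable (fun x => η x • (deriv Real.log (w j x) • W j x)) μ := by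
    intro j
    refine ((hH j).mU.1.sub (hT2m j)).congr (ae_of_all _ fun x => ?_)
    simp
  have hp1 : (1 : ℝ≥0∞) ≤ ENNReal.ofReal p := by
    rw [← ENNReal.ofReal_one]
    exact ENNReal.ofReal_le_ofReal hp.le
  have hbd : ∀ j, eLpNorm (fun x => η x • (deriv Real.log (w j x) • W j x) +
      Real.log (w j x) • gradient η x) (ENNReal.ofReal p) μ ≤
      ENNReal.ofReal ((Clog * I2) ^ (1 / p)) +
        eLpNorm (fun x => B * ‖gradient η x‖) (ENNReal.ofReal p) μ := by
    intro j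
    exact (eLpNorm_add_le (hT1m j) (hT2m j) hp1).trans (add_le_add (hT1 j) (hT2n j))
  have hind : ∀ j, eLpNorm (O.indicator (fun x => η x • (deriv Real.log (w j x) • W j x) +
      Real.log (w j x) • gradient η x)) (ENNReal.ofReal p) μ ≤
      ENNReal.ofReal ((Clog * I2) ^ (1 / p)) := by
    intro j
    refine le_trans (eLpNorm_mono fun x => ?_) (hT1 j)
    by_cases hx : x ∈ O
    · rw [Set.indicator_of_mem hx, grad_zero_of_const_on hO hη1 hx]
      simp
    · rw [Set.indicator_of_notMem hx]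
      simp
  -- limit
  have hwlim : ∀ x ∈ G, Tendsto (fun j => w j x) atTop (𝓝 (q x)) := by
    intro x hx
    have h1 : Tendsto (fun j => f (j + j0) x) atTop (𝓝 (q x)) :=
      (hft x (hGK' hx)).comp (tendsto_add_atTop_nat j0)
    exact tendsto_of_tendsto_of_tendsto_of_le_of_le h1 tendsto_const_nhds
      (fun j => (hwb j x hx).1) (fun j => (hwb j x hx).2)
  have hllim : ∀ x, Tendsto (fun j => η x * Real.log (w j x)) atTop
      (𝓝 (η x * Real.log (q x))) := by
    intro x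
    by_cases hx : η x = 0
    · simp [hx]
    · have hxG := htsG (hηpos x hx)
      have hq0 : q x ≠ 0 := by
        have := (hqM x (hGΩ hxG)).1
        intro h
        linarith
      exact ((Real.continuousAt_log hq0).tendsto.comp (hwlim x hxG)).const_mul _
  have hfm2 : AEStronglyMeasurable (fun x => η x * Real.log (q x)) μ :=
    aestronglyMeasurable_of_tendsto_ae atTop (fun j => (hH j).mu.1) (ae_of_all _ hllim)
  have hqb : ∀ x, |η x * Real.log (q x)| ≤ B * η x := by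
    intro x
    by_cases hx : η x = 0
    · simp [hx]
    · have hxG := htsG (hηpos x hx)
      have h1 := hqM x (hGΩ hxG)
      rw [abs_mul, abs_of_nonneg (hη01 x).1, mul_comm]
      exact mul_le_mul_of_nonneg_right (hlogb _ (by linarith [h1.1]) h1.2) (hη01 x).1
  have hwbd : ∀ j x, |η x * Real.log (w j x)| ≤ B * η x := by
    intro j x
    by_cases hx : η x = 0
    · simp [hx]
    · have hxG := htsG (hηpos x hx)
      rw [abs_mul, abs_of_nonneg (hη01 x).1, mul_comm]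
      exact mul_le_mul_of_nonneg_right (hlogb _ (hlow j x hxG).1 (hlow j x hxG).2) (hη01 x).1
  have hgL : MemLp (fun x => B * η x) (ENNReal.ofReal p) μ := (hη.memLp _).const_mul B
  have hfL : MemLp (fun x => η x * Real.log (q x)) (ENNReal.ofReal p) μ :=
    hgL.mono' hfm2 (ae_of_all _ fun x => by rw [Real.norm_eq_abs]; exact hqb x)
  have hlim : Tendsto (fun j => eLpNorm (fun x => η x * Real.log (q x) - η x * Real.log (w j x))
      (ENNReal.ofReal p) μ) atTop (𝓝 0) := by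
    refine Lp_dct (g := fun x => B * η x + B * η x) (by simpa using hp0) ENNReal.ofReal_ne_top
      (hgL.add hgL) (fun j => hfm2.sub (hH j).mu.1) ?_ ?_
    · intro j
      refine ae_of_all _ fun x => ?_
      rw [Real.norm_eq_abs]
      exact (abs_sub _ _).trans (add_le_add (hqb x) (hwbd j x))
    · refine ae_of_all _ fun x => ?_
      have := (tendsto_const_nhds (x := η x * Real.log (q x))).sub (hllim x)
      simpa using this
  obtain ⟨F, hF, -, hF2⟩ := H0.weak_lim hp hO.measurableSet hH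
    (ENNReal.add_ne_top.2 ⟨ENNReal.ofReal_ne_top, hT2f⟩) hbd hind hfL hlim
  exact ⟨F, hF, hF2⟩

end SkelG


end

section


section SkelG
variable {n : ℕ} {p α β Cd θ Cs lam Cp : ℝ} {μ : Measure (Sp n)} {A : Sp n → Sp n → Sp n}


/-- truncations of an extended real valued function with the comparison property -/
theorem trunc_cmp [IsFiniteMeasureOnCompacts μ] (hp : 1 < p) (hα : 0 < α)
    (hβ : 0 < β) (hA : Op p α β μ A) (hS : SMono μ A) (hadm : Adm p μ Cd θ Cs lam Cp)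
    {Ω Ω1 : Set (Sp n)} (hΩ1 : IsOpen Ω1) (hcl : IsCompact (closure Ω1)) (hsub : closure Ω1 ⊆ Ω)
    {q : Sp n → EReal} (hql : LowerSemicontinuousOn q Ω)
    (hqb : ∀ x ∈ Ω, q x ≠ ⊥) (hqc : CmpSuperE A p μ Ω q) :
    ∃ c : ℝ, 1 ≤ c ∧ ∀ k : ℕ,
      (∀ x ∈ Ω1, 1 ≤ (min (q x) ((k : ℝ) : EReal)).toReal + c ∧
        (min (q x) ((k : ℝ) : EReal)).toReal + c ≤ k + c) ∧
      (∀ x ∈ Ω1, ((k : ℝ) : EReal) ≤ q x → (min (q x) ((k : ℝ) : EReal)).toReal = k) ∧
      (∀ x ∈ Ω1, ∀ t : ℝ, q x ≤ (t : EReal) → (min (q x) ((k : ℝ) : EReal)).toReal ≤ t) ∧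
      LowerSemicontinuousOn (fun x => (min (q x) ((k : ℝ) : EReal)).toReal + c) Ω1 ∧
      CmpSuper A p μ Ω1 (fun x => (min (q x) ((k : ℝ) : EReal)).toReal + c) := by
  -- lower bound
  obtain ⟨m0, hm0, hlow⟩ : ∃ m0 : ℝ, 0 ≤ m0 ∧ ∀ x ∈ closure Ω1, ((-m0 : ℝ) : EReal) ≤ q x := by
    rcases (closure Ω1).eq_empty_or_nonempty with he | hne
    · exact ⟨0, le_rfl, by simp [he]⟩
    · obtain ⟨x0, hx0, hmin⟩ := (hql.mono hsub).exists_isMinOn hne hcl
      have hb : ⊥ < q x0 := bot_lt_iff_ne_bot.2 (hqb x0 (hsub hx0))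
      obtain ⟨a, _, ha⟩ := EReal.lt_iff_exists_real_btwn.1 hb
      refine ⟨max (-a) 0, le_max_right _ _, fun x hx => ?_⟩
      have h1 : q x0 ≤ q x := hmin hx
      refine le_trans ?_ (ha.le.trans h1)
      rw [EReal.coe_le_coe_iff]
      have := le_max_left (-a) 0
      linarith
  refine ⟨1 + m0, by linarith, fun k => ?_⟩
  have hk0 : (0 : ℝ) ≤ k := Nat.cast_nonneg k
  have hMge : ∀ x ∈ Ω1, ((-m0 : ℝ) : EReal) ≤ min (q x) ((k : ℝ) : EReal) := fun x hx =>
    le_min (hlow x (subset_closure hx)) (by rw [EReal.coe_le_coe_iff]; linarith)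
  have hMc : ∀ x ∈ Ω1, (((min (q x) ((k : ℝ) : EReal)).toReal : ℝ) : EReal)
      = min (q x) ((k : ℝ) : EReal) := by
    intro x hx
    refine EReal.coe_toReal ?_ ?_
    · exact ne_of_lt (lt_of_le_of_lt (min_le_right _ _) (EReal.coe_lt_top _))
    · exact ne_of_gt (lt_of_lt_of_le (EReal.bot_lt_coe _) (hMge x hx))
  have hMle : ∀ x ∈ Ω1, (min (q x) ((k : ℝ) : EReal)).toReal ≤ k := by
    intro x hx
    rw [← EReal.coe_le_coe_iff, hMc x hx]
    exact min_le_right _ _
  refine ⟨fun x hx => ⟨?_, ?_⟩, fun x hx hkx => ?_, fun x hx t ht => ?_, ?_, ?_⟩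
  · have : -m0 ≤ (min (q x) ((k : ℝ) : EReal)).toReal := by
      rw [← EReal.coe_le_coe_iff, hMc x hx]
      exact hMge x hx
    linarith
  · have := hMle x hx
    linarith
  · rw [min_eq_right hkx, EReal.toReal_coe]
  · rw [← EReal.coe_le_coe_iff, hMc x hx]
    exact (min_le_left _ _).trans ht
  · intro x hx y hy
    have h1 : ((y - (1 + m0) : ℝ) : EReal) < min (q x) ((k : ℝ) : EReal) := by
      rw [← hMc x hx, EReal.coe_lt_coe_iff]
      simp only at hy
      linarith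
    have h2 : ((y - (1 + m0) : ℝ) : EReal) < q x := h1.trans_le (min_le_left _ _)
    have h3 : ((y - (1 + m0) : ℝ) : EReal) < ((k : ℝ) : EReal) := h1.trans_le (min_le_right _ _)
    have hsub1 : Ω1 ⊆ Ω := subset_closure.trans hsub
    have h4 := (hql.mono hsub1) x hx _ h2
    filter_upwards [h4, self_mem_nhdsWithin] with z hz hzΩ
    have h5 : ((y - (1 + m0) : ℝ) : EReal) < min (q z) ((k : ℝ) : EReal) := lt_min hz h3
    rw [← hMc z hzΩ, EReal.coe_lt_coe_iff] at h5
    linarith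
  · intro G hG hGc hGsub h H hhc hhL hheq hfr x hx
    have hGsubo : G ⊆ Ω1 := subset_closure.trans hGsub
    have hfrΩ : ∀ y ∈ frontier G, y ∈ Ω1 := fun y hy => hGsub (frontier_subset_closure hy)
    have hL' : LH p μ G (fun x => h x - (1 + m0)) H := by
      have := hhL.sub hp (LH.const (1 + m0))
      refine this.congr (Filter.Eventually.of_forall fun _ _ => rfl)
        (Filter.Eventually.of_forall fun z _ => ?_)
      simp
    have hc' : ContinuousOn (fun x => h x - (1 + m0)) (closure G) :=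
      hhc.sub continuousOn_const
    have ha : ((h x - (1 + m0) : ℝ) : EReal) ≤ q x := by
      refine hqc G hG hGc (hGsub.trans (subset_closure.trans hsub)) (fun x => h x - (1 + m0)) H hc' hL'
        hheq ?_ x hx
      intro y hy
      have h1 : h y - (1 + m0) ≤ (min (q y) ((k : ℝ) : EReal)).toReal := by
        have := hfr y hy
        linarith
      rw [← EReal.coe_le_coe_iff, hMc y (hfrΩ y hy)] at h1
      exact h1.trans (min_le_left _ _)
    have hA0 : ∀ᵐ y ∂μ, A y 0 = 0 := by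
      filter_upwards [hA.bdd] with y hy
      have := hy 0
      rw [norm_zero, Real.zero_rpow (by linarith), mul_zero] at this
      exact norm_le_zero_iff.1 this
    have hSup : Sup A p μ Ω1 (fun _ => (k : ℝ)) (fun _ => 0) := by
      refine ⟨LH.const _, fun φ _ _ => ?_⟩
      have : ∫ y, ⟪A y 0, gradient φ y⟫ ∂μ = 0 := by
        rw [← integral_zero (α := Sp n) (G := ℝ) (μ := μ)]
        refine integral_congr_ae ?_
        filter_upwards [hA0] with y hy
        rw [hy, inner_zero_left]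
      exact this.ge
    have hb : h x - (1 + m0) ≤ k := by
      refine cmp_of_sup hp hα hβ hA hS hadm hΩ1 hSup continuousOn_const G hG hGc hGsub
        (fun x => h x - (1 + m0)) H hc' hL' hheq ?_ x hx
      intro y hy
      have := hfr y hy
      have h2 := hMle y (hfrΩ y hy)
      simp only
      linarith
    have hfin : ((h x - (1 + m0) : ℝ) : EReal) ≤ min (q x) ((k : ℝ) : EReal) :=
      le_min ha (by rw [EReal.coe_le_coe_iff]; exact hb)
    rw [← hMc x (hGsubo hx), EReal.coe_le_coe_iff] at hfin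
    linarith

end SkelG


end

section


section SkelG
variable {n : ℕ} {p α β Cd θ Cs lam Cp : ℝ} {μ : Measure (Sp n)} {A : Sp n → Sp n → Sp n}



theorem lsc_open {Ω : Set (Sp n)} (hΩ : IsOpen Ω) {q : Sp n → EReal}
    (hql : LowerSemicontinuousOn q Ω) (t : EReal) : IsOpen {x | x ∈ Ω ∧ t < q x} := by
  obtain ⟨u, hu, h⟩ := lowerSemicontinuousOn_iff_preimage_Ioi.mp hql t
  have h2 : {x | x ∈ Ω ∧ t < q x} = Ω ∩ u := by
    rw [← h]; rfl
  rw [h2]; exact hΩ.inter hu

theorem int_lower {X : Type*} [MeasurableSpace X] {ν : Measure X} [IsFiniteMeasure ν] (f : X → ℝ)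
    (hf : Integrable f ν) (S1 S2 : Set X) (h1 : MeasurableSet S1) (h2 : MeasurableSet S2)
    (hd : Disjoint S1 S2) (a b A : ℝ) (hf1 : ∀ x ∈ S1, a ≤ f x) (hf2 : ∀ x ∈ S2, f x ≤ b) :
    min (ν.real S1) (ν.real S2) * (a - b) ≤ ∫ x, |f x - A| ∂ν := by
  have hint : Integrable (fun x => |f x - A|) ν := (hf.sub (integrable_const A)).abs
  have i1 : Integrable (S1.indicator (fun _ => max (a - A) 0)) ν :=
    (integrable_const _).indicator h1
  have i2 : Integrable (S2.indicator (fun _ => max (A - b) 0)) ν :=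
    (integrable_const _).indicator h2
  have hle : ∫ x, (S1.indicator (fun _ => max (a - A) 0) x + S2.indicator (fun _ => max (A - b) 0) x) ∂ν
      ≤ ∫ x, |f x - A| ∂ν := by
    refine integral_mono (i1.add i2) hint fun x => ?_
    show S1.indicator (fun _ => max (a - A) 0) x + S2.indicator (fun _ => max (A - b) 0) x ≤ |f x - A|
    by_cases hx1 : x ∈ S1
    · have hx2 : x ∉ S2 := fun h => Set.disjoint_left.mp hd hx1 h
      rw [Set.indicator_of_mem hx1, Set.indicator_of_notMem hx2, add_zero]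
      refine max_le ?_ (abs_nonneg _)
      have := hf1 x hx1
      exact le_trans (by linarith) (le_abs_self _)
    · rw [Set.indicator_of_notMem hx1, zero_add]
      by_cases hx2 : x ∈ S2
      · rw [Set.indicator_of_mem hx2]
        refine max_le ?_ (abs_nonneg _)
        have := hf2 x hx2
        exact le_trans (by linarith) (neg_le_abs (f x - A))
      · rw [Set.indicator_of_notMem hx2]; exact abs_nonneg _
  rw [integral_add i1 i2, integral_indicator_const _ h1, integral_indicator_const _ h2,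
    smul_eq_mul, smul_eq_mul] at hle
  refine le_trans ?_ hle
  have hm1 : min (ν.real S1) (ν.real S2) ≤ ν.real S1 := min_le_left _ _
  have hm2 : min (ν.real S1) (ν.real S2) ≤ ν.real S2 := min_le_right _ _
  have hm0 : 0 ≤ min (ν.real S1) (ν.real S2) := le_min measureReal_nonneg measureReal_nonneg
  have hP : 0 ≤ max (a - A) 0 := le_max_right _ _
  have hN : 0 ≤ max (A - b) 0 := le_max_right _ _
  have hP' : a - A ≤ max (a - A) 0 := le_max_left _ _
  have hN' : A - b ≤ max (A - b) 0 := le_max_left _ _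
  have e1 := mul_le_mul_of_nonneg_right hm1 hP
  have e2 := mul_le_mul_of_nonneg_right hm2 hN
  have e3 : min (ν.real S1) (ν.real S2) * (a - b) ≤
      min (ν.real S1) (ν.real S2) * (max (a - A) 0 + max (A - b) 0) :=
    mul_le_mul_of_nonneg_left (by linarith) hm0
  rw [mul_add] at e3
  linarith

theorem poi_bound [IsFiniteMeasureOnCompacts μ] (hp : 1 < p) (hadm : Adm p μ Cd θ Cs lam Cp)
    {x0 : Sp n} {r C : ℝ} (hr : 0 < r) (hC : 0 ≤ C) {O : Set (Sp n)} (hO : IsOpen O)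
    (hsub : Metric.ball x0 (lam * r) ⊆ O) {f : Sp n → ℝ} {Q : Sp n → Sp n} (h : H0 p μ univ f Q)
    (hb : eLpNorm (O.indicator Q) (ENNReal.ofReal p) μ ≤ ENNReal.ofReal C) :
    ∫ y in Metric.ball x0 r, |f y - (⨍ z in Metric.ball x0 r, f z ∂μ)| ∂μ ≤
      Cp * r * μ.real (Metric.ball x0 r) * ((μ.real (Metric.ball x0 (lam * r)))⁻¹ * C ^ p) ^ (1 / p) := by
  have hp0 : (0:ℝ) < p := by linarith
  refine (hadm.poi x0 r hr f Q h).trans ?_
  have hmem : MemLp (O.indicator Q) (ENNReal.ofReal p) μ := h.mU.indicator hO.measurableSet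
  have hp0' : ENNReal.ofReal p ≠ 0 := by
    rw [Ne, ENNReal.ofReal_eq_zero]; linarith
  have hint : Integrable (fun x => ‖O.indicator Q x‖ ^ p) μ := by
    have := hmem.integrable_norm_rpow hp0' ENNReal.ofReal_ne_top
    rwa [ENNReal.toReal_ofReal hp0.le] at this
  have hi : ∫ y in Metric.ball x0 (lam * r), ‖Q y‖ ^ p ∂μ ≤ C ^ p := by
    have e1 : ∫ y in Metric.ball x0 (lam * r), ‖Q y‖ ^ p ∂μ =
        ∫ y in Metric.ball x0 (lam * r), ‖O.indicator Q y‖ ^ p ∂μ := by
      refine setIntegral_congr_fun measurableSet_ball fun y hy => ?_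
      show ‖Q y‖ ^ p = ‖O.indicator Q y‖ ^ p
      rw [Set.indicator_of_mem (hsub hy)]
    rw [e1]
    refine (setIntegral_le_integral hint (Eventually.of_forall fun x => ?_)).trans ?_
    · exact Real.rpow_nonneg (norm_nonneg _) _
    · rw [hmem.eLpNorm_eq_integral_rpow_norm hp0' ENNReal.ofReal_ne_top,
        ENNReal.ofReal_le_ofReal_iff hC, ENNReal.toReal_ofReal hp0.le] at hb
      have hnn : 0 ≤ ∫ x, ‖O.indicator Q x‖ ^ p ∂μ :=
        integral_nonneg fun x => Real.rpow_nonneg (norm_nonneg _) _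
      have h2 := Real.rpow_le_rpow (Real.rpow_nonneg hnn _) hb hp0.le
      rwa [Real.rpow_inv_rpow hnn hp0.ne'] at h2
  have hB : 0 ≤ Cp * r * μ.real (Metric.ball x0 r) :=
    mul_nonneg (mul_nonneg hadm.Cp_pos.le hr.le) measureReal_nonneg
  have hI : 0 ≤ ∫ y in Metric.ball x0 (lam * r), ‖Q y‖ ^ p ∂μ :=
    integral_nonneg fun x => Real.rpow_nonneg (norm_nonneg _) _
  have hM : 0 ≤ (μ.real (Metric.ball x0 (lam * r)))⁻¹ := inv_nonneg.mpr measureReal_nonneg
  refine mul_le_mul_of_nonneg_left ?_ hB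
  exact Real.rpow_le_rpow (mul_nonneg hM hI) (mul_le_mul_of_nonneg_left hi hM) (by positivity)

theorem ball_compl (hn : 1 ≤ n) (x0 : Sp n) {r : ℝ} (hr : 0 < r) : (Metric.ball x0 r)ᶜ.Nonempty := by
  have : Nonempty (Fin n) := ⟨⟨0, hn⟩⟩
  obtain ⟨v, hv⟩ := exists_norm_eq (Sp n) hr.le
  refine ⟨x0 + v, ?_⟩
  rw [Set.mem_compl_iff, Metric.mem_ball, dist_eq_norm, add_sub_cancel_left, hv]
  exact lt_irrefl _

theorem real_ball_pos (hadm : Adm p μ Cd θ Cs lam Cp) (x0 : Sp n) {r : ℝ} (hr : 0 < r) :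
    0 < μ.real (Metric.ball x0 r) :=
  ENNReal.toReal_pos (hadm.pos x0 r hr).ne' (hadm.fin x0 r).ne

theorem exists_sub_ball {Ω : Set (Sp n)} (hΩ : IsOpen Ω) {x : Sp n} (hx : x ∈ Ω) :
    ∃ r : ℝ, 0 < r ∧ Metric.closedBall x r ⊆ Ω :=
  Metric.nhds_basis_closedBall.mem_iff.mp (hΩ.mem_nhds hx)

/-- local dichotomy -/
theorem dichotomy [IsFiniteMeasureOnCompacts μ] (hn : 1 ≤ n) (hp : 1 < p) (hα : 0 < α)
    (hβ : 0 < β) (hA : Op p α β μ A) (hS : SMono μ A) (hadm : Adm p μ Cd θ Cs lam Cp)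
    {Ω : Set (Sp n)} (hΩ : IsOpen Ω) {q : Sp n → EReal} (hql : LowerSemicontinuousOn q Ω)
    (hqb : ∀ x ∈ Ω, q x ≠ ⊥) (hqc : CmpSuperE A p μ Ω q) (x0 : Sp n) (hx0 : x0 ∈ Ω) :
    ∃ r : ℝ, 0 < r ∧ ((∀ᵐ y ∂μ, y ∈ Metric.ball x0 r → q y = ⊤) ∨
      (∀ᵐ y ∂μ, y ∈ Metric.ball x0 r → q y ≠ ⊤)) := by
  obtain ⟨R, hR, hRΩ⟩ := exists_sub_ball hΩ hx0
  have hlam : 0 < lam := lt_of_lt_of_le one_pos hadm.one_le_lam
  obtain ⟨r, hrdef⟩ : ∃ r : ℝ, r = R / (2 * lam) := ⟨_, rfl⟩
  have hr : 0 < r := by rw [hrdef]; positivity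
  have hlr : lam * r = R / 2 := by rw [hrdef]; field_simp
  have hrlr : r ≤ lam * r := by nlinarith [hadm.one_le_lam]
  have hcl : closure (Metric.ball x0 R) ⊆ Metric.closedBall x0 R := Metric.closure_ball_subset_closedBall
  have hclc : IsCompact (closure (Metric.ball x0 R)) :=
    (isCompact_closedBall x0 R).of_isClosed_subset isClosed_closure hcl
  have hL : IsCompact (Metric.closedBall x0 (lam * r)) := isCompact_closedBall _ _
  have hLΩ : Metric.closedBall x0 (lam * r) ⊆ Metric.ball x0 R := by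
    refine Metric.closedBall_subset_ball ?_
    rw [hlr]; linarith
  obtain ⟨c, hc, hk⟩ := trunc_cmp hp hα hβ hA hS hadm Metric.isOpen_ball hclc (hcl.trans hRΩ) hql hqb hqc
  obtain ⟨η, O, C, hη, hη01, hO, hLO, hη1, hC, hlog⟩ := cmp_log hp hα hβ hA hadm
    (Metric.isOpen_ball (x := x0) (ε := R)) Metric.isBounded_ball (ball_compl hn x0 hR) hL hLΩ
  have hBR : Metric.ball x0 r ⊆ Metric.ball x0 R := by
    refine Metric.ball_subset_ball ?_
    linarith
  have hBO : Metric.ball x0 r ⊆ O :=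
    ((Metric.ball_subset_ball hrlr).trans Metric.ball_subset_closedBall).trans hLO
  have hBlO : Metric.ball x0 (lam * r) ⊆ O := Metric.ball_subset_closedBall.trans hLO
  have hBΩ : Metric.ball x0 r ⊆ Ω := hBR.trans (Metric.ball_subset_closedBall.trans hRΩ)
  obtain ⟨C', hC'⟩ : ∃ C' : ℝ, C' = Cp * r * μ.real (Metric.ball x0 r) *
    ((μ.real (Metric.ball x0 (lam * r)))⁻¹ * C ^ p) ^ (1 / p) := ⟨_, rfl⟩
  have main : ∀ k : ℕ, ∃ f : Sp n → ℝ, MemLp f (ENNReal.ofReal p) μ ∧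
      (∀ y ∈ Metric.ball x0 r, f y = Real.log ((min (q y) ((k : ℝ) : EReal)).toReal + c)) ∧
      ∫ y in Metric.ball x0 r, |f y - (⨍ z in Metric.ball x0 r, f z ∂μ)| ∂μ ≤ C' := by
    intro k
    obtain ⟨hk1, hk2, hk3, hk4, hk5⟩ := hk k
    obtain ⟨Q, hQ, hQb⟩ := hlog _ (k + c) hk1 hk4 hk5
    refine ⟨_, hQ.mu, ?_, ?_⟩
    · intro y hy
      rw [hη1 y (hBO hy), one_mul]
    · rw [hC']
      exact poi_bound hp hadm hr hC hO hBlO (hQ.mono (subset_univ _)) hQb
  -- the two sets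
  have hopen : ∀ t : EReal, IsOpen {x | x ∈ Metric.ball x0 r ∧ t < q x} := fun t =>
    lsc_open Metric.isOpen_ball (hql.mono hBΩ) t
  have hS1 : {x | x ∈ Metric.ball x0 r ∧ q x = ⊤} =
      ⋂ m : ℕ, {x | x ∈ Metric.ball x0 r ∧ ((m : ℝ) : EReal) < q x} := by
    ext x
    rw [Set.mem_iInter]
    constructor
    · rintro ⟨h1, h2⟩ m
      refine ⟨h1, ?_⟩
      rw [h2]; exact EReal.coe_lt_top _
    · intro h
      refine ⟨(h 0).1, ?_⟩
      rw [EReal.eq_top_iff_forall_lt]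
      intro y
      obtain ⟨m, hm⟩ := exists_nat_gt y
      exact lt_trans (EReal.coe_lt_coe_iff.mpr hm) (h m).2
  have mS1 : MeasurableSet {x | x ∈ Metric.ball x0 r ∧ q x = ⊤} := by
    rw [hS1]
    exact MeasurableSet.iInter fun m => (hopen _).measurableSet
  have hS2 : ∀ m : ℕ, {x | x ∈ Metric.ball x0 r ∧ q x ≤ ((m : ℝ) : EReal)} =
      Metric.ball x0 r \ {x | x ∈ Metric.ball x0 r ∧ ((m : ℝ) : EReal) < q x} := by
    intro m
    ext x
    constructor
    · rintro ⟨h1, h2⟩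
      exact ⟨h1, fun h => absurd h.2 (not_lt.mpr h2)⟩
    · rintro ⟨h1, h2⟩
      refine ⟨h1, not_lt.mp fun h => h2 ⟨h1, h⟩⟩
  have mS2 : ∀ m : ℕ, MeasurableSet {x | x ∈ Metric.ball x0 r ∧ q x ≤ ((m : ℝ) : EReal)} := by
    intro m
    rw [hS2 m]
    exact measurableSet_ball.diff (hopen _).measurableSet
  refine ⟨r, hr, ?_⟩
  by_contra hcon
  rw [not_or] at hcon
  obtain ⟨hn1, hn2⟩ := hcon
  have hfin : IsFiniteMeasure (μ.restrict (Metric.ball x0 r)) := by
    constructor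
    rw [Measure.restrict_apply_univ]
    exact hadm.fin x0 r
  -- positivity of the first set
  have p1 : 0 < (μ.restrict (Metric.ball x0 r)).real {x | x ∈ Metric.ball x0 r ∧ q x = ⊤} := by
    refine ENNReal.toReal_pos (fun h0 => hn2 ?_) (measure_ne_top _ _)
    rw [Measure.restrict_apply mS1] at h0
    have h1 : {x | x ∈ Metric.ball x0 r ∧ q x = ⊤} ∩ Metric.ball x0 r =
        {x | x ∈ Metric.ball x0 r ∧ q x = ⊤} := Set.inter_eq_left.mpr fun x hx => hx.1
    rw [h1] at h0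
    have h2 := measure_eq_zero_iff_ae_notMem.mp h0
    filter_upwards [h2] with x hx hxB hq
    exact hx ⟨hxB, hq⟩
  have p2 : ∃ m : ℕ, 0 < (μ.restrict (Metric.ball x0 r)).real
      {x | x ∈ Metric.ball x0 r ∧ q x ≤ ((m : ℝ) : EReal)} := by
    by_contra hall
    push Not at hall
    apply hn1
    have h3 : ∀ m : ℕ, ∀ᵐ x ∂μ, x ∉ {x | x ∈ Metric.ball x0 r ∧ q x ≤ ((m : ℝ) : EReal)} := by
      intro m
      have h4 : (μ.restrict (Metric.ball x0 r)).real
        {x | x ∈ Metric.ball x0 r ∧ q x ≤ ((m : ℝ) : EReal)} = 0 :=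
        le_antisymm (hall m) measureReal_nonneg
      have h5 : (μ.restrict (Metric.ball x0 r))
        {x | x ∈ Metric.ball x0 r ∧ q x ≤ ((m : ℝ) : EReal)} = 0 := by
        rcases (ENNReal.toReal_eq_zero_iff _).mp h4 with h | h
        · exact h
        · exact absurd h (measure_ne_top _ _)
      rw [Measure.restrict_apply (mS2 m)] at h5
      have h1 : {x | x ∈ Metric.ball x0 r ∧ q x ≤ ((m : ℝ) : EReal)} ∩ Metric.ball x0 r =
          {x | x ∈ Metric.ball x0 r ∧ q x ≤ ((m : ℝ) : EReal)} :=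
        Set.inter_eq_left.mpr fun x hx => hx.1
      rw [h1] at h5
      exact measure_eq_zero_iff_ae_notMem.mp h5
    filter_upwards [ae_all_iff.mpr h3] with x hx hxB
    rw [EReal.eq_top_iff_forall_lt]
    intro y
    obtain ⟨m, hm⟩ := exists_nat_gt y
    refine lt_of_lt_of_le (EReal.coe_lt_coe_iff.mpr hm) ?_
    exact (not_le.mp fun h => hx m ⟨hxB, h⟩).le
  obtain ⟨m, p2⟩ := p2
  have hmin := lt_min p1 p2
  obtain ⟨w, hw⟩ : ∃ w : ℝ, w = min ((μ.restrict (Metric.ball x0 r)).real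
    {x | x ∈ Metric.ball x0 r ∧ q x = ⊤}) ((μ.restrict (Metric.ball x0 r)).real
      {x | x ∈ Metric.ball x0 r ∧ q x ≤ ((m : ℝ) : EReal)}) := ⟨_, rfl⟩
  rw [← hw] at hmin
  have hbound : ∀ k : ℕ, w * (Real.log (k + c) - Real.log (m + c)) ≤ C' := by
    intro k
    obtain ⟨hk1, hk2, hk3, hk4, hk5⟩ := hk k
    obtain ⟨f, hf, hfe, hfi⟩ := main k
    have hint : Integrable f (μ.restrict (Metric.ball x0 r)) := by
      refine (hf.restrict (Metric.ball x0 r)).integrable ?_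
      rw [← ENNReal.ofReal_one]
      exact ENNReal.ofReal_le_ofReal hp.le
    have hlow := int_lower f hint {x | x ∈ Metric.ball x0 r ∧ q x = ⊤}
      {x | x ∈ Metric.ball x0 r ∧ q x ≤ ((m : ℝ) : EReal)} mS1 (mS2 m) ?_
      (Real.log (k + c)) (Real.log (m + c)) (⨍ z in Metric.ball x0 r, f z ∂μ) ?_ ?_
    · rw [hw]
      exact hlow.trans hfi
    · rw [Set.disjoint_left]
      rintro x ⟨_, h1⟩ ⟨_, h2⟩
      rw [h1] at h2
      exact absurd h2 (not_le.mpr (EReal.coe_lt_top _))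
    · rintro x ⟨hxB, hxq⟩
      rw [hfe x hxB, hk2 x (hBR hxB) (by rw [hxq]; exact le_top)]
    · rintro x ⟨hxB, hxq⟩
      rw [hfe x hxB]
      refine Real.log_le_log ?_ ?_
      · linarith [(hk1 x (hBR hxB)).1]
      · linarith [hk3 x (hBR hxB) m hxq]
  have htend : Tendsto (fun k : ℕ => w * (Real.log (k + c) - Real.log (m + c))) atTop atTop := by
    refine Tendsto.const_mul_atTop hmin ?_
    refine tendsto_atTop_add_const_right _ _ ?_
    refine Real.tendsto_log_atTop.comp ?_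
    exact tendsto_atTop_add_const_right _ _ tendsto_natCast_atTop_atTop
  obtain ⟨k, hkk⟩ := (htend.eventually (eventually_gt_atTop C')).exists
  linarith [hbound k]

/-- no ball around a point with finite value where `q = ⊤` almost everywhere -/
theorem no_top [IsFiniteMeasureOnCompacts μ] (hn : 1 ≤ n) (hp : 1 < p) (hα : 0 < α)
    (hβ : 0 < β) (hA : Op p α β μ A) (hS : SMono μ A) (hadm : Adm p μ Cd θ Cs lam Cp)
    {Ω : Set (Sp n)} (hΩ : IsOpen Ω) {q : Sp n → EReal} (hql : LowerSemicontinuousOn q Ω)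
    (hqb : ∀ x ∈ Ω, q x ≠ ⊥) (hqc : CmpSuperE A p μ Ω q) (y : Sp n) (hy : y ∈ Ω) (hqy : q y ≠ ⊤)
    (r1 : ℝ) (hr1 : 0 < r1) (hae : ∀ᵐ z ∂μ, z ∈ Metric.ball y r1 → q z = ⊤) : False := by
  obtain ⟨R, hR, hRΩ⟩ := exists_sub_ball hΩ hy
  have hcl : closure (Metric.ball y R) ⊆ Metric.closedBall y R := Metric.closure_ball_subset_closedBall
  have hclc : IsCompact (closure (Metric.ball y R)) :=
    (isCompact_closedBall y R).of_isClosed_subset isClosed_closure hcl
  obtain ⟨c, hc, hk⟩ := trunc_cmp hp hα hβ hA hS hadm Metric.isOpen_ball hclc (hcl.trans hRΩ) hql hqb hqc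
  obtain ⟨t0, ht0⟩ : ∃ t0 : ℝ, q y = (t0 : EReal) := by
    induction hh : q y using EReal.rec with
    | bot => exact absurd hh (hqb y hy)
    | coe t => exact ⟨t, rfl⟩
    | top => exact absurd hh hqy
  obtain ⟨k, hkk⟩ := exists_nat_gt (t0 + 1)
  obtain ⟨hk1, hk2, hk3, hk4, hk5⟩ := hk k
  have hm : ∀ x ∈ Metric.ball y R, |(min (q x) ((k : ℝ) : EReal)).toReal + c| ≤ k + c := by
    intro x hx
    obtain ⟨h1, h2⟩ := hk1 x hx
    rw [abs_of_nonneg (by linarith)]
    exact h2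
  obtain ⟨r0, hr0, hap⟩ := approx_upper hp hα hβ hA hadm (Metric.isOpen_ball (x := y) (ε := R))
    Metric.isBounded_ball (ball_compl hn y hR) (by positivity) hm hk4 hk5 y (Metric.mem_ball_self hR)
    1 one_pos
  obtain ⟨r, hrdef⟩ : ∃ r : ℝ, r = min r0 (min r1 R) := ⟨_, rfl⟩
  have hr : 0 < r := by rw [hrdef]; exact lt_min hr0 (lt_min hr1 hR)
  have hrr0 : r ≤ r0 := by rw [hrdef]; exact min_le_left _ _
  have hrr1 : r ≤ r1 := by rw [hrdef]; exact (min_le_right _ _).trans (min_le_left _ _)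
  have hrR : r ≤ R := by rw [hrdef]; exact (min_le_right _ _).trans (min_le_right _ _)
  have h1 := hap r hr hrr0
  have h2 : μ.real {z | z ∈ Metric.ball y r ∧ (min (q y) ((k : ℝ) : EReal)).toReal + c + 1 <
      (min (q z) ((k : ℝ) : EReal)).toReal + c} = μ.real (Metric.ball y r) := by
    refine measureReal_congr ?_
    filter_upwards [hae] with z hz
    refine propext ⟨fun h => h.1, fun h => ⟨h, ?_⟩⟩
    have hq := hz (Metric.ball_subset_ball hrr1 h)
    rw [hk2 z (Metric.ball_subset_ball hrR h) (by rw [hq]; exact le_top)]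
    have := hk3 y (Metric.mem_ball_self hR) t0 ht0.le
    linarith
  rw [h2] at h1
  have := real_ball_pos hadm y hr
  linarith

theorem polar_null [IsFiniteMeasureOnCompacts μ] (hn : 1 ≤ n) (hp : 1 < p) (hα : 0 < α)
    (hβ : 0 < β) (hA : Op p α β μ A) (hS : SMono μ A) (hadm : Adm p μ Cd θ Cs lam Cp)
    {Ω : Set (Sp n)} (hΩ : IsOpen Ω) {q : Sp n → EReal} (hql : LowerSemicontinuousOn q Ω)
    (hqb : ∀ x ∈ Ω, q x ≠ ⊥) (hqc : CmpSuperE A p μ Ω q)
    (hqt : ∀ x ∈ Ω, ∃ y ∈ connectedComponentIn Ω x, q y ≠ ⊤) :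
    μ {x | x ∈ Ω ∧ q x = ⊤} = 0 := by
  obtain ⟨U1, hU1⟩ : ∃ U1 : Set (Sp n), U1 = {x | ∃ r : ℝ, 0 < r ∧
    ∀ᵐ y ∂μ, y ∈ Metric.ball x r → q y = ⊤} := ⟨_, rfl⟩
  obtain ⟨U2, hU2⟩ : ∃ U2 : Set (Sp n), U2 = {x | ∃ r : ℝ, 0 < r ∧
    ∀ᵐ y ∂μ, y ∈ Metric.ball x r → q y ≠ ⊤} := ⟨_, rfl⟩
  have o1 : IsOpen U1 := by
    rw [hU1, Metric.isOpen_iff]
    rintro x ⟨r, hr, hx⟩
    refine ⟨r, hr, fun z hz => ⟨r - dist z x, by linarith [Metric.mem_ball.mp hz], ?_⟩⟩
    filter_upwards [hx] with y hy hyz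
    exact hy (Metric.ball_subset_ball' (by linarith) hyz)
  have o2 : IsOpen U2 := by
    rw [hU2, Metric.isOpen_iff]
    rintro x ⟨r, hr, hx⟩
    refine ⟨r, hr, fun z hz => ⟨r - dist z x, by linarith [Metric.mem_ball.mp hz], ?_⟩⟩
    filter_upwards [hx] with y hy hyz
    exact hy (Metric.ball_subset_ball' (by linarith) hyz)
  have hdis : Disjoint U1 U2 := by
    rw [Set.disjoint_left]
    intro x hx1 hx2
    rw [hU1] at hx1
    rw [hU2] at hx2
    obtain ⟨r1, hr1, h1⟩ := hx1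
    obtain ⟨r2, hr2, h2⟩ := hx2
    have hr : 0 < min r1 r2 := lt_min hr1 hr2
    have h3 : ∀ᵐ y ∂μ, y ∉ Metric.ball x (min r1 r2) := by
      filter_upwards [h1, h2] with y hy1 hy2 hy
      exact hy2 (Metric.ball_subset_ball (min_le_right _ _) hy)
        (hy1 (Metric.ball_subset_ball (min_le_left _ _) hy))
    have h4 := measure_eq_zero_iff_ae_notMem.mpr h3
    exact absurd h4 (hadm.pos x _ hr).ne'
  have hcov : Ω ⊆ U1 ∪ U2 := by
    intro x hx
    obtain ⟨r, hr, h | h⟩ := dichotomy hn hp hα hβ hA hS hadm hΩ hql hqb hqc x hx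
    · left; rw [hU1]; exact ⟨r, hr, h⟩
    · right; rw [hU2]; exact ⟨r, hr, h⟩
  have hno : ∀ x ∈ Ω, x ∉ U1 := by
    intro x hx hx1
    obtain ⟨y, hyC, hyq⟩ := hqt x hx
    have hsub : connectedComponentIn Ω x ⊆ Ω := connectedComponentIn_subset Ω x
    have hpre : IsPreconnected (connectedComponentIn Ω x) := isPreconnected_connectedComponentIn
    have hin := hpre.subset_left_of_subset_union o1 o2 hdis (hsub.trans hcov)
      ⟨x, mem_connectedComponentIn hx, hx1⟩
    have hy1 := hin hyC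
    rw [hU1] at hy1
    obtain ⟨r, hr, hae⟩ := hy1
    exact no_top hn hp hα hβ hA hS hadm hΩ hql hqb hqc y (hsub hyC) hyq r hr hae
  refine measure_null_of_locally_null _ fun x hx => ?_
  have hx2 : x ∈ U2 := (hcov hx.1).resolve_left (hno x hx.1)
  rw [hU2] at hx2
  obtain ⟨r, hr, hae⟩ := hx2
  refine ⟨Metric.ball x r ∩ {x | x ∈ Ω ∧ q x = ⊤},
    Filter.inter_mem (mem_nhdsWithin_of_mem_nhds (Metric.ball_mem_nhds x hr)) self_mem_nhdsWithin, ?_⟩
  refine measure_eq_zero_iff_ae_notMem.mpr ?_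
  filter_upwards [hae] with y hy hy2
  exact hy hy2.1 hy2.2.2

end SkelG


end

section


theorem eLpNorm_cs' {F : Type*} [NormedAddCommGroup F] [NormedSpace ℝ F] {X : Type*}
    [MeasurableSpace X] {ν : Measure X} (c : ℝ) (g : X → F) (q : ℝ≥0∞) :
    eLpNorm (fun x => c • g x) q ν = ‖c‖ₑ * eLpNorm g q ν :=
  eLpNorm_const_smul c g q ν

section SkelG
variable {n : ℕ} {p α β Cd θ Cs lam Cp : ℝ} {μ : Measure (Sp n)} {A : Sp n → Sp n → Sp n}


set_option maxHeartbeats 4000000 in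
/-- the infinity set of a function with the comparison property has capacity zero -/
theorem polar_capNull [IsFiniteMeasureOnCompacts μ] (hn : 1 ≤ n) (hp : 1 < p) (hα : 0 < α)
    (hβ : 0 < β) (hA : Op p α β μ A) (hS : SMono μ A) (hadm : Adm p μ Cd θ Cs lam Cp)
    {Ω : Set (Sp n)} (hΩ : IsOpen Ω) {q : Sp n → EReal} (hql : LowerSemicontinuousOn q Ω)
    (hqb : ∀ x ∈ Ω, q x ≠ ⊥) (hqc : CmpSuperE A p μ Ω q)
    (hqt : ∀ x ∈ Ω, ∃ y ∈ connectedComponentIn Ω x, q y ≠ ⊤) :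
    μ {x | x ∈ Ω ∧ q x = ⊤} = 0 ∧
      ∀ L : Set (Sp n), IsCompact L → L ⊆ Ω → CapNull p μ {x | x ∈ Ω ∧ q x = ⊤} L := by
  have hnull := polar_null hn hp hα hβ hA hS hadm hΩ hql hqb hqc hqt
  refine ⟨hnull, ?_⟩
  intro L hL hLΩ N hN hLN κ hκ
  obtain ⟨Ω1, hΩ1, hLΩ1, hclsub, hclc⟩ :=
    exists_open_between_and_isCompact_closure hL (hN.inter hΩ) (subset_inter hLN hLΩ)
  have hΩ1b : Bornology.IsBounded Ω1 := hclc.isBounded.subset subset_closure
  have hΩ1Ω : Ω1 ⊆ Ω := fun x hx => (hclsub (subset_closure hx)).2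
  have hΩ1N : Ω1 ⊆ N := fun x hx => (hclsub (subset_closure hx)).1
  have hne : Ω1ᶜ.Nonempty := by
    have : Nonempty (Fin n) := ⟨⟨0, hn⟩⟩
    have : Nontrivial (Sp n) := inferInstance
    have : NoncompactSpace (Sp n) := NormedSpace.noncompactSpace ℝ (Sp n)
    rw [nonempty_compl]
    intro h
    rw [h, closure_univ] at hclc
    exact noncompact_univ (Sp n) hclc
  obtain ⟨c, hc1, hck⟩ := trunc_cmp hp hα hβ hA hS hadm hΩ1 hclc
    (fun x hx => (hclsub hx).2) hql hqb hqc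
  obtain ⟨η, O, C, hη, hη01, hO, hLO, hηO, hC0, hlog⟩ :=
    cmp_log hp hα hβ hA hadm hΩ1 hΩ1b hne hL hLΩ1
  have hOΩ1 : O ⊆ Ω1 := by
    intro x hx
    apply hη.supp
    apply subset_tsupport
    rw [Function.mem_support, hηO x hx]
    exact one_ne_zero
  obtain ⟨η', hη', hη'01, W, hW, hLW, hWO, hη'W⟩ := exists_cutoff hL hO hLO
  -- truncations
  set qk : ℕ → Sp n → ℝ := fun j x => (min (q x) (((j + 1 : ℕ) : ℝ) : EReal)).toReal + c with hqk
  set ck : ℕ → ℝ := fun j => Real.log (((j + 1 : ℕ) : ℝ) + c) with hckdef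
  have hckpos : ∀ j, 0 < ck j := by
    intro j
    apply Real.log_pos
    push_cast
    have : (0 : ℝ) ≤ j := Nat.cast_nonneg j
    linarith
  have hex : ∀ j : ℕ, ∃ Q : Sp n → Sp n, H0 p μ Ω1 (fun x => η x * Real.log (qk j x)) Q ∧
        eLpNorm (O.indicator Q) (ENNReal.ofReal p) μ ≤ ENNReal.ofReal C := by
    intro j
    obtain ⟨h1, h2, h3, h4, h5⟩ := hck (j + 1)
    exact hlog (qk j) (((j + 1 : ℕ) : ℝ) + c) h1 h4 h5
  choose Q hQ hQn using hex
  set f : ℕ → Sp n → ℝ := fun j x => (ck j)⁻¹ * (η x * Real.log (qk j x)) with hf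
  have hf01 : ∀ j x, 0 ≤ f j x ∧ f j x ≤ 1 := by
    intro j x
    simp only [hf]
    by_cases hx : x ∈ Ω1
    · obtain ⟨h1, h2⟩ := (hck (j + 1)).1 x hx
      have h3 : 0 ≤ Real.log (qk j x) := Real.log_nonneg h1
      have h4 : Real.log (qk j x) ≤ ck j := Real.log_le_log (by linarith) h2
      have h5 := hη01 x
      have h6 : 0 ≤ η x * Real.log (qk j x) := mul_nonneg h5.1 h3
      have h7 : η x * Real.log (qk j x) ≤ ck j := by nlinarith
      have h8 := hckpos j
      constructor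
      · positivity
      · rw [inv_mul_le_iff₀ h8, mul_one]; exact h7
    · have : η x = 0 := by
        apply image_eq_zero_of_notMem_tsupport
        exact fun h => hx (hη.supp h)
      rw [this]; simp
  have hfH : ∀ j, H0 p μ Ω1 (f j) (fun x => (ck j)⁻¹ • Q j x) := fun j => (hQ j).const_mul _
  have hflim : ∀ᵐ x ∂μ, Tendsto (fun j => f j x) atTop (𝓝 0) := by
    have h0 : ∀ᵐ x ∂μ, x ∉ {x | x ∈ Ω ∧ q x = ⊤} := measure_eq_zero_iff_ae_notMem.mp hnull
    filter_upwards [h0] with x hx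
    by_cases hx1 : x ∈ Ω1
    · have hxΩ := hΩ1Ω hx1
      have hqt' : q x ≠ ⊤ := fun h => hx ⟨hxΩ, h⟩
      have hqb' := hqb x hxΩ
      set t : ℝ := (q x).toReal with ht
      have hqx : q x ≤ (t : EReal) := by
        rw [ht, EReal.coe_toReal hqt' hqb']
      have hcktop : Tendsto ck atTop atTop := by
        apply Real.tendsto_log_atTop.comp
        apply tendsto_atTop_add_const_right
        exact tendsto_natCast_atTop_atTop.comp (tendsto_add_atTop_nat 1)
      have hup : Tendsto (fun j => (ck j)⁻¹ * |Real.log (t + c)|) atTop (𝓝 0) := by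
        have := (tendsto_inv_atTop_zero.comp hcktop).mul_const |Real.log (t + c)|
        simpa using this
      refine tendsto_of_tendsto_of_tendsto_of_le_of_le tendsto_const_nhds hup
        (fun j => (hf01 j x).1) (fun j => ?_)
      simp only [hf]
      have h8 := hckpos j
      apply mul_le_mul_of_nonneg_left _ (by positivity)
      obtain ⟨h1, h2⟩ := (hck (j + 1)).1 x hx1
      have h3 := (hck (j + 1)).2.2.1 x hx1 t hqx
      have h4 : 0 ≤ Real.log (qk j x) := Real.log_nonneg h1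
      have h5 : Real.log (qk j x) ≤ Real.log (t + c) :=
        Real.log_le_log (by linarith) (by simp only [hqk]; linarith)
      have h6 := hη01 x
      have h7 := le_abs_self (Real.log (t + c))
      nlinarith
    · have hη0 : η x = 0 := by
        apply image_eq_zero_of_notMem_tsupport
        exact fun h => hx1 (hη.supp h)
      have : (fun j => f j x) = fun _ => 0 := by
        funext j
        simp only [hf]
        rw [hη0]; simp
      rw [this]; exact tendsto_const_nhds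
  have hp0 : ENNReal.ofReal p ≠ 0 := by
    rw [ENNReal.ofReal_ne_zero_iff]; linarith
  have hp1 : 1 ≤ ENNReal.ofReal p := by
    rw [ENNReal.one_le_ofReal]; exact hp.le
  -- norms
  have hφ0 : Tendsto (fun j => eLpNorm (fun x => η' x * f j x) (ENNReal.ofReal p) μ) atTop
      (𝓝 0) := by
    refine Lp_dct (f := fun j x => η' x * f j x) hp0 ENNReal.ofReal_ne_top (g := η')
      (hη'.memLp _) (fun j => ?_) (fun j => Eventually.of_forall (fun x => ?_)) ?_
    · exact hη'.cont.aestronglyMeasurable.mul (hfH j).mu.1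
    · rw [norm_mul, Real.norm_of_nonneg (hη'01 x).1, Real.norm_of_nonneg (hf01 j x).1]
      have h1 := (hη'01 x).1
      have h2 := (hf01 j x).2
      nlinarith
    · filter_upwards [hflim] with x hx
      have := hx.const_mul (η' x)
      rwa [mul_zero] at this
  have hΦ2 : Tendsto (fun j => eLpNorm (fun x => f j x • gradient η' x) (ENNReal.ofReal p) μ) atTop
      (𝓝 0) := by
    refine Lp_dct (f := fun j x => f j x • gradient η' x) hp0 ENNReal.ofReal_ne_top
      (g := fun x => ‖gradient η' x‖)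
      (hη'.memLp_grad _).norm (fun j => ?_) (fun j => Eventually.of_forall (fun x => ?_)) ?_
    · exact (hfH j).mu.1.smul hη'.cont_grad.aestronglyMeasurable
    · rw [norm_smul, Real.norm_of_nonneg (hf01 j x).1]
      have h1 := norm_nonneg (gradient η' x)
      have h2 := (hf01 j x).2
      nlinarith
    · filter_upwards [hflim] with x hx
      have := hx.smul_const (gradient η' x)
      rwa [zero_smul] at this
  have hcktop : Tendsto ck atTop atTop := by
    apply Real.tendsto_log_atTop.comp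
    apply tendsto_atTop_add_const_right
    exact tendsto_natCast_atTop_atTop.comp (tendsto_add_atTop_nat 1)
  have hΦ1 : Tendsto (fun j => eLpNorm (fun x => η' x • ((ck j)⁻¹ • Q j x)) (ENNReal.ofReal p) μ)
      atTop (𝓝 0) := by
    have hup : Tendsto (fun j => ENNReal.ofReal ((ck j)⁻¹) * ENNReal.ofReal C) atTop (𝓝 0) := by
      have h1 : Tendsto (fun j => ENNReal.ofReal ((ck j)⁻¹)) atTop (𝓝 (ENNReal.ofReal 0)) :=
        ENNReal.tendsto_ofReal (tendsto_inv_atTop_zero.comp hcktop)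
      rw [ENNReal.ofReal_zero] at h1
      have h2 := ENNReal.Tendsto.mul_const (b := ENNReal.ofReal C) h1 (Or.inr ENNReal.ofReal_ne_top)
      rwa [zero_mul] at h2
    refine tendsto_of_tendsto_of_tendsto_of_le_of_le tendsto_const_nhds hup
      (fun _ => zero_le) (fun j => ?_)
    have h8 := hckpos j
    have h1 : eLpNorm (fun x => η' x • ((ck j)⁻¹ • Q j x)) (ENNReal.ofReal p) μ ≤
        eLpNorm (fun x => (ck j)⁻¹ • O.indicator (Q j) x) (ENNReal.ofReal p) μ := by
      apply eLpNorm_mono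
      intro x
      by_cases hx : x ∈ O
      · rw [indicator_of_mem hx, norm_smul, Real.norm_of_nonneg (hη'01 x).1]
        have h2 := (hη'01 x).2
        have h3 := norm_nonneg ((ck j)⁻¹ • Q j x)
        nlinarith
      · have : η' x = 0 := by
          apply image_eq_zero_of_notMem_tsupport
          exact fun h => hx (hη'.supp h)
        rw [this, zero_smul, norm_zero]
        exact norm_nonneg _
    refine h1.trans ?_
    have h2 : eLpNorm (fun x => (ck j)⁻¹ • O.indicator (Q j) x) (ENNReal.ofReal p) μ =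
        ‖(ck j)⁻¹‖ₑ * eLpNorm (O.indicator (Q j)) (ENNReal.ofReal p) μ :=
      eLpNorm_cs' _ _ _
    rw [h2, Real.enorm_of_nonneg (by positivity)]
    gcongr
    exact hQn j
  have hΦ0 : Tendsto (fun j => eLpNorm (fun x => η' x • ((ck j)⁻¹ • Q j x) +
      f j x • gradient η' x) (ENNReal.ofReal p) μ) atTop (𝓝 0) := by
    refine tend_add hp1 (f := fun j x => η' x • ((ck j)⁻¹ • Q j x))
      (g := fun j x => f j x • gradient η' x) (fun j => ?_) (fun j => ?_) hΦ1 hΦ2
    · exact hη'.cont.aestronglyMeasurable.smul (hfH j).mU.1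
    · exact (hfH j).mu.1.smul hη'.cont_grad.aestronglyMeasurable
  obtain ⟨j, hj1, hj2⟩ := exists_le_of_tendsto hφ0 hΦ0
    (ε := ENNReal.ofReal κ) (by rw [ENNReal.ofReal_ne_zero_iff]; exact hκ)
  refine ⟨W ∩ {x | (((j + 1 : ℕ) : ℝ) : EReal) < q x}, fun x => η' x * f j x,
    fun x => η' x • ((ck j)⁻¹ • Q j x) + f j x • gradient η' x, ?_, ?_, ?_, ?_, ?_, ?_, hj1, hj2⟩
  · rw [isOpen_iff_mem_nhds]
    rintro x ⟨hxW, hxq⟩
    have hxΩ : x ∈ Ω := hΩ1Ω (hOΩ1 (hWO hxW))
    have h1 := hql x hxΩ _ hxq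
    rw [hΩ.nhdsWithin_eq hxΩ] at h1
    exact inter_mem (hW.mem_nhds hxW) h1
  · rintro x ⟨⟨hxΩ, hxt⟩, hxL⟩
    refine ⟨hLW hxL, ?_⟩
    show (((j + 1 : ℕ) : ℝ) : EReal) < q x
    rw [hxt]
    exact EReal.coe_lt_top _
  · intro x hx
    exact hΩ1N (hOΩ1 (hWO hx.1))
  · exact ((hfH j).mul_Cc hp hη').mono (subset_univ _)
  · apply Eventually.of_forall
    intro x
    have h1 := hη'01 x
    have h2 := hf01 j x
    exact ⟨mul_nonneg h1.1 h2.1, by nlinarith⟩
  · apply Eventually.of_forall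
    rintro x ⟨hxW, hxq⟩
    have hxO := hWO hxW
    have hxΩ1 := hOΩ1 hxO
    have h1 := (hck (j + 1)).2.1 x hxΩ1 (le_of_lt hxq)
    have h2 : qk j x = ((j + 1 : ℕ) : ℝ) + c := by
      simp only [hqk]
      rw [h1]
    simp only [hf]
    rw [hη'W x hxW, hηO x hxO, h2, one_mul, one_mul]
    exact inv_mul_cancel₀ (hckpos j).ne'

end SkelG


end

end Pool.Agent.Helper533.Polar
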