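import Pool.Agent.Helper533.Polar.Stmt
open MeasureTheory Filter Topology Set
open scoped ENNReal NNReal RealInnerProductSpace

/-!
Definitions for the statement of MP_9b58c5_an (infinity sets of `𝒜`-superharmonic functions).
The basic notions (`wm w` is the measure `w dx`, test functions, `H^{1,p}_loc`, the structure
conditions `IsOperator`, `𝒜`-harmonic functions `IsHarmonic`) are those of `Polar.Stmt`.
-/

namespace Pool.Agent.Helper533.Deny

open Pool.Agent.Helper533.Polar.Stmt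

variable {n : ℕ}

/-- `w ≥ 0` is locally integrable and `dμ = w dx` is `p`-admissible: `μ` is doubling and supports a
weighted `(1, p)`-Poincaré inequality on balls. The Poincaré inequality is only required for
`φ ∈ C₀^∞(ℝⁿ)`, and a dilated ball is allowed on its right-hand side (the case `lam = 1` is the
undilated inequality). -/
structure IsAdmissible (p : ℝ) (w : Sp n → ℝ) : Prop where
  nonneg : ∀ x, 0 ≤ w x
  locallyIntegrable : LocallyIntegrable w volume
  doubling : ∃ C : ℝ, ∀ (x : Sp n) (r : ℝ), 0 < r →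
    wm w (Metric.ball x (2 * r)) ≤ ENNReal.ofReal C * wm w (Metric.ball x r)
  poincare : ∃ lam C : ℝ, 1 ≤ lam ∧ ∀ (x : Sp n) (r : ℝ), 0 < r → ∀ φ : Sp n → ℝ,
    IsTest univ φ →
    ⨍ y in Metric.ball x r, |φ y - ⨍ z in Metric.ball x r, φ z ∂(wm w)| ∂(wm w) ≤
      C * r * (⨍ y in Metric.ball x (lam * r), ‖gradient φ y‖ ^ p ∂(wm w)) ^ (1 / p)

/-- `u : Ω → (-∞, ∞]` is `𝒜`-superharmonic in the open set `Ω` (only the values of `u` on `Ω`
matter): `u` is lower semicontinuous, not identically `∞` on any component of `Ω`, and satisfies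
the comparison principle with `𝒜`-harmonic functions on all open `D ⋐ Ω`. -/
structure IsSuperharmonic (𝒜 : Sp n → Sp n → Sp n) (p : ℝ) (w : Sp n → ℝ) (Ω : Set (Sp n))
    (u : Sp n → EReal) : Prop where
  ne_bot : ∀ x ∈ Ω, u x ≠ ⊥
  lsc : LowerSemicontinuousOn u Ω
  not_top : ∀ x ∈ Ω, ∃ y ∈ connectedComponentIn Ω x, u y ≠ ⊤
  comparison : ∀ D : Set (Sp n), IsOpen D → IsCompact (closure D) → closure D ⊆ Ω →
    ∀ h : Sp n → ℝ, ContinuousOn h (closure D) → IsHarmonic 𝒜 p w D h →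
    (∀ x ∈ frontier D, (h x : EReal) ≤ u x) → ∀ x ∈ D, (h x : EReal) ≤ u x

/-- `E` is `𝒜`-polar: some open neighbourhood `Ω` of `E` carries an `𝒜`-superharmonic function
`u` with `u = ∞` on `E`. -/
def IsPolar (𝒜 : Sp n → Sp n → Sp n) (p : ℝ) (w : Sp n → ℝ) (E : Set (Sp n)) : Prop :=
  ∃ (Ω : Set (Sp n)) (u : Sp n → EReal), IsOpen Ω ∧ E ⊆ Ω ∧ IsSuperharmonic 𝒜 p w Ω u ∧
    ∀ x ∈ E, u x = ⊤

end Pool.Agent.Helper533.Deny
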